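import Pool.Agent.H247.LC.Fld2

/-!
# Existence of the model
-/

set_option autoImplicit false

open scoped Manifold ContDiff Topology
open Set

namespace Pool.Agent.H247.LC

open Pool.Agent.H718R2 (E)
open Pool.Agent.H247.LC.Tau (cut_one cut_zero cut_nonneg cut_contDiff v0_contDiff bb_contDiff)
open Pool.Agent.H247.LC.Dat (ct cw ck)

/-- reassociation -/
noncomputable def asc (k : ℕ) : Tot k ≃L[ℝ] (E × EuclideanSpace ℝ (Fin k)) × (ℝ × ℝ) :=
  (ContinuousLinearEquiv.prodAssoc ℝ E (EuclideanSpace ℝ (Fin k)) (ℝ × ℝ)).symm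

theorem asc_apply {k : ℕ} (u : Tot k) : asc k u = ((u.1, u.2.1), u.2.2) := rfl

theorem asc_symm_apply {k : ℕ} (v : (E × EuclideanSpace ℝ (Fin k)) × (ℝ × ℝ)) :
    (asc k).symm v = (v.1.1, (v.1.2, v.2)) := rfl

/-- amplitude of the twists -/
noncomputable def amp {k : ℕ} (v : E × EuclideanSpace ℝ (Fin k)) : ℝ :=
  cE v.1 * cut (4 * ‖v.2‖ ^ 2)

theorem amp_smooth {k : ℕ} : ContDiff ℝ ∞ (amp : E × EuclideanSpace ℝ (Fin k) → ℝ) := by
  unfold amp
  exact (cE_smooth.comp contDiff_fst).mul (cut_contDiff.comp (contDiff_const.mul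
    ((contDiff_norm_sq ℝ).comp contDiff_snd)))

theorem main_fld (k : ℕ) (f : E ≃ₜ E) (hf : ContDiff ℝ ∞ f) (hf' : ContDiff ℝ ∞ f.symm)
    (hcore : ∀ z : E, |z.1| ≤ 5 → |z.2.1| ≤ 1 / 4 → f z = (z.1, z.2.1 + 1, z.2.2))
    (lam : E → ℝ) (hlam : ContDiff ℝ ∞ lam) :
    ∃ (m : Mod k f lam) (Fh : Tot k ≃ₜ Tot k), ContDiff ℝ ∞ Fh ∧ ContDiff ℝ ∞ Fh.symm ∧
      (∃ R : ℝ, ∀ u, R ≤ ‖u‖ → Fh u = u) ∧ (∀ u, Fh (iota k u) = iota k (m.F u)) ∧
      Function.Surjective m.F := by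
  obtain ⟨h, hs, hs', h0, h1⟩ := Iso.main f hf hf' hcore
  obtain ⟨ΨK, a1, a2, a3, a4, a5, a6⟩ := Ex.main (EuclideanSpace ℝ (Fin k))
  obtain ⟨Ψ, b1, b2, b3, b4, b5, b6⟩ := Ex.main ℝ
  let D : Dat k f lam := ⟨h, hs, hs', h0, h1, ΨK, a1, a2, a3, a4, a5, a6, Ψ, b1, b2, b3,
    fun s w hw => b4 s w hw, fun s w hw hw' => b5 s w hw hw', fun s w hs => b6 s w hs, hlam⟩
  obtain ⟨γ, Th, hT1, hT2, hT3, hT4, hLs, hγ1, hγ2, hγ3, hγ4⟩ := exists_T D
  obtain ⟨C, c1, c2, c3, c4, c5, c6, c7⟩ := Tw.main (E × EuclideanSpace ℝ (Fin k)) amp amp_smooth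
  -- the twist on the total space
  let Ch : Tot k ≃ₜ Tot k :=
    ((asc k).toHomeomorph.trans C).trans (asc k).symm.toHomeomorph
  have hCh : ∀ u, Ch u = (asc k).symm (C (asc k u)) := fun u => rfl
  have hChs : ∀ u, Ch.symm u = (asc k).symm (C.symm (asc k u)) := fun u => rfl
  have hCh1 : ContDiff ℝ ∞ Ch :=
    (asc k).symm.contDiff.comp (c1.comp (asc k).contDiff)
  have hCh2 : ContDiff ℝ ∞ Ch.symm :=
    (asc k).symm.contDiff.comp (c2.comp (asc k).contDiff)
  have hf1 : ∀ u, (Ch u).1 = u.1 := by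
    intro u
    rw [hCh, asc_symm_apply, c3]
    rfl
  have hf2 : ∀ u, (Ch u).2.1 = u.2.1 := by
    intro u
    rw [hCh, asc_symm_apply, c3]
    rfl
  have hf3 : ∀ u, (Ch u).2.2 = (C (asc k u)).2 := fun u => rfl
  have hsupp : ∀ u : Tot k, Ch u = u ∨
    (u.2.2.1 ^ 2 + (u.2.2.2 - 8) ^ 2 < 1 / 4 ∧
      (Ch u).2.2.1 ^ 2 + ((Ch u).2.2.2 - 8) ^ 2 < 1 / 4) ∨
    (118 < (u.2.2.1 + 8) ^ 2 + (u.2.2.2 - 8) ^ 2 ∧
      (u.2.2.1 + 8) ^ 2 + (u.2.2.2 - 8) ^ 2 < 138 ∧
      118 < ((Ch u).2.2.1 + 8) ^ 2 + ((Ch u).2.2.2 - 8) ^ 2 ∧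
      ((Ch u).2.2.1 + 8) ^ 2 + ((Ch u).2.2.2 - 8) ^ 2 < 138) := by
    intro u
    rcases c5 (asc k u) with h | h | h
    · left
      rw [hCh, h]
      rfl
    · right; left
      exact h
    · right; right
      exact h
  have hdisc : ∀ u : Tot k, cE u.1 = 1 → ‖u.2.1‖ ≤ 1 / 2 →
      u.2.2.1 ^ 2 + (u.2.2.2 - 8) ^ 2 ≤ 1 / 8 → (Ch u).2.2 = (8 - u.2.2.2, 8 + u.2.2.1) := by
    intro u hu1 hu2 hu3
    refine c6 (asc k u) ?_ hu3
    show cE u.1 * cut (4 * ‖u.2.1‖ ^ 2) = 1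
    rw [hu1, cut_one (by nlinarith [norm_nonneg u.2.1]), one_mul]
  have hann : ∀ u : Tot k, cE u.1 = 1 → ‖u.2.1‖ ≤ 1 / 2 →
      |(u.2.2.1 + 8) ^ 2 + (u.2.2.2 - 8) ^ 2 - 128| ≤ 5 →
      (Ch u).2.2 = (u.2.2.2 - 16, - u.2.2.1) := by
    intro u hu1 hu2 hu3
    refine c7 (asc k u) ?_ hu3
    show cE u.1 * cut (4 * ‖u.2.1‖ ^ 2) = 1
    rw [hu1, cut_one (by nlinarith [norm_nonneg u.2.1]), one_mul]
  have hio1 : ∀ u : Tot k, (iota k u).2 = u.2 := fun u => rfl
  have hio2 : ∀ u : Tot k, cE (iota k u).1 = 1 := fun u => iotaE_bd _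
  have hio3 : Function.Injective (iota k) := by
    have := (iota k).injOn
    rw [Man.iota_source] at this
    exact injOn_univ.1 this
  -- the uncompressed twist
  let Ct : Tot k → Tot k := fun u => (u.1, (Ch (iota k u)).2)
  have hCt : ∀ u, iota k (Ct u) = Ch (iota k u) := by
    intro u
    refine Prod.ext ?_ rfl
    rw [hf1]
    rfl
  have hCti : Function.Injective Ct := by
    intro u v huv
    have := congrArg (iota k) huv
    rw [hCt, hCt] at this
    exact hio3 (Ch.injective this)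
  have hΘi : Function.Injective D.Θ := by
    have := D.Θ.injOn
    rw [D.Θ_source] at this
    exact injOn_univ.1 this
  have hLi : Function.Injective (fun u : Tot k => ((u.1, (u.2.1, (u.2.2.1, γ u 1))) : Tot k)) := by
    intro u v huv
    have h3 : D.Θ (setT u (γ u 1)) = D.Θ (setT v (γ v 1)) := congrArg D.Θ huv
    rw [← hT4, ← hT4] at h3
    exact hΘi (Th.injective h3)
  let m : Mod k f lam :=
    { h := h
      h0 := h0
      h1 := h1
      ΨK := ΨK
      K0 := a2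
      Kadd := a3
      Kout := a4
      Kin := a5
      Kmon := a6
      Ψ := Ψ
      P0 := b2
      Padd := b3
      Pout := fun s w hw => b4 s w hw
      Pin := fun s w hw hw' => b5 s w hw hw'
      Pmon := fun s w hs => b6 s w hs
      τ := fun u => γ u 1
      τ_ge := hγ1
      τ_out := fun u hu => hγ2 u hu 1
      τ_inj := hLi
      τ_fast := hγ3
      τ_exact := hγ4
      C := Ct
      C_inj := hCti
      C_fst := fun u => rfl
      C_snd := fun u => hf2 (iota k u)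
      C_supp := by
        intro u
        rcases hsupp (iota k u) with h | h | h
        · left
          apply hio3
          rw [hCt, h]
        · right; left
          exact h
        · right; right
          exact h
      C_disc := fun u hu1 hu2 => hdisc (iota k u) (hio2 u) hu1 hu2
      C_ann := fun u hu1 hu2 => hann (iota k u) (hio2 u) hu1 hu2 }
  refine ⟨m, Th.trans Ch, hCh1.comp hT1, hT2.comp hCh2, ⟨24, ?_⟩, ?_, ?_⟩
  · intro u hu
    show Ch (Th u) = u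
    rw [hT3 u hu]
    by_cases h2 : ‖u.1‖ < 24 ∧ ‖u.2.1‖ < 24
    · rcases hsupp u with h | ⟨h, -⟩ | ⟨h, h', -⟩
      · exact h
      · exfalso
        have h3 : ‖u‖ < 24 := by
          rw [Prod.norm_def, Prod.norm_def, Prod.norm_def]
          refine max_lt h2.1 (max_lt h2.2 (max_lt ?_ ?_))
          · rw [Real.norm_eq_abs, abs_lt]; constructor <;> nlinarith
          · rw [Real.norm_eq_abs, abs_lt]; constructor <;> nlinarith
        linarith
      · exfalso
        have h3 : ‖u‖ < 24 := by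
          rw [Prod.norm_def, Prod.norm_def, Prod.norm_def]
          refine max_lt h2.1 (max_lt h2.2 (max_lt ?_ ?_))
          · rw [Real.norm_eq_abs, abs_lt]; constructor <;> nlinarith
          · rw [Real.norm_eq_abs, abs_lt]; constructor <;> nlinarith
        linarith
    · have h3 : amp ((asc k u).1) = 0 := by
        show cE u.1 * cut (4 * ‖u.2.1‖ ^ 2) = 0
        by_contra hne
        apply h2
        have h4 := cE_ne (left_ne_zero_of_mul hne)
        have h5 := cut_ne (right_ne_zero_of_mul hne)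
        exact ⟨by linarith, by nlinarith [norm_nonneg u.2.1]⟩
      rw [hCh, c4 _ h3]
      rfl
  · intro v
    show Ch (Th (iota k v)) = iota k (m.F v)
    have e1 : m.F v = Ct (D.Phi (setT (D.Phii v) (γ (D.Phii v) 1))) := rfl
    rw [e1, hCt]
    congr 1
    have e2 : iota k (D.Phi (setT (D.Phii v) (γ (D.Phii v) 1))) =
      D.Θ (setT (D.Phii v) (γ (D.Phii v) 1)) := rfl
    rw [e2, ← hT4, D.Θ_apply, D.Phi_Phii]
  · intro v
    -- preimage under the twist
    have hCs : ∃ u, Ct u = v := by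
      refine ⟨(v.1, (Ch.symm (iota k v)).2), ?_⟩
      apply hio3
      rw [hCt]
      have e3 : iota k (v.1, (Ch.symm (iota k v)).2) = Ch.symm (iota k v) := by
        refine Prod.ext ?_ rfl
        have e4 := hf1 (Ch.symm (iota k v))
        rw [Ch.apply_symm_apply] at e4
        exact e4
      rw [e3, Ch.apply_symm_apply]
    obtain ⟨u, hu⟩ := hCs
    obtain ⟨y, hy⟩ := hLs (D.Phii u)
    refine ⟨D.Phi y, ?_⟩
    have e1 : m.F (D.Phi y) = Ct (D.Phi (setT (D.Phii (D.Phi y)) (γ (D.Phii (D.Phi y)) 1))) := rfl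
    rw [e1, D.Phii_Phi, hy, D.Phi_Phii, hu]

end Pool.Agent.H247.LC
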