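import Pool.Agent.H247.LC.Iface2
import Pool.Graph.R_seed8.Y640.CLA.GT

/-!
# Interfaces, third part: class `C^{1+α}`
-/

set_option autoImplicit false

open scoped Manifold ContDiff Topology
open Set

namespace Pool.Agent.H247.LC

open Pool.Agent.H718R2 (E)
open Pool.Agent.H718R2.G (V DiffM StrongData strongNbhd strongTop IsRec IsPer)
open Pool.Agent.Y640.CLA (SmA pw)

/-- No map `C^{1+α}`-close to `f` has a finite invariant set. -/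
def NoPerA (α : ℝ) (f : E → E) : Prop := ∃ ε : E → ℝ, Continuous ε ∧ (∀ p, 0 < ε p) ∧
  ∀ w : E → E, SmA α ε w → ∀ O : Set E, O.Finite → O.Nonempty → ¬ ∀ p ∈ O, f p + w p ∈ O

/-- Stabilisation in class `C^{1+α}`, for perturbations supported in the unit ball. -/
def S_STABA (α : ℝ) : Prop := ∀ (W : Type) [NormedAddCommGroup W] [NormedSpace ℝ W]
    [FiniteDimensional ℝ W] (f : E ≃ₜ E), ContDiff ℝ ∞ f → ContDiff ℝ ∞ f.symm → NoPerA α f →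
    ∃ (b : E → ℝ) (δ : ℝ), ContDiff ℝ ∞ b ∧ (∀ p, 0 < b p) ∧ (∀ p, b p ≤ 1 / 4) ∧ 0 < δ ∧
      ∀ e : E × W → E × W, SmA α (fun _ => δ) e → (∀ z, 1 ≤ ‖z‖ → e z = 0) →
        ∀ k : ℕ, 1 ≤ k → ∀ z,
          (fun z : E × W => (f (z + e z).1, (b (z + e z).1)⁻¹ • (z + e z).2))^[k] z ≠ z

/-- Compositions of near-identity maps are near the identity, class `C^{1+α}`. -/
def S_COMPA (α : ℝ) : Prop := ∀ (X : Type) [NormedAddCommGroup X] [NormedSpace ℝ X] (x : X)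
    (ρ ε : ℝ) (l : ℕ), 0 < ρ → 0 < ε → ∃ δ : ℝ, 0 < δ ∧ ∀ e : ℕ → X → X,
      (∀ j < l, SmA α (fun _ => δ) (e j)) → (∀ j < l, ∀ u, ρ ≤ ‖u - x‖ → e j u = 0) →
      SmA α (fun _ => ε) (fun u => cmp e l u - u) ∧ ∀ u, ρ ≤ ‖u - x‖ → cmp e l u = u

section

variable {n : ℕ} {M : Type} [TopologicalSpace M] [ChartedSpace (V n) M]

/-- `G` in the charts of the `i`-th piece of `D` -/
def inChart (D : StrongData n M) (i : D.ι) (G : M → M) : V n → V n := D.ψ i ∘ G ∘ (D.φ i).symm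

/-- the difference of the derivatives of `G` and `f` at the point `y`, in the charts of the `i`-th
piece of `D` -/
noncomputable def dDiff (D : StrongData n M) (i : D.ι) (f G : M → M) (y : M) : V n →L[ℝ] V n :=
  fderiv ℝ (inChart D i G) (D.φ i y) - fderiv ℝ (inChart D i f) (D.φ i y)

/-- `G` is `C^{1+α}`-close to `f` on the compact sets `D.K i`: values and derivatives differ by less
than `D.ε i`, and the difference of the derivatives is `α`-Hölder with constant `D.ε i` on `D.K i` (in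
the charts of `D`) -/
def NearA (α : ℝ) (D : StrongData n M) (f G : M → M) : Prop :=
  ∀ i, (∀ x ∈ D.K i, G x ∈ (D.ψ i).source ∧
      ‖inChart D i G (D.φ i x) - inChart D i f (D.φ i x)‖ < D.ε i ∧ ‖dDiff D i f G x‖ < D.ε i) ∧
    ∀ x ∈ D.K i, ∀ y ∈ D.K i,
      ‖dDiff D i f G x - dDiff D i f G y‖ ≤ D.ε i * ‖D.φ i x - D.φ i y‖ ^ α

end

/-- Transplantation, with perturbations near finite orbit segments, class `C^{1+α}`. -/
def S_MAN2A (α : ℝ) : Prop := ∀ (k : ℕ) (Fh : Tot k ≃ₜ Tot k) (Ft : Tot k → Tot k) (ρ δ : ℝ),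
  ContDiff ℝ ∞ Fh → ContDiff ℝ ∞ Fh.symm → (∃ R : ℝ, ∀ u, R ≤ ‖u‖ → Fh u = u) →
  (∀ u, Fh (iota k u) = iota k (Ft u)) → Function.Bijective Ft → 0 < ρ → 0 < δ →
  (∀ ε : ℝ, 0 < ε → ∃ n : ℕ, 1 ≤ n ∧ ‖Ft^[n] (x₀ k) - x₀ k‖ < ε) →
  (∀ e : Tot k → Tot k, SmA α (fun _ => δ) e → (∀ u, ρ ≤ ‖u - x₀ k‖ → e u = 0) →
    ∀ u, ‖u - x₀ k‖ < ρ → ∀ n : ℕ, 1 ≤ n → (fun v => Ft (v + e v))^[n] u ≠ u) →
  ∀ (M : Type) [TopologicalSpace M] [T2Space M] [ChartedSpace (V (5 + k)) M]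
    [IsManifold (𝓡 (5 + k)) ∞ M] (p : M) (B : Set M), B ∈ 𝓝 p →
  ∃ (F : DiffM (5 + k) M ⊤) (x : M), x ∈ B ∧ (∀ y ∉ B, F y = y) ∧ IsRec F.toHomeomorph x ∧
    ∀ l : ℕ, ∃ (W : Set M) (D : StrongData (5 + k) M), IsOpen W ∧ W ⊆ B ∧
      (∀ j : ℤ, |j| ≤ l → (F.toHomeomorph ^ j) x ∈ W) ∧ NearA α D F F ∧
      (∀ G : DiffM (5 + k) M 1, NearA α D F G → (∀ y ∉ W, G y = F y) → ∀ y ∈ W, ¬ IsPer G y) ∧
      ∀ (r : ℕ∞) (Fr : DiffM (5 + k) M r), 2 ≤ r → (∀ y, Fr y = F y) →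
        IsOpen[strongTop (5 + k) M r] (strongNbhd D 2 Fr) ∧ Fr ∈ strongNbhd D 2 Fr ∧
          ∀ G ∈ strongNbhd D 2 Fr, (∀ y ∉ W, G y = F y) → ∀ y ∈ W, ¬ IsPer G y

end Pool.Agent.H247.LC
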