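import Pool.Agent.H247.LC.Rec
import Pool.Agent.H247.LC.Fld3
import Pool.Agent.H247.LC.Iface3
import Pool.Graph.R_seed8.Y640.CLA.ProdA

/-!
# Assembly in class `C^{1+α}`: the model on the total space
-/

set_option autoImplicit false

open scoped Manifold ContDiff Topology
open Set

namespace Pool.Agent.H247.LC

open Pool.Agent.H718R2 (E Wind Sys)
open Pool.Agent.Y640.CLA (SmA pw PertA)

namespace Mod

variable {k : ℕ} {f : E → E} {lam : E → ℝ} (m : Mod k f lam)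

theorem F_inj : Function.Injective m.F := by
  intro u v h
  have h1 := m.C_inj h
  have h2 := congrArg m.Φi h1
  rw [m.Φi_Φ, m.Φi_Φ] at h2
  have h3 : m.Φi u = m.Φi v := m.τ_inj h2
  have h4 := congrArg m.Φ h3
  rwa [m.Φ_Φi, m.Φ_Φi] at h4

end Mod

/-- the system for small `θ` in class `C^{1+α}` -/
theorem exists_sysα {α : ℝ} (hα : 0 < α) : ∃ κ θ : ℝ, 0 < κ ∧ κ ≤ 1 / 10 ^ 12 ∧ θ = κ ^ 24 ∧
    pw α θ ≤ 1 / 10 ∧ ∃ om : E → ℝ, Wind κ θ om ∧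
    ∃ f : E ≃ₜ E, ContDiff ℝ ∞ f ∧ ContDiff ℝ ∞ f.symm ∧ Sys θ om f := by
  obtain ⟨κ, θ, hκ, hκ', hκ₀, hθ, om, hW, A, f, hf, hf', hfe, hS⟩ :=
    Pool.Agent.Y640.CLA.exists_sysA (κ₀ := (1 / 10 : ℝ) ^ (1 / α)) (by positivity)
  obtain ⟨hp, hle⟩ := Pool.Agent.H718R2.θ_small hκ hκ' hθ
  have hpw : pw α θ ≤ 1 / 10 := by
    have h1 : θ ≤ (1 / 10 : ℝ) ^ (1 / α) := by
      refine le_trans ?_ hκ₀
      rw [hθ]
      calc κ ^ 24 ≤ κ ^ 1 := pow_le_pow_of_le_one hκ.le (hκ'.trans (by norm_num)) (by norm_num)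
        _ = κ := pow_one κ
    refine (Pool.Agent.Y640.CLA.pw_mono hα hp.le h1).trans (le_of_eq ?_)
    unfold pw
    rw [← Real.rpow_mul (by norm_num), one_div_mul_cancel hα.ne', Real.rpow_one]
  exact ⟨κ, θ, hκ, hκ', hθ, hpw, om, hW, f, hf, hf', hS⟩

/-- `f` has no finite invariant sets after small perturbations -/
theorem noPerA {α κ θ : ℝ} (hα : 0 < α) (hα1 : α ≤ 1) (hκ : 0 < κ) (hκ' : κ ≤ 1 / 10 ^ 12)
    (hθ : θ = κ ^ 24) (hpw : pw α θ ≤ 1 / 10)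
    {om : E → ℝ} (hom : Wind κ θ om) {f : E → E} (hf : ContDiff ℝ 2 f) (hS : Sys θ om f) :
    NoPerA α f := by
  obtain ⟨hp, hle⟩ := Pool.Agent.H718R2.θ_small hκ hκ' hθ
  have hle1 : θ ≤ 1 := by
    norm_num at hle
    linarith
  refine ⟨fun p => Pool.Agent.H718R2.E2.epsf θ p / 2,
    (Pool.Agent.H718R2.E2.epsf_cont hp).div_const _,
    fun p => half_pos (Pool.Agent.H718R2.E2.epsf_pos hp p), ?_⟩
  intro w hw O hfin hne hinv
  have c : Pool.Agent.Y640.CLA.Ctx α κ θ om f w :=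
    ⟨⟨hα, hα1⟩, hpw, hκ, hκ', hθ, hom, hf, hS, Pool.Agent.Y640.CLA.pertA_of_SmA hα hp hle1 hw⟩
  obtain ⟨pm, hpm, hmax⟩ := hfin.exists_maximalFor (fun p : E => p.2.2) O hne
  obtain ⟨ps, hps, hsmax⟩ := hfin.exists_maximalFor (fun p : E => p.2.1) O hne
  refine Pool.Agent.Y640.CLA.no_inv c (fun p hp => hinv p hp) hpm ?_ ⟨ps.2.1, ?_⟩
  · intro p hp
    by_contra hlt
    exact hlt (hmax hp (not_le.1 hlt).le)
  · intro p hp
    by_contra hlt
    exact hlt (hsmax hp (not_le.1 hlt).le)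

/-- near the identity maps are injective -/
theorem inj_addA {X : Type*} [NormedAddCommGroup X] [NormedSpace ℝ X] {α δ : ℝ} {e : X → X}
    (he : SmA α (fun _ => δ) e) (hδ : δ ≤ 1 / 2) :
    Function.Injective (fun u => u + e u) := by
  intro u v h
  have h2 := he.lip (fun _ => hδ) u v
  have h3 : u - v = -(e u - e v) := by
    have h4 : u + e u = v + e v := h
    have h5 : u - v = (u + e u) - (v + e v) - (e u - e v) := by abel
    rw [h5, h4, sub_self, zero_sub]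
  have h4 : ‖u - v‖ = ‖e u - e v‖ := by
    rw [h3, norm_neg]
  rw [← h4] at h2
  have h5 := norm_nonneg (u - v)
  have h6 : ‖u - v‖ = 0 := by linarith
  exact sub_eq_zero.1 (norm_eq_zero.1 h6)

/-- **The model on the total space, class `C^{1+α}`.** -/
theorem modelA {α : ℝ} (hα : 0 < α) (hα1 : α ≤ 1) (hstA : S_STABA α) (k : ℕ) :
    ∃ (Fh : Tot k ≃ₜ Tot k) (Ft : Tot k → Tot k) (δ : ℝ),
    ContDiff ℝ ∞ Fh ∧ ContDiff ℝ ∞ Fh.symm ∧ (∃ R : ℝ, ∀ u, R ≤ ‖u‖ → Fh u = u) ∧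
    (∀ u, Fh (iota k u) = iota k (Ft u)) ∧ Function.Bijective Ft ∧ 0 < δ ∧
    (∀ ε : ℝ, 0 < ε → ∃ n : ℕ, 1 ≤ n ∧ ‖Ft^[n] (x₀ k) - x₀ k‖ < ε) ∧
    (∀ e : Tot k → Tot k, SmA α (fun _ => δ) e → (∀ u, 1 / 200 ≤ ‖u - x₀ k‖ → e u = 0) →
      ∀ u, ‖u - x₀ k‖ < 1 / 200 → ∀ n : ℕ, 1 ≤ n → (fun v => Ft (v + e v))^[n] u ≠ u) := by
  obtain ⟨κ, θ, hκ, hκ', hθ, hpw, om, hom, f, hf, hf', hS⟩ := exists_sysα hα
  obtain ⟨hθ0, hθ1⟩ := Pool.Agent.H718R2.θ_small hκ hκ' hθ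
  have hf2 : ContDiff ℝ 2 (f : E → E) := hf.of_le Pool.Agent.H718R2.G.K1aux.two_le
  have hcore : ∀ z : E, |z.1| ≤ 5 → |z.2.1| ≤ 1 / 4 → f z = (z.1, z.2.1 + 1, z.2.2) := by
    intro z h1 h2
    have h3 := hS.core z h1 h2
    have h4 : Pool.Agent.H718R2.D 0 z = z := by
      unfold Pool.Agent.H718R2.D
      ext <;> simp
    rw [h4] at h3
    rw [h3]
    unfold Pool.Agent.H718R2.U Pool.Agent.H718R2.uy
    ext <;> simp
  obtain ⟨b, δ, hb, hb0, hb1, hδ, hst⟩ :=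
    hstA (Con k) f hf hf' (noPerA hα hα1 hκ hκ' hθ hpw hom hf2 hS)
  have hlam : ContDiff ℝ ∞ (fun p => -Real.log (b p)) := (hb.log (fun p => (hb0 p).ne')).neg
  obtain ⟨m, Fh, h1, h2, h3, h4, h5⟩ := main_fld k f hf hf' hcore _ hlam
  refine ⟨Fh, m.F, min (min δ (θ ^ 24)) (1 / 100), h1, h2, h3, h4, ⟨m.F_inj, h5⟩,
    lt_min (lt_min hδ (by positivity)) (by norm_num),
    fun ε hε => rec_base hκ hκ' hθ hom hf2 hS m ε hε, ?_⟩
  intro e he he0 u hu n hn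
  refine no_per hκ hκ' hθ hom hf2 f.injective hS hb0 hb1 m e he0
    (fun u => (he.b0 u).trans ((min_le_left _ _).trans (min_le_right _ _)))
    (m.F_inj.comp (inj_addA he ((min_le_right _ _).trans (by norm_num)))) ?_ u hu n hn
  have he' : SmA α (fun _ => δ) (fun z => e (x₀ k + z)) := by
    have h6 := he.mono (δ' := fun _ => δ) (fun _ => (min_le_left _ _).trans (min_le_left _ _))
    have hd : ∀ z, fderiv ℝ (fun z => e (x₀ k + z)) z = fderiv ℝ e (x₀ k + z) := fun z =>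
      fderiv_comp_add_left (x₀ k)
    refine ⟨h6.diff.comp (differentiable_const _ |>.add differentiable_id), fun z => h6.b0 _,
      fun z => ?_, fun z z' hz => ?_⟩
    · rw [hd]
      exact h6.b1 _
    · rw [hd, hd]
      have h7 : (x₀ k + z) - (x₀ k + z') = z - z' := by abel
      have h8 := h6.b2 (x₀ k + z) (x₀ k + z') (by rw [h7]; exact hz)
      rwa [h7] at h8
  intro n hn z
  exact hst _ he' (fun z hz => he0 _ (by rw [add_sub_cancel_left]; linarith)) n hn z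

end Pool.Agent.H247.LC
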