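import Pool.Graph.R_seed8.H718R2.K3
import Pool.Graph.R_seed8.H718R2.E1

/-!
# Periodic pseudo-orbits of `f` with errors near the origin only
-/

set_option autoImplicit false

namespace Pool.Agent.H247.LC

open Pool.Agent.H718R2

theorem fwd_bd {κ θ : ℝ} (hκ : 0 < κ) (hκ' : κ ≤ 1 / 10 ^ 12) (hθ : θ = κ ^ 24) {ω : E → ℝ}
    (hω : Wind κ θ ω) {f : E → E} (hf : ContDiff ℝ 2 f) (hS : Sys θ ω f) (Q : ℕ → E)
    (herr : ∀ i m : ℕ, (m : ℝ) - 1 ≤ |(Q i).2.1| → ‖Q (i + 1) - f (Q i)‖ ≤ θ ^ (12 * (m + 1)))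
    (hmax : ∀ i, (Q i).2.2 ≤ (Q 0).2.2) (h0 : -(1 / 4) ≤ (Q 0).2.2)
    (hB : ∃ B : ℝ, ∀ i, (Q i).2.1 ≤ B) :
    ∀ i, -(1 / 10) ≤ (Q i).2.2 ∧ (Q i).2.2 ≤ 1 / 10 := by
  have hp : Pert θ (fun _ => (0 : E)) := pert_zero (θ_small hκ hκ' hθ).1
  have h : PO κ θ ω f Q := ⟨⟨hκ, hκ', hθ, hω, hf, hS, hp⟩, herr⟩
  obtain ⟨j, hd, hj⟩ := h.first_down (P := fun _ => True) trivial (fun _ _ _ => trivial)
    (fun i _ => hmax i) h0 (by obtain ⟨B, hB⟩ := hB; exact ⟨B, fun i _ => hB i⟩)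
  have hjj := hj j le_rfl
  have hgood := h.landing_good (P := fun _ => True) (fun _ _ _ => trivial) (fun i _ => hmax i)
    hjj.1 hd (by linarith [hjj.2]) (by linarith [hjj.2])
  have hdrop : (Q j).2.2 - 1 / 10 ^ 20 ≤ (Q (j + 1)).2.2 := by
    obtain ⟨m, l, hl, z, hg⟩ := hd
    exact (h.landing hl hg).2
  have hΞ : (Q 0).2.2 ≤ 1 / 10 := by
    have h1 := abs_le.1 hgood.2
    norm_num at hdrop
    linarith [hjj.2, h1.2]
  have hΞ' : -(1 / 1000) ≤ (Q 0).2.2 := by
    have h1 := abs_le.1 hgood.2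
    have h2 := hmax (j + 1)
    linarith [h1.1]
  intro i
  refine ⟨?_, (hmax i).trans hΞ⟩
  rcases Nat.lt_or_ge i (j + 1) with hi | hi
  · have h1 := hj i (by omega)
    linarith [h1.2]
  · have h1 := h.stay (P := fun _ => True) (fun _ _ _ => trivial) (fun i _ => hmax i) hΞ
      (i - (j + 1)) (j + 1) trivial hgood.2
    rw [show j + 1 + (i - (j + 1)) = i by omega] at h1
    exact h1.2

theorem per_bd {κ θ : ℝ} (hκ : 0 < κ) (hκ' : κ ≤ 1 / 10 ^ 12) (hθ : θ = κ ^ 24) {ω : E → ℝ}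
    (hω : Wind κ θ ω) {f : E → E} (hf : ContDiff ℝ 2 f) (hS : Sys θ ω f) (Q : ℕ → E)
    (herr : ∀ i m : ℕ, (m : ℝ) - 1 ≤ |(Q i).2.1| → ‖Q (i + 1) - f (Q i)‖ ≤ θ ^ (12 * (m + 1)))
    (K : ℕ) (hK : 1 ≤ K) (hper : ∀ i, Q (i + K) = Q i) (h0 : -(1 / 4) ≤ (Q 0).2.2) :
    ∀ i, |(Q i).2.2| ≤ 1 / 10 := by
  have hmod : ∀ i, Q (i % K) = Q i := by
    intro i
    have h1 : ∀ n j, Q (j + n * K) = Q j := by
      intro n
      induction n with
      | zero => intro j; simp
      | succ n ih =>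
        intro j
        rw [show j + (n + 1) * K = (j + n * K) + K by ring, hper, ih]
    conv_rhs => rw [← Nat.mod_add_div i K, mul_comm]
    rw [h1]
  obtain ⟨a, ha, hamax⟩ := Finset.exists_max_image (Finset.range K) (fun i => (Q i).2.2)
    ⟨0, Finset.mem_range.2 hK⟩
  have hmax : ∀ i, (Q i).2.2 ≤ (Q a).2.2 := by
    intro i
    rw [← hmod i]
    exact hamax _ (Finset.mem_range.2 (Nat.mod_lt _ hK))
  obtain ⟨b, hb, hbmax⟩ := Finset.exists_max_image (Finset.range K) (fun i => (Q i).2.1)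
    ⟨0, Finset.mem_range.2 hK⟩
  have key := fwd_bd hκ hκ' hθ hω hf hS (fun i => Q (a + i)) (fun i m hm => herr (a + i) m hm)
    (fun i => hmax _) (by show -(1 / 4) ≤ (Q (a + 0)).2.2; exact h0.trans (hmax 0))
    ⟨(Q b).2.1, fun i => by
      show (Q (a + i)).2.1 ≤ (Q b).2.1
      rw [← hmod (a + i)]
      exact hbmax _ (Finset.mem_range.2 (Nat.mod_lt _ hK))⟩
  intro i
  have h1 : Q i = Q (a + (i + (K - 1) * a)) := by
    have h2 : ∀ n j, Q (j + n * K) = Q j := by
      intro n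
      induction n with
      | zero => intro j; simp
      | succ n ih =>
        intro j
        rw [show j + (n + 1) * K = (j + n * K) + K by ring, hper, ih]
    have h3 : a + (i + (K - 1) * a) = i + a * K := by
      obtain ⟨k, rfl⟩ : ∃ k, K = k + 1 := ⟨K - 1, by omega⟩
      simp only [Nat.add_sub_cancel]
      ring
    rw [h3, h2]
  rw [h1, abs_le]
  exact key _

theorem uy_bd {θ : ℝ} (hθ : 0 < θ) (hθ' : θ ≤ 1 / 10 ^ 24) (m : ℕ) : 0 ≤ uy θ m ∧ uy θ m ≤ 5 * θ := by
  have h1 : ∀ m, (∑ k ∈ Finset.range m, r θ k) * (1 - θ) ≤ θ := by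
    intro m
    have h2 : (∑ k ∈ Finset.range m, r θ k) * (1 - θ) = θ - θ ^ (m + 1) := by
      induction m with
      | zero => simp
      | succ m ih =>
        rw [Finset.sum_range_succ, add_mul, ih]
        unfold r
        ring
    rw [h2]
    have : 0 < θ ^ (m + 1) := by positivity
    linarith
  have h3 : 0 ≤ ∑ k ∈ Finset.range m, r θ k := Finset.sum_nonneg fun k _ => (r_pos hθ k).le
  unfold uy
  refine ⟨by positivity, ?_⟩
  have h4 := h1 m
  norm_num at hθ'
  nlinarith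

/-- **Labels of periodic pseudo-orbits.** -/
theorem labels {κ θ : ℝ} (hκ : 0 < κ) (hκ' : κ ≤ 1 / 10 ^ 12) (hθ : θ = κ ^ 24) {ω : E → ℝ}
    (hω : Wind κ θ ω) {f : E → E} (hf : ContDiff ℝ 2 f) (hS : Sys θ ω f) (Q e : ℕ → E)
    (hstep : ∀ i, Q (i + 1) = f (Q i + e i)) (he : ∀ i, ‖e i‖ ≤ θ ^ 24)
    (he0 : ∀ i, e i ≠ 0 → ‖Q i‖ ≤ 1 / 200) (K : ℕ) (hK : 1 ≤ K) (hper : ∀ i, Q (i + K) = Q i)
    (h0 : ‖Q 0‖ ≤ 1 / 200) :
    ∀ i, |(Q i + e i).1| ≤ 1 / 2 ∧ |(Q i + e i).2.2| ≤ 1 / 2 ∧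
      ∃ j : ℤ, |(Q i + e i).2.1 - j| ≤ 1 / 8 := by
  obtain ⟨hθ0, hθ1⟩ := θ_small hκ hκ' hθ
  have hsm : θ ^ 24 ≤ 1 / 10 ^ 24 := pow_small hθ0 hθ1 (by norm_num)
  have hcore : ∀ i, e i ≠ 0 → f (Q i + e i) = f (Q i) + e i := by
    intro i hi
    have h1 := he0 i hi
    have h2 := he i
    have hD : ∀ p : E, D 0 p = p := by intro p; unfold D; ext <;> simp
    have a1 := (n1 (Q i)).trans h1
    have a2 := (n2 (Q i)).trans h1
    have b1 := (n1 (e i)).trans (h2.trans hsm)
    have b2 := (n2 (e i)).trans (h2.trans hsm)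
    have c1 : |(Q i + e i).1| ≤ 5 := by
      refine (abs_add_le _ _).trans ?_
      norm_num at b1 ⊢; linarith
    have c2 : |(Q i + e i).2.1| ≤ 1 / 4 := by
      refine (abs_add_le _ _).trans ?_
      norm_num at b2 ⊢; linarith
    have h3 := hS.core (Q i + e i) c1 c2
    have h4 := hS.core (Q i) (by linarith) (by linarith)
    rw [hD] at h3 h4
    rw [h3, h4]
    unfold U
    ext <;> simp
    ring
  have herr : ∀ i m : ℕ, (m : ℝ) - 1 ≤ |(Q i).2.1| → ‖Q (i + 1) - f (Q i)‖ ≤ θ ^ (12 * (m + 1)) := by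
    intro i m hm
    by_cases hi : e i = 0
    · rw [hstep, hi, add_zero, sub_self, norm_zero]
      positivity
    · rw [hstep, hcore i hi, add_sub_cancel_left]
      have h1 := (n2 (Q i)).trans (he0 i hi)
      have h2 : (m : ℝ) < 2 := by linarith
      have h3 : m < 2 := by exact_mod_cast h2
      refine (he i).trans ?_
      apply pow_le_pow_of_le_one hθ0.le (by norm_num at hθ1; linarith)
      omega
  have hξ := per_bd hκ hκ' hθ hω hf hS Q herr K hK hper (by
    have := abs_le.1 ((n3 (Q 0)).trans h0)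
    linarith [this.1])
  -- the invariant
  have inv : ∀ i, |(Q i).1| ≤ 1 / 100 ∧ ∃ j : ℤ, |(Q i).2.1 - j| ≤ 1 / 100 := by
    intro i
    induction i with
    | zero =>
      refine ⟨by linarith [n1 (Q 0)], 0, ?_⟩
      simp only [Int.cast_zero, sub_zero]
      linarith [n2 (Q 0)]
    | succ i ih =>
      have hQe : |(Q i + e i).1| ≤ 1 / 100 ∧ (∃ j : ℤ, |(Q i + e i).2.1 - j| ≤ 1 / 100) ∧
          -(1 / 5) ≤ (Q i + e i).2.2 := by
        have h2 := he i
        have b1 := (n1 (e i)).trans (h2.trans hsm)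
        have b2 := (n2 (e i)).trans (h2.trans hsm)
        have b3 := abs_le.1 ((n3 (e i)).trans (h2.trans hsm))
        have hh := abs_le.1 (hξ i)
        have c3 : (Q i + e i).2.2 = (Q i).2.2 + (e i).2.2 := rfl
        refine ⟨?_, ?_, by rw [c3]; norm_num at b3; linarith [b3.1, hh.1]⟩
        · by_cases hi : e i = 0
          · rw [hi, add_zero]; exact ih.1
          · refine (abs_add_le _ _).trans ?_
            have := (n1 (Q i)).trans (he0 i hi)
            norm_num at b1 ⊢; linarith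
        · by_cases hi : e i = 0
          · rw [hi, add_zero]; exact ih.2
          · refine ⟨0, ?_⟩
            simp only [Int.cast_zero, sub_zero]
            refine (abs_add_le _ _).trans ?_
            have := (n2 (Q i)).trans (he0 i hi)
            norm_num at b2 ⊢; linarith
      obtain ⟨hx, ⟨j, hj⟩, hlow⟩ := hQe
      have hup := (abs_le.1 (hξ (i + 1))).2
      rw [hstep] at hup ⊢
      rcases hS.tri (Q i + e i) with hk | ⟨m, l, hl, z, hp, hz, hzx, b, k, hb, hk, hfe⟩ | ⟨-, k, hk, hfe⟩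
      · exfalso; linarith
      · have hr := r_pos hθ0 m
        have hr1 := r_le hθ0 hθ1 m
        norm_num at hr1 hθ1
        rw [hfe]
        rcases Nat.lt_or_ge l 7 with h7 | h7
        · have e1 : tgt θ m l (r θ m • R (sg (l + 1)) (z.1 + ω z, b, z.2.2 + k)) =
              D m (r θ m • q (l + 1) + r θ m • R (sg (l + 1)) (z.1 + ω z, b, z.2.2 + k)) := by
            unfold tgt; rw [if_pos h7]
          rw [e1]
          obtain ⟨q1, q2, -⟩ := E1.q_bound (l + 1)
          have hx1 : |sg (l + 1) * (z.1 + ω z)| ≤ 2 / 1000 := sg_bd _ hzx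
          have hb1 : |sg (l + 1) * b| ≤ 2 / 1000 := sg_bd _ hb
          constructor
          · have e2 : (D m (r θ m • q (l + 1) + r θ m • R (sg (l + 1)) (z.1 + ω z, b, z.2.2 + k))).1 =
              r θ m * ((q (l + 1)).1 + sg (l + 1) * (z.1 + ω z)) := by
              simp [D, R]; ring
            rw [e2, abs_mul, abs_of_pos hr]
            have := abs_add_le (q (l + 1)).1 (sg (l + 1) * (z.1 + ω z))
            have h5 : |(q (l + 1)).1 + sg (l + 1) * (z.1 + ω z)| ≤ 6 := by linarith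
            nlinarith [abs_nonneg ((q (l + 1)).1 + sg (l + 1) * (z.1 + ω z))]
          · refine ⟨-(m : ℤ), ?_⟩
            have e2 : (D m (r θ m • q (l + 1) +
                r θ m • R (sg (l + 1)) (z.1 + ω z, b, z.2.2 + k))).2.1 - ((-(m : ℤ) : ℤ) : ℝ) =
              r θ m * ((q (l + 1)).2.1 + sg (l + 1) * b) := by
              simp [D, R]; ring
            rw [e2, abs_mul, abs_of_pos hr]
            have := abs_add_le (q (l + 1)).2.1 (sg (l + 1) * b)
            have h5 : |(q (l + 1)).2.1 + sg (l + 1) * b| ≤ 6 := by linarith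
            nlinarith [abs_nonneg ((q (l + 1)).2.1 + sg (l + 1) * b)]
        · have e1 : tgt θ m l (r θ m • R (sg (l + 1)) (z.1 + ω z, b, z.2.2 + k)) =
              U θ (m + 1) (r θ m • R (sg (l + 1)) (z.1 + ω z, b, z.2.2 + k)) := by
            unfold tgt; rw [if_neg (by omega)]
          rw [e1]
          have hx1 : |sg (l + 1) * (z.1 + ω z)| ≤ 2 / 1000 := sg_bd _ hzx
          have hb1 : |sg (l + 1) * b| ≤ 2 / 1000 := sg_bd _ hb
          constructor
          · have e2 : (U θ (m + 1) (r θ m • R (sg (l + 1)) (z.1 + ω z, b, z.2.2 + k))).1 =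
              r θ m * (sg (l + 1) * (z.1 + ω z)) := by
              simp [U, R]
            rw [e2, abs_mul, abs_of_pos hr]
            nlinarith [abs_nonneg (sg (l + 1) * (z.1 + ω z))]
          · refine ⟨(m : ℤ) + 2, ?_⟩
            have e2 : (U θ (m + 1) (r θ m • R (sg (l + 1)) (z.1 + ω z, b, z.2.2 + k))).2.1 -
                (((m : ℤ) + 2 : ℤ) : ℝ) = r θ m * (sg (l + 1) * b) + uy θ (m + 1) := by
              simp [U, R]; ring
            rw [e2]
            have h6 := uy_bd hθ0 (by norm_num; exact hθ1) (m + 1)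
            have h7 : |r θ m * (sg (l + 1) * b)| ≤ 1 / 1000 := by
              rw [abs_mul, abs_of_pos hr]
              nlinarith [abs_nonneg (sg (l + 1) * b)]
            refine (abs_add_le _ _).trans ?_
            rw [abs_of_nonneg h6.1]
            linarith [h6.2]
      · rw [hfe]
        refine ⟨hx, j + 1, ?_⟩
        show |(Q i + e i).2.1 + 1 - ((j + 1 : ℤ) : ℝ)| ≤ _
        push_cast
        rwa [add_sub_add_right_eq_sub]
  intro i
  have h2 := he i
  have b1 := (n1 (e i)).trans (h2.trans hsm)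
  have b2 := (n2 (e i)).trans (h2.trans hsm)
  have b3 := (n3 (e i)).trans (h2.trans hsm)
  norm_num at b1 b2 b3
  refine ⟨?_, ?_, ?_⟩
  · refine (abs_add_le _ _).trans ?_
    linarith [(inv i).1]
  · refine (abs_add_le _ _).trans ?_
    linarith [hξ i]
  · obtain ⟨j, hj⟩ := (inv i).2
    refine ⟨j, ?_⟩
    have e1 : (Q i + e i).2.1 - j = ((Q i).2.1 - j) + (e i).2.1 := by
      show (Q i).2.1 + (e i).2.1 - j = _
      ring
    rw [e1]
    refine (abs_add_le _ _).trans ?_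
    linarith

end Pool.Agent.H247.LC
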