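import Pool.Agent.H247.LC.Iface
import Pool.Agent.H247.LC.Eth

/-!
# Basic properties of the model
-/

set_option autoImplicit false

open scoped Manifold ContDiff Topology
open Set

namespace Pool.Agent.H247.LC

open Pool.Agent.H718R2 (E Wind Sys)

theorem β₁_zero {t : ℝ} (h : t ≤ 7 / 2) : β₁ t = 0 :=
  Real.smoothTransition.zero_of_nonpos (by linarith)

theorem β₁_one {t : ℝ} (h : 9 / 2 ≤ t) : β₁ t = 1 :=
  Real.smoothTransition.one_of_one_le (by linarith)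

theorem β₂_zero {t : ℝ} (h : t ≤ 23 / 2) : β₂ t = 0 :=
  Real.smoothTransition.zero_of_nonpos (by linarith)

theorem β₂_one {t : ℝ} (h : 25 / 2 ≤ t) : β₂ t = 1 :=
  Real.smoothTransition.one_of_one_le (by linarith)

namespace Mod

variable {k : ℕ} {f : E → E} {lam : E → ℝ} (m : Mod k f lam)

theorem K_inv (s : ℝ) (w : EuclideanSpace ℝ (Fin k)) : m.ΨK s (m.ΨK (-s) w) = w := by
  rw [← m.Kadd, add_neg_cancel, m.K0]

theorem K_inv' (s : ℝ) (w : EuclideanSpace ℝ (Fin k)) : m.ΨK (-s) (m.ΨK s w) = w := by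
  rw [← m.Kadd, neg_add_cancel, m.K0]

theorem P_inv (s : ℝ) (w : ℝ) : m.Ψ s (m.Ψ (-s) w) = w := by
  rw [← m.Padd, add_neg_cancel, m.P0]

theorem P_inv' (s : ℝ) (w : ℝ) : m.Ψ (-s) (m.Ψ s w) = w := by
  rw [← m.Padd, neg_add_cancel, m.P0]

theorem K_le (s : ℝ) {w : EuclideanSpace ℝ (Fin k)} (h : ‖w‖ ≤ 1 / 8) : ‖m.ΨK s w‖ ≤ 1 / 8 := by
  by_contra hc
  rw [not_le] at hc
  have h1 := m.Kout (-s) _ hc.le
  rw [m.K_inv'] at h1
  rw [← h1] at hc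
  linarith

theorem P_le (s : ℝ) {w : ℝ} (h : |w| ≤ 1 / 8) : |m.Ψ s w| ≤ 1 / 8 := by
  by_contra hc
  rw [not_le] at hc
  have h1 := m.Pout (-s) _ hc.le
  rw [m.P_inv'] at h1
  rw [← h1] at hc
  linarith

theorem P_lt_one (s : ℝ) {w : ℝ} (h : |w| < 1) : |m.Ψ s w| < 1 := by
  by_cases h8 : |w| ≤ 1 / 8
  · linarith [m.P_le s h8]
  · rw [m.Pout s w (not_le.1 h8).le]
    exact h

theorem P_lt_one_iff (s : ℝ) (w : ℝ) : |m.Ψ s w| < 1 ↔ |w| < 1 :=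
  ⟨fun h => by simpa [m.P_inv'] using m.P_lt_one (-s) h, m.P_lt_one s⟩

theorem Φ_Φi (v : Tot k) : m.Φ (m.Φi v) = v := by
  obtain ⟨P, w', w, t⟩ := v
  simp only [Φ, Φi, Equiv.apply_symm_apply, K_inv, P_inv]

theorem Φi_Φ (v : Tot k) : m.Φi (m.Φ v) = v := by
  obtain ⟨P, w', w, t⟩ := v
  simp only [Φ, Φi, Equiv.symm_apply_apply, K_inv', P_inv']

theorem Φ_early {u : Tot k} (h : u.2.2.2 ≤ 7 / 2) : m.Φ u = u := by
  obtain ⟨P, w', w, t⟩ := u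
  simp only at h
  simp [Φ, β₁_zero h, β₂_zero (show t ≤ 23 / 2 by linarith), m.h0, m.K0, m.P0]

theorem Φi_early {u : Tot k} (h : u.2.2.2 ≤ 7 / 2) : m.Φi u = u := by
  conv_lhs => rw [← m.Φ_early h]
  exact m.Φi_Φ u

/-- positions: time one without the twists -/
noncomputable def T (v : Tot k) : Tot k := m.Φ (m.L (m.Φi v))

theorem F_eq (v : Tot k) : m.F v = m.C (m.T v) := rfl

theorem Φi_t (v : Tot k) : (m.Φi v).2.2.2 = v.2.2.2 := rfl

theorem Φ_t (v : Tot k) : (m.Φ v).2.2.2 = v.2.2.2 := rfl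

theorem Φi_w (v : Tot k) : |(m.Φi v).2.2.1| < 1 ↔ |v.2.2.1| < 1 := m.P_lt_one_iff _ _

theorem Φ_w (v : Tot k) : |(m.Φ v).2.2.1| < 1 ↔ |v.2.2.1| < 1 := m.P_lt_one_iff _ _

theorem T_t (v : Tot k) : (m.T v).2.2.2 = m.τ (m.Φi v) := rfl

theorem T_ge (v : Tot k) : v.2.2.2 ≤ (m.T v).2.2.2 := by
  rw [T_t]
  exact m.τ_ge (m.Φi v)

theorem T_w (v : Tot k) : |(m.T v).2.2.1| < 1 ↔ |v.2.2.1| < 1 := by
  rw [T, Φ_w]
  exact m.Φi_w v

theorem T_out {v : Tot k} (h : ¬ |v.2.2.1| < 1) : m.T v = v := by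
  have h1 : 1 ≤ |(m.Φi v).2.2.1| := by
    rw [← not_lt, m.Φi_w]
    exact h
  have h2 : m.L (m.Φi v) = m.Φi v := by
    rw [L, m.τ_out _ h1]
  rw [T, h2, m.Φ_Φi]

open Classical in
/-- the state of a position: the label in the lane before time `13`, the position otherwise -/
noncomputable def S (v : Tot k) : E :=
  if |v.2.2.1| < 1 ∧ v.2.2.2 < 13 then (m.h (β₂ v.2.2.2)).symm v.1 else v.1

/-- the label jumps by `f` at this step -/
def Cross (v : Tot k) : Prop := |v.2.2.1| < 1 ∧ v.2.2.2 < 13 ∧ 13 ≤ (m.T v).2.2.2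

theorem h_one_symm (p : E) : m.h 1 ((m.h 1).symm p) = p := Equiv.apply_symm_apply _ _

theorem S_early {v : Tot k} (h : v.2.2.2 ≤ 23 / 2) : m.S v = v.1 := by
  unfold S
  split_ifs
  · rw [β₂_zero h, Equiv.symm_apply_eq, m.h0]
  · rfl

theorem S_out {v : Tot k} (h : ¬ |v.2.2.1| < 1) : m.S v = v.1 := by
  unfold S
  rw [if_neg]
  exact fun h1 => h h1.1

theorem S_late {v : Tot k} (h : 13 ≤ v.2.2.2) : m.S v = v.1 := by
  unfold S
  rw [if_neg]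
  exact fun h1 => absurd h1.2 (not_lt.2 h)

theorem S_in {v : Tot k} (h : |v.2.2.1| < 1) (h' : v.2.2.2 < 13) :
    m.S v = (m.h (β₂ v.2.2.2)).symm v.1 := by
  unfold S
  rw [if_pos ⟨h, h'⟩]

theorem T_fst (v : Tot k) :
    (m.T v).1 = m.h (β₂ (m.T v).2.2.2) ((m.h (β₂ v.2.2.2)).symm v.1) := rfl

theorem S_T_of_not {v : Tot k} (h : ¬ m.Cross v) : m.S (m.T v) = m.S v := by
  by_cases hw : |v.2.2.1| < 1
  · have hw' := (m.T_w v).2 hw
    by_cases ht : v.2.2.2 < 13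
    · have ht' : (m.T v).2.2.2 < 13 := by
        by_contra hc
        exact h ⟨hw, ht, not_lt.1 hc⟩
      rw [m.S_in hw ht, m.S_in hw' ht', T_fst, Equiv.symm_apply_apply]
    · rw [not_lt] at ht
      have ht' := ht.trans (m.T_ge v)
      rw [m.S_late ht, m.S_late ht', T_fst, β₂_one (by linarith), β₂_one (by linarith),
        Equiv.apply_symm_apply]
  · rw [m.T_out hw]

theorem S_T_of_cross {v : Tot k} (h : m.Cross v) : m.S (m.T v) = f (m.S v) := by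
  obtain ⟨hw, ht, ht'⟩ := h
  rw [m.S_late ht', m.S_in hw ht, T_fst, β₂_one (by linarith), m.h1]

theorem ann_lane {w t : ℝ} (hw : |w| < 1) (h1 : 118 < (w + 8) ^ 2 + (t - 8) ^ 2)
    (h2 : (w + 8) ^ 2 + (t - 8) ^ 2 < 138) : t < 31 / 16 ∨ 14 < t := by
  by_contra hc
  push Not at hc
  obtain ⟨h3, h4⟩ := hc
  rw [abs_lt] at hw
  nlinarith

theorem S_C (v : Tot k) : m.S (m.C v) = m.S v := by
  have key : ∀ u : Tot k, 118 < (u.2.2.1 + 8) ^ 2 + (u.2.2.2 - 8) ^ 2 →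
      (u.2.2.1 + 8) ^ 2 + (u.2.2.2 - 8) ^ 2 < 138 → m.S u = u.1 := by
    intro u h1 h2
    by_cases hw : |u.2.2.1| < 1
    · rcases ann_lane hw h1 h2 with h | h
      · exact m.S_early (by linarith)
      · exact m.S_late (by linarith)
    · exact m.S_out hw
  have key2 : ∀ u : Tot k, u.2.2.1 ^ 2 + (u.2.2.2 - 8) ^ 2 < 1 / 4 → m.S u = u.1 := by
    intro u h
    apply m.S_early
    nlinarith [sq_nonneg u.2.2.1]
  rcases m.C_supp v with h | ⟨h1, h2⟩ | ⟨h1, h2, h3, h4⟩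
  · rw [h]
  · rw [key2 _ h1, key2 _ h2, m.C_fst]
  · rw [key _ h1 h2, key _ h3 h4, m.C_fst]

theorem S_F_of_not {v : Tot k} (h : ¬ m.Cross v) : m.S (m.F v) = m.S v := by
  rw [F_eq, S_C, m.S_T_of_not h]

theorem S_F_of_cross {v : Tot k} (h : m.Cross v) : m.S (m.F v) = f (m.S v) := by
  rw [F_eq, S_C, m.S_T_of_cross h]

/-- the zone which can be left only by crossing -/
def Z (v : Tot k) : Prop := |v.2.2.1| < 1 ∧ 31 / 16 < v.2.2.2 ∧ v.2.2.2 < 13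

theorem Z_F {v : Tot k} (hZ : Z v) (h : ¬ m.Cross v) : Z (m.F v) := by
  obtain ⟨h1, h2, h3⟩ := hZ
  have hw := (m.T_w v).2 h1
  have ht' : (m.T v).2.2.2 < 13 := by
    by_contra hc
    exact h ⟨h1, h3, not_lt.1 hc⟩
  have ht := h2.trans_le (m.T_ge v)
  rw [F_eq]
  rcases m.C_supp (m.T v) with h | ⟨h4, h5⟩ | ⟨h4, h5, -, -⟩
  · rw [h]
    exact ⟨hw, ht, ht'⟩
  · refine ⟨?_, ?_, ?_⟩
    · rw [abs_lt]
      constructor <;> nlinarith [sq_nonneg ((m.C (m.T v)).2.2.2 - 8)]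
    · nlinarith [sq_nonneg ((m.C (m.T v)).2.2.1)]
    · nlinarith [sq_nonneg ((m.C (m.T v)).2.2.1)]
  · rcases ann_lane hw h4 h5 with h | h <;> exfalso <;> linarith

theorem C_id {v : Tot k} (h1 : 1 / 4 ≤ v.2.2.1 ^ 2 + (v.2.2.2 - 8) ^ 2)
    (h2 : (v.2.2.1 + 8) ^ 2 + (v.2.2.2 - 8) ^ 2 ≤ 118 ∨
      138 ≤ (v.2.2.1 + 8) ^ 2 + (v.2.2.2 - 8) ^ 2) : m.C v = v := by
  rcases m.C_supp v with h | ⟨h4, h5⟩ | ⟨h4, h5, -, -⟩
  · exact h
  · exfalso; linarith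
  · exfalso
    rcases h2 with h2 | h2 <;> linarith

/-- near the base point the map is a translation -/
theorem F_near {v : Tot k} (h : ‖v - x₀ k‖ ≤ 1 / 20) :
    m.F v = (v.1, (v.2.1, (v.2.2.1, v.2.2.2 + 1))) := by
  obtain ⟨P, w', w, t⟩ := v
  have h1 : ‖w'‖ ≤ 1 / 20 := by
    have := (norm_fst_le (P, w', w, t - 1).2).trans ((norm_snd_le (P, w', w, t - 1)).trans
      (le_of_eq_of_le (by simp [x₀]) h))
    simpa using this
  have h2 : |w| ≤ 1 / 20 ∧ |t - 1| ≤ 1 / 20 := by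
    have h3 : ‖((P, (w', (w, t))) : Tot k) - x₀ k‖ = max ‖P‖ (max ‖w'‖ (max |w| |t - 1|)) := by
      simp [x₀, Prod.norm_def]
    rw [h3] at h
    simp only [max_le_iff] at h
    exact ⟨h.2.2.1, h.2.2.2⟩
  obtain ⟨h2, h3⟩ := h2
  have h4 := abs_le.1 h2
  have h5 := abs_le.1 h3
  have hT : m.T (P, w', w, t) = (P, (w', (w, t + 1))) := by
    rw [T, m.Φi_early (by show t ≤ 7 / 2; linarith), L, m.τ_fast _ (by show ‖w'‖ ≤ _; linarith)
      (by show |w| ≤ _; linarith) (Or.inl ⟨by show _ ≤ t; linarith, by show t ≤ _; linarith⟩)]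
    exact m.Φ_early (by show t + 1 ≤ 7 / 2; linarith)
  rw [F_eq, hT]
  apply m.C_id
  · show 1 / 4 ≤ w ^ 2 + (t + 1 - 8) ^ 2
    nlinarith [sq_nonneg w]
  · left
    show (w + 8) ^ 2 + (t + 1 - 8) ^ 2 ≤ 118
    nlinarith

theorem Z_near {v : Tot k} (h : ‖v - x₀ k‖ ≤ 1 / 20) :
    Z (m.F v) ∧ m.S v = v.1 ∧ ¬ m.Cross v ∧ m.S (m.F v) = v.1 := by
  obtain ⟨P, w', w, t⟩ := v
  have h3 : ‖((P, (w', (w, t))) : Tot k) - x₀ k‖ = max ‖P‖ (max ‖w'‖ (max |w| |t - 1|)) := by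
    simp [x₀, Prod.norm_def]
  have h' := h
  rw [h3] at h'
  simp only [max_le_iff] at h'
  obtain ⟨-, -, h1, h2⟩ := h'
  have h4 := abs_le.1 h2
  have hF := m.F_near h
  have hZ : Z (m.F (P, w', w, t)) := by
    rw [hF]
    refine ⟨?_, ?_, ?_⟩
    · show |w| < 1
      linarith
    · show 31 / 16 < t + 1
      linarith
    · show t + 1 < 13
      linarith
  have hS : m.S (P, w', w, t) = P := m.S_early (by show t ≤ _; linarith)
  have hc : ¬ m.Cross (P, w', w, t) := by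
    rintro ⟨-, -, h5⟩
    have hT : m.T (P, w', w, t) = (P, (w', (w, t + 1))) := by
      rw [T, m.Φi_early (by show t ≤ 7 / 2; linarith), L]
      rw [m.τ_fast _ _ (by show |w| ≤ _; linarith)
        (Or.inl ⟨by show _ ≤ t; linarith, by show t ≤ _; linarith⟩)]
      · exact m.Φ_early (by show t + 1 ≤ 7 / 2; linarith)
      · rw [h3] at h
        simp only [max_le_iff] at h
        show ‖w'‖ ≤ _
        linarith [h.2.1]
    rw [hT] at h5
    simp only at h5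
    linarith
  refine ⟨hZ, hS, hc, ?_⟩
  rw [m.S_F_of_not hc, hS]

end Mod

end Pool.Agent.H247.LC
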