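import Pool.Agent.H247.LC.Iface2

/-!
# Combinatorics of perturbations near a finite orbit segment (leaf Comb)
-/

set_option autoImplicit false

namespace Pool.Agent.H247.LC.Comb

open Pool.Agent.H247.LC

variable {X : Type} [AddCommGroup X] {Ft G : X → X} {Bl : Set X} {l : ℕ} {e : ℕ → X → X}

/-- (a) -/
lemma stepA (h2 : ∀ j ≤ l, ∀ u ∈ Bl, u + e j u ∈ Bl)
    (h3 : ∀ j ≤ l, ∀ u ∈ Bl, G (Ft^[j] u) = Ft^[j + 1] (u + e j u)) (u : X) (hu : u ∈ Bl) :
    ∀ j, j ≤ l + 1 → cmp e j u ∈ Bl ∧ G^[j] u = Ft^[j] (cmp e j u) := by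
  intro j
  induction j with
  | zero => intro _; exact ⟨hu, rfl⟩
  | succ j ih =>
    intro hj
    obtain ⟨h, h'⟩ := ih (by omega)
    refine ⟨h2 j (by omega) _ h, ?_⟩
    rw [Function.iterate_succ_apply', h', h3 j (by omega) _ h]
    rfl

omit [AddCommGroup X] in
/-- cancellation of iterates -/
lemma cancel (hF : Function.Injective Ft) {i j : ℕ} {u v : X} (hij : i ≤ j)
    (h : Ft^[j] u = Ft^[i] v) : Ft^[j - i] u = v := by
  apply hF.iterate i
  rw [← Function.iterate_add_apply, show i + (j - i) = j by omega, h]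

/-- (b) -/
lemma stepB (hF : Function.Injective Ft)
    (h1 : ∀ j, 1 ≤ j → j ≤ l → ∀ u ∈ Bl, Ft^[j] u ∉ Bl)
    (h2 : ∀ j ≤ l, ∀ u ∈ Bl, u + e j u ∈ Bl)
    (h3 : ∀ j ≤ l, ∀ u ∈ Bl, G (Ft^[j] u) = Ft^[j + 1] (u + e j u))
    (h4 : ∀ y, (∀ j ≤ l, ∀ u ∈ Bl, y ≠ Ft^[j] u) → G y = Ft y)
    (j : ℕ) (hj : j + 1 ≤ l) (u : X) (hu : u ∈ Bl) (y' : X) (hy : G y' = Ft^[j + 1] u) :
    ∃ u' ∈ Bl, y' = Ft^[j] u' := by
  by_cases h : ∀ j ≤ l, ∀ u ∈ Bl, y' ≠ Ft^[j] u
  · have := h4 y' h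
    rw [this] at hy
    have hy2 : y' = Ft^[j] u := by
      apply hF
      rw [hy, Function.iterate_succ_apply']
    exact ⟨u, hu, hy2⟩
  · push Not at h
    obtain ⟨i, hi, u', hu', rfl⟩ := h
    rw [h3 i hi u' hu'] at hy
    have hu'' := h2 i hi u' hu'
    rcases lt_trichotomy i j with hij | hij | hij
    · exfalso
      have hc := cancel hF (by omega : i + 1 ≤ j + 1) hy.symm
      refine h1 (j + 1 - (i + 1)) (by omega) (by omega) u hu ?_
      rw [hc]; exact hu''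
    · subst hij
      exact ⟨u', hu', rfl⟩
    · exfalso
      have hc := cancel hF (by omega : j + 1 ≤ i + 1) hy
      refine h1 (i + 1 - (j + 1)) (by omega) (by omega) _ hu'' ?_
      rw [hc]; exact hu

/-- (b') -/
lemma stepB' (hF : Function.Injective Ft)
    (h1 : ∀ j, 1 ≤ j → j ≤ l → ∀ u ∈ Bl, Ft^[j] u ∉ Bl)
    (h2 : ∀ j ≤ l, ∀ u ∈ Bl, u + e j u ∈ Bl)
    (h3 : ∀ j ≤ l, ∀ u ∈ Bl, G (Ft^[j] u) = Ft^[j + 1] (u + e j u))
    (h4 : ∀ y, (∀ j ≤ l, ∀ u ∈ Bl, y ≠ Ft^[j] u) → G y = Ft y) (n : ℕ) (hn : 1 ≤ n) :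
    ∀ j, j ≤ l → ∀ u ∈ Bl, G^[n] (Ft^[j] u) = Ft^[j] u → ∃ u₀ ∈ Bl, G^[n] u₀ = u₀ := by
  intro j
  induction j with
  | zero => intro _ u hu h; exact ⟨u, hu, h⟩
  | succ j ih =>
    intro hj u hu h
    obtain ⟨m, rfl⟩ : ∃ m, n = m + 1 := ⟨n - 1, by omega⟩
    have hG : G (G^[m] (Ft^[j + 1] u)) = Ft^[j + 1] u := by
      rw [← Function.iterate_succ_apply' G m]; exact h
    obtain ⟨u', hu', hy⟩ := stepB hF h1 h2 h3 h4 j hj u hu _ hG
    refine ih (by omega) u' hu' ?_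
    rw [← hy, ← Function.iterate_add_apply G (m + 1) m, show m + 1 + m = m + (m + 1) by omega,
      Function.iterate_add_apply G m (m + 1), h]

/-- the good points -/
def Good (Ft : X → X) (Bl : Set X) (l : ℕ) (v : X) : Prop :=
  ∀ i, 1 ≤ i → i ≤ l → ∀ u ∈ Bl, v ≠ Ft^[i] u

theorem main : S_COMB := by
  intro X _ Ft G Bl l e hF _ h1 h2 h3 h4 h5 h6 y n hy hn hper
  obtain ⟨j, hj, u, hu, rfl⟩ := hy
  obtain ⟨u₀, hu₀, hp⟩ := stepB' hF h1 h2 h3 h4 n hn j hj u hu hper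
  set G' : X → X := fun v => Ft (cmp e (l + 1) v) with hG'
  have hinj : Function.Injective G' := hF.comp h6
  -- blocks
  have key : ∀ m : ℕ, (G^[m] u₀ = G'^[m] u₀ ∧ Good Ft Bl l (G^[m] u₀)) →
      ∃ m', m < m' ∧ (G^[m'] u₀ = G'^[m'] u₀ ∧ Good Ft Bl l (G^[m'] u₀)) := by
    intro m hm
    obtain ⟨hm1, hm2⟩ := hm
    by_cases hb : G^[m] u₀ ∈ Bl
    · set v := G^[m] u₀ with hv
      obtain ⟨hw, hGl⟩ := stepA h2 h3 v hb (l + 1) le_rfl
      have hstep : ∀ i, i ≤ l → G'^[i + 1] v = Ft^[i + 1] (cmp e (l + 1) v) := by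
        intro i
        induction i with
        | zero => intro _; rfl
        | succ i ih =>
          intro hi
          rw [Function.iterate_succ_apply', ih (by omega)]
          have : Ft^[i + 1] (cmp e (l + 1) v) ∉ Bl := h1 (i + 1) (by omega) (by omega) _ hw
          simp only [hG']
          rw [h5 _ this, ← Function.iterate_succ_apply' Ft]
      refine ⟨l + 1 + m, by omega, ?_, ?_⟩
      · rw [Function.iterate_add_apply G (l + 1) m, Function.iterate_add_apply G' (l + 1) m,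
          ← hm1, ← hv, hGl, hstep l le_rfl]
      · rw [Function.iterate_add_apply G (l + 1) m, ← hv, hGl]
        intro i hi1 hi2 u hu heq
        have hc := cancel hF (by omega : i ≤ l + 1) heq
        refine h1 (l + 1 - i) (by omega) (by omega) _ hw ?_
        rw [hc]; exact hu
    · have hG : G (G^[m] u₀) = Ft (G^[m] u₀) := by
        apply h4
        intro j hj u hu heq
        rcases Nat.eq_zero_or_pos j with rfl | hj0
        · exact hb (by rw [heq]; exact hu)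
        · exact hm2 j hj0 hj u hu heq
      refine ⟨m + 1, by omega, ?_, ?_⟩
      · rw [Function.iterate_succ_apply', Function.iterate_succ_apply', ← hm1, hG]
        simp only [hG']
        rw [h5 _ hb]
      · rw [Function.iterate_succ_apply', hG]
        intro i hi1 hi2 u hu heq
        obtain ⟨i', rfl⟩ : ∃ i', i = i' + 1 := ⟨i - 1, by omega⟩
        rw [Function.iterate_succ_apply'] at heq
        have heq' := hF heq
        rcases Nat.eq_zero_or_pos i' with rfl | hi0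
        · exact hb (by rw [heq']; exact hu)
        · exact hm2 i' hi0 (by omega) u hu heq'
  -- infinitely many times
  let S : Set ℕ := {m | G^[m] u₀ = G'^[m] u₀ ∧ Good Ft Bl l (G^[m] u₀)}
  have h0 : (0 : ℕ) ∈ S := by
    refine ⟨rfl, ?_⟩
    intro i hi1 hi2 u hu heq
    apply h1 i hi1 hi2 u hu
    rw [← heq]; exact hu₀
  have hS : S.Infinite := by
    rw [Set.infinite_iff_exists_gt]
    intro N
    induction N with
    | zero =>
      obtain ⟨m', h, h'⟩ := key 0 h0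
      exact ⟨m', h', h⟩
    | succ N ih =>
      obtain ⟨m, hm, hmN⟩ := ih
      obtain ⟨m', h, h'⟩ := key m hm
      exact ⟨m', h', by omega⟩
  obtain ⟨a, ha, b, hb, hab, hmod⟩ := hS.exists_ne_map_eq_of_mapsTo
    (f := fun m => m % n) (t := Set.Iio n) (fun m _ => Nat.mod_lt m (by omega))
    (Set.finite_Iio n)
  have hG : ∀ m, G^[m] u₀ = G^[m % n] u₀ := by
    intro m
    exact (Function.IsPeriodicPt.iterate_mod_apply (f := G) (n := n) (x := u₀) hp m).symm
  have hfin : ∀ a b, a ∈ S → b ∈ S → a < b → a % n = b % n →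
      ∃ u ∈ Bl, ∃ n', 1 ≤ n' ∧ G'^[n'] u = u := by
    intro a b ha hb hab hmod
    refine ⟨u₀, hu₀, b - a, by omega, ?_⟩
    apply hinj.iterate a
    rw [← Function.iterate_add_apply G' a (b - a), show a + (b - a) = b by omega, ← hb.1, ← ha.1,
      hG b, hG a, hmod]
  rcases lt_or_gt_of_ne hab with h | h
  · exact hfin a b ha hb h hmod
  · exact hfin b a hb ha h hmod.symm

end Pool.Agent.H247.LC.Comb
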