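import Pool.Agent.H247.LC.Iface3

/-! Project LC (helper247), leaf CompA (helper287): compositions of `C^{1+α}` near-identity maps. -/

set_option autoImplicit false

open Set

namespace Pool.Agent.H247.LC.CompA

open Pool.Agent.Y640.CLA (SmA pw pw_nonneg pw_mono pw_scale)

theorem one_le_pw {α t : ℝ} (h0 : 0 < α) (ht : 1 ≤ t) : 1 ≤ pw α t :=
  Real.one_le_rpow ht h0.le

theorem step {X : Type} [NormedAddCommGroup X] [NormedSpace ℝ X] {α ε₁ δ : ℝ} (h0 : 0 < α)
    (h1 : α ≤ 1) (hε0 : 0 ≤ ε₁) (hε : ε₁ ≤ 1 / 2) (hδ0 : 0 ≤ δ) {g e : X → X}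
    (hg : SmA α (fun _ => ε₁) (fun u => g u - u)) (he : SmA α (fun _ => δ) e) :
    SmA α (fun _ => ε₁ + 7 * δ) (fun u => (g u + e (g u)) - u) := by
  obtain ⟨L, hL⟩ : ∃ L : X → X →L[ℝ] X, L = fun u => fderiv ℝ (fun u => g u - u) u := ⟨_, rfl⟩
  have hE : ∀ u, HasFDerivAt (fun u => g u - u) (L u) u := by
    intro u
    rw [hL]
    exact (hg.diff u).hasFDerivAt
  have hL1 : ∀ u, ‖L u‖ ≤ ε₁ := by
    intro u
    rw [hL]
    exact hg.b1 u
  have hL2 : ∀ u u', ‖u - u'‖ ≤ 1 → ‖L u - L u'‖ ≤ ε₁ * pw α ‖u - u'‖ := by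
    intro u u' h
    rw [hL]
    exact hg.b2 u u' h
  have hgd : ∀ u, HasFDerivAt g (L u + ContinuousLinearMap.id ℝ X) u := by
    intro u
    have h2 := (hE u).add (hasFDerivAt_id u)
    have e1 : (fun x => (g x - x) + id x) = g := by
      funext x
      exact sub_add_cancel _ _
    have e2 : ((fun u => g u - u) + id) = g := e1
    rw [e2] at h2
    exact h2
  have hF : ∀ u, HasFDerivAt (fun u => (g u + e (g u)) - u)
      (L u + (fderiv ℝ e (g u)).comp (L u + ContinuousLinearMap.id ℝ X)) u := by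
    intro u
    have h3 : HasFDerivAt (e ∘ g) ((fderiv ℝ e (g u)).comp (L u + ContinuousLinearMap.id ℝ X)) u :=
      (he.diff (g u)).hasFDerivAt.comp u (hgd u)
    have h4 := (hE u).add h3
    have e2 : ((fun u => g u - u) + (e ∘ g)) = (fun u => (g u + e (g u)) - u) := by
      funext x
      show (g x - x) + e (g x) = (g x + e (g x)) - x
      abel
    rw [e2] at h4
    exact h4
  have hid : ∀ u, ‖L u + ContinuousLinearMap.id ℝ X‖ ≤ 3 / 2 := by
    intro u
    refine (norm_add_le _ _).trans ?_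
    have := ContinuousLinearMap.norm_id_le (𝕜 := ℝ) (E := X)
    have := hL1 u
    linarith
  refine ⟨fun u => (hF u).differentiableAt, fun u => ?_, fun u => ?_, fun u u' hu => ?_⟩
  · have e1 : (g u + e (g u)) - u = (g u - u) + e (g u) := by abel
    rw [e1]
    refine (norm_add_le _ _).trans ?_
    have h2 := hg.b0 u
    have h3 := he.b0 (g u)
    linarith
  · rw [(hF u).fderiv]
    refine (norm_add_le _ _).trans ?_
    have h2 := hL1 u
    have h3 := he.b1 (g u)
    have h4 : ‖(fderiv ℝ e (g u)).comp (L u + ContinuousLinearMap.id ℝ X)‖ ≤ δ * (3 / 2) :=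
      (ContinuousLinearMap.opNorm_comp_le _ _).trans
        (mul_le_mul h3 (hid u) (norm_nonneg _) hδ0)
    linarith
  · rw [(hF u).fderiv, (hF u').fderiv]
    have hp : 0 ≤ pw α ‖u - u'‖ := pw_nonneg (norm_nonneg _)
    -- the distance of the images
    have hy : ‖g u - g u'‖ ≤ 2 * ‖u - u'‖ := by
      have h2 := hg.lip (c := ε₁) (fun _ => le_rfl) u u'
      have e1 : g u - g u' = ((g u - u) - (g u' - u')) + (u - u') := by abel
      rw [e1]
      refine (norm_add_le _ _).trans ?_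
      have h3 : ε₁ * ‖u - u'‖ ≤ 1 / 2 * ‖u - u'‖ :=
        mul_le_mul_of_nonneg_right hε (norm_nonneg _)
      have := norm_nonneg (u - u')
      linarith
    have hsc : pw α (2 * ‖u - u'‖) ≤ 2 * pw α ‖u - u'‖ := pw_scale h1 (by norm_num) (norm_nonneg _)
    have h5 : ‖fderiv ℝ e (g u) - fderiv ℝ e (g u')‖ ≤ 4 * δ * pw α ‖u - u'‖ := by
      rcases le_or_gt ‖g u - g u'‖ 1 with hc | hc
      · have h6 := he.b2 (g u) (g u') hc
        have h7 := (pw_mono h0 (norm_nonneg _) hy).trans hsc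
        have h8 : δ * pw α ‖g u - g u'‖ ≤ δ * (2 * pw α ‖u - u'‖) :=
          mul_le_mul_of_nonneg_left h7 hδ0
        have h9 : 0 ≤ δ * pw α ‖u - u'‖ := mul_nonneg hδ0 hp
        linarith
      · have h6 := he.b1 (g u)
        have h7 := he.b1 (g u')
        have h8 := norm_sub_le (fderiv ℝ e (g u)) (fderiv ℝ e (g u'))
        have h9 : 1 ≤ pw α (2 * ‖u - u'‖) := one_le_pw h0 (by linarith)
        have h10 : δ * 1 ≤ δ * (2 * pw α ‖u - u'‖) := mul_le_mul_of_nonneg_left (h9.trans hsc) hδ0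
        linarith
    have e1 : (L u + (fderiv ℝ e (g u)).comp (L u + ContinuousLinearMap.id ℝ X)) -
        (L u' + (fderiv ℝ e (g u')).comp (L u' + ContinuousLinearMap.id ℝ X)) =
        (L u - L u') + (fderiv ℝ e (g u) - fderiv ℝ e (g u')).comp
          (L u + ContinuousLinearMap.id ℝ X) + (fderiv ℝ e (g u')).comp (L u - L u') := by
      ext v
      simp only [_root_.add_apply, _root_.sub_apply,
        ContinuousLinearMap.comp_apply, ContinuousLinearMap.id_apply, map_add, map_sub]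
      abel
    rw [e1]
    have h6 := hL2 u u' hu
    have h7 : ‖(fderiv ℝ e (g u) - fderiv ℝ e (g u')).comp (L u + ContinuousLinearMap.id ℝ X)‖ ≤
        4 * δ * pw α ‖u - u'‖ * (3 / 2) :=
      (ContinuousLinearMap.opNorm_comp_le _ _).trans
        (mul_le_mul h5 (hid u) (norm_nonneg _) (by positivity))
    have h8 : ‖(fderiv ℝ e (g u')).comp (L u - L u')‖ ≤ δ * (ε₁ * pw α ‖u - u'‖) :=
      (ContinuousLinearMap.opNorm_comp_le _ _).trans
        (mul_le_mul (he.b1 _) h6 (norm_nonneg _) hδ0)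
    have h9 : δ * (ε₁ * pw α ‖u - u'‖) ≤ δ * (1 * pw α ‖u - u'‖) :=
      mul_le_mul_of_nonneg_left (mul_le_mul_of_nonneg_right (by linarith) hp) hδ0
    have h10 := norm_add_le ((L u - L u') + (fderiv ℝ e (g u) - fderiv ℝ e (g u')).comp
          (L u + ContinuousLinearMap.id ℝ X)) ((fderiv ℝ e (g u')).comp (L u - L u'))
    have h11 := norm_add_le (L u - L u') ((fderiv ℝ e (g u) - fderiv ℝ e (g u')).comp
          (L u + ContinuousLinearMap.id ℝ X))
    have e2 : (ε₁ + 7 * δ) * pw α ‖u - u'‖ = ε₁ * pw α ‖u - u'‖ + 7 * (δ * pw α ‖u - u'‖) := by ring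
    rw [e2]
    linarith

theorem main (α : ℝ) (h0 : 0 < α) (h1 : α ≤ 1) : S_COMPA α := by
  intro X _ _ x ρ ε l hρ hε
  induction l generalizing ε with
  | zero =>
    refine ⟨1, one_pos, fun e _ _ => ⟨?_, fun u _ => rfl⟩⟩
    have e1 : (fun u : X => cmp e 0 u - u) = fun _ => (0 : X) := by
      funext u
      exact sub_self u
    rw [e1]
    refine ⟨differentiable_const _, fun u => ?_, fun u => ?_, fun u u' _ => ?_⟩
    · rw [norm_zero]
      exact hε.le
    · rw [fderiv_const_apply, norm_zero]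
      exact hε.le
    · rw [fderiv_const_apply, fderiv_const_apply, sub_zero, norm_zero]
      exact mul_nonneg hε.le (pw_nonneg (norm_nonneg _))
  | succ l ih =>
    obtain ⟨ε₁, hε₁⟩ : ∃ ε₁ : ℝ, ε₁ = min (ε / 2) (1 / 2) := ⟨_, rfl⟩
    have hε1 : 0 < ε₁ := by
      rw [hε₁]
      exact lt_min (by linarith) (by norm_num)
    have hε2 : ε₁ ≤ ε / 2 := by rw [hε₁]; exact min_le_left _ _
    have hε3 : ε₁ ≤ 1 / 2 := by rw [hε₁]; exact min_le_right _ _
    obtain ⟨δ₁, hδ₁, h2⟩ := ih ε₁ hε1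
    obtain ⟨δ, hδ⟩ : ∃ δ : ℝ, δ = min δ₁ (ε / 14) := ⟨_, rfl⟩
    have hδ0 : 0 < δ := by
      rw [hδ]
      exact lt_min hδ₁ (by linarith)
    have hδ1 : δ ≤ δ₁ := by rw [hδ]; exact min_le_left _ _
    have hδ2 : δ ≤ ε / 14 := by rw [hδ]; exact min_le_right _ _
    refine ⟨δ, hδ0, fun e he hs => ?_⟩
    obtain ⟨h3, h4⟩ := h2 e (fun j hj => (he j (by omega)).mono fun _ => hδ1)
      (fun j hj => hs j (by omega))
    refine ⟨?_, fun u hu => ?_⟩
    · have h5 := step h0 h1 hε1.le hε3 hδ0.le h3 (he l (by omega))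
      exact h5.mono fun _ => by linarith
    · show cmp e l u + e l (cmp e l u) = u
      rw [h4 u hu, hs l (by omega) u hu, add_zero]

end Pool.Agent.H247.LC.CompA
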