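import Pool.Agent.H247.LC.Bas

/-!
# The labels of a periodic orbit through the neighbourhood of the base point are exact
-/

set_option autoImplicit false

open scoped Manifold ContDiff Topology
open Set

namespace Pool.Agent.H247.LC

open Pool.Agent.H718R2 (E Wind Sys)

theorem Exl_small {p : E} (h : ‖p‖ ≤ 1 / 8) : Exl p := by
  have h1 : |p.1| ≤ 1 / 8 := (norm_fst_le p).trans h
  have h2 : |p.2.1| ≤ 1 / 8 := (norm_fst_le p.2).trans ((norm_snd_le p).trans h)
  have h3 : |p.2.2| ≤ 1 / 8 := (norm_snd_le p.2).trans ((norm_snd_le p).trans h)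
  exact ⟨by linarith, by linarith, 0, by simpa using h2⟩

namespace Mod

variable {k : ℕ} {f : E → E} {lam : E → ℝ} (m : Mod k f lam)

/-- An orbit of a perturbation near the base point. -/
structure Orb (m : Mod k f lam) (c : ℝ) (v e : ℕ → Tot k) : Prop where
  step : ∀ n, v (n + 1) = m.F (v n + e n)
  supp : ∀ n, 1 / 200 ≤ ‖v n - x₀ k‖ → e n = 0
  small : ∀ n, ‖e n‖ ≤ c

variable {m} {c : ℝ} {v e : ℕ → Tot k}

theorem Orb.near (h : Orb m c v e) (hc : c ≤ 1 / 100) {n : ℕ} (hn : ‖v n - x₀ k‖ < 1 / 200) :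
    ‖v n + e n - x₀ k‖ ≤ 1 / 20 := by
  have h1 : v n + e n - x₀ k = (v n - x₀ k) + e n := by abel
  rw [h1]
  refine (norm_add_le _ _).trans ?_
  have := h.small n
  linarith

theorem near_not_Z {u : Tot k} (hn : ‖u - x₀ k‖ < 1 / 200) : ¬ Z u := by
  intro h
  obtain ⟨P, w', w, t⟩ := u
  have h3 : ‖((P, (w', (w, t))) : Tot k) - x₀ k‖ = max ‖P‖ (max ‖w'‖ (max |w| |t - 1|)) := by
    simp [x₀, Prod.norm_def]
  rw [h3] at hn
  simp only [max_lt_iff] at hn
  have h4 := abs_lt.1 hn.2.2.2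
  have h5 : 31 / 16 < t := h.2.1
  linarith

theorem near_fst {u : Tot k} (hn : ‖u - x₀ k‖ < 1 / 200) : ‖u.1‖ < 1 / 200 := by
  have h1 : (u - x₀ k).1 = u.1 := by simp [x₀]
  rw [← h1]
  exact (norm_fst_le _).trans_lt hn

theorem Orb.visit (h : Orb m c v e) (hc : c ≤ 1 / 100) {n : ℕ} (hn : ‖v n - x₀ k‖ < 1 / 200) :
    Z (v (n + 1)) ∧ m.S (v n) = (v n).1 ∧ ¬ m.Cross (v n + e n) ∧
      m.S (v (n + 1)) = (v n).1 + (e n).1 := by
  obtain ⟨h1, h2, h3, h4⟩ := m.Z_near (h.near hc hn)
  have h5 := (m.Z_near (v := v n) (by linarith)).2.1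
  rw [h.step]
  exact ⟨h1, h5, h3, h4⟩

theorem Orb.free (h : Orb m c v e) {n : ℕ} (hn : 1 / 200 ≤ ‖v n - x₀ k‖) :
    v (n + 1) = m.F (v n) := by
  rw [h.step, h.supp n hn, add_zero]

/-- in the zone, without crossing, the state is constant -/
theorem Orb.zone (h : Orb m c v e) {n : ℕ} (hZ : Z (v n)) :
    ∀ j, (∀ i, i < j → ¬ m.Cross (v (n + i) + e (n + i))) →
      Z (v (n + j)) ∧ m.S (v (n + j)) = m.S (v n) := by
  intro j
  induction j with
  | zero => intro _; exact ⟨hZ, rfl⟩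
  | succ j ih =>
    intro hj
    obtain ⟨h1, h2⟩ := ih fun i hi => hj i (by omega)
    have h3 : 1 / 200 ≤ ‖v (n + j) - x₀ k‖ := by
      by_contra hc
      exact near_not_Z (not_le.1 hc) h1
    have h4 := hj j (by omega)
    rw [h.supp _ h3, add_zero] at h4
    rw [← add_assoc, h.free h3]
    exact ⟨m.Z_F h1 h4, by rw [m.S_F_of_not h4, h2]⟩

/-- between two crossings -/
theorem Orb.between (h : Orb m c v e) (hc : c ≤ 1 / 100) {n : ℕ} :
    ∀ j, (∀ i, i < j → ¬ m.Cross (v (n + i) + e (n + i))) →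
      m.S (v (n + j)) = m.S (v n) ∨ (Z (v (n + j)) ∧ ‖m.S (v n)‖ ≤ 1 / 200 ∧
        ‖m.S (v (n + j)) - m.S (v n)‖ ≤ c) := by
  intro j
  induction j with
  | zero => intro _; exact Or.inl rfl
  | succ j ih =>
    intro hj
    have h4 := hj j (by omega)
    rcases ih fun i hi => hj i (by omega) with h1 | ⟨h1, h2, h3⟩
    · by_cases hn : 1 / 200 ≤ ‖v (n + j) - x₀ k‖
      · left
        rw [h.supp _ hn, add_zero] at h4
        rw [← add_assoc, h.free hn, m.S_F_of_not h4, h1]
      · right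
        rw [not_le] at hn
        obtain ⟨a1, a2, a3, a4⟩ := h.visit hc hn
        refine ⟨a1, ?_, ?_⟩
        · rw [← h1, a2]
          exact (near_fst hn).le
        · rw [← add_assoc, a4, ← h1, a2, add_sub_cancel_left]
          exact (norm_fst_le _).trans (h.small _)
    · right
      obtain ⟨b1, b2⟩ := h.zone h1 1 (by
        intro i hi
        obtain rfl : i = 0 := by omega
        exact h4)
      exact ⟨b1, h2, by rw [← add_assoc, b2]; exact h3⟩

end Mod

open Pool.Agent.H247.LC.Mod in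
/-- **The labels of a periodic orbit near the base point are exact.** -/
theorem lab_exact {κ θ : ℝ} (hκ : 0 < κ) (hκ' : κ ≤ 1 / 10 ^ 12) (hθ : θ = κ ^ 24) {om : E → ℝ}
    (hom : Wind κ θ om) {k : ℕ} {f : E → E} {lam : E → ℝ} (hf : ContDiff ℝ 2 f) (hS : Sys θ om f)
    (m : Mod k f lam) {v e : ℕ → Tot k} (h : Orb m (θ ^ 24) v e) (K : ℕ) (hK : 1 ≤ K)
    (hper : ∀ n, v (n + K) = v n) (hpe : ∀ n, e (n + K) = e n) (h0 : ‖v 0 - x₀ k‖ < 1 / 200) :
    ∀ n, Exl (m.S (v n)) := by
  classical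
  obtain ⟨hθ0, hθ1⟩ := Pool.Agent.H718R2.θ_small hκ hκ' hθ
  have hc : θ ^ 24 ≤ 1 / 100 :=
    (Pool.Agent.H718R2.pow_small hθ0 hθ1 (by norm_num)).trans (by norm_num)
  set X : ℕ → Prop := fun n => m.Cross (v n + e n) with hX
  have hXK : ∀ n, X (n + K) ↔ X n := by
    intro n
    simp only [hX, hper, hpe]
  have hXmul : ∀ j n, X (n + j * K) ↔ X n := by
    intro j
    induction j with
    | zero => intro n; simp
    | succ j ih =>
      intro n
      rw [show n + (j + 1) * K = (n + j * K) + K by ring, hXK, ih]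
  have hpermul : ∀ j n, v (n + j * K) = v n := by
    intro j
    induction j with
    | zero => intro n; simp
    | succ j ih =>
      intro n
      rw [show n + (j + 1) * K = (n + j * K) + K by ring, hper, ih]
  -- there is a crossing
  have hex : ∃ n, n < K ∧ X n := by
    by_contra hcon
    push Not at hcon
    obtain ⟨h1, -, -, -⟩ := h.visit hc h0
    have h2 := (h.zone h1 (K - 1) (by
      intro i hi
      rcases Nat.lt_or_ge (0 + 1 + i) K with hlt | hge
      · exact hcon _ hlt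
      · omega)).1
    rw [show 0 + 1 + (K - 1) = 0 + K by omega, hper] at h2
    exact near_not_Z h0 h2
  -- the last crossing before `K`
  obtain ⟨a, haK, hXa, hamax⟩ : ∃ a, a < K ∧ X a ∧ ∀ n, a < n → n < K → ¬ X n := by
    obtain ⟨n0, hn0, hXn0⟩ := hex
    have h1 := Nat.findGreatest_spec (P := X) (n := K - 1) (m := n0) (by omega) hXn0
    refine ⟨Nat.findGreatest X (K - 1), ?_, h1, ?_⟩
    · have := Nat.findGreatest_le (P := X) (K - 1)
      omega
    · intro n hn1 hn2
      exact Nat.findGreatest_is_greatest hn1 (by omega)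
  -- the next crossing
  have hnext : ∀ n, ∃ j, n ≤ j ∧ X j := by
    intro n
    exact ⟨a + n * K, by nlinarith, (hXmul n a).2 hXa⟩
  let nx : ℕ → ℕ := fun n => Nat.find (hnext n)
  have nx1 : ∀ n, n ≤ nx n := fun n => (Nat.find_spec (hnext n)).1
  have nx2 : ∀ n, X (nx n) := fun n => (Nat.find_spec (hnext n)).2
  have nx3 : ∀ n i, n ≤ i → i < nx n → ¬ X i := by
    intro n i h1 h2 h3
    exact Nat.find_min (hnext n) h2 ⟨h1, h3⟩
  have nx4 : ∀ n j, n ≤ j → X j → nx n ≤ j := fun n j h1 h2 => Nat.find_min' (hnext n) ⟨h1, h2⟩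
  have nxK : ∀ n, nx (n + K) = nx n + K := by
    intro n
    apply le_antisymm
    · exact nx4 _ _ (by have := nx1 n; omega) ((hXK _).2 (nx2 n))
    · have h1 := nx1 (n + K)
      have h2 : X (nx (n + K) - K) := by
        rw [← hXK, Nat.sub_add_cancel (by omega)]
        exact nx2 _
      have h3 := nx4 n (nx (n + K) - K) (by omega) h2
      omega
  let cr : ℕ → ℕ := fun i => Nat.rec a (fun _ x => nx (x + 1)) i
  have cr0 : cr 0 = a := rfl
  have crs : ∀ i, cr (i + 1) = nx (cr i + 1) := fun i => rfl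
  have crlt : ∀ i, cr i < cr (i + 1) := fun i => by
    have := nx1 (cr i + 1)
    rw [crs]; omega
  have crge : ∀ i, a + i ≤ cr i := by
    intro i
    induction i with
    | zero => simp [cr0]
    | succ i ih => have := crlt i; omega
  -- periodicity of the crossing times
  obtain ⟨L, hL1, hL⟩ : ∃ L, 1 ≤ L ∧ cr L = a + K := by
    have hex2 : ∃ L, a + K ≤ cr L := ⟨K, crge K⟩
    have h1 := Nat.find_spec hex2
    have h2 : Nat.find hex2 ≠ 0 := by
      intro h0'
      rw [h0', cr0] at h1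
      omega
    obtain ⟨l, hl⟩ := Nat.exists_eq_succ_of_ne_zero h2
    have h3 : cr l < a + K := by
      by_contra hcon
      exact Nat.find_min hex2 (show l < Nat.find hex2 by omega) (not_lt.1 hcon)
    refine ⟨Nat.find hex2, by omega, le_antisymm ?_ h1⟩
    rw [hl]
    show cr (l + 1) ≤ _
    rw [crs]
    exact nx4 _ _ (by omega) ((hXK a).2 hXa)
  have crL : ∀ i, cr (i + L) = cr i + K := by
    intro i
    induction i with
    | zero => rw [Nat.zero_add, hL, cr0]
    | succ i ih =>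
      rw [show i + 1 + L = (i + L) + 1 by ring, crs, ih, crs,
        show cr i + K + 1 = cr i + 1 + K by ring, nxK]
  let s : ℕ → E := fun n => m.S (v n)
  let Q : ℕ → E := fun i => s (cr i + 1)
  let ee : ℕ → E := fun i => s (cr (i + 1)) - Q i
  -- no crossing between
  have hno : ∀ i j, cr i + 1 + j < cr (i + 1) → ¬ X (cr i + 1 + j) := by
    intro i j hj
    exact nx3 (cr i + 1) _ (by omega) (by rw [← crs]; exact hj)
  have hbet : ∀ i j, cr i + 1 + j ≤ cr (i + 1) → s (cr i + 1 + j) = Q i ∨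
      (Z (v (cr i + 1 + j)) ∧ ‖Q i‖ ≤ 1 / 200 ∧ ‖s (cr i + 1 + j) - Q i‖ ≤ θ ^ 24) := by
    intro i j hj
    exact h.between hc j fun l hl => hno i l (by omega)
  have hbet2 : ∀ i j, cr i + 1 + j ≤ cr (i + 1) → s (cr i + 1 + j) = Q i ∨
      s (cr i + 1 + j) = Q i + ee i := by
    intro i j hj
    rcases hbet i j hj with h1 | ⟨h1, -, -⟩
    · exact Or.inl h1
    · right
      have h2 := (h.zone h1 (cr (i + 1) - (cr i + 1 + j)) (by
        intro l hl
        rw [show cr i + 1 + j + l = cr i + 1 + (j + l) by ring]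
        exact hno i (j + l) (by omega))).2
      rw [show cr i + 1 + j + (cr (i + 1) - (cr i + 1 + j)) = cr (i + 1) by omega] at h2
      show s (cr i + 1 + j) = Q i + (s (cr (i + 1)) - Q i)
      rw [add_sub_cancel]
      exact h2.symm
  have hstep : ∀ i, Q (i + 1) = f (Q i + ee i) := by
    intro i
    show m.S (v (cr (i + 1) + 1)) = f (Q i + (s (cr (i + 1)) - Q i))
    rw [add_sub_cancel]
    have h1 : X (cr (i + 1)) := by rw [crs]; exact nx2 _
    have h2 : 1 / 200 ≤ ‖v (cr (i + 1)) - x₀ k‖ := by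
      by_contra hcon
      exact (h.visit hc (not_le.1 hcon)).2.2.1 h1
    have h3 := h1
    simp only [hX] at h3
    rw [h.supp _ h2, add_zero] at h3
    rw [h.free h2, m.S_F_of_cross h3]
  have hle : ∀ i, cr i + 1 + (cr (i + 1) - (cr i + 1)) = cr (i + 1) := fun i => by
    have := crlt i; omega
  have hee : ∀ i, ‖ee i‖ ≤ θ ^ 24 ∧ (ee i ≠ 0 → ‖Q i‖ ≤ 1 / 200) := by
    intro i
    have h1 := hbet i (cr (i + 1) - (cr i + 1)) (hle i).le
    rw [hle] at h1
    rcases h1 with h1 | ⟨-, h2, h3⟩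
    · have : ee i = 0 := by
        show s (cr (i + 1)) - Q i = 0
        rw [h1, sub_self]
      rw [this]
      exact ⟨by simp; positivity, fun h => absurd rfl h⟩
    · exact ⟨h3, fun _ => h2⟩
  have hQL : ∀ i, Q (i + L) = Q i := by
    intro i
    show m.S (v (cr (i + L) + 1)) = m.S (v (cr i + 1))
    rw [crL, show cr i + K + 1 = cr i + 1 + K by ring, hper]
  have hQ0 : ‖Q 0‖ ≤ 1 / 200 := by
    have hK1 : cr 0 + 1 + (K - (a + 1)) = K := by rw [cr0]; omega
    have h2 : K ≤ cr (0 + 1) := by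
      rw [show cr (0 + 1) = nx (cr 0 + 1) from rfl, cr0]
      by_contra hcon
      rw [not_le] at hcon
      exact hamax _ (by have := nx1 (a + 1); omega) hcon (nx2 (a + 1))
    have h3 := hbet 0 (K - (a + 1)) (by rw [hK1]; exact h2)
    rw [hK1] at h3
    have h4 : v K = v 0 := by
      have := hper 0
      rwa [Nat.zero_add] at this
    rcases h3 with h3 | ⟨h3, -, -⟩
    · rw [← h3]
      show ‖m.S (v K)‖ ≤ _
      rw [h4, (h.visit hc h0).2.1]
      exact (near_fst h0).le
    · rw [h4] at h3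
      exact absurd h3 (near_not_Z h0)
  have hlab := labels hκ hκ' hθ hom hf hS Q ee hstep (fun i => (hee i).1) (fun i => (hee i).2) L hL1
    hQL hQ0
  have hx1 : ∀ i, Exl (Q i + ee i) := fun i => hlab i
  have hx2 : ∀ i, Exl (Q i) := by
    intro i
    by_cases h1 : ee i = 0
    · have := hx1 i
      rwa [h1, add_zero] at this
    · exact Exl_small (((hee i).2 h1).trans (by norm_num))
  intro n
  -- the interval containing `n + K`
  have hn : v n = v (n + (a + 1) * K) := (hpermul _ _).symm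
  rw [hn]
  obtain ⟨N, hN⟩ : ∃ N, N = n + (a + 1) * K := ⟨_, rfl⟩
  have hN1 : a + 1 ≤ N := by nlinarith
  rw [← hN]
  have hex3 : ∃ i, N ≤ cr (i + 1) := ⟨N, by have := crge (N + 1); omega⟩
  have h1 := Nat.find_spec hex3
  have h2 : cr (Nat.find hex3) + 1 ≤ N := by
    rcases Nat.eq_zero_or_pos (Nat.find hex3) with h0' | hpos
    · rw [h0', cr0]
      exact hN1
    · have := Nat.find_min hex3 (m := Nat.find hex3 - 1) (by omega)
      rw [Nat.sub_add_cancel hpos] at this
      omega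
  have h3 := hbet2 (Nat.find hex3) (N - (cr (Nat.find hex3) + 1)) (by omega)
  rw [show cr (Nat.find hex3) + 1 + (N - (cr (Nat.find hex3) + 1)) = N by omega] at h3
  rcases h3 with h3 | h3
  · show Exl (s N)
    rw [h3]
    exact hx2 _
  · show Exl (s N)
    rw [h3]
    exact hx1 _

end Pool.Agent.H247.LC
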