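import Pool.Agent.H247.LC.Bas

/-!
# Loops: exact labels return with expanded contents
-/

set_option autoImplicit false

open scoped Manifold ContDiff Topology
open Set

namespace Pool.Agent.H247.LC

open Pool.Agent.H718R2 (E Wind Sys)

namespace Mod

variable {k : ℕ} {f : E → E} {lam : E → ℝ} (m : Mod k f lam)

theorem C_id' {v : Tot k} (hw : |v.2.2.1| ≤ 1 / 8)
    (ht : (7 / 8 ≤ v.2.2.2 ∧ v.2.2.2 ≤ 57 / 8) ∨ (71 / 8 ≤ v.2.2.2 ∧ v.2.2.2 ≤ 121 / 8)) :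
    m.C v = v := by
  have h4 := abs_le.1 hw
  apply m.C_id
  · rcases ht with ⟨h1, h2⟩ | ⟨h1, h2⟩
    · nlinarith [sq_nonneg v.2.2.1]
    · nlinarith [sq_nonneg v.2.2.1]
  · left
    rcases ht with ⟨h1, h2⟩ | ⟨h1, h2⟩
    · nlinarith
    · nlinarith

/-- time coordinate of the iterates in label coordinates -/
noncomputable def tt (u : Tot k) (i : ℕ) : ℝ := (m.L^[i] u).2.2.2

theorem L_iter (u : Tot k) (i : ℕ) : m.L^[i] u = (u.1, (u.2.1, (u.2.2.1, m.tt u i))) := by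
  unfold tt
  induction i with
  | zero => rfl
  | succ i ih =>
    rw [Function.iterate_succ_apply', ih]
    rfl

theorem tt_zero (u : Tot k) : m.tt u 0 = u.2.2.2 := rfl

theorem tt_succ (u : Tot k) (i : ℕ) :
    m.tt u (i + 1) = m.τ (u.1, (u.2.1, (u.2.2.1, m.tt u i))) := by
  show (m.L^[i + 1] u).2.2.2 = _
  rw [Function.iterate_succ_apply', L_iter]
  rfl

theorem tt_mono (u : Tot k) : Monotone (m.tt u) := by
  apply monotone_nat_of_le_succ
  intro i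
  rw [tt_succ]
  exact m.τ_ge (u.1, (u.2.1, (u.2.2.1, m.tt u i)))

theorem free {u : Tot k} (hw : |u.2.2.1| ≤ 1 / 8) (J : ℕ)
    (h : ∀ i, 1 ≤ i → i ≤ J → (7 / 8 ≤ m.tt u i ∧ m.tt u i ≤ 57 / 8) ∨
      (71 / 8 ≤ m.tt u i ∧ m.tt u i ≤ 121 / 8)) :
    ∀ i, i ≤ J → m.F^[i] (m.Φ u) = m.Φ (m.L^[i] u) := by
  intro i
  induction i with
  | zero => intro _; rfl
  | succ i ih =>
    intro hi
    rw [Function.iterate_succ_apply', ih (by omega), F_eq, T, Φi_Φ,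
      ← Function.iterate_succ_apply' m.L]
    apply m.C_id'
    · rw [L_iter]
      exact m.P_le _ hw
    · exact h (i + 1) (by omega) hi

/-- schedule of an exact transit -/
theorem sched {p : E} {N : ℕ} (hN : ∀ (w' : EuclideanSpace ℝ (Fin k)) (w t : ℝ), ‖w'‖ ≤ 1 / 2 →
      |w| ≤ 1 / 2 → -3 ≤ t → t ≤ 11 →
      (fun u : Tot k => ((u.1, (u.2.1, (u.2.2.1, m.τ u))) : Tot k))^[N] (p, (w', (w, t))) =
        (p, (w', (w, t + 8))))
    {w' : EuclideanSpace ℝ (Fin k)} {w a : ℝ} (hw' : ‖w'‖ ≤ 1 / 8) (hw : |w| ≤ 1 / 8)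
    (ha : (7 / 8 ≤ a ∧ a ≤ 9 / 8) ∨ (63 / 8 ≤ a ∧ a ≤ 65 / 8)) :
    3 ≤ N ∧ m.tt (p, (w', (w, a))) 1 = a + 1 ∧ m.tt (p, (w', (w, a))) (N - 2) = a + 6 ∧
      m.tt (p, (w', (w, a))) (N - 1) = a + 7 ∧ m.tt (p, (w', (w, a))) N = a + 8 := by
  have hw'2 : ‖w'‖ ≤ 1 / 2 := by linarith
  have hw2 : |w| ≤ 1 / 2 := by linarith
  have e8 : m.L^[N] (p, (w', (w, a))) = (p, (w', (w, a + 8))) := by
    apply hN w' w a hw'2 hw2
    · rcases ha with h | h <;> linarith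
    · rcases ha with h | h <;> linarith
  have hfast : ∀ t : ℝ, ((-(5 / 2) ≤ t ∧ t ≤ 5 / 3) ∨ (16 / 3 ≤ t ∧ t ≤ 29 / 3) ∨
      (40 / 3 ≤ t ∧ t ≤ 17)) → m.L (p, (w', (w, t))) = (p, (w', (w, t + 1))) := by
    intro t ht
    rw [L, m.τ_fast (p, (w', (w, t))) hw'2 hw2 ht]
  have hne : ∀ t t' : ℝ, ((p, (w', (w, t))) : Tot k) = (p, (w', (w, t'))) → t = t' := by
    intro t t' h
    simpa using h
  have f0 : m.L (p, (w', (w, a))) = (p, (w', (w, a + 1))) := by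
    apply hfast
    rcases ha with h | h
    · left; constructor <;> linarith
    · right; left; constructor <;> linarith
  have f7 : m.L (p, (w', (w, a + 7))) = (p, (w', (w, a + 8))) := by
    rw [show a + 8 = (a + 7) + 1 by ring]
    apply hfast
    rcases ha with h | h
    · right; left; constructor <;> linarith
    · right; right; constructor <;> linarith
  have f6 : m.L (p, (w', (w, a + 6))) = (p, (w', (w, a + 7))) := by
    rw [show a + 7 = (a + 6) + 1 by ring]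
    apply hfast
    rcases ha with h | h
    · right; left; constructor <;> linarith
    · right; right; constructor <;> linarith
  have hinj : Function.Injective m.L := m.τ_inj
  -- N = N1 + 1
  obtain ⟨N1, rfl⟩ : ∃ N1, N = N1 + 1 := by
    rcases Nat.eq_zero_or_pos N with h | h
    · exfalso
      subst h
      have := hne _ _ e8
      linarith
    · exact ⟨N - 1, by omega⟩
  have e7 : m.L^[N1] (p, (w', (w, a))) = (p, (w', (w, a + 7))) := by
    apply hinj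
    rw [← Function.iterate_succ_apply' m.L, e8, f7]
  obtain ⟨N2, rfl⟩ : ∃ N2, N1 = N2 + 1 := by
    rcases Nat.eq_zero_or_pos N1 with h | h
    · exfalso
      subst h
      have := hne _ _ e7
      linarith
    · exact ⟨N1 - 1, by omega⟩
  have e6 : m.L^[N2] (p, (w', (w, a))) = (p, (w', (w, a + 6))) := by
    apply hinj
    rw [← Function.iterate_succ_apply' m.L, e7, f6]
  have hN2 : N2 ≠ 0 := by
    rintro rfl
    have := hne _ _ e6
    linarith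
  refine ⟨by omega, ?_, ?_, ?_, ?_⟩
  · show (m.L^[1] (p, (w', (w, a)))).2.2.2 = _
    rw [Function.iterate_one, f0]
  · show (m.L^[N2 + 1 + 1 - 2] (p, (w', (w, a)))).2.2.2 = _
    rw [show N2 + 1 + 1 - 2 = N2 by omega, e6]
  · show (m.L^[N2 + 1 + 1 - 1] (p, (w', (w, a)))).2.2.2 = _
    rw [show N2 + 1 + 1 - 1 = N2 + 1 by omega, e7]
  · show (m.L^[N2 + 1 + 1] (p, (w', (w, a)))).2.2.2 = _
    rw [e8]

/-- far from the base point (in time) -/
def Far (v : Tot k) : Prop := 7 / 8 ≤ |v.2.2.2 - 1|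

/-- a path whose points, after the first, are far -/
def Path (n : ℕ) (u v : Tot k) : Prop :=
  m.F^[n] u = v ∧ ∀ i, 1 ≤ i → i ≤ n → Far (m.F^[i] u)

theorem Path.trans {n n' : ℕ} {u v w : Tot k} (h : m.Path n u v) (h' : m.Path n' v w) :
    m.Path (n + n') u w := by
  obtain ⟨h1, h2⟩ := h
  obtain ⟨h3, h4⟩ := h'
  have key : ∀ i, m.F^[n + i] u = m.F^[i] v := by
    intro i
    rw [add_comm, Function.iterate_add_apply, h1]
  refine ⟨by rw [key, h3], ?_⟩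
  intro i hi1 hi2
  rcases Nat.lt_or_ge n i with hlt | hge
  · obtain ⟨j, rfl⟩ : ∃ j, i = n + j := ⟨i - n, by omega⟩
    rw [key]
    exact h4 j (by omega) (by omega)
  · exact h2 i hi1 hge

theorem leg1 {p : E} {N : ℕ} (hN : ∀ (w' : EuclideanSpace ℝ (Fin k)) (w t : ℝ), ‖w'‖ ≤ 1 / 2 →
      |w| ≤ 1 / 2 → -3 ≤ t → t ≤ 11 →
      (fun u : Tot k => ((u.1, (u.2.1, (u.2.2.1, m.τ u))) : Tot k))^[N] (p, (w', (w, t))) =
        (p, (w', (w, t + 8))))
    {w' : EuclideanSpace ℝ (Fin k)} {w φ : ℝ} (hw' : ‖w'‖ ≤ 1 / 8) (hw : |w| ≤ 1 / 8)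
    (hφ : |φ| ≤ 1 / 8) :
    m.Path (N - 1) (p, (w', (w, 1 + φ))) (p, (w', (-φ, 8 + m.Ψ (lam p) w))) := by
  have hφ' := abs_le.1 hφ
  obtain ⟨h3, t1, t6, t7, -⟩ := m.sched hN hw' hw (a := 1 + φ)
    (Or.inl ⟨by linarith, by linarith⟩)
  set u : Tot k := (p, (w', (w, 1 + φ))) with hu
  have hΦ : m.Φ u = u := m.Φ_early (by show 1 + φ ≤ _; linarith)
  have hfree := m.free (u := u) hw (N - 2) (by
    intro i hi1 hi2
    left
    have a1 := m.tt_mono u hi1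
    have a2 := m.tt_mono u hi2
    rw [t1] at a1
    rw [t6] at a2
    constructor <;> linarith)
  rw [hΦ] at hfree
  have hP := m.P_le (lam p) hw
  have hlast : m.F^[N - 1] u = (p, (w', (-φ, 8 + m.Ψ (lam p) w))) := by
    rw [show N - 1 = (N - 2) + 1 by omega, Function.iterate_succ_apply', hfree _ le_rfl, F_eq, T,
      Φi_Φ, ← Function.iterate_succ_apply' m.L, show (N - 2).succ = N - 1 by omega, L_iter, t7]
    have e1 : m.Φ (u.1, u.2.1, u.2.2.1, 1 + φ + 7) = (p, (w', (m.Ψ (lam p) w, 8 + φ))) := by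
      simp only [Φ, hu, β₁_one (show 9 / 2 ≤ 1 + φ + 7 by linarith),
        β₂_zero (show 1 + φ + 7 ≤ 23 / 2 by linarith), m.h0, zero_mul, m.K0, add_zero, one_mul]
      rw [show 1 + φ + 7 = 8 + φ by ring]
    rw [e1]
    have e2 := m.C_disc (p, (w', (m.Ψ (lam p) w, 8 + φ))) (by show ‖w'‖ ≤ _; linarith) (by
      show (m.Ψ (lam p) w) ^ 2 + (8 + φ - 8) ^ 2 ≤ 1 / 8
      have := abs_le.1 hP
      nlinarith)
    have e3 := m.C_fst (p, (w', (m.Ψ (lam p) w, 8 + φ)))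
    have e4 := m.C_snd (p, (w', (m.Ψ (lam p) w, 8 + φ)))
    refine Prod.ext e3 (Prod.ext e4 ?_)
    rw [e2]
    show ((8 - (8 + φ), 8 + m.Ψ (lam p) w) : ℝ × ℝ) = (-φ, 8 + m.Ψ (lam p) w)
    rw [show 8 - (8 + φ) = -φ by ring]
  refine ⟨hlast, ?_⟩
  intro i hi1 hi2
  rcases Nat.lt_or_ge (N - 2) i with hlt | hge
  · have : i = N - 1 := by omega
    rw [this, hlast]
    show 7 / 8 ≤ |8 + m.Ψ (lam p) w - 1|
    have := abs_le.1 hP
    rw [abs_of_nonneg (by linarith)]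
    linarith
  · rw [hfree i hge]
    show 7 / 8 ≤ |m.tt u i - 1|
    have a1 := m.tt_mono u hi1
    rw [t1] at a1
    rw [abs_of_nonneg (by linarith)]
    linarith

theorem leg2 {p : E} {N : ℕ} (hN : ∀ (w' : EuclideanSpace ℝ (Fin k)) (w t : ℝ), ‖w'‖ ≤ 1 / 2 →
      |w| ≤ 1 / 2 → -3 ≤ t → t ≤ 11 →
      (fun u : Tot k => ((u.1, (u.2.1, (u.2.2.1, m.τ u))) : Tot k))^[N] (p, (w', (w, t))) =
        (p, (w', (w, t + 8))))
    {w' : EuclideanSpace ℝ (Fin k)} {w c : ℝ} (hw' : ‖w'‖ ≤ 1 / 8) (hw : |w| ≤ 1 / 8)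
    (hc : |c| ≤ 1 / 8) :
    m.Path N (p, (w', (w, 8 + c)))
      (f p, (m.ΨK (lam p) w', (c, -(m.Ψ (lam p) w)))) := by
  have hc' := abs_le.1 hc
  have hP := m.P_le (lam p) hw
  have hPm := m.P_le (-lam p) hw
  have hKK := m.K_le (lam p) hw'
  obtain ⟨h3, t1, -, t7, t8⟩ := m.sched hN hw' hPm (a := 8 + c)
    (Or.inr ⟨by linarith, by linarith⟩)
  set u : Tot k := (p, (w', (m.Ψ (-lam p) w, 8 + c))) with hu
  have hΦ : m.Φ u = (p, (w', (w, 8 + c))) := by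
    simp only [Φ, hu, β₁_one (show 9 / 2 ≤ 8 + c by linarith),
      β₂_zero (show 8 + c ≤ 23 / 2 by linarith), m.h0, zero_mul, m.K0, add_zero, one_mul, m.P_inv]
  have hfree := m.free (u := u) hPm (N - 1) (by
    intro i hi1 hi2
    right
    have a1 := m.tt_mono u hi1
    have a2 := m.tt_mono u hi2
    rw [t1] at a1
    rw [t7] at a2
    constructor <;> linarith)
  rw [hΦ] at hfree
  have hlast : m.F^[N] (p, (w', (w, 8 + c))) =
      (f p, (m.ΨK (lam p) w', (c, -(m.Ψ (lam p) w)))) := by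
    conv_lhs => rw [show N = (N - 1) + 1 by omega]
    rw [Function.iterate_succ_apply', hfree _ le_rfl, F_eq, T,
      Φi_Φ, ← Function.iterate_succ_apply' m.L, show (N - 1).succ = N by omega, L_iter, t8]
    have e1 : m.Φ (u.1, u.2.1, u.2.2.1, 8 + c + 8) =
        (f p, (m.ΨK (lam p) w', (m.Ψ (lam p) w, 16 + c))) := by
      simp only [Φ, hu, β₁_one (show 9 / 2 ≤ 8 + c + 8 by linarith),
        β₂_one (show 25 / 2 ≤ 8 + c + 8 by linarith), m.h1, one_mul]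
      rw [← m.Padd, show (1 + 1) * lam p + -lam p = lam p by ring,
        show 8 + c + 8 = 16 + c by ring]
    rw [e1]
    have e2 := m.C_ann (f p, (m.ΨK (lam p) w', (m.Ψ (lam p) w, 16 + c)))
      (by show ‖m.ΨK (lam p) w'‖ ≤ _; linarith) (by
        show |(m.Ψ (lam p) w + 8) ^ 2 + (16 + c - 8) ^ 2 - 128| ≤ 5
        have := abs_le.1 hP
        rw [abs_le]
        constructor <;> nlinarith)
    have e3 := m.C_fst (f p, (m.ΨK (lam p) w', (m.Ψ (lam p) w, 16 + c)))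
    have e4 := m.C_snd (f p, (m.ΨK (lam p) w', (m.Ψ (lam p) w, 16 + c)))
    refine Prod.ext e3 (Prod.ext e4 ?_)
    rw [e2]
    show ((16 + c - 16, -(m.Ψ (lam p) w)) : ℝ × ℝ) = (c, -(m.Ψ (lam p) w))
    rw [show 16 + c - 16 = c by ring]
  refine ⟨hlast, ?_⟩
  intro i hi1 hi2
  rcases Nat.lt_or_ge (N - 1) i with hlt | hge
  · have : i = N := by omega
    rw [this, hlast]
    show 7 / 8 ≤ |-(m.Ψ (lam p) w) - 1|
    have := abs_le.1 hP
    rw [abs_of_nonpos (by linarith)]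
    linarith
  · rw [hfree i hge]
    show 7 / 8 ≤ |m.tt u i - 1|
    have a1 := m.tt_mono u hi1
    rw [t1] at a1
    rw [abs_of_nonneg (by linarith)]
    linarith

/-- the last step -/
theorem step0 {p : E} {w' : EuclideanSpace ℝ (Fin k)} {w c : ℝ} (hw' : ‖w'‖ ≤ 1 / 8)
    (hw : |w| ≤ 1 / 8) (hc : |c| ≤ 1 / 8) :
    m.F (p, (w', (w, c))) = (p, (w', (w, 1 + c))) := by
  have hc' := abs_le.1 hc
  have hT : m.T (p, w', w, c) = (p, (w', (w, c + 1))) := by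
    rw [T, m.Φi_early (by show c ≤ 7 / 2; linarith), L, m.τ_fast _ (by show ‖w'‖ ≤ _; linarith)
      (by show |w| ≤ _; linarith) (Or.inl ⟨by show _ ≤ c; linarith, by show c ≤ _; linarith⟩)]
    exact m.Φ_early (by show c + 1 ≤ 7 / 2; linarith)
  rw [F_eq, hT, m.C_id' (v := (p, (w', (w, c + 1)))) hw (Or.inl ⟨by show _ ≤ c + 1; linarith,
    by show c + 1 ≤ _; linarith⟩), add_comm c 1]

/-- **The loop.** -/
theorem loop {p : E} (hp : Exl p) {w' : EuclideanSpace ℝ (Fin k)} {w φ : ℝ} (hw' : ‖w'‖ ≤ 1 / 8)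
    (hw : |w| ≤ 1 / 8) (hφ : |φ| ≤ 1 / 8) :
    ∃ n : ℕ, 1 ≤ n ∧ m.F^[n] (p, (w', (w, 1 + φ))) =
        (f p, (m.ΨK (lam p) w', (m.Ψ (lam p) w, 1 + -(m.Ψ (lam p) (-φ))))) ∧
      ∀ i, 1 ≤ i → i < n → Far (m.F^[i] (p, (w', (w, 1 + φ)))) := by
  obtain ⟨N, hN⟩ := m.τ_exact p hp
  have h1 := m.leg1 hN hw' hw hφ
  have hφn : |-φ| ≤ 1 / 8 := by rwa [abs_neg]
  have h2 := m.leg2 hN hw' hφn (m.P_le (lam p) hw)
  obtain ⟨h3, h4⟩ := Path.trans m h1 h2
  refine ⟨N - 1 + N + 1, by omega, ?_, ?_⟩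
  · rw [Function.iterate_succ_apply', h3]
    exact m.step0 (m.K_le _ hw') (m.P_le _ hw) (by rw [abs_neg]; exact m.P_le _ hφn)
  · intro i hi1 hi2
    exact h4 i hi1 (by omega)

end Mod

end Pool.Agent.H247.LC
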