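import Pool.Agent.H247.LC.Dyn1
import Pool.Agent.H247.LC.Loop

/-!
# No periodic orbit through the small neighbourhood of the base point
-/

set_option autoImplicit false

open scoped Manifold ContDiff Topology
open Set

namespace Pool.Agent.H247.LC

open Pool.Agent.H718R2 (E Wind Sys)

/-- the map of the contents and labels after one loop -/
noncomputable def stepM {k : ℕ} (f : E → E) (b : E → ℝ) (e : E × Con k → E × Con k)
    (z : E × Con k) : E × Con k :=
  (f (z + e z).1, (b (z + e z).1)⁻¹ • (z + e z).2)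

theorem x₀_add {k : ℕ} (y : Tot k) : x₀ k + y = (y.1, (y.2.1, (y.2.2.1, 1 + y.2.2.2))) := by
  obtain ⟨a, b, c, d⟩ := y
  show ((0 + a, (0 + b, (0 + c, 1 + d))) : Tot k) = _
  simp

theorem Far_norm {k : ℕ} {v : Tot k} (h : Mod.Far v) : 1 / 200 ≤ ‖v - x₀ k‖ := by
  have h1 : |v.2.2.2 - 1| ≤ ‖v - x₀ k‖ := by
    have h2 : (v - x₀ k).2.2.2 = v.2.2.2 - 1 := by simp [x₀]
    rw [← h2, ← Real.norm_eq_abs]
    exact (norm_snd_le _).trans ((norm_snd_le _).trans (norm_snd_le _))
  have h3 : 7 / 8 ≤ |v.2.2.2 - 1| := h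
  linarith

theorem expand_eq {K : Type*} [NormedAddCommGroup K] [NormedSpace ℝ K] (Ψ : ℝ → K → K)
    (h0 : ∀ w, Ψ 0 w = w) (hadd : ∀ s t w, Ψ (s + t) w = Ψ s (Ψ t w))
    (hin : ∀ s w, ‖w‖ ≤ 1 / 16 → Real.exp s * ‖w‖ ≤ 1 / 16 → Ψ s w = Real.exp s • w)
    {s : ℝ} (hs : 0 ≤ s) {w : K} (hw : ‖Ψ s w‖ ≤ 1 / 16) : Ψ s w = Real.exp s • w := by
  have h1 : Ψ (-s) (Ψ s w) = w := by rw [← hadd, neg_add_cancel, h0]
  have h2 : Real.exp (-s) * ‖Ψ s w‖ ≤ 1 / 16 := by
    have h3 : Real.exp (-s) ≤ 1 := Real.exp_le_one_iff.2 (by linarith)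
    have h4 := norm_nonneg (Ψ s w)
    nlinarith [Real.exp_pos (-s)]
  have h3 := hin (-s) _ hw h2
  rw [h1] at h3
  conv_rhs => rw [h3]
  rw [smul_smul, ← Real.exp_add, add_neg_cancel, Real.exp_zero, one_smul]

open Pool.Agent.H247.LC.Mod in
/-- **Main dynamical theorem.** -/
theorem no_per {κ θ : ℝ} (hκ : 0 < κ) (hκ' : κ ≤ 1 / 10 ^ 12) (hθ : θ = κ ^ 24) {om : E → ℝ}
    (hom : Wind κ θ om) {k : ℕ} {f : E → E} (hf : ContDiff ℝ 2 f) (hinjf : Function.Injective f)
    (hS : Sys θ om f) {b : E → ℝ} (hb : ∀ p, 0 < b p) (hb1 : ∀ p, b p ≤ 1 / 4)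
    (m : Mod k f (fun p => -Real.log (b p))) (d : Tot k → Tot k)
    (hd0 : ∀ u, 1 / 200 ≤ ‖u - x₀ k‖ → d u = 0) (hdn : ∀ u, ‖d u‖ ≤ θ ^ 24)
    (hG : Function.Injective (fun v => m.F (v + d v)))
    (hstab : ∀ n : ℕ, 1 ≤ n → ∀ z, (stepM f b (fun z => d (x₀ k + z)))^[n] z ≠ z)
    (u : Tot k) (hu : ‖u - x₀ k‖ < 1 / 200) (n : ℕ) (hn : 1 ≤ n) :
    (fun v => m.F (v + d v))^[n] u ≠ u := by
  intro hper
  obtain ⟨hθ0, hθ1⟩ := Pool.Agent.H718R2.θ_small hκ hκ' hθ
  have hc : θ ^ 24 ≤ 1 / 100 :=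
    (Pool.Agent.H718R2.pow_small hθ0 hθ1 (by norm_num)).trans (by norm_num)
  set G : Tot k → Tot k := fun v => m.F (v + d v) with hGdef
  have hGF : ∀ u, G u = m.F (u + d u) := fun u => rfl
  have hGo : ∀ u, 1 / 200 ≤ ‖u - x₀ k‖ → G u = m.F u := by
    intro u hu
    rw [hGF, hd0 u hu, add_zero]
  -- the orbit
  have hvs : ∀ i, G^[i + 1] u = G (G^[i] u) := fun i => Function.iterate_succ_apply' G i u
  have horb : Orb m (θ ^ 24) (fun i => G^[i] u) (fun i => d (G^[i] u)) :=
    ⟨fun i => by rw [← hGF, hvs], fun i hi => hd0 _ hi, fun i => hdn _⟩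
  have hvper : ∀ i, G^[i + n] u = G^[i] u := by
    intro i
    rw [Function.iterate_add_apply, hper]
  have hlab := lab_exact hκ hκ' hθ hom hf hS m horb n hn hvper
    (fun i => by show d (G^[i + n] u) = d (G^[i] u); rw [hvper])
    hu
  -- the loops
  set e : E × Con k → E × Con k := fun z => d (x₀ k + z) with he
  have hz0 : ∀ z : E × Con k, 1 / 200 ≤ ‖z‖ → e z = 0 := by
    intro z hz
    apply hd0
    rwa [add_sub_cancel_left]
  have hen : ∀ z, ‖e z‖ ≤ θ ^ 24 := fun z => hdn _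
  let lam : E → ℝ := fun p => -Real.log (b p)
  have hlam : ∀ p, 0 ≤ lam p := by
    intro p
    have := Real.log_nonpos (hb p).le (by linarith [hb1 p])
    show 0 ≤ -Real.log (b p)
    linarith
  have hexp : ∀ p, Real.exp (lam p) = (b p)⁻¹ := by
    intro p
    show Real.exp (-Real.log (b p)) = _
    rw [Real.exp_neg, Real.exp_log (hb p)]
  let M : E × Con k → E × Con k := fun z =>
    (f (z + e z).1, (m.ΨK (lam (z + e z).1) (z + e z).2.1,
      (m.Ψ (lam (z + e z).1) (z + e z).2.2.1, -(m.Ψ (lam (z + e z).1) (-(z + e z).2.2.2)))))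
  let In : E × Con k → Prop := fun z => ‖z.2.1‖ ≤ 1 / 8 ∧ |z.2.2.1| ≤ 1 / 8 ∧ |z.2.2.2| ≤ 1 / 8
  have hcomp : ∀ z : E × Con k, ‖z.2.1‖ ≤ ‖z‖ ∧ |z.2.2.1| ≤ ‖z‖ ∧ |z.2.2.2| ≤ ‖z‖ := by
    intro z
    exact ⟨(norm_fst_le _).trans (norm_snd_le _),
      (norm_fst_le z.2.2).trans ((norm_snd_le _).trans (norm_snd_le _)),
      (norm_snd_le z.2.2).trans ((norm_snd_le _).trans (norm_snd_le _))⟩
  have hIn2 : ∀ z, In z → In (z + e z) := by
    intro z hz
    by_cases h1 : 1 / 200 ≤ ‖z‖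
    · rw [hz0 z h1, add_zero]; exact hz
    · have h2 : ‖z + e z‖ ≤ 1 / 8 := by
        refine (norm_add_le _ _).trans ?_
        have := hen z
        linarith
      obtain ⟨a, a', a''⟩ := hcomp (z + e z)
      exact ⟨a.trans h2, a'.trans h2, a''.trans h2⟩
  have hInM : ∀ z, In z → In (M z) := by
    intro z hz
    obtain ⟨a, a', a''⟩ := hIn2 z hz
    refine ⟨m.K_le _ a, m.P_le _ a', ?_⟩
    show |-(m.Ψ _ _)| ≤ _
    rw [abs_neg]
    exact m.P_le _ (by rwa [abs_neg])
  -- one loop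
  have hloop : ∀ z, In z → Exl (z + e z).1 →
      ∃ j : ℕ, 1 ≤ j ∧ G^[j] (x₀ k + z) = x₀ k + M z := by
    intro z hz hex
    obtain ⟨a, a', a''⟩ := hIn2 z hz
    obtain ⟨j, hj1, hj2, hj3⟩ := m.loop hex a a' a''
    have hx : x₀ k + (z + e z) =
        ((z + e z).1, ((z + e z).2.1, ((z + e z).2.2.1, 1 + (z + e z).2.2.2))) := x₀_add _
    rw [← hx] at hj2 hj3
    refine ⟨j, hj1, ?_⟩
    have key : ∀ i, i < j → G^[i + 1] (x₀ k + z) = m.F^[i + 1] (x₀ k + (z + e z)) := by
      intro i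
      induction i with
      | zero =>
        intro _
        show G (x₀ k + z) = m.F (x₀ k + (z + e z))
        rw [hGF]
        congr 1
        rw [← add_assoc]
      | succ i ih =>
        intro hi
        rw [Function.iterate_succ_apply', ih (by omega), Function.iterate_succ_apply' m.F (i + 1)]
        exact hGo _ (Far_norm (hj3 (i + 1) (by omega) hi))
    have h1 := key (j - 1) (by omega)
    rw [Nat.sub_add_cancel hj1] at h1
    rw [h1, hj2, x₀_add]
  -- the sequence
  let z : ℕ → E × Con k := fun i => M^[i] (u - x₀ k)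
  have hz00 : z 0 = u - x₀ k := rfl
  have hzs : ∀ i, z (i + 1) = M (z i) := fun i => Function.iterate_succ_apply' M i _
  have hzin : ∀ i, In (z i) := by
    intro i
    induction i with
    | zero =>
      obtain ⟨a, a', a''⟩ := hcomp (u - x₀ k)
      exact ⟨by rw [hz00]; linarith, by rw [hz00]; linarith, by rw [hz00]; linarith⟩
    | succ i ih => rw [hzs]; exact hInM _ ih
  have hvis : ∀ i, ∃ j, G^[j] u = x₀ k + z i := by
    intro i
    induction i with
    | zero => exact ⟨0, by rw [hz00]; simp⟩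
    | succ i ih =>
      obtain ⟨j, hj⟩ := ih
      have hex : Exl (z i + e (z i)).1 := by
        by_cases h1 : 1 / 200 ≤ ‖z i‖
        · rw [hz0 _ h1, add_zero]
          have h2 := hlab j
          rw [hj, m.S_early (by
            show (x₀ k + z i).2.2.2 ≤ 23 / 2
            have := abs_le.1 (hzin i).2.2
            have h3 : (x₀ k + z i).2.2.2 = 1 + (z i).2.2.2 := by rw [x₀_add]
            rw [h3]; linarith)] at h2
          rwa [x₀_add] at h2
        · rw [not_le] at h1
          have h3 : ‖G^[j] u - x₀ k‖ < 1 / 200 := by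
            rw [hj, add_sub_cancel_left]
            exact h1
          have h4 := (horb.visit hc h3).2.2.2
          have h5 := hlab (j + 1)
          rw [h4] at h5
          have h6 : (G^[j] u).1 = (z i).1 := by rw [hj, x₀_add]
          have h7 : d (G^[j] u) = e (z i) := by rw [hj]
          rw [h6, h7] at h5
          exact h5
      obtain ⟨j', -, hj'⟩ := hloop (z i) (hzin i) hex
      refine ⟨j' + j, ?_⟩
      rw [Function.iterate_add_apply, hj, hj', hzs]
  -- injectivity
  have hMinj : ∀ z z' : E × Con k, M z = M z' → z = z' := by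
    intro z z' h
    have h1 : (z + e z).1 = (z' + e z').1 := hinjf (congrArg Prod.fst h)
    have h2 : z + e z = z' + e z' := by
      have h3 := congrArg Prod.snd h
      simp only [M, Prod.mk.injEq, neg_inj, h1] at h3
      obtain ⟨h4, h5, h6⟩ := h3
      have h7 := congrArg (m.ΨK (-lam (z' + e z').1)) h4
      have h8 := congrArg (m.Ψ (-lam (z' + e z').1)) h5
      have h9 := congrArg (m.Ψ (-lam (z' + e z').1)) h6
      rw [m.K_inv', m.K_inv'] at h7
      rw [m.P_inv', m.P_inv'] at h8 h9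
      exact Prod.ext h1 (Prod.ext h7 (Prod.ext h8 (neg_inj.1 h9)))
    have h3 : G (x₀ k + z) = G (x₀ k + z') := by
      rw [hGF, hGF (x₀ k + z')]
      congr 1
      show x₀ k + z + e z = x₀ k + z' + e z'
      rw [add_assoc, h2, add_assoc]
    exact add_left_cancel (hG h3)
  -- the sequence is periodic
  obtain ⟨L, hL1, hL⟩ : ∃ L, 1 ≤ L ∧ z L = z 0 := by
    have hfin : (Set.range z).Finite := by
      have h1 : Set.range z ⊆ (fun v => v - x₀ k) '' ((fun i => G^[i] u) '' (Set.Iio n)) := by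
        rintro _ ⟨i, rfl⟩
        obtain ⟨j, hj⟩ := hvis i
        refine ⟨G^[j] u, ⟨j % n, Nat.mod_lt _ hn, ?_⟩, ?_⟩
        · have h2 : Function.IsPeriodicPt G n u := hper
          exact h2.iterate_mod_apply j
        · show G^[j] u - x₀ k = z i
          rw [hj, add_sub_cancel_left]
      exact (((Set.finite_Iio n).image _).image _).subset h1
    have hninj : ¬ Function.Injective z := fun hinj => Set.infinite_range_of_injective hinj hfin
    simp only [Function.Injective, not_forall] at hninj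
    obtain ⟨i, j, hij, hne⟩ := hninj
    have key : ∀ i j, i < j → z i = z j → ∃ L, 1 ≤ L ∧ z L = z 0 := by
      intro i
      induction i with
      | zero => intro j hj h; exact ⟨j, hj, h.symm⟩
      | succ i ih =>
        intro j hj h
        obtain ⟨j', rfl⟩ : ∃ j', j = j' + 1 := ⟨j - 1, by omega⟩
        rw [hzs, hzs] at h
        exact ih j' (by omega) (hMinj _ _ h)
    rcases lt_or_gt_of_ne hne with h | h
    · exact key i j h hij
    · exact key j i h hij.symm
  have hzL : ∀ j i, z (i + j * L) = z i := by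
    intro j
    induction j with
    | zero => intro i; simp
    | succ j ih =>
      intro i
      have h1 : ∀ i, z (i + L) = z i := by
        intro i
        induction i with
        | zero => rw [Nat.zero_add, hL]
        | succ i ih2 => rw [show i + 1 + L = (i + L) + 1 by ring, hzs, ih2, hzs]
      rw [show i + (j + 1) * L = (i + j * L) + L by ring, h1, ih]
  -- contents stay small
  have hnz0 : ‖z 0‖ < 1 / 200 := hu
  have hsmall : ∀ i, ‖(z i).2.1‖ < 1 / 200 ∧ |(z i).2.2.1| < 1 / 200 ∧ |(z i).2.2.2| < 1 / 200 := by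
    intro i
    have hgen : ∀ g : E × Con k → ℝ, (∀ z, g z ≤ ‖z‖) →
        (∀ z, 1 / 200 ≤ ‖z‖ → g z ≤ g (M z)) → g (z i) < 1 / 200 := by
      intro g hg1 hg2
      by_contra hcon
      rw [not_lt] at hcon
      have h1 : ∀ j, 1 / 200 ≤ g (z (i + j)) := by
        intro j
        induction j with
        | zero => exact hcon
        | succ j ih =>
          rw [← add_assoc, hzs]
          exact ih.trans (hg2 _ (ih.trans (hg1 _)))
      have h2 := h1 (i * L - i)
      have h3 : i ≤ i * L := by nlinarith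
      rw [show i + (i * L - i) = 0 + i * L by omega, hzL] at h2
      have := hg1 (z 0)
      linarith
    refine ⟨hgen (fun z => ‖z.2.1‖) (fun z => (hcomp z).1) ?_,
      hgen (fun z => |z.2.2.1|) (fun z => (hcomp z).2.1) ?_,
      hgen (fun z => |z.2.2.2|) (fun z => (hcomp z).2.2) ?_⟩
    · intro z hz
      show ‖z.2.1‖ ≤ ‖m.ΨK (lam (z + e z).1) (z + e z).2.1‖
      rw [hz0 z hz, add_zero]
      exact m.Kmon _ _ (hlam _)
    · intro z hz
      show |z.2.2.1| ≤ |m.Ψ (lam (z + e z).1) (z + e z).2.2.1|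
      rw [hz0 z hz, add_zero]
      exact m.Pmon _ _ (hlam _)
    · intro z hz
      show |z.2.2.2| ≤ |-(m.Ψ (lam (z + e z).1) (-(z + e z).2.2.2))|
      rw [hz0 z hz, add_zero, abs_neg, ← abs_neg z.2.2.2]
      exact m.Pmon _ _ (hlam _)
  -- on the orbit the map is the linear one
  have hlin : ∀ i, M (z i) = stepM f b e (z i) := by
    intro i
    obtain ⟨a, a', a''⟩ := hsmall (i + 1)
    rw [hzs] at a a' a''
    have b1 : m.ΨK (lam (z i + e (z i)).1) (z i + e (z i)).2.1 =
        Real.exp (lam (z i + e (z i)).1) • (z i + e (z i)).2.1 :=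
      expand_eq m.ΨK m.K0 m.Kadd m.Kin (hlam _) (a.le.trans (by norm_num))
    have b2 : m.Ψ (lam (z i + e (z i)).1) (z i + e (z i)).2.2.1 =
        Real.exp (lam (z i + e (z i)).1) • (z i + e (z i)).2.2.1 :=
      expand_eq m.Ψ m.P0 m.Padd (by simpa using m.Pin) (hlam _) (by
        rw [Real.norm_eq_abs]; exact a'.le.trans (by norm_num))
    have a3 : |m.Ψ (lam (z i + e (z i)).1) (-(z i + e (z i)).2.2.2)| < 1 / 200 := by
      rw [← abs_neg]; exact a''
    have b3 : m.Ψ (lam (z i + e (z i)).1) (-(z i + e (z i)).2.2.2) =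
        Real.exp (lam (z i + e (z i)).1) • (-(z i + e (z i)).2.2.2) :=
      expand_eq m.Ψ m.P0 m.Padd (by simpa using m.Pin) (hlam _) (by
        rw [Real.norm_eq_abs]; exact a3.le.trans (by norm_num))
    refine Prod.ext rfl (Prod.ext ?_ (Prod.ext ?_ ?_))
    · show m.ΨK _ _ = (b (z i + e (z i)).1)⁻¹ • (z i + e (z i)).2.1
      rw [b1, hexp]
    · show m.Ψ _ _ = (b (z i + e (z i)).1)⁻¹ • (z i + e (z i)).2.2.1
      rw [b2, hexp]
    · show -(m.Ψ _ _) = (b (z i + e (z i)).1)⁻¹ • (z i + e (z i)).2.2.2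
      rw [b3, hexp, smul_neg, neg_neg]
  have hfinal : ∀ i, (stepM f b e)^[i] (z 0) = z i := by
    intro i
    induction i with
    | zero => rfl
    | succ i ih => rw [Function.iterate_succ_apply', ih, ← hlin, hzs]
  exact hstab L hL1 (z 0) (by
    show (stepM f b e)^[L] (z 0) = z 0
    rw [hfinal, hL])

end Pool.Agent.H247.LC
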