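import Pool.Agent.H247.LC.Iface
import Pool.Graph.R_seed8.H864R3.Flow

/-!
# The expansion flow on a finite-dimensional inner product space
-/

set_option autoImplicit false

open scoped Manifold ContDiff Topology InnerProductSpace
open Set

namespace Pool.Agent.H247.LC.Ex

variable {K : Type} [NormedAddCommGroup K] [InnerProductSpace ℝ K]

/-- the field -/
noncomputable def fld (w : K) : K := cut (256 * ‖w‖ ^ 2) • w

theorem cut_one {a : ℝ} (h : a ≤ 1) : cut a = 1 :=
  Real.smoothTransition.one_of_one_le (by linarith)

theorem cut_zero {a : ℝ} (h : 2 ≤ a) : cut a = 0 :=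
  Real.smoothTransition.zero_of_nonpos (by linarith)

theorem cut_nonneg (a : ℝ) : 0 ≤ cut a := Real.smoothTransition.nonneg _

theorem cut_smooth : ContDiff ℝ ∞ cut :=
  Real.smoothTransition.contDiff.comp (contDiff_const.sub contDiff_id)

theorem fld_smooth : ContDiff ℝ ∞ (fld : K → K) := by
  unfold fld
  exact (cut_smooth.comp (contDiff_const.mul (contDiff_norm_sq ℝ))).smul contDiff_id

theorem fld_zero {w : K} (h : 1 / 8 ≤ ‖w‖) : fld w = 0 := by
  unfold fld
  rw [cut_zero (by nlinarith), zero_smul]

theorem fld_id {w : K} (h : ‖w‖ ≤ 1 / 16) : fld w = w := by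
  unfold fld
  rw [cut_one (by nlinarith [norm_nonneg w]), one_smul]

theorem fld_cpt [FiniteDimensional ℝ K] : HasCompactSupport (fld : K → K) := by
  have : ProperSpace K := FiniteDimensional.proper_real K
  refine HasCompactSupport.of_support_subset_isCompact (isCompact_closedBall (0 : K) (1 / 8)) ?_
  intro w hw
  rw [Metric.mem_closedBall, dist_zero_right]
  by_contra h
  exact hw (fld_zero (not_le.1 h).le)

theorem main : S_EX := by
  intro K _ _ _
  have : CompleteSpace K := FiniteDimensional.complete ℝ K
  obtain ⟨G, hG, h0, hadd, hder⟩ :=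
    Pool.Agent.H864R3.flow_cpt (fld : K → K) fld_smooth fld_cpt
  obtain ⟨C, hC⟩ := (fld_smooth (K := K)).lipschitzWith_of_hasCompactSupport fld_cpt (by simp)
  -- forward expansion
  have hfw : ∀ (s : ℝ) (w : K), 0 ≤ s → Real.exp s * ‖w‖ ≤ 1 / 16 → G s w = Real.exp s • w := by
    intro s w hs hsw
    have key := ODE_solution_unique_of_mem_Icc_right (v := fun _ => (fld : K → K))
      (s := fun _ => univ) (K := C) (f := fun t => G t w) (g := fun t => Real.exp t • w)
      (a := 0) (b := s) (fun t _ => hC.lipschitzOnWith)
      (fun t _ => (hder w t).continuousAt.continuousWithinAt)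
      (fun t _ => (hder w t).hasDerivWithinAt) (fun t _ => mem_univ _)
      (fun t _ => ((Real.continuous_exp.smul continuous_const).continuousAt).continuousWithinAt)
      (fun t ht => by
        have h1 : fld (Real.exp t • w) = Real.exp t • w := by
          apply fld_id
          rw [norm_smul, Real.norm_of_nonneg (Real.exp_pos t).le]
          exact (mul_le_mul_of_nonneg_right (Real.exp_le_exp.2 ht.2.le) (norm_nonneg w)).trans hsw
        show HasDerivWithinAt _ (fld (Real.exp t • w)) _ _
        rw [h1]
        exact ((Real.hasDerivAt_exp t).smul_const w).hasDerivWithinAt)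
      (fun t _ => mem_univ _) (by simp [h0])
    exact key ⟨hs, le_rfl⟩
  refine ⟨G, hG, h0, hadd, ?_, ?_, ?_⟩
  · -- equilibria
    intro s w hw
    have key := ODE_solution_unique_univ (v := fun _ => (fld : K → K))
      (s := fun _ => univ) (K := C) (f := fun t => G t w) (g := fun _ => w) (t₀ := 0)
      (fun t => hC.lipschitzOnWith)
      (fun t => ⟨hder w t, mem_univ _⟩)
      (fun t => ⟨by
        show HasDerivAt (fun _ : ℝ => w) (fld w) t
        rw [fld_zero hw]
        exact hasDerivAt_const t w, mem_univ _⟩)
      (h0 w)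
    exact congrFun key s
  · intro s w hw hsw
    rcases le_total 0 s with hs | hs
    · exact hfw s w hs hsw
    · have h1 : G (-s) (Real.exp s • w) = w := by
        rw [hfw (-s) (Real.exp s • w) (by linarith), smul_smul, ← Real.exp_add, neg_add_cancel,
          Real.exp_zero, one_smul]
        rw [norm_smul, Real.norm_of_nonneg (Real.exp_pos s).le, ← mul_assoc, ← Real.exp_add,
          neg_add_cancel, Real.exp_zero, one_mul]
        exact hw
      have h2 := hadd s (-s) (Real.exp s • w)
      rw [h1, add_neg_cancel, h0] at h2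
      exact h2.symm
  · intro s w hs
    have hd : ∀ t, HasDerivAt (fun t => ‖G t w‖ ^ 2) (2 * ⟪G t w, fld (G t w)⟫_ℝ) t :=
      fun t => (hder w t).norm_sq
    have hm : Monotone (fun t => ‖G t w‖ ^ 2) := by
      refine monotone_of_deriv_nonneg (fun t => (hd t).differentiableAt) fun t => ?_
      rw [(hd t).deriv]
      unfold fld
      rw [inner_smul_right, real_inner_self_eq_norm_sq]
      have := cut_nonneg (256 * ‖G t w‖ ^ 2)
      positivity
    have h1 := hm hs
    simp only [h0] at h1
    exact (pow_le_pow_iff_left₀ (norm_nonneg _) (norm_nonneg _) two_ne_zero).1 h1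

end Pool.Agent.H247.LC.Ex
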