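import Pool.Agent.H247.LC.Iface

/-!
# Exact transit times
-/

set_option autoImplicit false

open scoped Manifold ContDiff Topology
open Set

namespace Pool.Agent.H247.LC.Per

open Pool.Agent.H247.LC

theorem v0_cont : Continuous v0 := by
  unfold v0
  exact Real.smoothTransition.continuous.comp (by fun_prop)

theorem bb_cont : Continuous bb := by
  unfold bb
  exact Real.smoothTransition.continuous.comp (by fun_prop)

theorem pos {κ : ℝ} (hκ : 0 < κ) (t : ℝ) : 0 < v0 t + κ * bb t := by
  by_cases h : -(9 / 10) < Real.cos (Real.pi * t / 4)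
  · have h1 : 0 < v0 t := Real.smoothTransition.pos_of_pos (by
      apply div_pos _ (by norm_num)
      linarith)
    have h2 : 0 ≤ bb t := Real.smoothTransition.nonneg _
    positivity
  · have h1 : bb t = 1 := Real.smoothTransition.one_of_one_le (by
      rw [le_div_iff₀ (by norm_num)]
      linarith)
    have h2 : 0 ≤ v0 t := Real.smoothTransition.nonneg _
    rw [h1, mul_one]
    linarith

theorem cos_per (t : ℝ) : Real.cos (Real.pi * (t + 8) / 4) = Real.cos (Real.pi * t / 4) := by
  have h : Real.pi * (t + 8) / 4 = Real.pi * t / 4 + 2 * Real.pi := by ring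
  rw [h, Real.cos_add_two_pi]

theorem per (κ : ℝ) : Function.Periodic (fun t => 1 / (v0 t + κ * bb t)) 8 := by
  intro t
  show 1 / (v0 (t + 8) + κ * bb (t + 8)) = 1 / (v0 t + κ * bb t)
  unfold v0 bb
  rw [cos_per]

theorem mid {κ t : ℝ} (h1 : 7 / 2 ≤ t) (h2 : t ≤ 9 / 2) : v0 t + κ * bb t = κ := by
  have h3 : Real.cos (Real.pi * t / 4) ≤ -(9 / 10) := by
    have e : Real.pi * t / 4 = Real.pi * (t - 4) / 4 + Real.pi := by ring
    rw [e, Real.cos_add_pi]
    have h4 := Real.one_sub_sq_div_two_le_cos (x := Real.pi * (t - 4) / 4)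
    have h5 : (Real.pi * (t - 4) / 4) ^ 2 ≤ 1 / 5 := by
      have h6 : (t - 4) ^ 2 ≤ 1 / 4 := by nlinarith
      have h7 : Real.pi ^ 2 ≤ 3.15 ^ 2 := pow_le_pow_left₀ Real.pi_pos.le Real.pi_lt_d2.le 2
      have h8 : Real.pi ^ 2 * (t - 4) ^ 2 ≤ 3.15 ^ 2 * (1 / 4) :=
        mul_le_mul h7 h6 (sq_nonneg _) (by norm_num)
      have e2 : (Real.pi * (t - 4) / 4) ^ 2 = Real.pi ^ 2 * (t - 4) ^ 2 / 16 := by ring
      rw [e2]
      norm_num at h8 ⊢
      linarith
    linarith
  have h4 : v0 t = 0 := Real.smoothTransition.zero_of_nonpos (by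
    apply div_nonpos_of_nonpos_of_nonneg _ (by norm_num)
    linarith)
  have h5 : bb t = 1 := Real.smoothTransition.one_of_one_le (by
    rw [le_div_iff₀ (by norm_num)]
    linarith)
  rw [h4, h5]
  ring

/-- the transit time, as a function of `log κ` -/
noncomputable def tau (s : ℝ) : ℝ := ∫ t in (0:ℝ)..8, 1 / (v0 t + Real.exp s * bb t)

theorem cont2 : Continuous (fun q : ℝ × ℝ => 1 / (v0 q.2 + Real.exp q.1 * bb q.2)) := by
  refine continuous_const.div ?_ fun q => (pos (Real.exp_pos _) _).ne'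
  exact (v0_cont.comp continuous_snd).add
    ((Real.continuous_exp.comp continuous_fst).mul (bb_cont.comp continuous_snd))

theorem cont1 {κ : ℝ} (hκ : 0 < κ) : Continuous (fun t => 1 / (v0 t + κ * bb t)) :=
  continuous_const.div (v0_cont.add (continuous_const.mul bb_cont)) fun t => (pos hκ t).ne'

theorem tau_cont : Continuous tau :=
  intervalIntegral.continuous_parametric_intervalIntegral_of_continuous'
    (f := fun s t => 1 / (v0 t + Real.exp s * bb t)) cont2 0 8

theorem tau_ge (s : ℝ) : Real.exp (-s) ≤ tau s := by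
  have hc := cont1 (Real.exp_pos s)
  have hn : ∀ t, 0 ≤ 1 / (v0 t + Real.exp s * bb t) := fun t =>
    (one_div_pos.2 (pos (Real.exp_pos s) t)).le
  unfold tau
  rw [← intervalIntegral.integral_add_adjacent_intervals
    (hc.intervalIntegrable 0 (7/2)) (hc.intervalIntegrable (7/2) 8),
    ← intervalIntegral.integral_add_adjacent_intervals
    (hc.intervalIntegrable (7/2) (9/2)) (hc.intervalIntegrable (9/2) 8)]
  have h1 : 0 ≤ ∫ t in (0:ℝ)..(7/2), 1 / (v0 t + Real.exp s * bb t) :=
    intervalIntegral.integral_nonneg (by norm_num) fun t _ => hn t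
  have h2 : 0 ≤ ∫ t in (9/2:ℝ)..8, 1 / (v0 t + Real.exp s * bb t) :=
    intervalIntegral.integral_nonneg (by norm_num) fun t _ => hn t
  have h3 : ∫ t in (7/2:ℝ)..(9/2), 1 / (v0 t + Real.exp s * bb t) = Real.exp (-s) := by
    rw [intervalIntegral.integral_congr (g := fun _ => Real.exp (-s))]
    · rw [intervalIntegral.integral_const]
      norm_num
    · intro t ht
      rw [uIcc_of_le (by norm_num)] at ht
      show 1 / (v0 t + Real.exp s * bb t) = Real.exp (-s)
      rw [mid ht.1 ht.2, Real.exp_neg, one_div]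
  rw [h3]
  linarith

theorem main : S_PER := by
  intro δ hδ
  obtain ⟨N, hN⟩ := exists_nat_gt (tau (Real.log (δ / 2)))
  set s0 := Real.log (δ / 2) with hs0
  set s1 := min s0 (-(N : ℝ)) with hs1
  have h1 : (N : ℝ) ≤ tau s1 := by
    refine le_trans ?_ (tau_ge s1)
    have h2 : (N : ℝ) ≤ -s1 := by
      have := min_le_right s0 (-(N : ℝ))
      linarith
    have h3 := Real.add_one_le_exp (-s1)
    linarith
  have h2 : (N : ℝ) ∈ Icc (tau s0) (tau s1) := ⟨hN.le, h1⟩
  obtain ⟨s, hs, hsN⟩ := intermediate_value_Icc' (min_le_left s0 (-(N : ℝ)))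
    tau_cont.continuousOn h2
  refine ⟨Real.exp s, Real.exp_pos s, ?_, N,
    fun t => ∫ x in (0:ℝ)..t, 1 / (v0 x + Real.exp s * bb x), pos (Real.exp_pos s), ?_, ?_⟩
  · have h3 : Real.exp s ≤ Real.exp s0 := Real.exp_le_exp.2 hs.2
    rw [hs0, Real.exp_log (by positivity)] at h3
    linarith
  · intro t
    exact ((cont1 (Real.exp_pos s)).integral_hasStrictDerivAt 0 t).hasDerivAt
  · intro t
    have hc := cont1 (Real.exp_pos s)
    show ∫ x in (0:ℝ)..(t + 8), 1 / (v0 x + Real.exp s * bb x) = _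
    rw [← intervalIntegral.integral_add_adjacent_intervals (hc.intervalIntegrable 0 t)
      (hc.intervalIntegrable t (t + 8)), (per (Real.exp s)).intervalIntegral_add_eq t 0, zero_add]
    congr 1

end Pool.Agent.H247.LC.Per
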