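import Pool.Agent.H247.LC.Iface
import Mathlib

/-!
# Project LC: the motion in label coordinates
-/

set_option autoImplicit false

open scoped Manifold ContDiff Topology
open Set

namespace Pool.Agent.H247.LC.Tau

open Pool.Agent.H718R2 (E)

lemma cut_one {a : ℝ} (h : a ≤ 1) : cut a = 1 :=
  Real.smoothTransition.one_of_one_le (by linarith)

lemma cut_zero {a : ℝ} (h : 2 ≤ a) : cut a = 0 :=
  Real.smoothTransition.zero_of_nonpos (by linarith)

lemma cut_nonneg (a : ℝ) : 0 ≤ cut a := Real.smoothTransition.nonneg _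

lemma cut_contDiff : ContDiff ℝ ∞ cut :=
  Real.smoothTransition.contDiff.comp (contDiff_const.sub contDiff_id)

lemma v0_contDiff : ContDiff ℝ ∞ v0 := by
  refine Real.smoothTransition.contDiff.comp (ContDiff.div_const (ContDiff.add ?_ contDiff_const) _)
  exact Real.contDiff_cos.comp ((contDiff_const.mul contDiff_id).div_const _)

lemma bb_contDiff : ContDiff ℝ ∞ bb := by
  refine Real.smoothTransition.contDiff.comp (ContDiff.div_const (ContDiff.sub contDiff_const ?_) _)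
  exact Real.contDiff_cos.comp ((contDiff_const.mul contDiff_id).div_const _)

lemma v0_nonneg (t : ℝ) : 0 ≤ v0 t := Real.smoothTransition.nonneg _

lemma bb_nonneg (t : ℝ) : 0 ≤ bb t := Real.smoothTransition.nonneg _

/-- the speed along the fibre -/
noncomputable def VV (A K t : ℝ) : ℝ := A * cut (((t - 8) / 11) ^ 2) * (v0 t + K * bb t)

lemma VV_contDiff (A K : ℝ) : ContDiff ℝ ∞ (VV A K) := by
  unfold VV
  refine ContDiff.mul (contDiff_const.mul (cut_contDiff.comp ?_)) (v0_contDiff.add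
    (contDiff_const.mul bb_contDiff))
  exact ((contDiff_id.sub contDiff_const).div_const _).pow 2

lemma VV_supp (A K : ℝ) : HasCompactSupport (VV A K) := by
  refine HasCompactSupport.intro (isCompact_Icc (a := (-8 : ℝ)) (b := 24)) fun t ht => ?_
  have h : (2 : ℝ) ≤ ((t - 8) / 11) ^ 2 := by
    rw [mem_Icc, not_and_or, not_le, not_le] at ht
    rcases ht with h | h
    · nlinarith
    · nlinarith
  simp [VV, cut_zero h]

lemma VV_nonneg {A K : ℝ} (hA : 0 ≤ A) (hK : 0 ≤ K) (t : ℝ) : 0 ≤ VV A K t :=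
  mul_nonneg (mul_nonneg hA (cut_nonneg _))
    (add_nonneg (v0_nonneg _) (mul_nonneg hK (bb_nonneg _)))

/-- the cut-off of the contents -/
noncomputable def AA {k : ℕ} (u : Tot k) : ℝ := cut (4 * ‖u.2.1‖ ^ 2) * cut (4 * u.2.2.1 ^ 2)

/-- the coefficient of the slow part -/
noncomputable def KK (κ : ℤ → ℝ) (p : E) : ℝ := ∑' j, κ j * chi j p

lemma speed_eq {k : ℕ} (κ : ℤ → ℝ) (u : Tot k) (t : ℝ) :
    speed κ (setT u t) = VV (AA u) (KK κ u.1) t := by
  have h1 : cc (setT u t) = AA u * cut (((t - 8) / 11) ^ 2) := rfl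
  have h2 : (∑' j, κ j * (chi j u.1 * cc (setT u t) * bb t)) =
      KK κ u.1 * (cc (setT u t) * bb t) := by
    rw [KK, ← tsum_mul_right]
    refine tsum_congr fun j => ?_
    ring
  have h3 : speed κ (setT u t) = cc (setT u t) * v0 t +
      ∑' j, κ j * (chi j u.1 * cc (setT u t) * bb t) := rfl
  rw [h3, h2, h1, VV]
  ring

/-- transit times -/
lemma transit {V a Gf : ℝ → ℝ} {c d N : ℝ} (ha : ∀ s, HasDerivAt a (V (a s)) s)
    (hV : ∀ x, 0 ≤ V x) (h0 : a 0 = c) (hcd : c ≤ d) (hpos : ∀ x ∈ Icc c d, 0 < V x)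
    (hG : ∀ x ∈ Icc c d, HasDerivAt Gf (1 / V x) x) (hN : Gf d - Gf c = N) (hN0 : 0 ≤ N) :
    a N = d := by
  have hmono : Monotone a := monotone_of_deriv_nonneg (fun s => (ha s).differentiableAt)
    fun s => by rw [(ha s).deriv]; exact hV _
  have hcont : Continuous a := continuous_iff_continuousAt.2 fun s => (ha s).continuousAt
  have key : ∀ s₀, 0 ≤ s₀ → a s₀ ≤ d → Gf (a s₀) = Gf c + s₀ := by
    intro s₀ hs₀ had
    have hin : ∀ s ∈ Icc 0 s₀, a s ∈ Icc c d := fun s hs =>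
      ⟨h0 ▸ hmono hs.1, (hmono hs.2).trans had⟩
    have hder : ∀ s ∈ Icc 0 s₀, HasDerivAt (fun s => Gf (a s) - s) 0 s := by
      intro s hs
      have h1 := (hG _ (hin s hs)).comp s (ha s)
      have h2 := h1.sub (hasDerivAt_id s)
      have h3 : 1 / V (a s) * V (a s) - 1 = 0 := by
        rw [one_div_mul_cancel (hpos _ (hin s hs)).ne', sub_self]
      rw [h3] at h2
      exact h2
    have h4 := constant_of_has_deriv_right_zero (f := fun s => Gf (a s) - s)
      (fun s hs => (hder s hs).continuousAt.continuousWithinAt)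
      (fun s hs => (hder s ⟨hs.1, hs.2.le⟩).hasDerivWithinAt) s₀ (right_mem_Icc.2 hs₀)
    simp only [h0, sub_zero] at h4
    linarith
  rcases le_or_gt (a N) d with h | h
  · have h1 := key N hN0 h
    have hc : c ≤ a N := h0 ▸ hmono hN0
    have hstrict : StrictMonoOn Gf (Icc c d) := by
      refine strictMonoOn_of_deriv_pos (convex_Icc c d)
        (fun x hx => (hG x hx).continuousAt.continuousWithinAt) fun x hx => ?_
      have hx' := interior_subset hx
      rw [(hG x hx').deriv]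
      exact one_div_pos.2 (hpos x hx')
    exact hstrict.injOn ⟨hc, h⟩ (right_mem_Icc.2 hcd) (by linarith)
  · exfalso
    obtain ⟨s₀, hs, hs'⟩ := intermediate_value_Icc hN0 hcont.continuousOn
      (show d ∈ Icc (a 0) (a N) from ⟨h0 ▸ hcd, h.le⟩)
    have h1 := key s₀ hs.1 hs'.le
    rw [hs'] at h1
    have h2 : s₀ = N := by linarith
    rw [h2] at hs'
    linarith

lemma cos_ge (t : ℝ) (m : ℤ) (h : |t - 8 * m| ≤ 8 / 3) : -(1 / 2) ≤ Real.cos (Real.pi * t / 4) := by
  have h1 : Real.cos (Real.pi * t / 4) = Real.cos |Real.pi * (t - 8 * m) / 4| := by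
    rw [Real.cos_abs, ← Real.cos_add_int_mul_two_pi (Real.pi * (t - 8 * m) / 4) m]
    congr 1
    ring
  have h2 : Real.cos (2 * Real.pi / 3) = -(1 / 2) := by
    have : 2 * Real.pi / 3 = Real.pi - Real.pi / 3 := by ring
    rw [this, Real.cos_pi_sub, Real.cos_pi_div_three]
  rw [h1, ← h2]
  have hpi := Real.pi_pos
  refine Real.cos_le_cos_of_nonneg_of_le_pi (abs_nonneg _) (by linarith) ?_
  rw [abs_div, abs_mul, abs_of_pos hpi, abs_of_pos (show (0 : ℝ) < 4 by norm_num)]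
  have h3 := mul_le_mul_of_nonneg_left h hpi.le
  linarith

lemma fast {t : ℝ} (m : ℤ) (h : |t - 8 * m| ≤ 8 / 3) : v0 t = 1 ∧ bb t = 0 := by
  have h1 := cos_ge t m h
  refine ⟨Real.smoothTransition.one_of_one_le ?_, Real.smoothTransition.zero_of_nonpos ?_⟩
  · rw [le_div_iff₀ (by norm_num)]
    linarith
  · exact div_nonpos_of_nonpos_of_nonneg (by linarith) (by norm_num)

lemma cutt {t : ℝ} (h : |t - 8| ≤ 11) : cut (((t - 8) / 11) ^ 2) = 1 := by
  apply cut_one
  rw [abs_le] at h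
  nlinarith [h.1, h.2]

lemma AA_one {k : ℕ} (u : Tot k) (h1 : ‖u.2.1‖ ≤ 1 / 2) (h2 : |u.2.2.1| ≤ 1 / 2) : AA u = 1 := by
  have h3 := norm_nonneg u.2.1
  rw [abs_le] at h2
  rw [AA, cut_one (by nlinarith), cut_one (by nlinarith [h2.1, h2.2]), one_mul]

lemma AA_nonneg {k : ℕ} (u : Tot k) : 0 ≤ AA u := mul_nonneg (cut_nonneg _) (cut_nonneg _)

lemma chi_nonneg (j : ℤ) (p : E) : 0 ≤ chi j p :=
  mul_nonneg (mul_nonneg (cut_nonneg _) (cut_nonneg _)) (cut_nonneg _)

lemma KK_nonneg {κ : ℤ → ℝ} (hκ : ∀ j, 0 < κ j) (p : E) : 0 ≤ KK κ p :=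
  tsum_nonneg fun j => mul_nonneg (hκ j).le (chi_nonneg j p)

/-- exact labels -/
lemma KK_eq {κ : ℤ → ℝ} {p : E} (h1 : |p.1| ≤ 1 / 2) (h2 : |p.2.2| ≤ 1 / 2) {j : ℤ}
    (h3 : |p.2.1 - j| ≤ 1 / 8) : KK κ p = κ j := by
  rw [abs_le] at h1 h2 h3
  rw [KK, tsum_eq_single j]
  · rw [chi, cut_one (by nlinarith [h1.1, h1.2]), cut_one (by nlinarith [h2.1, h2.2]),
      cut_one (by nlinarith [h3.1, h3.2])]
    ring
  · intro i hij
    have h4 : (1 : ℝ) ≤ |(i : ℝ) - j| := by
      have h5 : (1 : ℤ) ≤ |i - j| := Int.one_le_abs (sub_ne_zero.2 hij)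
      have h6 : ((1 : ℤ) : ℝ) ≤ ((|i - j| : ℤ) : ℝ) := by exact_mod_cast h5
      push_cast at h6
      exact h6
    have h7 : (2 : ℝ) ≤ (8 * (p.2.1 - i)) ^ 2 := by
      rcases le_abs.1 h4 with h | h
      · nlinarith [h3.1, h3.2]
      · nlinarith [h3.1, h3.2]
    rw [chi, cut_zero h7]
    ring

theorem main (hF : S_FLOW) : S_TAU := by
  intro k κ hκ hpos
  -- the time-one map and the solutions
  have hsol : ∀ A K : ℝ, ∃ (T : ℝ → ℝ) (c : ℝ → ℝ → ℝ), (∀ q, c q 0 = q) ∧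
      (∀ q s, HasDerivAt (c q) (VV A K (c q s)) s) ∧
      ∀ a : ℝ → ℝ, (∀ s, HasDerivAt a (VV A K (a s)) s) → T (a 0) = a 1 := by
    intro A K
    obtain ⟨T, -, -, hT, hc⟩ := hF ℝ (VV A K) (VV_contDiff A K) (VV_supp A K)
    choose c hc0 hc1 using hc
    exact ⟨T, c, hc0, hc1, hT⟩
  choose T c hc0 hc1 hT using hsol
  refine ⟨fun u => c (AA u) (KK κ u.1) u.2.2.2, fun u => hc0 _ _ _, fun u s => ?_, fun u => ?_,
    fun u hu s => ?_, fun u h1 h2 h3 => ?_, fun p hp => ?_⟩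
  · rw [speed_eq]
    exact hc1 _ _ _ _
  · have hmono : Monotone (c (AA u) (KK κ u.1) u.2.2.2) := monotone_of_deriv_nonneg
      (fun s => (hc1 _ _ _ s).differentiableAt) fun s => by
        rw [(hc1 _ _ _ s).deriv]
        exact VV_nonneg (AA_nonneg u) (KK_nonneg hpos _) _
    have := hmono (zero_le_one (α := ℝ))
    rwa [hc0] at this
  · have hA : AA u = 0 := by
      rw [AA, cut_zero (a := 4 * u.2.2.1 ^ 2), mul_zero]
      have := sq_abs u.2.2.1
      nlinarith
    have hd : ∀ s, deriv (c (AA u) (KK κ u.1) u.2.2.2) s = 0 := fun s => by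
      rw [(hc1 _ _ _ s).deriv, hA, VV, zero_mul, zero_mul]
    have := is_const_of_deriv_eq_zero (fun s => (hc1 _ _ _ s).differentiableAt) hd s 0
    exact this.trans (hc0 _ _ _)
  · have hz : ∃ m : ℤ, |u.2.2.2 - 8 * m| ≤ 8 / 3 ∧ |u.2.2.2 + 1 - 8 * m| ≤ 8 / 3 ∧
        |u.2.2.2 - 8| ≤ 11 ∧ |u.2.2.2 + 1 - 8| ≤ 11 := by
      rcases h3 with h | h | h
      · refine ⟨0, ?_, ?_, ?_, ?_⟩ <;> push_cast <;> rw [abs_le] <;> constructor <;>
          linarith [h.1, h.2]
      · refine ⟨1, ?_, ?_, ?_, ?_⟩ <;> push_cast <;> rw [abs_le] <;> constructor <;>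
          linarith [h.1, h.2]
      · refine ⟨2, ?_, ?_, ?_, ?_⟩ <;> push_cast <;> rw [abs_le] <;> constructor <;>
          linarith [h.1, h.2]
    obtain ⟨m, h4, h5, h6, h7⟩ := hz
    have hV : ∀ x ∈ Icc u.2.2.2 (u.2.2.2 + 1), VV (AA u) (KK κ u.1) x = 1 := by
      intro x hx
      rw [abs_le] at h4 h5 h6 h7
      obtain ⟨h8, h9⟩ := fast (t := x) m (abs_le.2 ⟨by linarith [hx.1, h4.1], by
        linarith [hx.2, h5.2]⟩)
      rw [VV, AA_one u h1 h2, cutt (abs_le.2 ⟨by linarith [hx.1, h6.1], by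
        linarith [hx.2, h7.2]⟩), h8, h9]
      ring
    refine transit (Gf := id) (hc1 (AA u) (KK κ u.1) u.2.2.2)
      (VV_nonneg (AA_nonneg u) (KK_nonneg hpos _)) (hc0 _ _ _) (by linarith)
      (fun x hx => by rw [hV x hx]; exact one_pos) (fun x hx => ?_) (by simp) zero_le_one
    rw [hV x hx, div_one]
    exact hasDerivAt_id x
  · obtain ⟨h1, h2, j, h3⟩ := hp
    obtain ⟨N, Gf, hG0, hG1, hG2⟩ := hκ j
    refine ⟨N, fun w' w t hw' hw ht1 ht2 => ?_⟩
    have hA : ∀ t' : ℝ, AA ((p, (w', (w, t'))) : Tot k) = 1 := fun t' => AA_one _ hw' hw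
    have hK : KK κ p = κ j := KK_eq h1 h2 h3
    have hiter : ∀ n : ℕ, (fun u : Tot k => setT u (c (AA u) (KK κ u.1) u.2.2.2 1))^[n]
        (p, (w', (w, t))) = (p, (w', (w, c 1 (κ j) t n))) := by
      intro n
      induction n with
      | zero => simp [hc0]
      | succ n ih =>
        rw [Function.iterate_succ_apply', ih]
        have h4 : c 1 (κ j) (c 1 (κ j) t n) 1 = c 1 (κ j) t ((n + 1 : ℕ) : ℝ) := by
          have h5 := hT 1 (κ j) (c 1 (κ j) (c 1 (κ j) t n)) (hc1 _ _ _)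
          have h6 := hT 1 (κ j) (fun s => c 1 (κ j) t (s + n)) (fun s => by
            have h7 := (hc1 1 (κ j) t (s + n)).comp_add_const s (n : ℝ)
            exact h7)
          rw [hc0] at h5
          rw [← h5]
          simp only [zero_add] at h6
          rw [h6]
          push_cast
          rw [add_comm]
        show setT _ _ = _
        unfold setT
        simp only [hA, hK, h4]
    rw [hiter]
    have hV : ∀ x ∈ Icc t (t + 8), VV 1 (κ j) x = v0 x + κ j * bb x := by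
      intro x hx
      rw [VV, cutt (abs_le.2 ⟨by linarith [hx.1], by linarith [hx.2]⟩)]
      ring
    have h8 : c 1 (κ j) t N = t + 8 := by
      refine transit (Gf := Gf) (hc1 1 (κ j) t) (VV_nonneg zero_le_one (hpos j).le) (hc0 _ _ _)
        (by linarith) (fun x hx => by rw [hV x hx]; exact hG0 x) (fun x hx => ?_)
        (by rw [hG2]; ring) (Nat.cast_nonneg N)
      rw [hV x hx]
      exact hG1 x
    rw [h8]

end Pool.Agent.H247.LC.Tau
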