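import Pool.Agent.H247.LC.Man
import Pool.Agent.H247.LC.Tau
import Pool.Agent.H247.LC.Per

/-!
# The label map and the field
-/

set_option autoImplicit false

open scoped Manifold ContDiff Topology
open Set

namespace Pool.Agent.H247.LC

open Pool.Agent.H718R2 (E)
open Pool.Agent.H247.LC.Tau (cut_one cut_zero cut_nonneg cut_contDiff v0_contDiff bb_contDiff)

theorem β₁_smooth : ContDiff ℝ ∞ β₁ := by
  unfold β₁
  exact Real.smoothTransition.contDiff.comp (contDiff_id.sub contDiff_const)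

theorem β₂_smooth : ContDiff ℝ ∞ β₂ := by
  unfold β₂
  exact Real.smoothTransition.contDiff.comp (contDiff_id.sub contDiff_const)

theorem v0_zero {t : ℝ} (h1 : 7 / 2 ≤ t) (h2 : t ≤ 9 / 2) : v0 t = 0 := by
  have h3 := Per.mid (κ := 0) h1 h2
  simpa using h3

theorem v0_zero' {t : ℝ} (h1 : 23 / 2 ≤ t) (h2 : t ≤ 25 / 2) : v0 t = 0 := by
  have h3 := v0_zero (t := t - 8) (by linarith) (by linarith)
  have h4 : v0 t = v0 (t - 8) := by
    unfold v0
    have := Per.cos_per (t - 8)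
    rw [sub_add_cancel] at this
    rw [this]
  rw [h4, h3]

/-- the geometric data -/
structure Dat (k : ℕ) (f : E → E) (lam : E → ℝ) where
  h : ℝ → E ≃ E
  hs : ContDiff ℝ ∞ (fun q : ℝ × E => h q.1 q.2)
  hs' : ContDiff ℝ ∞ (fun q : ℝ × E => (h q.1).symm q.2)
  h0 : ∀ p, h 0 p = p
  h1 : ∀ p, h 1 p = f p
  ΨK : ℝ → EuclideanSpace ℝ (Fin k) → EuclideanSpace ℝ (Fin k)
  Ks : ContDiff ℝ ∞ (fun q : ℝ × EuclideanSpace ℝ (Fin k) => ΨK q.1 q.2)
  K0 : ∀ w, ΨK 0 w = w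
  Kadd : ∀ s t w, ΨK (s + t) w = ΨK s (ΨK t w)
  Kout : ∀ s w, 1 / 8 ≤ ‖w‖ → ΨK s w = w
  Kin : ∀ s w, ‖w‖ ≤ 1 / 16 → Real.exp s * ‖w‖ ≤ 1 / 16 → ΨK s w = Real.exp s • w
  Kmon : ∀ s w, 0 ≤ s → ‖w‖ ≤ ‖ΨK s w‖
  Ψ : ℝ → ℝ → ℝ
  Ps : ContDiff ℝ ∞ (fun q : ℝ × ℝ => Ψ q.1 q.2)
  P0 : ∀ w, Ψ 0 w = w
  Padd : ∀ s t w, Ψ (s + t) w = Ψ s (Ψ t w)
  Pout : ∀ s w, 1 / 8 ≤ |w| → Ψ s w = w
  Pin : ∀ s w, |w| ≤ 1 / 16 → Real.exp s * |w| ≤ 1 / 16 → Ψ s w = Real.exp s * w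
  Pmon : ∀ s w, 0 ≤ s → |w| ≤ |Ψ s w|
  lams : ContDiff ℝ ∞ lam

namespace Dat

variable {k : ℕ} {f : E → E} {lam : E → ℝ} (D : Dat k f lam)

noncomputable def Phi (u : Tot k) : Tot k :=
  (D.h (β₂ u.2.2.2) u.1, (D.ΨK (β₂ u.2.2.2 * lam u.1) u.2.1,
    (D.Ψ ((β₁ u.2.2.2 + β₂ u.2.2.2) * lam u.1) u.2.2.1, u.2.2.2)))

noncomputable def Phii (v : Tot k) : Tot k :=
  ((D.h (β₂ v.2.2.2)).symm v.1,
    (D.ΨK (-(β₂ v.2.2.2 * lam ((D.h (β₂ v.2.2.2)).symm v.1))) v.2.1,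
    (D.Ψ (-((β₁ v.2.2.2 + β₂ v.2.2.2) * lam ((D.h (β₂ v.2.2.2)).symm v.1))) v.2.2.1, v.2.2.2)))

theorem K_inv (s : ℝ) (w : EuclideanSpace ℝ (Fin k)) : D.ΨK s (D.ΨK (-s) w) = w := by
  rw [← D.Kadd, add_neg_cancel, D.K0]

theorem K_inv' (s : ℝ) (w : EuclideanSpace ℝ (Fin k)) : D.ΨK (-s) (D.ΨK s w) = w := by
  rw [← D.Kadd, neg_add_cancel, D.K0]

theorem P_inv (s : ℝ) (w : ℝ) : D.Ψ s (D.Ψ (-s) w) = w := by
  rw [← D.Padd, add_neg_cancel, D.P0]

theorem P_inv' (s : ℝ) (w : ℝ) : D.Ψ (-s) (D.Ψ s w) = w := by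
  rw [← D.Padd, neg_add_cancel, D.P0]

theorem Phi_Phii (v : Tot k) : D.Phi (D.Phii v) = v := by
  obtain ⟨P, w', w, t⟩ := v
  simp only [Phi, Phii, Equiv.apply_symm_apply, K_inv, P_inv]

theorem Phii_Phi (v : Tot k) : D.Phii (D.Phi v) = v := by
  obtain ⟨P, w', w, t⟩ := v
  simp only [Phi, Phii, Equiv.symm_apply_apply, K_inv', P_inv']

theorem ct : ContDiff ℝ ∞ (fun u : Tot k => u.2.2.2) :=
  contDiff_snd.comp (contDiff_snd.comp contDiff_snd)

theorem cw : ContDiff ℝ ∞ (fun u : Tot k => u.2.2.1) :=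
  contDiff_fst.comp (contDiff_snd.comp contDiff_snd)

theorem ck : ContDiff ℝ ∞ (fun u : Tot k => u.2.1) :=
  contDiff_fst.comp contDiff_snd

theorem Phi_smooth : ContDiff ℝ ∞ D.Phi := by
  have b1 := β₁_smooth.comp (ct (k := k))
  have b2 := β₂_smooth.comp (ct (k := k))
  have l := D.lams.comp (contDiff_fst : ContDiff ℝ ∞ (fun u : Tot k => u.1))
  exact (D.hs.comp (b2.prodMk contDiff_fst)).prodMk
    ((D.Ks.comp ((b2.mul l).prodMk ck)).prodMk
      ((D.Ps.comp (((b1.add b2).mul l).prodMk cw)).prodMk ct))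

theorem Phii_smooth : ContDiff ℝ ∞ D.Phii := by
  have b1 := β₁_smooth.comp (ct (k := k))
  have b2 := β₂_smooth.comp (ct (k := k))
  have hp : ContDiff ℝ ∞ (fun v : Tot k => (D.h (β₂ v.2.2.2)).symm v.1) :=
    D.hs'.comp (b2.prodMk contDiff_fst)
  have l := D.lams.comp hp
  exact hp.prodMk
    ((D.Ks.comp ((b2.mul l).neg.prodMk ck)).prodMk
      ((D.Ps.comp (((b1.add b2).mul l).neg.prodMk cw)).prodMk ct))

/-- the label map as a homeomorphism -/
noncomputable def H : Tot k ≃ₜ Tot k where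
  toFun := D.Phi
  invFun := D.Phii
  left_inv := D.Phii_Phi
  right_inv := D.Phi_Phii
  continuous_toFun := D.Phi_smooth.continuous
  continuous_invFun := D.Phii_smooth.continuous

/-- the compressed label map -/
noncomputable def Θ : OpenPartialHomeomorph (Tot k) (Tot k) :=
  D.H.toOpenPartialHomeomorph.trans (iota k)

theorem Θ_apply (u : Tot k) : D.Θ u = iota k (D.Phi u) := rfl

theorem Θ_source : D.Θ.source = univ := by
  rw [Θ, OpenPartialHomeomorph.trans_source, Man.iota_source]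
  simp

theorem Θ_target : D.Θ.target = (iota k).target := by
  rw [Θ, OpenPartialHomeomorph.trans_target]
  simp

theorem Θ_smooth : ContDiff ℝ ∞ D.Θ := (Man.iota_smooth k).comp D.Phi_smooth

theorem Θ_symm_smooth : ContDiffOn ℝ ∞ D.Θ.symm D.Θ.target := by
  rw [Θ_target]
  exact D.Phii_smooth.comp_contDiffOn (Man.iota_symm_smooth k)

theorem Θ_snd (u : Tot k) : (D.Θ u).2 = (D.Phi u).2 := rfl

theorem cutK (s : ℝ) (w : EuclideanSpace ℝ (Fin k)) :
    cut (4 * ‖D.ΨK s w‖ ^ 2) = cut (4 * ‖w‖ ^ 2) := by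
  by_cases h : 1 / 8 ≤ ‖w‖
  · rw [D.Kout s w h]
  · have h1 : ‖D.ΨK s w‖ ≤ 1 / 8 := by
      by_contra hc
      rw [not_le] at hc
      have h2 := D.Kout (-s) _ hc.le
      rw [D.K_inv'] at h2
      rw [← h2] at hc
      exact h hc.le
    rw [not_le] at h
    have := norm_nonneg w
    have := norm_nonneg (D.ΨK s w)
    rw [cut_one (by nlinarith), cut_one (by nlinarith)]

theorem cutP (s : ℝ) (w : ℝ) : cut (4 * (D.Ψ s w) ^ 2) = cut (4 * w ^ 2) := by
  by_cases h : 1 / 8 ≤ |w|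
  · rw [D.Pout s w h]
  · have h1 : |D.Ψ s w| ≤ 1 / 8 := by
      by_contra hc
      rw [not_le] at hc
      have h2 := D.Pout (-s) _ hc.le
      rw [D.P_inv'] at h2
      rw [← h2] at hc
      exact h hc.le
    rw [not_le] at h
    have h3 := abs_lt.1 h
    have h4 := abs_le.1 h1
    rw [cut_one (by nlinarith), cut_one (by nlinarith)]

theorem cc_Θ (u : Tot k) : cc (D.Θ u) = cc u := by
  unfold cc
  rw [Θ_snd]
  simp only [Phi, cutK, cutP]

/-- the unit vector of time -/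
theorem fderiv_e (u : Tot k) (h : v0 u.2.2.2 ≠ 0) : fderiv ℝ D.Θ u (x₀ k) = x₀ k := by
  have hd : HasFDerivAt D.Θ (fderiv ℝ D.Θ u) u :=
    (D.Θ_smooth.differentiable (by simp)).differentiableAt.hasFDerivAt
  have hc : HasDerivAt (fun s : ℝ => u + s • x₀ k) (x₀ k) 0 := by
    have := ((hasDerivAt_id (0 : ℝ)).smul_const (x₀ k)).const_add u
    simpa using this
  have h1 : HasDerivAt (fun s : ℝ => D.Θ (u + s • x₀ k)) (fderiv ℝ D.Θ u (x₀ k)) 0 := by
    have hd' : HasFDerivAt D.Θ (fderiv ℝ D.Θ u) (u + (0 : ℝ) • x₀ k) := by simpa using hd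
    exact hd'.comp_hasDerivAt 0 hc
  have h2 : HasDerivAt (fun s : ℝ => D.Θ u + s • x₀ k) (x₀ k) 0 := by
    have := ((hasDerivAt_id (0 : ℝ)).smul_const (x₀ k)).const_add (D.Θ u)
    simpa using this
  refine h1.unique (h2.congr_of_eventuallyEq ?_)
  -- the functions β are locally constant
  have hloc : ∀ᶠ s : ℝ in 𝓝 0, β₁ (u.2.2.2 + s) = β₁ u.2.2.2 ∧ β₂ (u.2.2.2 + s) = β₂ u.2.2.2 := by
    have g1 : ∀ᶠ s : ℝ in 𝓝 0, β₁ (u.2.2.2 + s) = β₁ u.2.2.2 := by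
      rcases lt_or_ge u.2.2.2 (7 / 2) with h3 | h3
      · have : ∀ᶠ s : ℝ in 𝓝 0, s < 7 / 2 - u.2.2.2 := eventually_lt_nhds (by linarith)
        filter_upwards [this] with s hs
        rw [show β₁ (u.2.2.2 + s) = 0 from Real.smoothTransition.zero_of_nonpos (by linarith),
          show β₁ u.2.2.2 = 0 from Real.smoothTransition.zero_of_nonpos (by linarith)]
      · have h4 : 9 / 2 < u.2.2.2 := by
          by_contra hcon
          exact h (v0_zero h3 (not_lt.1 hcon))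
        have : ∀ᶠ s : ℝ in 𝓝 0, 9 / 2 - u.2.2.2 < s := eventually_gt_nhds (by linarith)
        filter_upwards [this] with s hs
        rw [show β₁ (u.2.2.2 + s) = 1 from Real.smoothTransition.one_of_one_le (by linarith),
          show β₁ u.2.2.2 = 1 from Real.smoothTransition.one_of_one_le (by linarith)]
    have g2 : ∀ᶠ s : ℝ in 𝓝 0, β₂ (u.2.2.2 + s) = β₂ u.2.2.2 := by
      rcases lt_or_ge u.2.2.2 (23 / 2) with h3 | h3
      · have : ∀ᶠ s : ℝ in 𝓝 0, s < 23 / 2 - u.2.2.2 := eventually_lt_nhds (by linarith)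
        filter_upwards [this] with s hs
        rw [show β₂ (u.2.2.2 + s) = 0 from Real.smoothTransition.zero_of_nonpos (by linarith),
          show β₂ u.2.2.2 = 0 from Real.smoothTransition.zero_of_nonpos (by linarith)]
      · have h4 : 25 / 2 < u.2.2.2 := by
          by_contra hcon
          exact h (v0_zero' h3 (not_lt.1 hcon))
        have : ∀ᶠ s : ℝ in 𝓝 0, 25 / 2 - u.2.2.2 < s := eventually_gt_nhds (by linarith)
        filter_upwards [this] with s hs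
        rw [show β₂ (u.2.2.2 + s) = 1 from Real.smoothTransition.one_of_one_le (by linarith),
          show β₂ u.2.2.2 = 1 from Real.smoothTransition.one_of_one_le (by linarith)]
    exact g1.and g2
  filter_upwards [hloc] with s hs
  obtain ⟨P, w', w, t⟩ := u
  have e1 : ((P, (w', (w, t))) : Tot k) + s • x₀ k = (P, (w', (w, t + s))) := by
    simp [x₀]
  rw [e1]
  simp only at hs
  have e2 : D.Phi (P, (w', (w, t + s))) = D.Phi (P, (w', (w, t))) + s • x₀ k := by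
    simp only [Phi, hs.1, hs.2]
    simp [x₀]
  rw [Θ_apply, e2, Θ_apply]
  generalize D.Phi (P, (w', (w, t))) = y
  obtain ⟨P1, w1', w1, t1⟩ := y
  have e3 : ((P1, (w1', (w1, t1))) : Tot k) + s • x₀ k = (P1, (w1', (w1, t1 + s))) := by
    simp [x₀]
  rw [e3]
  show ((iotaE P1, (w1', (w1, t1 + s))) : Tot k) = (iotaE P1, (w1', (w1, t1))) + s • x₀ k
  simp [x₀]

end Dat

end Pool.Agent.H247.LC
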