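import Pool.Agent.H247.LC.Iface
import Pool.Graph.R_seed8.H864R3.Flow

/-!
# Project LC, leaf Flow (helper870): time-one map of a compactly supported field
-/

set_option autoImplicit false

open scoped ContDiff Topology
open Set

namespace Pool.Agent.H247.LC.Flow

theorem main : S_FLOW := by
  intro X _ _ _ Y hY hc
  have hcomp : CompleteSpace X := FiniteDimensional.complete ℝ X
  obtain ⟨G, hG, G0, Gadd, Gder⟩ := Pool.Agent.H864R3.flow_cpt Y hY hc
  obtain ⟨K, hK⟩ := hY.lipschitzWith_of_hasCompactSupport hc (by simp)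
  have hsm : ∀ t : ℝ, ContDiff ℝ ∞ (fun p => G t p) := fun t =>
    hG.comp (contDiff_const.prodMk contDiff_id)
  let T : X ≃ₜ X :=
    { toFun := G 1
      invFun := G (-1)
      left_inv := fun p => by rw [← Gadd, neg_add_cancel, G0]
      right_inv := fun p => by rw [← Gadd, add_neg_cancel, G0]
      continuous_toFun := (hsm 1).continuous
      continuous_invFun := (hsm (-1)).continuous }
  refine ⟨T, hsm 1, hsm (-1), ?_, ?_⟩
  · intro c hcd
    have h3 := ODE_solution_unique_univ (v := fun _ => Y) (s := fun _ => univ) (K := K) (t₀ := 0)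
      (f := fun t => G t (c 0)) (g := c) (fun t => hK.lipschitzOnWith)
      (fun t => ⟨Gder (c 0) t, trivial⟩) (fun t => ⟨hcd t, trivial⟩) (G0 (c 0))
    exact congrFun h3 1
  · intro q
    exact ⟨fun t => G t q, G0 q, fun s => Gder q s⟩

end Pool.Agent.H247.LC.Flow
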