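import Pool.Agent.H247.LC.Iface

/-!
# Leaf Iso: isotopy to the identity (Alexander trick)
-/

set_option autoImplicit false

open scoped Manifold ContDiff Topology
open Set

namespace Pool.Agent.H247.LC.Iso

open Pool.Agent.H718R2 (E)

/-- the translation vector -/
def c : E := (0, 1, 0)

noncomputable def H (f : E ≃ₜ E) (t : ℝ) (p : E) : E :=
  if t = 0 then p else t⁻¹ • (f (t • p) - c) + t • c

noncomputable def Hi (f : E ≃ₜ E) (t : ℝ) (q : E) : E :=
  if t = 0 then q else t⁻¹ • f.symm (t • (q - t • c) + c)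

noncomputable def eqv (f : E ≃ₜ E) (t : ℝ) : E ≃ E where
  toFun := H f t
  invFun := Hi f t
  left_inv p := by
    by_cases ht : t = 0
    · simp [H, Hi, ht]
    · simp only [H, Hi, if_neg ht]
      rw [add_sub_cancel_right, smul_smul, mul_inv_cancel₀ ht, one_smul, sub_add_cancel,
        f.symm_apply_apply, smul_smul, inv_mul_cancel₀ ht, one_smul]
  right_inv q := by
    by_cases ht : t = 0
    · simp [H, Hi, ht]
    · simp only [H, Hi, if_neg ht]
      rw [smul_smul, mul_inv_cancel₀ ht, one_smul, f.apply_symm_apply, add_sub_cancel_right,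
        smul_smul, inv_mul_cancel₀ ht, one_smul, sub_add_cancel]

lemma near {f : E ≃ₜ E} (hf : ∀ z : E, |z.1| ≤ 5 → |z.2.1| ≤ 1 / 4 → f z = (z.1, z.2.1 + 1, z.2.2))
    {z : E} (hz : ‖z‖ ≤ 1 / 4) : f z = z + c := by
  have h1 : |z.1| ≤ ‖z‖ := norm_fst_le z
  have h2 : |z.2.1| ≤ ‖z‖ := (norm_fst_le z.2).trans (norm_snd_le z)
  rw [hf z (by linarith) (by linarith)]
  ext <;> simp [c]

lemma H_near {f : E ≃ₜ E} (hf : ∀ z : E, |z.1| ≤ 5 → |z.2.1| ≤ 1 / 4 → f z = (z.1, z.2.1 + 1, z.2.2))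
    {t : ℝ} {p : E} (h : ‖t • p‖ < 1 / 4) : H f t p = p + t • c := by
  by_cases ht : t = 0
  · simp [H, ht]
  · simp only [H, if_neg ht]
    rw [near hf h.le, add_sub_cancel_right, smul_smul, inv_mul_cancel₀ ht, one_smul]

lemma Hi_near {f : E ≃ₜ E} (hf : ∀ z : E, |z.1| ≤ 5 → |z.2.1| ≤ 1 / 4 → f z = (z.1, z.2.1 + 1, z.2.2))
    {t : ℝ} {q : E} (h : ‖t • (q - t • c)‖ < 1 / 4) : Hi f t q = q - t • c := by
  by_cases ht : t = 0
  · simp [Hi, ht]
  · simp only [Hi, if_neg ht]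
    rw [← near hf h.le, f.symm_apply_apply, smul_smul, inv_mul_cancel₀ ht, one_smul]

theorem main : S_ISO := by
  intro f hf hfi hT
  refine ⟨eqv f, ?_, ?_, ?_, ?_⟩
  · rw [contDiff_iff_contDiffAt]
    rintro ⟨t0, p0⟩
    by_cases ht : t0 = 0
    · subst ht
      have h1 : ContDiffAt ℝ ∞ (fun q : ℝ × E => q.2 + q.1 • c) (0, p0) := by fun_prop
      refine h1.congr_of_eventuallyEq ?_
      have h2 : ContinuousAt (fun q : ℝ × E => ‖q.1 • q.2‖) (0, p0) := by fun_prop
      have h3 : ∀ᶠ q : ℝ × E in 𝓝 (0, p0), ‖q.1 • q.2‖ < 1 / 4 :=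
        h2.eventually_lt continuousAt_const (by simp)
      filter_upwards [h3] with q hq
      exact H_near hT hq
    · have hne : ∀ᶠ q : ℝ × E in 𝓝 (t0, p0), q.1 ≠ 0 :=
        continuousAt_fst.eventually_ne ht
      have h1 : ContDiffAt ℝ ∞ (fun q : ℝ × E => q.1⁻¹ • (f (q.1 • q.2) - c) + q.1 • c) (t0, p0) := by
        have a1 : ContDiffAt ℝ ∞ (fun q : ℝ × E => q.1⁻¹) (t0, p0) := contDiffAt_fst.inv ht
        have a2 : ContDiffAt ℝ ∞ (fun q : ℝ × E => f (q.1 • q.2)) (t0, p0) :=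
          hf.contDiffAt.comp (t0, p0) (contDiffAt_fst.smul contDiffAt_snd)
        exact (a1.smul (a2.sub contDiffAt_const)).add (contDiffAt_fst.smul contDiffAt_const)
      refine h1.congr_of_eventuallyEq ?_
      filter_upwards [hne] with q hq
      exact if_neg hq
  · rw [contDiff_iff_contDiffAt]
    rintro ⟨t0, p0⟩
    by_cases ht : t0 = 0
    · subst ht
      have h1 : ContDiffAt ℝ ∞ (fun q : ℝ × E => q.2 - q.1 • c) (0, p0) := by fun_prop
      refine h1.congr_of_eventuallyEq ?_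
      have h2 : ContinuousAt (fun q : ℝ × E => ‖q.1 • (q.2 - q.1 • c)‖) (0, p0) := by fun_prop
      have h3 : ∀ᶠ q : ℝ × E in 𝓝 (0, p0), ‖q.1 • (q.2 - q.1 • c)‖ < 1 / 4 :=
        h2.eventually_lt continuousAt_const (by simp)
      filter_upwards [h3] with q hq
      exact Hi_near hT hq
    · have hne : ∀ᶠ q : ℝ × E in 𝓝 (t0, p0), q.1 ≠ 0 :=
        continuousAt_fst.eventually_ne ht
      have h1 : ContDiffAt ℝ ∞
          (fun q : ℝ × E => q.1⁻¹ • f.symm (q.1 • (q.2 - q.1 • c) + c)) (t0, p0) := by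
        have a1 : ContDiffAt ℝ ∞ (fun q : ℝ × E => q.1⁻¹) (t0, p0) := contDiffAt_fst.inv ht
        have a2 : ContDiffAt ℝ ∞ (fun q : ℝ × E => f.symm (q.1 • (q.2 - q.1 • c) + c)) (t0, p0) :=
          hfi.contDiffAt.comp (t0, p0)
            ((contDiffAt_fst.smul (contDiffAt_snd.sub (contDiffAt_fst.smul contDiffAt_const))).add
              contDiffAt_const)
        exact a1.smul a2
      refine h1.congr_of_eventuallyEq ?_
      filter_upwards [hne] with q hq
      exact if_neg hq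
  · intro p
    exact if_pos rfl
  · intro p
    show H f 1 p = f p
    simp [H]

end Pool.Agent.H247.LC.Iso
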