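import Pool.Agent.H247.LC.Iface

set_option autoImplicit false

open scoped Manifold ContDiff Topology
open Set

namespace Pool.Agent.H247.LC.Push

open Pool.Agent.H247.LC

theorem main : S_PUSH := by
  classical
  intro X _ _ _ Θ hsrc hΘ hΘs m hm hmc e₀
  set W : X → X := fun q =>
    if q ∈ Θ.target then m (Θ.symm q) • fderiv ℝ Θ (Θ.symm q) e₀ else 0 with hW
  have hKc : IsCompact (Θ '' tsupport m) := IsCompact.image hmc hΘ.continuous
  have hzero : ∀ q ∉ Θ '' tsupport m, W q = 0 := by
    intro q hq
    simp only [hW]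
    split_ifs with h
    · have h1 : Θ.symm q ∉ tsupport m := by
        intro h2
        exact hq ⟨Θ.symm q, h2, Θ.right_inv h⟩
      rw [image_eq_zero_of_notMem_tsupport h1, zero_smul]
    · rfl
  refine ⟨W, ?_, HasCompactSupport.intro hKc hzero, ?_, ?_⟩
  · rw [contDiff_iff_contDiffAt]
    intro q
    by_cases hq : q ∈ Θ.target
    · have h1 : ContDiffAt ℝ ∞ (fun q => m (Θ.symm q) • fderiv ℝ Θ (Θ.symm q) e₀) q := by
        have h2 : ContDiffAt ℝ ∞ Θ.symm q := hΘs.contDiffAt (Θ.open_target.mem_nhds hq)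
        have h3 : ContDiff ℝ ∞ (fun u => fderiv ℝ Θ u e₀) :=
          (hΘ.fderiv_right (m := ∞) (by simp)).clm_apply contDiff_const
        exact (hm.contDiffAt.comp q h2).smul (h3.contDiffAt.comp q h2)
      refine h1.congr_of_eventuallyEq ?_
      filter_upwards [Θ.open_target.mem_nhds hq] with q' hq'
      simp only [hW]
      rw [if_pos hq']
    · have hqK : q ∈ (Θ '' tsupport m)ᶜ := by
        rintro ⟨u, -, rfl⟩
        exact hq (Θ.map_source (by rw [hsrc]; trivial))
      refine (contDiffAt_const (c := (0 : X))).congr_of_eventuallyEq ?_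
      filter_upwards [hKc.isClosed.isOpen_compl.mem_nhds hqK] with q' hq'
      exact hzero q' hq'
  · intro u
    have hu : u ∈ Θ.source := by rw [hsrc]; trivial
    simp only [hW]
    rw [if_pos (Θ.map_source hu), Θ.left_inv hu]
  · intro q hq
    simp only [hW]
    rw [if_neg hq]

end Pool.Agent.H247.LC.Push
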