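import Pool.Agent.H247.LC.Iface

/-!
# Flat sums of compactly supported smooth fields
-/

set_option autoImplicit false

open scoped ContDiff Topology
open Set Filter

namespace Pool.Agent.H247.LC.Sum

theorem summable_two : Summable (fun j : ℤ => (1 / 2 : ℝ) ^ j.natAbs) := by
  have h1 : Summable (fun n : ℕ => (1 / 2 : ℝ) ^ n) :=
    summable_geometric_of_lt_one (by norm_num) (by norm_num)
  apply Summable.of_nat_of_neg
  · simpa using h1
  · simpa using h1

theorem bound {X : Type} [NormedAddCommGroup X] [NormedSpace ℝ X] (W : X → X)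
    (hW : ContDiff ℝ ∞ W) (hc : HasCompactSupport W) (m : ℕ) :
    ∃ C : ℝ, 0 ≤ C ∧ ∀ n ≤ m, ∀ q, ‖iteratedFDeriv ℝ n W q‖ ≤ C := by
  have h : ∀ n : ℕ, ∃ C : ℝ, ∀ q, ‖iteratedFDeriv ℝ n W q‖ ≤ C := fun n =>
    (hc.iteratedFDeriv n).exists_bound_of_continuous
      (hW.continuous_iteratedFDeriv (by exact_mod_cast le_top))
  choose C hC using h
  refine ⟨∑ n ∈ Finset.range (m + 1), |C n|, Finset.sum_nonneg fun _ _ => abs_nonneg _, ?_⟩
  intro n hn q
  refine (hC n q).trans ((le_abs_self _).trans ?_)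
  exact Finset.single_le_sum (f := fun n => |C n|) (fun _ _ => abs_nonneg _)
    (Finset.mem_range.2 (by omega))

theorem main : S_SUM := by
  intro X _ _ _ W hW hc
  choose C hC0 hC using fun j : ℤ => bound (W j) (hW j) (hc j) j.natAbs
  refine ⟨fun j => (1 / 2 : ℝ) ^ j.natAbs / (1 + C j), fun j => ?_, ?_⟩
  · have := hC0 j
    positivity
  intro κ hκ
  have key : ∀ (n : ℕ) (j : ℤ), n ≤ j.natAbs → ∀ q, ‖iteratedFDeriv ℝ n (fun q => κ j • W j q) q‖ ≤
      (1 / 2 : ℝ) ^ j.natAbs := by
    intro n j hn q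
    have hnn : (n : WithTop ℕ∞) ≤ ∞ := by exact_mod_cast le_top
    rw [iteratedFDeriv_const_smul_apply' (((hW j).of_le hnn).contDiffAt), norm_smul,
      Real.norm_of_nonneg (hκ j).1]
    have h0 := hC0 j
    calc κ j * ‖iteratedFDeriv ℝ n (W j) q‖ ≤ (1 / 2 : ℝ) ^ j.natAbs / (1 + C j) * C j :=
          mul_le_mul (hκ j).2 (hC j n hn q) (norm_nonneg _) (by positivity)
      _ ≤ (1 / 2 : ℝ) ^ j.natAbs / (1 + C j) * (1 + C j) := by
          gcongr
          linarith
      _ = (1 / 2 : ℝ) ^ j.natAbs := by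
          field_simp
  have hfin : ∀ n : ℕ, {j : ℤ | ¬ n ≤ j.natAbs}.Finite := by
    intro n
    apply (Set.finite_Icc (-(n : ℤ)) n).subset
    intro j hj
    simp only [mem_ofPred_eq, not_le] at hj
    simp only [Set.mem_Icc]
    omega
  constructor
  · apply contDiff_tsum_of_eventually (N := ⊤) (v := fun _ j => (1 / 2 : ℝ) ^ j.natAbs)
    · intro j
      exact (hW j).const_smul (κ j)
    · intro _ _
      exact summable_two
    · intro n _
      rw [eventually_cofinite]
      apply (hfin n).subset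
      intro j hj hn
      exact hj (key n j hn)
  · intro q
    apply Summable.of_norm_bounded summable_two
    intro j
    have := key 0 j (Nat.zero_le _) q
    rwa [norm_iteratedFDeriv_zero] at this

end Pool.Agent.H247.LC.Sum
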