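import Pool.Agent.H247.LC.Iface

/-!
# Twist maps of the plane, with a parameter
-/

set_option autoImplicit false

open scoped Manifold ContDiff Topology
open Set

namespace Pool.Agent.H247.LC.Tw

open Pool.Agent.H247.LC

variable {X : Type} [NormedAddCommGroup X] [NormedSpace ℝ X]

set_option linter.unusedSectionVars false

theorem rot_sq (a : ℝ) (z : ℝ × ℝ) : (rot a z).1 ^ 2 + (rot a z).2 ^ 2 = z.1 ^ 2 + z.2 ^ 2 := by
  unfold rot
  have h := Real.sin_sq_add_cos_sq a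
  simp only
  linear_combination (z.1 ^ 2 + z.2 ^ 2) * h

theorem rot_neg_rot (a : ℝ) (z : ℝ × ℝ) : rot (-a) (rot a z) = z := by
  unfold rot
  have h := Real.sin_sq_add_cos_sq a
  rw [Real.cos_neg, Real.sin_neg]
  apply Prod.ext
  · simp only
    linear_combination z.1 * h
  · simp only
    linear_combination z.2 * h

theorem rot_zero (z : ℝ × ℝ) : rot 0 z = z := by
  unfold rot
  rw [Real.cos_zero, Real.sin_zero]
  apply Prod.ext
  · simp
  · simp

/-- squared distance from the centre -/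
def rr (c : ℝ × ℝ) (u : X × (ℝ × ℝ)) : ℝ := (u.2.1 - c.1) ^ 2 + (u.2.2 - c.2) ^ 2

/-- the twist map -/
noncomputable def tw (c : ℝ × ℝ) (g : X → ℝ → ℝ) (u : X × (ℝ × ℝ)) : X × (ℝ × ℝ) :=
  (u.1, (c.1 + (rot (g u.1 (rr c u)) (u.2.1 - c.1, u.2.2 - c.2)).1,
    c.2 + (rot (g u.1 (rr c u)) (u.2.1 - c.1, u.2.2 - c.2)).2))

theorem tw_fst (c : ℝ × ℝ) (g : X → ℝ → ℝ) (u : X × (ℝ × ℝ)) : (tw c g u).1 = u.1 := rfl

theorem rr_tw (c : ℝ × ℝ) (g : X → ℝ → ℝ) (u : X × (ℝ × ℝ)) : rr c (tw c g u) = rr c u := by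
  have h := rot_sq (g u.1 (rr c u)) (u.2.1 - c.1, u.2.2 - c.2)
  have h1 : (tw c g u).2.1 - c.1 = (rot (g u.1 (rr c u)) (u.2.1 - c.1, u.2.2 - c.2)).1 :=
    add_sub_cancel_left _ _
  have h2 : (tw c g u).2.2 - c.2 = (rot (g u.1 (rr c u)) (u.2.1 - c.1, u.2.2 - c.2)).2 :=
    add_sub_cancel_left _ _
  have h3 : rr c (tw c g u) = ((tw c g u).2.1 - c.1) ^ 2 + ((tw c g u).2.2 - c.2) ^ 2 := rfl
  rw [h3, h1, h2, h]
  rfl

theorem tw_neg_tw (c : ℝ × ℝ) (g : X → ℝ → ℝ) (u : X × (ℝ × ℝ)) :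
    tw c (fun x a => -g x a) (tw c g u) = u := by
  have h1 := rr_tw c g u
  have h2 : tw c (fun x a => -g x a) (tw c g u) =
      (u.1, (c.1 + (rot (-g u.1 (rr c u)) (rot (g u.1 (rr c u)) (u.2.1 - c.1, u.2.2 - c.2))).1,
        c.2 + (rot (-g u.1 (rr c u)) (rot (g u.1 (rr c u)) (u.2.1 - c.1, u.2.2 - c.2))).2)) := by
    have h3 : ((tw c g u).2.1 - c.1, (tw c g u).2.2 - c.2) =
        rot (g u.1 (rr c u)) (u.2.1 - c.1, u.2.2 - c.2) := by
      unfold tw
      simp only [add_sub_cancel_left]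
    conv_lhs => unfold tw
    change (u.1, (c.1 + (rot (-g u.1 (rr c (tw c g u)))
      ((tw c g u).2.1 - c.1, (tw c g u).2.2 - c.2)).1,
      c.2 + (rot (-g u.1 (rr c (tw c g u))) ((tw c g u).2.1 - c.1, (tw c g u).2.2 - c.2)).2)) = _
    rw [h1, h3]
  rw [h2, rot_neg_rot]
  simp

theorem tw_tw_neg (c : ℝ × ℝ) (g : X → ℝ → ℝ) (u : X × (ℝ × ℝ)) :
    tw c g (tw c (fun x a => -g x a) u) = u := by
  have h := tw_neg_tw c (fun x a => -g x a) u
  simp only [neg_neg] at h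
  exact h

theorem tw_of_zero (c : ℝ × ℝ) (g : X → ℝ → ℝ) (u : X × (ℝ × ℝ)) (h : g u.1 (rr c u) = 0) :
    tw c g u = u := by
  unfold tw
  rw [h, rot_zero]
  simp

theorem contDiff_tw (c : ℝ × ℝ) (g : X → ℝ → ℝ)
    (hg : ContDiff ℝ ∞ (fun q : X × ℝ => g q.1 q.2)) : ContDiff ℝ ∞ (tw c g) := by
  have h1 : ContDiff ℝ ∞ (fun u : X × (ℝ × ℝ) => rr c u) := by
    unfold rr
    fun_prop
  have h2 : ContDiff ℝ ∞ (fun u : X × (ℝ × ℝ) => g u.1 (rr c u)) :=
    hg.comp (contDiff_fst.prodMk h1)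
  have h3 : ContDiff ℝ ∞ (fun u : X × (ℝ × ℝ) => Real.cos (g u.1 (rr c u))) :=
    Real.contDiff_cos.comp h2
  have h4 : ContDiff ℝ ∞ (fun u : X × (ℝ × ℝ) => Real.sin (g u.1 (rr c u))) :=
    Real.contDiff_sin.comp h2
  have h5 : ContDiff ℝ ∞ (fun u : X × (ℝ × ℝ) => u.2.1 - c.1) := by fun_prop
  have h6 : ContDiff ℝ ∞ (fun u : X × (ℝ × ℝ) => u.2.2 - c.2) := by fun_prop
  unfold tw rot
  exact contDiff_fst.prodMk ((contDiff_const.add ((h3.mul h5).sub (h4.mul h6))).prodMk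
    (contDiff_const.add ((h4.mul h5).add (h3.mul h6))))

/-- the twist map as a homeomorphism -/
noncomputable def twH (c : ℝ × ℝ) (g : X → ℝ → ℝ)
    (hg : ContDiff ℝ ∞ (fun q : X × ℝ => g q.1 q.2)) : (X × (ℝ × ℝ)) ≃ₜ (X × (ℝ × ℝ)) where
  toFun := tw c g
  invFun := tw c (fun x a => -g x a)
  left_inv := tw_neg_tw c g
  right_inv := tw_tw_neg c g
  continuous_toFun := (contDiff_tw c g hg).continuous
  continuous_invFun := (contDiff_tw c _ hg.neg).continuous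

theorem contDiff_twH (c : ℝ × ℝ) (g : X → ℝ → ℝ)
    (hg : ContDiff ℝ ∞ (fun q : X × ℝ => g q.1 q.2)) : ContDiff ℝ ∞ (twH c g hg) :=
  contDiff_tw c g hg

theorem contDiff_twH_symm (c : ℝ × ℝ) (g : X → ℝ → ℝ)
    (hg : ContDiff ℝ ∞ (fun q : X × ℝ => g q.1 q.2)) : ContDiff ℝ ∞ (twH c g hg).symm :=
  contDiff_tw c (fun x a => -g x a) hg.neg

theorem cut_one {a : ℝ} (h : a ≤ 1) : cut a = 1 := by
  unfold cut
  exact Real.smoothTransition.one_of_one_le (by linarith)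

theorem cut_zero {a : ℝ} (h : 2 ≤ a) : cut a = 0 := by
  unfold cut
  exact Real.smoothTransition.zero_of_nonpos (by linarith)

theorem contDiff_cut : ContDiff ℝ ∞ cut := by
  unfold cut
  exact Real.smoothTransition.contDiff.comp (contDiff_const.sub contDiff_id)

/-- first angle -/
noncomputable def g1 (m : X → ℝ) (x : X) (a : ℝ) : ℝ := m x * (Real.pi / 2) * cut ((8 * a) ^ 2)

/-- second angle -/
noncomputable def g2 (m : X → ℝ) (x : X) (a : ℝ) : ℝ :=
  -(m x) * (Real.pi / 2) * cut (((a - 128) / 5) ^ 2)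

theorem contDiff_g1 {m : X → ℝ} (hm : ContDiff ℝ ∞ m) :
    ContDiff ℝ ∞ (fun q : X × ℝ => g1 m q.1 q.2) := by
  unfold g1
  have h1 : ContDiff ℝ ∞ (fun q : X × ℝ => (8 * q.2) ^ 2) := by fun_prop
  exact ((hm.comp contDiff_fst).mul contDiff_const).mul (contDiff_cut.comp h1)

theorem contDiff_g2 {m : X → ℝ} (hm : ContDiff ℝ ∞ m) :
    ContDiff ℝ ∞ (fun q : X × ℝ => g2 m q.1 q.2) := by
  unfold g2
  have h1 : ContDiff ℝ ∞ (fun q : X × ℝ => ((q.2 - 128) / 5) ^ 2) := by fun_prop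
  exact ((hm.comp contDiff_fst).neg.mul contDiff_const).mul (contDiff_cut.comp h1)

/-- **leaf Tw** -/
theorem main : S_TW := by
  intro X _ _ _ m hm
  obtain ⟨C1, hC1⟩ : ∃ C1 : (X × (ℝ × ℝ)) ≃ₜ (X × (ℝ × ℝ)), C1 = twH (0, 8) (g1 m) (contDiff_g1 hm) :=
    ⟨_, rfl⟩
  obtain ⟨C2, hC2⟩ : ∃ C2 : (X × (ℝ × ℝ)) ≃ₜ (X × (ℝ × ℝ)),
    C2 = twH (-8, 8) (g2 m) (contDiff_g2 hm) := ⟨_, rfl⟩
  have e1 : ∀ u, C1 u = tw (0, 8) (g1 m) u := fun u => by rw [hC1]; rfl
  have e2 : ∀ u, C2 u = tw (-8, 8) (g2 m) u := fun u => by rw [hC2]; rfl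
  have r1 : ∀ u : X × (ℝ × ℝ), rr (0, 8) u = u.2.1 ^ 2 + (u.2.2 - 8) ^ 2 := fun u => by
    unfold rr; ring
  have r2 : ∀ u : X × (ℝ × ℝ), rr (-8, 8) u = (u.2.1 + 8) ^ 2 + (u.2.2 - 8) ^ 2 := fun u => by
    unfold rr; ring
  -- the supports are disjoint
  have hdis : ∀ u : X × (ℝ × ℝ), rr (0, 8) u < 1 / 4 → rr (-8, 8) u < 73 := by
    intro u hu
    rw [r1] at hu
    rw [r2]
    have h1 : u.2.1 < 1 / 2 := by
      by_contra h
      push Not at h
      nlinarith [sq_nonneg (u.2.2 - 8)]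
    nlinarith
  have hfix1 : ∀ u : X × (ℝ × ℝ), 1 / 4 ≤ rr (0, 8) u → C1 u = u := by
    intro u hu
    rw [e1]
    apply tw_of_zero
    unfold g1
    rw [cut_zero, mul_zero]
    nlinarith
  have hfix2 : ∀ u : X × (ℝ × ℝ), rr (-8, 8) u ≤ 118 ∨ 138 ≤ rr (-8, 8) u → C2 u = u := by
    intro u hu
    rw [e2]
    apply tw_of_zero
    unfold g2
    rw [cut_zero, mul_zero]
    rw [div_pow, le_div_iff₀ (by norm_num)]
    rcases hu with hu | hu
    · nlinarith
    · nlinarith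
  refine ⟨C2.trans C1, ?_, ?_, ?_, ?_, ?_, ?_, ?_⟩
  · have h1 : ContDiff ℝ ∞ C1 := by rw [hC1]; exact contDiff_twH _ _ _
    have h2 : ContDiff ℝ ∞ C2 := by rw [hC2]; exact contDiff_twH _ _ _
    exact h1.comp h2
  · have h1 : ContDiff ℝ ∞ C1.symm := by rw [hC1]; exact contDiff_twH_symm _ _ _
    have h2 : ContDiff ℝ ∞ C2.symm := by rw [hC2]; exact contDiff_twH_symm _ _ _
    exact h2.comp h1
  · intro u
    rw [Homeomorph.trans_apply, e1, e2]
    rfl
  · intro u hu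
    have h2 : C2 u = u := by
      rw [e2]
      apply tw_of_zero
      unfold g2
      rw [hu]
      ring
    have h1 : C1 u = u := by
      rw [e1]
      apply tw_of_zero
      unfold g1
      rw [hu]
      ring
    rw [Homeomorph.trans_apply, h2, h1]
  · intro u
    rw [Homeomorph.trans_apply]
    by_cases h : rr (-8, 8) u ≤ 118 ∨ 138 ≤ rr (-8, 8) u
    · rw [hfix2 u h]
      by_cases h' : 1 / 4 ≤ rr (0, 8) u
      · left
        exact hfix1 u h'
      · right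
        left
        push Not at h'
        have h3 : rr (0, 8) (C1 u) = rr (0, 8) u := by rw [e1, rr_tw]
        rw [← r1, ← r1, h3]
        exact ⟨h', h'⟩
    · right
      right
      push Not at h
      have h3 : rr (-8, 8) (C2 u) = rr (-8, 8) u := by rw [e2, rr_tw]
      have h4 : C1 (C2 u) = C2 u := by
        apply hfix1
        by_contra h5
        push Not at h5
        have := hdis _ h5
        rw [h3] at this
        linarith [h.1]
      rw [h4, ← r2, ← r2, h3]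
      exact ⟨h.1, h.2, h.1, h.2⟩
  · intro u hu hr
    rw [← r1] at hr
    have h1 : rr (-8, 8) u < 73 := hdis u (by linarith)
    rw [Homeomorph.trans_apply, hfix2 u (Or.inl (by linarith)), e1]
    have h0 : 0 ≤ rr (0, 8) u := by rw [r1]; positivity
    have h2 : g1 m u.1 (rr (0, 8) u) = Real.pi / 2 := by
      unfold g1
      rw [hu, cut_one (by nlinarith)]
      ring
    unfold tw
    rw [h2]
    unfold rot
    rw [Real.cos_pi_div_two, Real.sin_pi_div_two]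
    apply Prod.ext
    · simp only
      ring
    · simp only
      ring
  · intro u hu hr
    rw [← r2] at hr
    rw [abs_le] at hr
    have h3 : rr (-8, 8) (C2 u) = rr (-8, 8) u := by rw [e2, rr_tw]
    have h4 : C1 (C2 u) = C2 u := by
      apply hfix1
      by_contra h5
      push Not at h5
      have := hdis _ h5
      rw [h3] at this
      linarith [hr.1]
    rw [Homeomorph.trans_apply, h4, e2]
    have h2 : g2 m u.1 (rr (-8, 8) u) = -(Real.pi / 2) := by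
      unfold g2
      rw [hu, cut_one ?_]
      · ring
      · rw [div_pow, div_le_one (by norm_num)]
        nlinarith [hr.1, hr.2]
    unfold tw
    rw [h2]
    unfold rot
    rw [Real.cos_neg, Real.sin_neg, Real.cos_pi_div_two, Real.sin_pi_div_two]
    apply Prod.ext
    · simp only
      ring
    · simp only
      ring

end Pool.Agent.H247.LC.Tw
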