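import Pool.Agent.H247.LC.Fld
import Pool.Agent.H247.LC.Ex
import Pool.Agent.H247.LC.Sum
import Pool.Agent.H247.LC.Iso
import Pool.Agent.H247.LC.Push
import Pool.Agent.H247.LC.Flow
import Pool.Agent.H247.LC.Tw

/-!
# Construction of the model
-/

set_option autoImplicit false

open scoped Manifold ContDiff Topology
open Set

namespace Pool.Agent.H247.LC

open Pool.Agent.H718R2 (E)
open Pool.Agent.H247.LC.Tau (cut_one cut_zero cut_nonneg cut_contDiff v0_contDiff bb_contDiff)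
open Pool.Agent.H247.LC.Dat (ct cw ck)

/-- cut-off of the compressed labels -/
noncomputable def cE (p : E) : ℝ := cut (p.1 ^ 2) * cut (p.2.1 ^ 2) * cut (p.2.2 ^ 2)

theorem cE_smooth : ContDiff ℝ ∞ cE := by
  unfold cE
  refine ((cut_contDiff.comp ?_).mul (cut_contDiff.comp ?_)).mul (cut_contDiff.comp ?_)
  · exact contDiff_fst.pow 2
  · exact (contDiff_fst.comp contDiff_snd).pow 2
  · exact (contDiff_snd.comp contDiff_snd).pow 2

theorem cut_ne {a : ℝ} (h : cut a ≠ 0) : a < 2 := by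
  by_contra hc
  exact h (cut_zero (not_lt.1 hc))

theorem cE_ne {p : E} (h : cE p ≠ 0) : ‖p‖ < 2 := by
  unfold cE at h
  have h1 := cut_ne (left_ne_zero_of_mul (left_ne_zero_of_mul h))
  have h2 := cut_ne (right_ne_zero_of_mul (left_ne_zero_of_mul h))
  have h3 := cut_ne (right_ne_zero_of_mul h)
  rw [Prod.norm_def, Prod.norm_def]
  refine max_lt ?_ (max_lt ?_ ?_)
  · rw [Real.norm_eq_abs, abs_lt]; constructor <;> nlinarith
  · rw [Real.norm_eq_abs, abs_lt]; constructor <;> nlinarith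
  · rw [Real.norm_eq_abs, abs_lt]; constructor <;> nlinarith

theorem cc_ne {k : ℕ} {u : Tot k} (h : cc u ≠ 0) : ‖u.2‖ < 24 := by
  unfold cc at h
  have h1 := cut_ne (left_ne_zero_of_mul (left_ne_zero_of_mul h))
  have h2 := cut_ne (right_ne_zero_of_mul (left_ne_zero_of_mul h))
  have h3 := cut_ne (right_ne_zero_of_mul h)
  rw [Prod.norm_def, Prod.norm_def]
  refine max_lt ?_ (max_lt ?_ ?_)
  · have := norm_nonneg u.2.1
    nlinarith
  · rw [Real.norm_eq_abs, abs_lt]; constructor <;> nlinarith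
  · rw [Real.norm_eq_abs, abs_lt]
    rw [div_pow, div_lt_iff₀ (by norm_num)] at h3
    constructor <;> nlinarith

theorem chi_ne {j : ℤ} {p : E} (h : chi j p ≠ 0) : ‖p‖ < |(j : ℝ)| + 2 := by
  unfold chi at h
  have h1 := cut_ne (left_ne_zero_of_mul (left_ne_zero_of_mul h))
  have h2 := cut_ne (right_ne_zero_of_mul (left_ne_zero_of_mul h))
  have h3 := cut_ne (right_ne_zero_of_mul h)
  have h4 := abs_nonneg (j : ℝ)
  have h5 := neg_abs_le (j : ℝ)
  have h6 := le_abs_self (j : ℝ)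
  rw [Prod.norm_def, Prod.norm_def]
  refine max_lt ?_ (max_lt ?_ ?_)
  · rw [Real.norm_eq_abs, abs_lt]; constructor <;> nlinarith
  · have h7 : |p.2.1 - j| < 1 := by rw [abs_lt]; constructor <;> nlinarith
    rw [abs_lt] at h7
    rw [Real.norm_eq_abs, abs_lt]; constructor <;> linarith
  · rw [Real.norm_eq_abs, abs_lt]; constructor <;> nlinarith

theorem cc_smooth {k : ℕ} : ContDiff ℝ ∞ (cc : Tot k → ℝ) := by
  unfold cc
  refine ((cut_contDiff.comp ?_).mul (cut_contDiff.comp ?_)).mul (cut_contDiff.comp ?_)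
  · exact contDiff_const.mul ((contDiff_norm_sq ℝ).comp ck)
  · exact contDiff_const.mul (cw.pow 2)
  · exact ((ct.sub contDiff_const).div_const 11).pow 2

theorem chi_smooth (j : ℤ) : ContDiff ℝ ∞ (chi j) := by
  unfold chi
  refine ((cut_contDiff.comp ?_).mul (cut_contDiff.comp ?_)).mul (cut_contDiff.comp ?_)
  · exact contDiff_fst.pow 2
  · exact (contDiff_snd.comp contDiff_snd).pow 2
  · exact (contDiff_const.mul ((contDiff_fst.comp contDiff_snd).sub contDiff_const)).pow 2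

/-- the coefficient of the `j`-th slow field -/
noncomputable def mj (k : ℕ) (j : ℤ) (u : Tot k) : ℝ := chi j u.1 * cc u * bb u.2.2.2

theorem mj_smooth (k : ℕ) (j : ℤ) : ContDiff ℝ ∞ (mj k j) := by
  unfold mj
  exact (((chi_smooth j).comp contDiff_fst).mul cc_smooth).mul (bb_contDiff.comp ct)

theorem mj_ne {k : ℕ} {j : ℤ} {u : Tot k} (h : mj k j u ≠ 0) : ‖u.1‖ < |(j : ℝ)| + 2 ∧ ‖u.2‖ < 24 :=
  ⟨chi_ne (left_ne_zero_of_mul (left_ne_zero_of_mul h)),
    cc_ne (right_ne_zero_of_mul (left_ne_zero_of_mul h))⟩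

theorem mj_supp (k : ℕ) (j : ℤ) : HasCompactSupport (mj k j) := by
  apply HasCompactSupport.of_support_subset_isCompact
    (isCompact_closedBall (0 : Tot k) (|(j : ℝ)| + 24))
  intro u hu
  obtain ⟨h1, h2⟩ := mj_ne hu
  rw [mem_closedBall_zero_iff, Prod.norm_def]
  have := abs_nonneg (j : ℝ)
  exact max_le (by linarith) (by linarith)

/-- at most one slow zone is active -/
theorem chi_unique {p : E} {i j : ℤ} (hi : chi i p ≠ 0) (hj : chi j p ≠ 0) : i = j := by
  have h1 := cut_ne (right_ne_zero_of_mul hi)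
  have h2 := cut_ne (right_ne_zero_of_mul hj)
  have h3 : |p.2.1 - i| < 1 / 2 := by rw [abs_lt]; constructor <;> nlinarith
  have h4 : |p.2.1 - j| < 1 / 2 := by rw [abs_lt]; constructor <;> nlinarith
  rw [abs_lt] at h3 h4
  have h5 : (i : ℝ) - j < 1 := by linarith
  have h6 : (j : ℝ) - i < 1 := by linarith
  have h7 : i - j < 1 := by exact_mod_cast h5
  have h8 : j - i < 1 := by exact_mod_cast h6
  omega

theorem summable_mj {k : ℕ} (κ : ℤ → ℝ) (u : Tot k) : Summable (fun j => κ j * mj k j u) := by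
  apply summable_of_hasFiniteSupport
  apply Set.Subsingleton.finite
  intro i hi j hj
  have h1 : mj k i u ≠ 0 := right_ne_zero_of_mul hi
  have h2 : mj k j u ≠ 0 := right_ne_zero_of_mul hj
  exact chi_unique (left_ne_zero_of_mul (left_ne_zero_of_mul h1))
    (left_ne_zero_of_mul (left_ne_zero_of_mul h2))

theorem iotaE_bd (p : E) : cE (iotaE p) = 1 := by
  have key : ∀ x : ℝ, (OpenPartialHomeomorph.univUnitBall (E := ℝ) x) ^ 2 ≤ 1 := by
    intro x
    have h1 : OpenPartialHomeomorph.univUnitBall (E := ℝ) x ∈ Metric.ball (0 : ℝ) 1 :=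
      (OpenPartialHomeomorph.univUnitBall (E := ℝ)).map_source (mem_univ x)
    rw [mem_ball_zero_iff, Real.norm_eq_abs] at h1
    have := abs_lt.1 h1
    nlinarith
  have h1 := key p.1
  have h2 := key p.2.1
  have h3 := key p.2.2
  show cut _ * cut _ * cut _ = 1
  rw [show (iotaE p).1 = OpenPartialHomeomorph.univUnitBall (E := ℝ) p.1 from rfl,
    show (iotaE p).2.1 = OpenPartialHomeomorph.univUnitBall (E := ℝ) p.2.1 from rfl,
    show (iotaE p).2.2 = OpenPartialHomeomorph.univUnitBall (E := ℝ) p.2.2 from rfl,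
    cut_one h1, cut_one h2, cut_one h3]
  norm_num

theorem iota_target_bd {k : ℕ} {q : Tot k} (h : q ∈ (iota k).target) : ‖q.1‖ < 2 := by
  have h1 := (iota k).right_inv h
  have h2 : q.1 = iotaE ((iota k).symm q).1 := by
    conv_lhs => rw [← h1]
    rfl
  have h3 := iotaE_bd ((iota k).symm q).1
  rw [← h2] at h3
  exact cE_ne (by rw [h3]; norm_num)

/-- **The flow part of the construction.** -/
theorem exists_T {k : ℕ} {f : E → E} {lam : E → ℝ} (D : Dat k f lam) :
    ∃ (γ : Tot k → ℝ → ℝ) (Th : Tot k ≃ₜ Tot k),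
      ContDiff ℝ ∞ Th ∧ ContDiff ℝ ∞ Th.symm ∧ (∀ q, 24 ≤ ‖q‖ → Th q = q) ∧
      (∀ u, Th (D.Θ u) = D.Θ (setT u (γ u 1))) ∧
      (∀ u, ∃ u', setT u' (γ u' 1) = u) ∧
      (∀ u, u.2.2.2 ≤ γ u 1) ∧
      (∀ u, 1 ≤ |u.2.2.1| → ∀ s, γ u s = u.2.2.2) ∧
      (∀ u, ‖u.2.1‖ ≤ 1 / 2 → |u.2.2.1| ≤ 1 / 2 →
        ((-(5 / 2) ≤ u.2.2.2 ∧ u.2.2.2 ≤ 5 / 3) ∨ (16 / 3 ≤ u.2.2.2 ∧ u.2.2.2 ≤ 29 / 3) ∨
          (40 / 3 ≤ u.2.2.2 ∧ u.2.2.2 ≤ 17)) → γ u 1 = u.2.2.2 + 1) ∧
      (∀ p, Exl p → ∃ N : ℕ, ∀ (w' : EuclideanSpace ℝ (Fin k)) (w t : ℝ), ‖w'‖ ≤ 1 / 2 →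
        |w| ≤ 1 / 2 → -3 ≤ t → t ≤ 11 →
        (fun u : Tot k => setT u (γ u 1))^[N] (p, (w', (w, t))) = (p, (w', (w, t + 8)))) := by
  -- the slow fields
  choose W hW1 hW2 hW3 hW4 using fun j : ℤ =>
    Push.main (Tot k) D.Θ D.Θ_source D.Θ_smooth D.Θ_symm_smooth (mj k j) (mj_smooth k j)
      (mj_supp k j) (x₀ k)
  obtain ⟨δ, hδ, hsum⟩ := Sum.main (Tot k) W hW1 hW2
  choose κ hκ0 hκδ N Gf hpos hG hGN using fun j : ℤ => Per.main (δ j) (hδ j)
  obtain ⟨hS1, hS2⟩ := hsum κ (fun j => ⟨(hκ0 j).le, (hκδ j).le⟩)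
  obtain ⟨γ, hγ0, hγ, hγ1, hγ2, hγ3, hγ4⟩ := Tau.main Flow.main k κ
    (fun j => ⟨N j, Gf j, hpos j, hG j, hGN j⟩) hκ0
  -- the field
  let X : Tot k → Tot k := fun q => (cE q.1 * cc q * v0 q.2.2.2) • x₀ k + ∑' j, κ j • W j q
  have hXs : ContDiff ℝ ∞ X := by
    have h1 : ContDiff ℝ ∞ (fun q : Tot k => cE q.1 * cc q * v0 q.2.2.2) :=
      ((cE_smooth.comp contDiff_fst).mul cc_smooth).mul (v0_contDiff.comp ct)
    have h2 : ContDiff ℝ ∞ (fun q : Tot k => (cE q.1 * cc q * v0 q.2.2.2) • x₀ k) :=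
      h1.smul contDiff_const
    exact h2.add hS1
  have hX0 : ∀ q : Tot k, 24 ≤ ‖q‖ → X q = 0 := by
    intro q hq
    have h1 : cE q.1 * cc q = 0 := by
      by_contra hne
      have h2 := cE_ne (left_ne_zero_of_mul hne)
      have h3 := cc_ne (right_ne_zero_of_mul hne)
      rw [Prod.norm_def] at hq
      rcases le_max_iff.1 hq with h | h <;> linarith
    have h2 : ∀ j, W j q = 0 := by
      intro j
      by_cases hqt : q ∈ D.Θ.target
      · have h3 := D.Θ.right_inv hqt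
        have h4 : ‖q.1‖ < 2 := by
          rw [D.Θ_target] at hqt
          exact iota_target_bd hqt
        have h5 : 24 ≤ ‖q.2‖ := by
          rw [Prod.norm_def] at hq
          rcases le_max_iff.1 hq with h | h
          · linarith
          · exact h
        have h6 : cc q = 0 := by
          by_contra hne
          linarith [cc_ne hne]
        rw [← h3, hW3]
        have h7 : mj k j (D.Θ.symm q) = 0 := by
          unfold mj
          rw [← D.cc_Θ, h3, h6, mul_zero, zero_mul]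
        rw [h7, zero_smul]
      · exact hW4 j q hqt
    show (cE q.1 * cc q * v0 q.2.2.2) • x₀ k + ∑' j, κ j • W j q = 0
    simp only [h1, h2, smul_zero, tsum_zero, zero_mul, zero_smul, add_zero]
  have hXc : HasCompactSupport X := by
    apply HasCompactSupport.of_support_subset_isCompact (isCompact_closedBall (0 : Tot k) 24)
    intro q hq
    rw [mem_closedBall_zero_iff]
    by_contra hcon
    exact hq (hX0 q (not_le.1 hcon).le)
  obtain ⟨Th, hT1, hT2, hT3, -⟩ := Flow.main (Tot k) X hXs hXc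
  have hXΘ : ∀ u, X (D.Θ u) = speed κ u • fderiv ℝ D.Θ u (x₀ k) := by
    intro u
    have h1 : cE (D.Θ u).1 = 1 := iotaE_bd _
    have h2 : cc (D.Θ u) = cc u := D.cc_Θ u
    have h3 : (D.Θ u).2.2.2 = u.2.2.2 := rfl
    have h4 : ∑' j, κ j • W j (D.Θ u) =
        (∑' j, κ j * (chi j u.1 * cc u * bb u.2.2.2)) • fderiv ℝ D.Θ u (x₀ k) := by
      have h6 := Summable.tsum_smul_const (summable_mj κ u) (fderiv ℝ D.Θ u (x₀ k))
      have h7 : (∑' j, κ j * (chi j u.1 * cc u * bb u.2.2.2)) = ∑' j, κ j * mj k j u := rfl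
      rw [h7, ← h6]
      refine tsum_congr fun j => ?_
      rw [hW3, smul_smul]
    have h5 : v0 u.2.2.2 • x₀ k = v0 u.2.2.2 • fderiv ℝ D.Θ u (x₀ k) := by
      by_cases h : v0 u.2.2.2 = 0
      · rw [h, zero_smul, zero_smul]
      · rw [D.fderiv_e u h]
    show (cE (D.Θ u).1 * cc (D.Θ u) * v0 (D.Θ u).2.2.2) • x₀ k + _ = _
    rw [h1, h2, h3, h4, one_mul, mul_smul, h5, speed, add_smul, mul_smul]
  have hcurve : ∀ u (a : ℝ) (s : ℝ), HasDerivAt (fun s => D.Θ (setT u (γ u (s + a))))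
      (X (D.Θ (setT u (γ u (s + a))))) s := by
    intro u a s
    rw [hXΘ]
    have hd : HasFDerivAt D.Θ (fderiv ℝ D.Θ (setT u (γ u (s + a)))) (setT u (γ u (s + a))) :=
      (D.Θ_smooth.differentiable (by simp)).differentiableAt.hasFDerivAt
    have hc : HasDerivAt (fun s => setT u (γ u (s + a)))
        (speed κ (setT u (γ u (s + a))) • x₀ k) s := by
      have e1 : (speed κ (setT u (γ u (s + a))) • x₀ k : Tot k) =
          (0, (0, (0, speed κ (setT u (γ u (s + a)))))) := by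
        simp [x₀]
      rw [e1]
      exact (hasDerivAt_const s u.1).prodMk ((hasDerivAt_const s u.2.1).prodMk
        ((hasDerivAt_const s u.2.2.1).prodMk ((hγ u (s + a)).comp_add_const s a)))
    have := hd.comp_hasDerivAt s hc
    rwa [map_smul] at this
  have hmain : ∀ u, Th (D.Θ u) = D.Θ (setT u (γ u 1)) := by
    intro u
    have h1 := hT3 (fun s => D.Θ (setT u (γ u (s + 0)))) (hcurve u 0)
    simp only [add_zero] at h1
    rw [hγ0] at h1
    exact h1
  have hΘi : Function.Injective D.Θ := by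
    have := D.Θ.injOn
    rw [D.Θ_source] at this
    exact injOn_univ.1 this
  refine ⟨γ, Th, hT1, hT2, ?_, hmain, ?_, hγ1, hγ2, hγ3, hγ4⟩
  · intro q hq
    have := hT3 (fun _ => q) (fun s => by
      rw [hX0 q hq]
      exact hasDerivAt_const s q)
    exact this
  · intro u
    refine ⟨setT u (γ u (-1)), ?_⟩
    have h1 := hT3 (fun s => D.Θ (setT u (γ u (s + -1)))) (hcurve u (-1))
    simp only [zero_add, add_neg_cancel] at h1
    rw [hmain, hγ0] at h1
    exact hΘi h1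

end Pool.Agent.H247.LC
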