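import Pool.Graph.R_seed8.H718R2.Defs
import Pool.Graph.R_seed8.H718R2.G0

/-!
# Interfaces of the project (the local C² closing lemma fails in dimension ≥ 5)
-/

set_option autoImplicit false

open scoped Manifold ContDiff Topology
open Set

namespace Pool.Agent.H247.LC

open Pool.Agent.H718R2 (E)
open Pool.Agent.H718R2.G (V DiffM StrongData strongNbhd strongTop IsRec IsPer)

/-- Smooth cut-off of a squared quantity: `1` for `a ≤ 1`, `0` for `2 ≤ a`. -/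
noncomputable def cut (a : ℝ) : ℝ := Real.smoothTransition (2 - a)

/-- Fast speed: `8`-periodic, `1` for `|t| ≤ 8/3`, `0` for `|t - 4| ≤ 1/2`. -/
noncomputable def v0 (t : ℝ) : ℝ :=
  Real.smoothTransition ((Real.cos (Real.pi * t / 4) + 9 / 10) / (4 / 10))

/-- Profile of the slow speed: `8`-periodic, `0` for `|t| ≤ 8/3`, `1` for `|t - 4| ≤ 1/2`. -/
noncomputable def bb (t : ℝ) : ℝ :=
  Real.smoothTransition ((-(1 / 2) - Real.cos (Real.pi * t / 4)) / (4 / 10))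

/-- `0` for `t ≤ 7/2`, `1` for `t ≥ 9/2`. -/
noncomputable def β₁ (t : ℝ) : ℝ := Real.smoothTransition (t - 7 / 2)

/-- `0` for `t ≤ 23/2`, `1` for `t ≥ 25/2`. -/
noncomputable def β₂ (t : ℝ) : ℝ := Real.smoothTransition (t - 23 / 2)

/-- The contents: `(w', (w, φ))`. -/
abbrev Con (k : ℕ) := EuclideanSpace ℝ (Fin k) × (ℝ × ℝ)

/-- The total space: points `(p, (w', (w, t)))`. -/
abbrev Tot (k : ℕ) := E × Con k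

/-- Rotation by the angle `a` of the plane. -/
noncomputable def rot (a : ℝ) (z : ℝ × ℝ) : ℝ × ℝ :=
  (Real.cos a * z.1 - Real.sin a * z.2, Real.sin a * z.1 + Real.cos a * z.2)

/-- Exact labels. -/
def Exl (p : E) : Prop := |p.1| ≤ 1 / 2 ∧ |p.2.2| ≤ 1 / 2 ∧ ∃ j : ℤ, |p.2.1 - j| ≤ 1 / 8

/-! ## independent modules -/

/-- Expansion flow: `w ↦ e^s w` near `0`, trivial off the ball of radius `1/8`. -/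
def S_EX : Prop := ∀ (K : Type) [NormedAddCommGroup K] [InnerProductSpace ℝ K]
    [FiniteDimensional ℝ K], ∃ Ψ : ℝ → K → K, ContDiff ℝ ∞ (fun q : ℝ × K => Ψ q.1 q.2) ∧
      (∀ w, Ψ 0 w = w) ∧ (∀ s t w, Ψ (s + t) w = Ψ s (Ψ t w)) ∧
      (∀ s w, 1 / 8 ≤ ‖w‖ → Ψ s w = w) ∧
      (∀ s w, ‖w‖ ≤ 1 / 16 → Real.exp s * ‖w‖ ≤ 1 / 16 → Ψ s w = Real.exp s • w) ∧
      (∀ s w, 0 ≤ s → ‖w‖ ≤ ‖Ψ s w‖)

/-- Exact transit times. -/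
def S_PER : Prop := ∀ δ : ℝ, 0 < δ → ∃ κ : ℝ, 0 < κ ∧ κ < δ ∧ ∃ (N : ℕ) (Gf : ℝ → ℝ),
  (∀ t, 0 < v0 t + κ * bb t) ∧ (∀ t, HasDerivAt Gf (1 / (v0 t + κ * bb t)) t) ∧
    ∀ t, Gf (t + 8) = Gf t + N

/-- Flat sums. -/
def S_SUM : Prop := ∀ (X : Type) [NormedAddCommGroup X] [NormedSpace ℝ X]
    [FiniteDimensional ℝ X] (W : ℤ → X → X),
    (∀ j, ContDiff ℝ ∞ (W j)) → (∀ j, HasCompactSupport (W j)) →
    ∃ δ : ℤ → ℝ, (∀ j, 0 < δ j) ∧ ∀ κ : ℤ → ℝ, (∀ j, 0 ≤ κ j ∧ κ j ≤ δ j) →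
      ContDiff ℝ ∞ (fun q => ∑' j, κ j • W j q) ∧ ∀ q, Summable (fun j => κ j • W j q)

/-- Isotopy from the identity to a diffeomorphism which is a translation near the origin. -/
def S_ISO : Prop := ∀ f : E ≃ₜ E, ContDiff ℝ ∞ f → ContDiff ℝ ∞ f.symm →
  (∀ z : E, |z.1| ≤ 5 → |z.2.1| ≤ 1 / 4 → f z = (z.1, z.2.1 + 1, z.2.2)) →
  ∃ h : ℝ → E ≃ E, ContDiff ℝ ∞ (fun q : ℝ × E => h q.1 q.2) ∧
    ContDiff ℝ ∞ (fun q : ℝ × E => (h q.1).symm q.2) ∧ (∀ p, h 0 p = p) ∧ ∀ p, h 1 p = f p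

/-- No map `C²`-close to `f` has a periodic point. -/
def NoPer (f : E → E) : Prop := ∃ ε : E → ℝ, Continuous ε ∧ (∀ p, 0 < ε p) ∧
  ∀ g : E → E, ContDiff ℝ 2 g →
    (∀ (p : E) (i : ℕ), i ≤ 2 → ‖iteratedFDeriv ℝ i g p - iteratedFDeriv ℝ i f p‖ < ε p) →
    ∀ k : ℕ, 1 ≤ k → ∀ p, g^[k] p ≠ p

/-- Stabilisation, for perturbations supported in the unit ball. -/
def S_STAB : Prop := ∀ (W : Type) [NormedAddCommGroup W] [NormedSpace ℝ W]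
    [FiniteDimensional ℝ W] (f : E ≃ₜ E), ContDiff ℝ ∞ f → ContDiff ℝ ∞ f.symm → NoPer f →
    ∃ (b : E → ℝ) (δ : ℝ), ContDiff ℝ ∞ b ∧ (∀ p, 0 < b p) ∧ (∀ p, b p ≤ 1 / 4) ∧ 0 < δ ∧
      ∀ e : E × W → E × W, ContDiff ℝ 2 e → (∀ z, 1 ≤ ‖z‖ → e z = 0) →
        (∀ z (i : ℕ), i ≤ 2 → ‖iteratedFDeriv ℝ i e z‖ ≤ δ) →
        ∀ k : ℕ, 1 ≤ k → ∀ z,
          (fun z : E × W => (f (z + e z).1, (b (z + e z).1)⁻¹ • (z + e z).2))^[k] z ≠ z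

/-- Push-forward of a compactly supported multiple of a constant field. -/
def S_PUSH : Prop := ∀ (X : Type) [NormedAddCommGroup X] [NormedSpace ℝ X]
    [FiniteDimensional ℝ X] (Θ : OpenPartialHomeomorph X X), Θ.source = univ →
    ContDiff ℝ ∞ Θ → ContDiffOn ℝ ∞ Θ.symm Θ.target → ∀ (m : X → ℝ), ContDiff ℝ ∞ m →
    HasCompactSupport m → ∀ e₀ : X, ∃ W : X → X, ContDiff ℝ ∞ W ∧ HasCompactSupport W ∧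
      (∀ u, W (Θ u) = m u • fderiv ℝ Θ u e₀) ∧ ∀ q ∉ Θ.target, W q = 0

/-- Flows of compactly supported fields: time-one map and global solutions. -/
def S_FLOW : Prop := ∀ (X : Type) [NormedAddCommGroup X] [NormedSpace ℝ X]
    [FiniteDimensional ℝ X] (Y : X → X), ContDiff ℝ ∞ Y → HasCompactSupport Y →
    ∃ T : X ≃ₜ X, ContDiff ℝ ∞ T ∧ ContDiff ℝ ∞ T.symm ∧
      (∀ c : ℝ → X, (∀ s, HasDerivAt c (Y (c s)) s) → T (c 0) = c 1) ∧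
      ∀ q, ∃ c : ℝ → X, c 0 = q ∧ ∀ s, HasDerivAt c (Y (c s)) s

/-- Twist maps of the plane, with a parameter. -/
def S_TW : Prop := ∀ (X : Type) [NormedAddCommGroup X] [NormedSpace ℝ X]
    [FiniteDimensional ℝ X] (m : X → ℝ), ContDiff ℝ ∞ m → ∃ C : (X × (ℝ × ℝ)) ≃ₜ (X × (ℝ × ℝ)),
      ContDiff ℝ ∞ C ∧ ContDiff ℝ ∞ C.symm ∧ (∀ u, (C u).1 = u.1) ∧
      (∀ u, m u.1 = 0 → C u = u) ∧
      -- the only places where `C` acts: a disc around `(0, 8)` and an annulus around `(-8, 8)`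
      (∀ u, C u = u ∨
        (u.2.1 ^ 2 + (u.2.2 - 8) ^ 2 < 1 / 4 ∧ (C u).2.1 ^ 2 + ((C u).2.2 - 8) ^ 2 < 1 / 4) ∨
        (118 < (u.2.1 + 8) ^ 2 + (u.2.2 - 8) ^ 2 ∧ (u.2.1 + 8) ^ 2 + (u.2.2 - 8) ^ 2 < 138 ∧
          118 < ((C u).2.1 + 8) ^ 2 + ((C u).2.2 - 8) ^ 2 ∧
          ((C u).2.1 + 8) ^ 2 + ((C u).2.2 - 8) ^ 2 < 138)) ∧
      (∀ u, m u.1 = 1 → u.2.1 ^ 2 + (u.2.2 - 8) ^ 2 ≤ 1 / 8 → (C u).2 = (8 - u.2.2, 8 + u.2.1)) ∧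
      (∀ u, m u.1 = 1 → |(u.2.1 + 8) ^ 2 + (u.2.2 - 8) ^ 2 - 128| ≤ 5 →
        (C u).2 = (u.2.2 - 16, - u.2.1))

/-! ## the speed in label coordinates -/

/-- The label cut-off of the `j`-th slow zone. -/
noncomputable def chi (j : ℤ) (p : E) : ℝ :=
  cut (p.1 ^ 2) * cut (p.2.2 ^ 2) * cut ((8 * (p.2.1 - j)) ^ 2)

/-- Cut-off of the contents and of the time. -/
noncomputable def cc {k : ℕ} (u : Tot k) : ℝ :=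
  cut (4 * ‖u.2.1‖ ^ 2) * cut (4 * u.2.2.1 ^ 2) * cut (((u.2.2.2 - 8) / 11) ^ 2)

/-- The speed in label coordinates. -/
noncomputable def speed {k : ℕ} (κ : ℤ → ℝ) (u : Tot k) : ℝ :=
  cc u * v0 u.2.2.2 + ∑' j, κ j * (chi j u.1 * cc u * bb u.2.2.2)

/-- Change of the time coordinate. -/
def setT {k : ℕ} (u : Tot k) (t : ℝ) : Tot k := (u.1, (u.2.1, (u.2.2.1, t)))

/-- The motion in label coordinates. -/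
def S_TAU : Prop := ∀ (k : ℕ) (κ : ℤ → ℝ),
  (∀ j, ∃ (N : ℕ) (Gf : ℝ → ℝ), (∀ t, 0 < v0 t + κ j * bb t) ∧
    (∀ t, HasDerivAt Gf (1 / (v0 t + κ j * bb t)) t) ∧ ∀ t, Gf (t + 8) = Gf t + N) →
  (∀ j, 0 < κ j) →
  ∃ γ : Tot k → ℝ → ℝ, (∀ u, γ u 0 = u.2.2.2) ∧
    (∀ u s, HasDerivAt (γ u) (speed κ (setT u (γ u s))) s) ∧
    (∀ u, u.2.2.2 ≤ γ u 1) ∧
    (∀ u, 1 ≤ |u.2.2.1| → ∀ s, γ u s = u.2.2.2) ∧
    (∀ u, ‖u.2.1‖ ≤ 1 / 2 → |u.2.2.1| ≤ 1 / 2 →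
      ((-(5 / 2) ≤ u.2.2.2 ∧ u.2.2.2 ≤ 5 / 3) ∨ (16 / 3 ≤ u.2.2.2 ∧ u.2.2.2 ≤ 29 / 3) ∨
        (40 / 3 ≤ u.2.2.2 ∧ u.2.2.2 ≤ 17)) → γ u 1 = u.2.2.2 + 1) ∧
    (∀ p, Exl p → ∃ N : ℕ, ∀ (w' : EuclideanSpace ℝ (Fin k)) (w t : ℝ), ‖w'‖ ≤ 1 / 2 →
      |w| ≤ 1 / 2 → -3 ≤ t → t ≤ 11 →
      (fun u : Tot k => setT u (γ u 1))^[N] (p, (w', (w, t))) = (p, (w', (w, t + 8))))

/-! ## the model -/

/-- The data of the model. `τ u` is the new position of the label point `u` under the time-one map. -/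
structure Mod (k : ℕ) (f : E → E) (lam : E → ℝ) where
  h : ℝ → E ≃ E
  h0 : ∀ p, h 0 p = p
  h1 : ∀ p, h 1 p = f p
  ΨK : ℝ → EuclideanSpace ℝ (Fin k) → EuclideanSpace ℝ (Fin k)
  K0 : ∀ w, ΨK 0 w = w
  Kadd : ∀ s t w, ΨK (s + t) w = ΨK s (ΨK t w)
  Kout : ∀ s w, 1 / 8 ≤ ‖w‖ → ΨK s w = w
  Kin : ∀ s w, ‖w‖ ≤ 1 / 16 → Real.exp s * ‖w‖ ≤ 1 / 16 → ΨK s w = Real.exp s • w
  Kmon : ∀ s w, 0 ≤ s → ‖w‖ ≤ ‖ΨK s w‖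
  Ψ : ℝ → ℝ → ℝ
  P0 : ∀ w, Ψ 0 w = w
  Padd : ∀ s t w, Ψ (s + t) w = Ψ s (Ψ t w)
  Pout : ∀ s w, 1 / 8 ≤ |w| → Ψ s w = w
  Pin : ∀ s w, |w| ≤ 1 / 16 → Real.exp s * |w| ≤ 1 / 16 → Ψ s w = Real.exp s * w
  Pmon : ∀ s w, 0 ≤ s → |w| ≤ |Ψ s w|
  τ : Tot k → ℝ
  τ_ge : ∀ u, u.2.2.2 ≤ τ u
  τ_out : ∀ u, 1 ≤ |u.2.2.1| → τ u = u.2.2.2
  τ_inj : Function.Injective (fun u : Tot k => ((u.1, (u.2.1, (u.2.2.1, τ u))) : Tot k))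
  τ_fast : ∀ u, ‖u.2.1‖ ≤ 1 / 2 → |u.2.2.1| ≤ 1 / 2 →
    ((-(5 / 2) ≤ u.2.2.2 ∧ u.2.2.2 ≤ 5 / 3) ∨ (16 / 3 ≤ u.2.2.2 ∧ u.2.2.2 ≤ 29 / 3) ∨
      (40 / 3 ≤ u.2.2.2 ∧ u.2.2.2 ≤ 17)) → τ u = u.2.2.2 + 1
  τ_exact : ∀ p, Exl p → ∃ N : ℕ, ∀ (w' : EuclideanSpace ℝ (Fin k)) (w t : ℝ), ‖w'‖ ≤ 1 / 2 →
    |w| ≤ 1 / 2 → -3 ≤ t → t ≤ 11 →
    (fun u : Tot k => ((u.1, (u.2.1, (u.2.2.1, τ u))) : Tot k))^[N] (p, (w', (w, t))) =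
      (p, (w', (w, t + 8)))
  C : Tot k → Tot k
  C_inj : Function.Injective C
  C_fst : ∀ u, (C u).1 = u.1
  C_snd : ∀ u, (C u).2.1 = u.2.1
  C_supp : ∀ u, C u = u ∨
    (u.2.2.1 ^ 2 + (u.2.2.2 - 8) ^ 2 < 1 / 4 ∧
      (C u).2.2.1 ^ 2 + ((C u).2.2.2 - 8) ^ 2 < 1 / 4) ∨
    (118 < (u.2.2.1 + 8) ^ 2 + (u.2.2.2 - 8) ^ 2 ∧
      (u.2.2.1 + 8) ^ 2 + (u.2.2.2 - 8) ^ 2 < 138 ∧
      118 < ((C u).2.2.1 + 8) ^ 2 + ((C u).2.2.2 - 8) ^ 2 ∧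
      ((C u).2.2.1 + 8) ^ 2 + ((C u).2.2.2 - 8) ^ 2 < 138)
  C_disc : ∀ u, ‖u.2.1‖ ≤ 1 / 2 → u.2.2.1 ^ 2 + (u.2.2.2 - 8) ^ 2 ≤ 1 / 8 →
    (C u).2.2 = (8 - u.2.2.2, 8 + u.2.2.1)
  C_ann : ∀ u, ‖u.2.1‖ ≤ 1 / 2 → |(u.2.2.1 + 8) ^ 2 + (u.2.2.2 - 8) ^ 2 - 128| ≤ 5 →
    (C u).2.2 = (u.2.2.2 - 16, - u.2.2.1)

namespace Mod

variable {k : ℕ} {f : E → E} {lam : E → ℝ} (m : Mod k f lam)

/-- from labels to positions -/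
noncomputable def Φ (u : Tot k) : Tot k :=
  (m.h (β₂ u.2.2.2) u.1, (m.ΨK (β₂ u.2.2.2 * lam u.1) u.2.1,
    (m.Ψ ((β₁ u.2.2.2 + β₂ u.2.2.2) * lam u.1) u.2.2.1, u.2.2.2)))

/-- time-one map in label coordinates -/
noncomputable def L (u : Tot k) : Tot k := (u.1, (u.2.1, (u.2.2.1, m.τ u)))

/-- from positions to labels -/
noncomputable def Φi (v : Tot k) : Tot k :=
  ((m.h (β₂ v.2.2.2)).symm v.1,
    (m.ΨK (-(β₂ v.2.2.2 * lam ((m.h (β₂ v.2.2.2)).symm v.1))) v.2.1,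
    (m.Ψ (-((β₁ v.2.2.2 + β₂ v.2.2.2) * lam ((m.h (β₂ v.2.2.2)).symm v.1))) v.2.2.1, v.2.2.2)))

/-- the map -/
noncomputable def F (v : Tot k) : Tot k := m.C (m.Φ (m.L (m.Φi v)))

end Mod

/-- The compression of `E` to the open sup-unit ball. -/
noncomputable def iotaE : OpenPartialHomeomorph E E :=
  (OpenPartialHomeomorph.univUnitBall (E := ℝ)).prod
    ((OpenPartialHomeomorph.univUnitBall (E := ℝ)).prod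
      (OpenPartialHomeomorph.univUnitBall (E := ℝ)))

/-- The compression of the total space. -/
noncomputable def iota (k : ℕ) : OpenPartialHomeomorph (Tot k) (Tot k) :=
  iotaE.prod (OpenPartialHomeomorph.refl (Con k))

/-- The base point. -/
def x₀ (k : ℕ) : Tot k := (0, (0, (0, 1)))

/-- Existence of the model, with the compressed map smooth and compactly supported. -/
def S_FLD : Prop := ∀ (k : ℕ) (f : E ≃ₜ E), ContDiff ℝ ∞ f → ContDiff ℝ ∞ f.symm →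
  (∀ z : E, |z.1| ≤ 5 → |z.2.1| ≤ 1 / 4 → f z = (z.1, z.2.1 + 1, z.2.2)) →
  ∀ lam : E → ℝ, ContDiff ℝ ∞ lam → (∀ p, 0 ≤ lam p) →
  ∃ (m : Mod k f lam) (Fh : Tot k ≃ₜ Tot k), ContDiff ℝ ∞ Fh ∧ ContDiff ℝ ∞ Fh.symm ∧
    (∃ R : ℝ, ∀ u, R ≤ ‖u‖ → Fh u = u) ∧ ∀ u, Fh (iota k u) = iota k (m.F u)

/-- Transplantation: a compactly supported diffeomorphism of `Tot k`, preserving the image of
`iota k`, whose uncompressed form `Ft` has a recurrent point `x₀` and cannot be closed by `C²`-small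
perturbations supported near `x₀`. -/
def S_MAN : Prop := ∀ (k : ℕ) (Fh : Tot k ≃ₜ Tot k) (Ft : Tot k → Tot k) (ρ ρ' δ : ℝ),
  ContDiff ℝ ∞ Fh → ContDiff ℝ ∞ Fh.symm → (∃ R : ℝ, ∀ u, R ≤ ‖u‖ → Fh u = u) →
  (∀ u, Fh (iota k u) = iota k (Ft u)) → 0 < ρ → 0 < ρ' → ρ' ≤ ρ → 0 < δ →
  (∀ ε : ℝ, 0 < ε → ∃ n : ℕ, 1 ≤ n ∧ ‖Ft^[n] (x₀ k) - x₀ k‖ < ε) →
  (∀ G : Tot k → Tot k, Function.Injective G → ContDiff ℝ 2 (fun u => G u - Ft u) →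
    (∀ u, ρ ≤ ‖u - x₀ k‖ → G u = Ft u) →
    (∀ u (i : ℕ), i ≤ 2 → ‖iteratedFDeriv ℝ i (fun u => G u - Ft u) u‖ ≤ δ) →
    ∀ u, ‖u - x₀ k‖ ≤ ρ' → ∀ n : ℕ, 1 ≤ n → G^[n] u ≠ u) →
  ∀ (M : Type) [TopologicalSpace M] [T2Space M] [ChartedSpace (V (5 + k)) M]
    [IsManifold (𝓡 (5 + k)) ∞ M] (p : M) (B : Set M), B ∈ 𝓝 p →
  ∃ (F : DiffM (5 + k) M ⊤) (x : M) (U N : Set M), IsOpen U ∧ N ∈ 𝓝 x ∧ N ⊆ U ∧ U ⊆ B ∧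
    (∀ y ∉ B, F y = y) ∧ IsRec F.toHomeomorph x ∧
    ∀ (r : ℕ∞) (Fr : DiffM (5 + k) M r), 2 ≤ r → (∀ y, Fr y = F y) →
      ∃ O : Set (DiffM (5 + k) M r), IsOpen[strongTop (5 + k) M r] O ∧ Fr ∈ O ∧
        ∀ G ∈ O, (∀ y ∉ U, G y = F y) → ∀ y ∈ N, ¬ IsPer G y

end Pool.Agent.H247.LC
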