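import Pool.Agent.H247.LC.Iface

/-!
# Interfaces, second part: perturbations near finite orbit segments
-/

set_option autoImplicit false

open scoped Manifold ContDiff Topology
open Set

namespace Pool.Agent.H247.LC

open Pool.Agent.H718R2 (E)
open Pool.Agent.H718R2.G (V DiffM StrongData strongNbhd strongTop IsRec IsPer)

/-- `cmp e l = (id + e (l-1)) ∘ … ∘ (id + e 0)`. -/
def cmp {X : Type} [Add X] (e : ℕ → X → X) : ℕ → X → X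
  | 0 => fun u => u
  | j + 1 => fun u => cmp e j u + e j (cmp e j u)

/-- Compositions of near-identity maps are near the identity. -/
def S_COMP : Prop := ∀ (X : Type) [NormedAddCommGroup X] [NormedSpace ℝ X] (x : X) (ρ ε : ℝ)
    (l : ℕ), 0 < ρ → 0 < ε → ∃ δ : ℝ, 0 < δ ∧ ∀ e : ℕ → X → X, (∀ j < l, ContDiff ℝ 2 (e j)) →
      (∀ j < l, ∀ u, ρ ≤ ‖u - x‖ → e j u = 0) →
      (∀ j < l, ∀ u (i : ℕ), i ≤ 2 → ‖iteratedFDeriv ℝ i (e j) u‖ ≤ δ) →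
      ContDiff ℝ 2 (fun u => cmp e l u - u) ∧ (∀ u, ρ ≤ ‖u - x‖ → cmp e l u = u) ∧
        ∀ u (i : ℕ), i ≤ 2 → ‖iteratedFDeriv ℝ i (fun u => cmp e l u - u) u‖ ≤ ε

/-- Combinatorics: a perturbation of `Ft` near `Bl, Ft Bl, …, Ft^l Bl` with a periodic point there
gives a perturbation near `Bl` with a periodic point in `Bl`. -/
def S_COMB : Prop := ∀ (X : Type) [AddCommGroup X] (Ft G : X → X) (Bl : Set X) (l : ℕ)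
    (e : ℕ → X → X), Function.Injective Ft → Function.Injective G →
    (∀ j, 1 ≤ j → j ≤ l → ∀ u ∈ Bl, Ft^[j] u ∉ Bl) →
    (∀ j ≤ l, ∀ u ∈ Bl, u + e j u ∈ Bl) →
    (∀ j ≤ l, ∀ u ∈ Bl, G (Ft^[j] u) = Ft^[j + 1] (u + e j u)) →
    (∀ y, (∀ j ≤ l, ∀ u ∈ Bl, y ≠ Ft^[j] u) → G y = Ft y) →
    (∀ v ∉ Bl, cmp e (l + 1) v = v) → Function.Injective (cmp e (l + 1)) →
    ∀ (y : X) (n : ℕ), (∃ j ≤ l, ∃ u ∈ Bl, y = Ft^[j] u) → 1 ≤ n → G^[n] y = y →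
    ∃ u ∈ Bl, ∃ n', 1 ≤ n' ∧ (fun v => Ft (cmp e (l + 1) v))^[n'] u = u

/-- Transplantation, with perturbations near finite orbit segments. -/
def S_MAN2 : Prop := ∀ (k : ℕ) (Fh : Tot k ≃ₜ Tot k) (Ft : Tot k → Tot k) (ρ δ : ℝ),
  ContDiff ℝ ∞ Fh → ContDiff ℝ ∞ Fh.symm → (∃ R : ℝ, ∀ u, R ≤ ‖u‖ → Fh u = u) →
  (∀ u, Fh (iota k u) = iota k (Ft u)) → Function.Bijective Ft → 0 < ρ → 0 < δ →
  (∀ ε : ℝ, 0 < ε → ∃ n : ℕ, 1 ≤ n ∧ ‖Ft^[n] (x₀ k) - x₀ k‖ < ε) →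
  (∀ e : Tot k → Tot k, ContDiff ℝ 2 e → (∀ u, ρ ≤ ‖u - x₀ k‖ → e u = 0) →
    (∀ u (i : ℕ), i ≤ 2 → ‖iteratedFDeriv ℝ i e u‖ ≤ δ) →
    ∀ u, ‖u - x₀ k‖ < ρ → ∀ n : ℕ, 1 ≤ n → (fun v => Ft (v + e v))^[n] u ≠ u) →
  ∀ (M : Type) [TopologicalSpace M] [T2Space M] [ChartedSpace (V (5 + k)) M]
    [IsManifold (𝓡 (5 + k)) ∞ M] (p : M) (B : Set M), B ∈ 𝓝 p →
  ∃ (F : DiffM (5 + k) M ⊤) (x : M), x ∈ B ∧ (∀ y ∉ B, F y = y) ∧ IsRec F.toHomeomorph x ∧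
    ∀ l : ℕ, ∃ W : Set M, IsOpen W ∧ W ⊆ B ∧
      (∀ j : ℤ, |j| ≤ l → (F.toHomeomorph ^ j) x ∈ W) ∧
      ∀ (r : ℕ∞) (Fr : DiffM (5 + k) M r), 2 ≤ r → (∀ y, Fr y = F y) →
        ∃ O : Set (DiffM (5 + k) M r), IsOpen[strongTop (5 + k) M r] O ∧ Fr ∈ O ∧
          ∀ G ∈ O, (∀ y ∉ W, G y = F y) → ∀ y ∈ W, ¬ IsPer G y

end Pool.Agent.H247.LC
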