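import Pool.Agent.H247.LC.Iface
import Pool.Graph.R_seed8.H718R2.K0

/-!
# Project LC, leaf Man: transplantation into a manifold
-/

set_option autoImplicit false

open scoped Manifold ContDiff Topology
open Set

namespace Pool.Agent.H247.LC.Man

open Pool.Agent.H718R2 (E)
open Pool.Agent.H718R2.G (V DiffM StrongData strongNbhd strongTop IsRec IsPer transplant)

theorem exists_lin (k : ℕ) : Nonempty (Tot k ≃L[ℝ] V (5 + k)) := by
  have h : Module.finrank ℝ (Tot k) = Module.finrank ℝ (V (5 + k)) := by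
    simp only [Module.finrank_prod, finrank_euclideanSpace, Fintype.card_fin, Module.finrank_self]
    omega
  exact ⟨ContinuousLinearEquiv.ofFinrankEq h⟩

/-- charts with full target -/
theorem exists_chart {n : ℕ} {M : Type} [TopologicalSpace M] [ChartedSpace (V n) M]
    [IsManifold (𝓡 n) ∞ M] (p : M) (B : Set M) (hB : B ∈ 𝓝 p) :
    ∃ φ ∈ IsManifold.maximalAtlas (𝓡 n) ∞ M, φ.target = univ ∧ φ.source ⊆ B := by
  set φ₀ := chartAt (V n) p with hφ₀
  have hp : p ∈ φ₀.source := mem_chart_source _ _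
  have hW : φ₀.target ∩ φ₀.symm ⁻¹' (interior B) ∈ 𝓝 (φ₀ p) := by
    apply Filter.inter_mem (φ₀.open_target.mem_nhds (φ₀.map_source hp))
    apply (φ₀.continuousAt_symm (φ₀.map_source hp)).preimage_mem_nhds
    rw [φ₀.left_inv hp]
    exact interior_mem_nhds.mpr hB
  obtain ⟨s, hs, hball⟩ := Metric.mem_nhds_iff.mp hW
  set b : OpenPartialHomeomorph (V n) (V n) := OpenPartialHomeomorph.univBall (φ₀ p) s with hb
  have hbs : b.source = univ := OpenPartialHomeomorph.univBall_source _ _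
  have hbt : b.target = Metric.ball (φ₀ p) s := OpenPartialHomeomorph.univBall_target _ hs
  have hmaps : ∀ v, b v ∈ φ₀.target := fun v =>
    (hball (by rw [← hbt]; exact b.map_source (by rw [hbs]; trivial))).1
  refine ⟨φ₀.trans b.symm, ?_, ?_, ?_⟩
  · apply OpenPartialHomeomorph.mem_maximalAtlas_of_contMDiffOn
    · have h1 : ContMDiffOn (𝓡 n) (𝓡 n) ∞ φ₀ φ₀.source :=
        contMDiffOn_of_mem_maximalAtlas (IsManifold.chart_mem_maximalAtlas p)
      have h2 : ContMDiffOn (𝓡 n) (𝓡 n) ∞ b.symm b.target := by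
        rw [hbt]
        exact (OpenPartialHomeomorph.contDiffOn_univBall_symm).contMDiffOn
      refine (h2.comp (h1.mono ?_) ?_)
      · intro y hy
        exact hy.1
      · intro y hy
        exact hy.2
    · have h1 : ContMDiffOn (𝓡 n) (𝓡 n) ∞ φ₀.symm φ₀.target :=
        contMDiffOn_symm_of_mem_maximalAtlas (IsManifold.chart_mem_maximalAtlas p)
      have h2 : ContMDiff (𝓡 n) (𝓡 n) ∞ b :=
        (OpenPartialHomeomorph.contDiff_univBall).contMDiff
      exact h1.comp h2.contMDiffOn (fun v _ => hmaps v)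
  · rw [OpenPartialHomeomorph.trans_target]
    apply eq_univ_of_forall
    intro v
    refine ⟨?_, hmaps v⟩
    show v ∈ b.source
    rw [hbs]; trivial
  · intro y hy
    rw [OpenPartialHomeomorph.trans_source] at hy
    have h1 : φ₀ y ∈ Metric.ball (φ₀ p) s := by
      rw [← hbt]; exact hy.2
    have h2 := (hball h1).2
    rw [mem_preimage, φ₀.left_inv hy.1] at h2
    exact interior_subset h2

theorem iota_source (k : ℕ) : (iota k).source = univ := by
  have h : (OpenPartialHomeomorph.univUnitBall (E := ℝ)).source = univ := rfl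
  simp [iota, iotaE, h]

theorem univUnitBall_target' : (OpenPartialHomeomorph.univUnitBall (E := ℝ)).target =
    Metric.ball 0 1 := rfl

theorem iota_smooth (k : ℕ) : ContDiff ℝ ∞ (iota k) := by
  have h : ContDiff ℝ ∞ (OpenPartialHomeomorph.univUnitBall (E := ℝ)) :=
    OpenPartialHomeomorph.contDiff_univUnitBall
  have h1 : ContDiff ℝ ∞ (fun u : Tot k =>
      (((OpenPartialHomeomorph.univUnitBall (E := ℝ)) u.1.1,
        ((OpenPartialHomeomorph.univUnitBall (E := ℝ)) u.1.2.1,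
          (OpenPartialHomeomorph.univUnitBall (E := ℝ)) u.1.2.2)), u.2)) := by
    refine ContDiff.prodMk (ContDiff.prodMk ?_ (ContDiff.prodMk ?_ ?_)) contDiff_snd
    · exact h.comp (contDiff_fst.comp contDiff_fst)
    · exact h.comp (contDiff_fst.comp (contDiff_snd.comp contDiff_fst))
    · exact h.comp (contDiff_snd.comp (contDiff_snd.comp contDiff_fst))
  exact h1

theorem iota_symm_smooth (k : ℕ) : ContDiffOn ℝ ∞ (iota k).symm (iota k).target := by
  have h : ContDiffOn ℝ ∞ (OpenPartialHomeomorph.univUnitBall (E := ℝ)).symm (Metric.ball 0 1) :=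
    OpenPartialHomeomorph.contDiffOn_univUnitBall_symm
  have h1 : ContDiffOn ℝ ∞ (fun u : Tot k =>
      (((OpenPartialHomeomorph.univUnitBall (E := ℝ)).symm u.1.1,
        ((OpenPartialHomeomorph.univUnitBall (E := ℝ)).symm u.1.2.1,
          (OpenPartialHomeomorph.univUnitBall (E := ℝ)).symm u.1.2.2)), u.2)) (iota k).target := by
    refine ContDiffOn.prodMk (ContDiffOn.prodMk ?_ (ContDiffOn.prodMk ?_ ?_)) contDiffOn_snd
    · refine h.comp (contDiff_fst.comp contDiff_fst).contDiffOn ?_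
      intro u hu
      exact hu.1.1
    · refine h.comp (contDiff_fst.comp (contDiff_snd.comp contDiff_fst)).contDiffOn ?_
      intro u hu
      exact hu.1.2.1
    · refine h.comp (contDiff_snd.comp (contDiff_snd.comp contDiff_fst)).contDiffOn ?_
      intro u hu
      exact hu.1.2.2
  exact h1

/-- the uncompressed chart -/
theorem exists_unc (k : ℕ) {M : Type} [TopologicalSpace M] [ChartedSpace (V (5 + k)) M]
    [IsManifold (𝓡 (5 + k)) ∞ M] (φ : OpenPartialHomeomorph M (V (5 + k)))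
    (hφ : φ ∈ IsManifold.maximalAtlas (𝓡 (5 + k)) ∞ M) (hφt : φ.target = univ)
    (L : Tot k ≃L[ℝ] V (5 + k)) :
    ∃ c ∈ IsManifold.maximalAtlas (𝓡 (5 + k)) ∞ M, c.target = univ ∧ c.source ⊆ φ.source ∧
      ∀ u : Tot k, c.symm (L u) = φ.symm (L (iota k u)) := by
  set e : OpenPartialHomeomorph (V (5 + k)) (V (5 + k)) :=
    (L.symm.toHomeomorph.toOpenPartialHomeomorph).trans
      ((iota k).symm.trans L.toHomeomorph.toOpenPartialHomeomorph) with he
  have het : e.target = univ := by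
    rw [he, OpenPartialHomeomorph.trans_target, OpenPartialHomeomorph.trans_target]
    apply eq_univ_of_forall
    intro v
    refine ⟨⟨trivial, ?_⟩, trivial⟩
    show _ ∈ (iota k).source
    rw [iota_source]
    trivial
  have hes : e.source ⊆ L.symm ⁻¹' (iota k).target := by
    intro v hv
    rw [he, OpenPartialHomeomorph.trans_source, OpenPartialHomeomorph.trans_source] at hv
    exact hv.2.1
  have hesm : ∀ v, e.symm v = L (iota k (L.symm v)) := fun v => rfl
  have hem : ∀ v, e v = L ((iota k).symm (L.symm v)) := fun v => rfl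
  have e1 : ContDiff ℝ ∞ e.symm := by
    have : (e.symm : V (5 + k) → V (5 + k)) = fun v => L (iota k (L.symm v)) := rfl
    rw [this]
    exact L.contDiff.comp ((iota_smooth k).comp L.symm.contDiff)
  have e2 : ContDiffOn ℝ ∞ e e.source := by
    have : (e : V (5 + k) → V (5 + k)) = fun v => L ((iota k).symm (L.symm v)) := rfl
    rw [this]
    exact L.contDiff.comp_contDiffOn
      ((iota_symm_smooth k).comp L.symm.contDiff.contDiffOn hes)
  refine ⟨φ.trans e, ?_, ?_, ?_, ?_⟩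
  · apply OpenPartialHomeomorph.mem_maximalAtlas_of_contMDiffOn
    · exact (e2.contMDiffOn).comp ((contMDiffOn_of_mem_maximalAtlas hφ).mono (fun y hy => hy.1))
        (fun y hy => hy.2)
    · refine (contMDiffOn_symm_of_mem_maximalAtlas hφ).comp (e1.contMDiff.contMDiffOn) ?_
      have h1 : ∀ w, w ∈ φ.target := by
        intro w
        rw [hφt]
        trivial
      exact fun v _ => h1 _
  · rw [OpenPartialHomeomorph.trans_target, het, hφt]
    simp
  · intro y hy
    exact hy.1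
  · intro u
    show φ.symm (e.symm (L u)) = _
    rw [hesm, L.symm_apply_apply]

theorem comp_contDiff {n : ℕ} {M : Type} [TopologicalSpace M] [ChartedSpace (V n) M]
    [IsManifold (𝓡 n) ∞ M] {c : OpenPartialHomeomorph M (V n)}
    (hc : c ∈ IsManifold.maximalAtlas (𝓡 n) ∞ M) (hct : c.target = univ) {r : ℕ∞} (hr : 2 ≤ r)
    (H : DiffM n M r) (hH : ∀ v, H (c.symm v) ∈ c.source) : ContDiff ℝ 2 (c ∘ H ∘ c.symm) := by
  have h2r : (2 : WithTop ℕ∞) ≤ ((r : ℕ∞) : WithTop ℕ∞) := WithTop.coe_le_coe.mpr hr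
  have h2i : (2 : WithTop ℕ∞) ≤ ∞ := WithTop.coe_le_coe.mpr le_top
  rw [contDiff_iff_contDiffAt]
  intro v
  have hvt : v ∈ c.target := by rw [hct]; trivial
  have h1 : ContMDiffAt (𝓡 n) (𝓡 n) 2 c.symm v :=
    ((contMDiffOn_symm_of_mem_maximalAtlas hc v hvt).contMDiffAt
      (c.open_target.mem_nhds hvt)).of_le h2i
  have h2 : ContMDiffAt (𝓡 n) (𝓡 n) 2 H (c.symm v) := (H.contMDiff (c.symm v)).of_le h2r
  have h3 : ContMDiffAt (𝓡 n) (𝓡 n) 2 c (H (c.symm v)) :=
    ((contMDiffOn_of_mem_maximalAtlas hc _ (hH v)).contMDiffAt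
      (c.open_source.mem_nhds (hH v))).of_le h2i
  have h4 : ContMDiffAt (𝓡 n) (𝓡 n) 2 (c ∘ H ∘ c.symm) v :=
    ContMDiffAt.comp v (g := c) (f := H ∘ c.symm) h3 (ContMDiffAt.comp v h2 h1)
  exact contMDiffAt_iff_contDiffAt.1 h4

theorem homeo_pow_apply {X : Type*} [TopologicalSpace X] (f : X ≃ₜ X) (k : ℕ) (x : X) :
    (f ^ k) x = (f : X → X)^[k] x := by
  induction k generalizing x with
  | zero => simp
  | succ k ih => rw [pow_succ, Homeomorph.mul_apply, ih, Function.iterate_succ_apply]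

theorem lin_bound {X Y : Type*} [NormedAddCommGroup X] [NormedSpace ℝ X] [NormedAddCommGroup Y]
    [NormedSpace ℝ Y] (L : X ≃L[ℝ] Y) (h : Y → Y) (hh : ContDiff ℝ 2 h) (u : X) (i : ℕ)
    (hi : i ≤ 2) :
    ‖iteratedFDeriv ℝ i (fun u => L.symm (h (L u))) u‖ ≤
      ‖(L.symm : Y →L[ℝ] X)‖ * (‖iteratedFDeriv ℝ i h (L u)‖ * (1 + ‖(L : X →L[ℝ] Y)‖) ^ 2) := by
  have hi' : (i : WithTop ℕ∞) ≤ 2 := by exact_mod_cast hi
  have h1 : ContDiff ℝ 2 (h ∘ (L : X →L[ℝ] Y)) := hh.comp (L : X →L[ℝ] Y).contDiff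
  have h2 := (L.symm : Y →L[ℝ] X).norm_iteratedFDeriv_comp_left (h1.contDiffAt (x := u)) hi'
  have h3 := (L : X →L[ℝ] Y).iteratedFDeriv_comp_right hh u hi'
  have h4 : ‖iteratedFDeriv ℝ i (h ∘ (L : X →L[ℝ] Y)) u‖ ≤
      ‖iteratedFDeriv ℝ i h (L u)‖ * (1 + ‖(L : X →L[ℝ] Y)‖) ^ 2 := by
    rw [h3]
    refine (ContinuousMultilinearMap.norm_compContinuousLinearMap_le _ _).trans ?_
    rw [Finset.prod_const, Finset.card_univ, Fintype.card_fin]
    refine mul_le_mul_of_nonneg_left ?_ (norm_nonneg _)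
    have h5 : ‖(L : X →L[ℝ] Y)‖ ^ i ≤ (1 + ‖(L : X →L[ℝ] Y)‖) ^ i :=
      pow_le_pow_left₀ (norm_nonneg _) (by linarith) _
    exact h5.trans (pow_le_pow_right₀ (by linarith [norm_nonneg (L : X →L[ℝ] Y)]) hi)
  exact h2.trans (mul_le_mul_of_nonneg_left h4 (norm_nonneg _))

theorem main : S_MAN := by
  intro k Fh Ft ρ ρ' δ hFh hFh' hRR hcomm hρ hρ' hρρ hδ hrec hcl M _ _ _ _ p B hB
  obtain ⟨R, hR⟩ := hRR
  obtain ⟨L⟩ := exists_lin k
  obtain ⟨φ, hφ, hφt, hφs⟩ := exists_chart (n := 5 + k) p B hB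
  obtain ⟨c, hc, hct, hcs, hcsymm⟩ := exists_unc k φ hφ hφt L
  have hφt' : ∀ v, v ∈ φ.target := fun v => by rw [hφt]; trivial
  have hct' : ∀ v, v ∈ c.target := fun v => by rw [hct]; trivial
  set Fn : V (5 + k) ≃ₜ V (5 + k) := (L.symm.toHomeomorph.trans Fh).trans L.toHomeomorph with hFnd
  have hFn : ∀ v, Fn v = L (Fh (L.symm v)) := fun v => rfl
  have hFnsm : ContDiff ℝ ∞ Fn := L.contDiff.comp (hFh.comp L.symm.contDiff)
  have hFnsm' : ContDiff ℝ ∞ Fn.symm := L.contDiff.comp (hFh'.comp L.symm.contDiff)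
  set A : Set (V (5 + k)) := L '' Metric.closedBall 0 R with hAd
  have hA : IsCompact A := (isCompact_closedBall 0 R).image L.continuous
  have hAc : IsClosed (φ.symm '' A) :=
    (hA.image_of_continuousOn (φ.continuousOn_symm.mono (fun v _ => hφt' v))).isClosed
  have hid : ∀ v ∉ A, Fn v = v := by
    intro v hv
    have h1 : R ≤ ‖L.symm v‖ := by
      by_contra h
      exact hv ⟨L.symm v, by simpa using (not_le.mp h).le, L.apply_symm_apply v⟩
    rw [hFn, hR _ h1, L.apply_symm_apply]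
  obtain ⟨F, hF1, hF2⟩ := transplant hφ (fun v _ => hφt' v) hAc Fn hFnsm hFnsm' hid
  set j : Tot k → M := fun u => c.symm (L u) with hj
  have hjs : ∀ u, j u ∈ c.source := fun u => c.map_target (hct' _)
  have hcj : ∀ u, c (j u) = L u := fun u => c.right_inv (hct' _)
  have hjinj : Function.Injective j := fun u u' h => L.injective (by rw [← hcj, ← hcj, h])
  have hjc : ∀ y ∈ c.source, j (L.symm (c y)) = y := by
    intro y hy
    show c.symm (L (L.symm (c y))) = y
    rw [L.apply_symm_apply, c.left_inv hy]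
  have hjF : ∀ u, F (j u) = j (Ft u) := by
    intro u
    show F (c.symm (L u)) = c.symm (L (Ft u))
    rw [hcsymm, hcsymm, hF1 _ (φ.map_target (hφt' _)), φ.right_inv (hφt' _), hFn,
      L.symm_apply_apply, hcomm]
  have hjcont : Continuous j := by
    have h1 : Continuous c.symm := by
      rw [← continuousOn_univ, ← hct]; exact c.continuousOn_symm
    exact h1.comp L.continuous
  have hjopen : ∀ s, IsOpen s → IsOpen (j '' s) := by
    intro s hs
    have h1 : j '' s = c.symm '' (L '' s) := by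
      rw [← image_comp]; rfl
    rw [h1]
    exact c.symm.isOpen_image_of_subset_source (L.toHomeomorph.isOpenMap s hs)
      (fun v _ => hct' v)
  have hiter : ∀ (n : ℕ) u, (F : M → M)^[n] (j u) = j (Ft^[n] u) := by
    intro n
    induction n with
    | zero => intro u; rfl
    | succ n ih => intro u; rw [Function.iterate_succ_apply, hjF, ih, Function.iterate_succ_apply]
  refine ⟨F, j (x₀ k), j '' Metric.ball (x₀ k) ρ, j '' Metric.ball (x₀ k) ρ',
    hjopen _ Metric.isOpen_ball, (hjopen _ Metric.isOpen_ball).mem_nhds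
      ⟨_, Metric.mem_ball_self hρ', rfl⟩, image_mono (Metric.ball_subset_ball hρρ), ?_, ?_, ?_, ?_⟩
  · rintro _ ⟨u, _, rfl⟩
    exact hφs (hcs (hjs u))
  · intro y hy
    apply hF2
    rintro ⟨v, hv, rfl⟩
    exact hy (hφs (φ.map_target (hφt' v)))
  · intro hemb
    obtain ⟨W, hW, hW'⟩ := hemb.isInducing.isOpen_iff.mp (isOpen_discrete ({0} : Set ℤ))
    have h0 : j (x₀ k) ∈ W := by
      have : (0 : ℤ) ∈ (fun m : ℤ => (F.toHomeomorph ^ m) (j (x₀ k))) ⁻¹' W := by rw [hW']; rfl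
      simpa using this
    have h1 : ∀ᶠ v in 𝓝 (x₀ k), j v ∈ W := hjcont.continuousAt.eventually (hW.mem_nhds h0)
    obtain ⟨ε, hε, h2⟩ := Metric.eventually_nhds_iff.1 h1
    obtain ⟨n, hn1, hn2⟩ := hrec ε hε
    have h3 : j (Ft^[n] (x₀ k)) ∈ W := h2 (by rw [dist_eq_norm]; exact hn2)
    have h4 : (n : ℤ) ∈ (fun m : ℤ => (F.toHomeomorph ^ m) (j (x₀ k))) ⁻¹' W := by
      show (F.toHomeomorph ^ (n : ℤ)) (j (x₀ k)) ∈ W
      rw [zpow_natCast, homeo_pow_apply]
      have h5 : ((F.toHomeomorph : M ≃ₜ M) : M → M) = F := rfl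
      rw [h5, hiter]
      exact h3
    rw [hW'] at h4
    have : (n : ℤ) = 0 := h4
    omega
  intro r Fr hr hFr
  set δ' : ℝ := δ / ((1 + ‖(L.symm : V (5 + k) →L[ℝ] Tot k)‖) *
    (1 + ‖(L : Tot k →L[ℝ] V (5 + k))‖) ^ 2) with hδ'
  have hden : 0 < (1 + ‖(L.symm : V (5 + k) →L[ℝ] Tot k)‖) *
    (1 + ‖(L : Tot k →L[ℝ] V (5 + k))‖) ^ 2 := by positivity
  have hδ'0 : 0 < δ' := div_pos hδ hden
  let D : StrongData (5 + k) M :=
    { ι := Unit
      φ := fun _ => c
      ψ := fun _ => c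
      K := fun _ => j '' Metric.closedBall (x₀ k) ρ
      ε := fun _ => δ'
      φ_mem := fun _ => hc
      ψ_mem := fun _ => hc
      lf := locallyFinite_of_finite _
      compact := fun _ => (isCompact_closedBall _ _).image hjcont
      sub := by rintro _ _ ⟨u, _, rfl⟩; exact hjs u
      pos := fun _ => hδ'0 }
  refine ⟨strongNbhd D 2 Fr, TopologicalSpace.GenerateOpen.basic _ ⟨D, 2, Fr, ?_, ?_, rfl⟩,
    ?_, ?_⟩
  · exact_mod_cast hr
  · rintro _ _ ⟨u, _, rfl⟩
    show Fr (j u) ∈ c.source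
    rw [hFr, hjF]
    exact hjs _
  · rintro _ _ ⟨u, _, rfl⟩
    refine ⟨?_, ?_⟩
    · show Fr (j u) ∈ c.source
      rw [hFr, hjF]
      exact hjs _
    · intro m _
      rw [sub_self, norm_zero]
      exact hδ'0
  rintro G hG hGU _ ⟨u₀, hu₀, rfl⟩ ⟨n, hn, hper⟩
  have hjU : ∀ u, ρ ≤ ‖u - x₀ k‖ → j u ∉ j '' Metric.ball (x₀ k) ρ := by
    rintro u hu ⟨u', hu', hjj⟩
    rw [hjinj hjj, mem_ball_iff_norm] at hu'
    linarith
  have hGs : ∀ u, G (j u) ∈ c.source := by
    intro u
    by_cases h : u ∈ Metric.closedBall (x₀ k) ρ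
    · exact (hG () (j u) ⟨u, h, rfl⟩).1
    · rw [mem_closedBall_iff_norm, not_le] at h
      rw [hGU (j u) (hjU u h.le), hjF]
      exact hjs _
  set Gt : Tot k → Tot k := fun u => L.symm (c (G (j u))) with hGt
  have hjG : ∀ u, j (Gt u) = G (j u) := fun u => hjc _ (hGs u)
  have hGinj : Function.Injective Gt := by
    intro u u' h
    apply hjinj
    apply G.injective
    show G (j u) = G (j u')
    rw [← hjG, ← hjG, h]
  have hGout : ∀ u, ρ ≤ ‖u - x₀ k‖ → Gt u = Ft u := by
    intro u hu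
    apply hjinj
    rw [hjG, hGU _ (hjU u hu), hjF]
  have hFt : ∀ u, Ft u = L.symm (c (Fr (j u))) := by
    intro u
    rw [hFr, hjF, hcj, L.symm_apply_apply]
  have hgc : ContDiff ℝ 2 (c ∘ G ∘ c.symm) := by
    apply comp_contDiff hc hct hr
    intro v
    have := hGs (L.symm v)
    rw [hj] at this
    simpa using this
  have hfc : ContDiff ℝ 2 (c ∘ Fr ∘ c.symm) := by
    apply comp_contDiff hc hct hr
    intro v
    have h1 : Fr (j (L.symm v)) ∈ c.source := by
      rw [hFr, hjF]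
      exact hjs _
    rw [hj] at h1
    simpa using h1
  set hd : V (5 + k) → V (5 + k) := fun v => (c ∘ G ∘ c.symm) v - (c ∘ Fr ∘ c.symm) v with hhd
  have hhd2 : ContDiff ℝ 2 hd := hgc.sub hfc
  have he : (fun u => Gt u - Ft u) = fun u => L.symm (hd (L u)) := by
    funext u
    rw [hFt]
    simp only [hGt, hhd, map_sub, Function.comp_apply, hj]
  have heC : ContDiff ℝ 2 (fun u => Gt u - Ft u) := by
    rw [he]
    exact L.symm.contDiff.comp (hhd2.comp L.contDiff)
  have hbound : ∀ u (i : ℕ), i ≤ 2 → ‖iteratedFDeriv ℝ i (fun u => Gt u - Ft u) u‖ ≤ δ := by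
    intro u i hi
    by_cases h : u ∈ Metric.closedBall (x₀ k) ρ
    · rw [he]
      refine (lin_bound L hd hhd2 u i hi).trans ?_
      have h1 := (hG () (j u) ⟨u, h, rfl⟩).2 i hi
      have h2 : ‖iteratedFDeriv ℝ i (c ∘ G ∘ c.symm) (c (j u)) -
          iteratedFDeriv ℝ i (c ∘ Fr ∘ c.symm) (c (j u))‖ < δ' := h1
      rw [hcj] at h2
      have hi' : (i : WithTop ℕ∞) ≤ 2 := by exact_mod_cast hi
      have h3 : iteratedFDeriv ℝ i hd (L u) = iteratedFDeriv ℝ i (c ∘ G ∘ c.symm) (L u) -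
          iteratedFDeriv ℝ i (c ∘ Fr ∘ c.symm) (L u) :=
        iteratedFDeriv_sub_apply ((hgc.of_le hi').contDiffAt) ((hfc.of_le hi').contDiffAt)
      rw [h3]
      calc ‖(L.symm : V (5 + k) →L[ℝ] Tot k)‖ * (‖iteratedFDeriv ℝ i (c ∘ G ∘ c.symm) (L u) -
          iteratedFDeriv ℝ i (c ∘ Fr ∘ c.symm) (L u)‖ * (1 + ‖(L : Tot k →L[ℝ] V (5 + k))‖) ^ 2)
          ≤ (1 + ‖(L.symm : V (5 + k) →L[ℝ] Tot k)‖) *
            (δ' * (1 + ‖(L : Tot k →L[ℝ] V (5 + k))‖) ^ 2) := by
            gcongr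
            linarith
        _ = δ := by
            rw [hδ']
            field_simp
    · rw [mem_closedBall_iff_norm, not_le] at h
      have h1 : (fun u => Gt u - Ft u) =ᶠ[𝓝 u] fun _ => 0 := by
        have h2 : {v : Tot k | ρ < ‖v - x₀ k‖} ∈ 𝓝 u :=
          (isOpen_lt continuous_const (continuous_id.sub continuous_const).norm).mem_nhds h
        filter_upwards [h2] with v hv
        rw [hGout v (le_of_lt hv), sub_self]
      rw [(h1.iteratedFDeriv ℝ i).eq_of_nhds]
      have h3 : iteratedFDeriv ℝ i (fun _ : Tot k => (0 : Tot k)) u = 0 := by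
        simp
      rw [h3, norm_zero]
      exact hδ.le
  refine hcl Gt hGinj heC hGout hbound u₀ ?_ n hn ?_
  · rw [mem_ball_iff_norm] at hu₀
    exact hu₀.le
  · apply hjinj
    have hit : ∀ (m : ℕ) u, (G : M → M)^[m] (j u) = j (Gt^[m] u) := by
      intro m
      induction m with
      | zero => intro u; rfl
      | succ m ih =>
        intro u
        rw [Function.iterate_succ_apply, ← hjG, ih, Function.iterate_succ_apply]
    rw [← hit, hper]

end Pool.Agent.H247.LC.Man
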