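import Pool.Agent.H247.LC.Iface2
import Pool.Agent.H247.LC.Man

/-!
# Project LC, leaf Man2: transplantation, perturbations near finite orbit segments
-/

set_option autoImplicit false
set_option linter.unusedSectionVars false

open scoped Manifold ContDiff Topology
open Set

namespace Pool.Agent.H247.LC.Man2

open Pool.Agent.H718R2 (E)
open Pool.Agent.H718R2.G (V DiffM StrongData strongNbhd strongTop IsRec IsPer transplant)
open Pool.Agent.H247.LC.Man (exists_lin exists_chart exists_unc lin_bound homeo_pow_apply)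

/-! ## generalities -/

theorem exists_rho {X : Type} [NormedAddCommGroup X] {Ft : X → X} (hcont : Continuous Ft) (x : X)
    (N : ℕ) (h : ∀ i, 1 ≤ i → i ≤ N → Ft^[i] x ≠ x) {ρ : ℝ} (hρ : 0 < ρ) :
    ∃ ρ₁, 0 < ρ₁ ∧ ρ₁ ≤ ρ ∧ ∀ i, 1 ≤ i → i ≤ N → ∀ u ∈ Metric.ball x (2 * ρ₁),
      Ft^[i] u ∉ Metric.ball x (2 * ρ₁) := by
  have key : ∀ i ∈ Finset.Icc 1 N, ∀ᶠ r in 𝓝[>] (0 : ℝ), ∀ u ∈ Metric.ball x (2 * r),
      Ft^[i] u ∉ Metric.ball x (2 * r) := by
    intro i hi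
    rw [Finset.mem_Icc] at hi
    have hd : 0 < dist (Ft^[i] x) x := dist_pos.2 (h i hi.1 hi.2)
    obtain ⟨η, hη, hη'⟩ := Metric.continuousAt_iff.1 ((hcont.iterate i).continuousAt (x := x))
      (dist (Ft^[i] x) x / 2) (by positivity)
    have hm : 0 < min η (dist (Ft^[i] x) x / 2) / 2 := by positivity
    filter_upwards [nhdsWithin_le_nhds (Iio_mem_nhds hm)] with r hr u hu
    rw [mem_Iio] at hr
    have h1 : 2 * r < η := by linarith [min_le_left η (dist (Ft^[i] x) x / 2)]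
    have h2 : 2 * r < dist (Ft^[i] x) x / 2 := by
      linarith [min_le_right η (dist (Ft^[i] x) x / 2)]
    rw [Metric.mem_ball] at hu
    have h3 := hη' (hu.trans h1)
    rw [Metric.mem_ball, not_lt]
    have h4 := dist_triangle (Ft^[i] x) (Ft^[i] u) x
    rw [dist_comm (Ft^[i] x) (Ft^[i] u)] at h4
    linarith
  have key' := (Finset.eventually_all _).2 key
  obtain ⟨r, ⟨h1, h2⟩, h3⟩ := ((key'.and (nhdsWithin_le_nhds (Iio_mem_nhds hρ))).and
    (self_mem_nhdsWithin : Ioi (0 : ℝ) ∈ 𝓝[>] (0 : ℝ))).exists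
  exact ⟨r, h3, le_of_lt h2, fun i hi1 hi2 => h1 i (Finset.mem_Icc.2 ⟨hi1, hi2⟩)⟩

section pow

variable {n : ℕ} {M : Type} [TopologicalSpace M] [ChartedSpace (V n) M]

theorem pow_smooth_nat {f : M ≃ₜ M} (hf : ContMDiff (𝓡 n) (𝓡 n) ∞ f) (i : ℕ) :
    ContMDiff (𝓡 n) (𝓡 n) ∞ (f ^ i : M ≃ₜ M) := by
  induction i with
  | zero => exact contMDiff_id
  | succ i ih =>
    have h1 : ((f ^ (i + 1) : M ≃ₜ M) : M → M) = (f ^ i : M ≃ₜ M) ∘ f := by
      funext x
      rw [pow_succ, Homeomorph.mul_apply]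
      rfl
    rw [h1]
    exact ih.comp hf

theorem pow_smooth (F : DiffM n M ⊤) (a : ℤ) :
    ContMDiff (𝓡 n) (𝓡 n) ∞ (F.toHomeomorph ^ a : M ≃ₜ M) := by
  cases a with
  | ofNat i =>
    rw [Int.ofNat_eq_natCast, zpow_natCast]
    exact pow_smooth_nat (f := F.toHomeomorph) F.contMDiff i
  | negSucc i =>
    rw [zpow_negSucc, ← inv_pow]
    exact pow_smooth_nat (f := F.toHomeomorph⁻¹) F.symm.contMDiff (i + 1)

/-- the powers of `F` -/
noncomputable abbrev HH (F : DiffM n M ⊤) (a : ℤ) : M ≃ₜ M := F.toHomeomorph ^ a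

theorem HH_add (F : DiffM n M ⊤) (a b : ℤ) (y : M) : HH F (a + b) y = HH F a (HH F b y) := by
  rw [HH, zpow_add, Homeomorph.mul_apply]

theorem HH_symm (F : DiffM n M ⊤) (a : ℤ) (y : M) : (HH F a).symm y = HH F (-a) y := by
  have h1 : HH F (-a) = (HH F a)⁻¹ := zpow_neg _ _
  rw [h1]
  rfl

theorem HH_zero (F : DiffM n M ⊤) (y : M) : HH F 0 y = y := by
  rw [HH, zpow_zero]
  rfl

theorem HH_one (F : DiffM n M ⊤) (y : M) : HH F 1 y = F y := by
  rw [HH, zpow_one]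
  rfl

theorem HH_succ (F : DiffM n M ⊤) (a : ℤ) (y : M) : HH F (a + 1) y = F (HH F a y) := by
  rw [add_comm, HH_add, HH_one]

/-- translated charts -/
noncomputable def ch (F : DiffM n M ⊤) (c : OpenPartialHomeomorph M (V n)) (a : ℤ) :
    OpenPartialHomeomorph M (V n) :=
  (HH F a).symm.toOpenPartialHomeomorph.trans c

theorem ch_apply (F : DiffM n M ⊤) (c : OpenPartialHomeomorph M (V n)) (a : ℤ) (y : M) :
    ch F c a y = c ((HH F a).symm y) := rfl

theorem ch_symm_apply (F : DiffM n M ⊤) (c : OpenPartialHomeomorph M (V n)) (a : ℤ) (v : V n) :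
    (ch F c a).symm v = HH F a (c.symm v) := rfl

theorem ch_source (F : DiffM n M ⊤) (c : OpenPartialHomeomorph M (V n)) (a : ℤ) (y : M) :
    y ∈ (ch F c a).source ↔ (HH F a).symm y ∈ c.source := by
  rw [ch, OpenPartialHomeomorph.trans_source]
  exact ⟨fun h => h.2, fun h => ⟨trivial, h⟩⟩

theorem ch_target (F : DiffM n M ⊤) (c : OpenPartialHomeomorph M (V n)) (hct : c.target = univ)
    (a : ℤ) : (ch F c a).target = univ := by
  rw [ch, OpenPartialHomeomorph.trans_target, hct]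
  exact eq_univ_of_forall fun v => ⟨trivial, trivial⟩

theorem ch_mem [IsManifold (𝓡 n) ∞ M] (F : DiffM n M ⊤) {c : OpenPartialHomeomorph M (V n)}
    (hc : c ∈ IsManifold.maximalAtlas (𝓡 n) ∞ M) (a : ℤ) :
    ch F c a ∈ IsManifold.maximalAtlas (𝓡 n) ∞ M := by
  apply OpenPartialHomeomorph.mem_maximalAtlas_of_contMDiffOn
  · have h1 : ContMDiff (𝓡 n) (𝓡 n) ∞ (HH F a).symm := by
      have h2 : ((HH F a).symm : M → M) = HH F (-a) := funext (HH_symm F a)
      rw [h2]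
      exact pow_smooth F _
    exact (contMDiffOn_of_mem_maximalAtlas hc).comp h1.contMDiffOn
      (fun y hy => (ch_source F c a y).1 hy)
  · have h1 : ContMDiff (𝓡 n) (𝓡 n) ∞ (HH F a) := pow_smooth F a
    have h2 : (ch F c a).target ⊆ c.target := by
      rw [ch, OpenPartialHomeomorph.trans_target]
      exact fun v hv => hv.1
    exact h1.comp_contMDiffOn ((contMDiffOn_symm_of_mem_maximalAtlas hc).mono h2)

theorem comp_contDiff2 [IsManifold (𝓡 n) ∞ M] {c c' : OpenPartialHomeomorph M (V n)}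
    (hc : c ∈ IsManifold.maximalAtlas (𝓡 n) ∞ M) (hct : c.target = univ)
    (hc' : c' ∈ IsManifold.maximalAtlas (𝓡 n) ∞ M) {r : ℕ∞} (hr : 2 ≤ r)
    (H : DiffM n M r) (hH : ∀ v, H (c.symm v) ∈ c'.source) : ContDiff ℝ 2 (c' ∘ H ∘ c.symm) := by
  have h2r : (2 : WithTop ℕ∞) ≤ ((r : ℕ∞) : WithTop ℕ∞) := WithTop.coe_le_coe.mpr hr
  have h2i : (2 : WithTop ℕ∞) ≤ ∞ := WithTop.coe_le_coe.mpr le_top
  rw [contDiff_iff_contDiffAt]
  intro v
  have hvt : v ∈ c.target := by rw [hct]; trivial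
  have h1 : ContMDiffAt (𝓡 n) (𝓡 n) 2 c.symm v :=
    ((contMDiffOn_symm_of_mem_maximalAtlas hc v hvt).contMDiffAt
      (c.open_target.mem_nhds hvt)).of_le h2i
  have h2 : ContMDiffAt (𝓡 n) (𝓡 n) 2 H (c.symm v) := (H.contMDiff (c.symm v)).of_le h2r
  have h3 : ContMDiffAt (𝓡 n) (𝓡 n) 2 c' (H (c.symm v)) :=
    ((contMDiffOn_of_mem_maximalAtlas hc' _ (hH v)).contMDiffAt
      (c'.open_source.mem_nhds (hH v))).of_le h2i
  have h4 : ContMDiffAt (𝓡 n) (𝓡 n) 2 (c' ∘ H ∘ c.symm) v :=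
    ContMDiffAt.comp v (g := c') (f := H ∘ c.symm) h3 (ContMDiffAt.comp v h2 h1)
  exact contMDiffAt_iff_contDiffAt.1 h4

end pow


theorem perm_add {X : Type} (P : Equiv.Perm X) (a b : ℤ) (y : X) :
    (P ^ (a + b)) y = (P ^ a) ((P ^ b) y) := by
  rw [zpow_add, Equiv.Perm.mul_apply]

theorem perm_nat {X : Type} (P : Equiv.Perm X) (i : ℕ) (y : X) :
    (P ^ (i : ℤ)) y = (P : X → X)^[i] y := by
  rw [zpow_natCast, Equiv.Perm.iterate_eq_pow]

theorem perm_one {X : Type} (P : Equiv.Perm X) (y : X) : (P ^ (1 : ℤ)) y = P y := by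
  rw [zpow_one]

theorem perm_succ {X : Type} (P : Equiv.Perm X) (a : ℤ) (y : X) :
    (P ^ (a + 1)) y = P ((P ^ a) y) := by
  rw [add_comm, perm_add, perm_one]

theorem perm_neg {X : Type} (P : Equiv.Perm X) (a : ℤ) (y : X) :
    (P ^ (-a)) ((P ^ a) y) = y := by
  rw [← perm_add, neg_add_cancel, zpow_zero]
  rfl

theorem perm_neg' {X : Type} (P : Equiv.Perm X) (a : ℤ) (y : X) :
    (P ^ a) ((P ^ (-a)) y) = y := by
  rw [← perm_add, add_neg_cancel, zpow_zero]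
  rfl

theorem perm_dis {X : Type} (P : Equiv.Perm X) (B : Set X) (l : ℕ)
    (h : ∀ i, 1 ≤ i → i ≤ 2 * l → ∀ u ∈ B, (P : X → X)^[i] u ∉ B) (a a' : ℤ) (ha : |a| ≤ l)
    (ha' : |a'| ≤ l) (u u' : X) (hu : u ∈ B) (hu' : u' ∈ B) (he : (P ^ a) u = (P ^ a') u') :
    a = a' ∧ u = u' := by
  have key : ∀ (a a' : ℤ), |a| ≤ l → |a'| ≤ l → ∀ u u' : X, u ∈ B → u' ∈ B →
      (P ^ a) u = (P ^ a') u' → ¬ a < a' := by
    intro a a' ha ha' u u' hu hu' he hlt
    obtain ⟨i, hi⟩ : ∃ i : ℕ, a' - a = i := ⟨(a' - a).toNat, by omega⟩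
    rw [abs_le] at ha ha'
    have h1 : (P ^ (a' - a)) u' = u := by
      rw [show a' - a = -a + a' by ring, perm_add, ← he, perm_neg]
    rw [hi, perm_nat] at h1
    refine h i (by omega) (by omega) u' hu' ?_
    rw [h1]
    exact hu
  have h1 : a = a' := by
    have h2 := key a a' ha ha' u u' hu hu' he
    have h3 := key a' a ha' ha u' u hu' hu he.symm
    omega
  refine ⟨h1, ?_⟩
  rw [h1] at he
  exact (P ^ a').injective he

theorem core (hcm : S_COMP) (hcb : S_COMB) {X : Type} [NormedAddCommGroup X] [NormedSpace ℝ X]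
    (P : Equiv.Perm X) (x : X) (ρ δ : ℝ) (hδ : 0 < δ)
    (hcl : ∀ e : X → X, ContDiff ℝ 2 e → (∀ u, ρ ≤ ‖u - x‖ → e u = 0) →
      (∀ u (i : ℕ), i ≤ 2 → ‖iteratedFDeriv ℝ i e u‖ ≤ δ) →
      ∀ u, ‖u - x‖ < ρ → ∀ n : ℕ, 1 ≤ n → (fun v => P (v + e v))^[n] u ≠ u)
    (l : ℕ) (ρ₁ : ℝ) (hρ₁ : 0 < ρ₁) (hρ₁ρ : ρ₁ ≤ ρ)
    (hdis : ∀ i, 1 ≤ i → i ≤ 2 * l → ∀ u ∈ Metric.ball x (2 * ρ₁),
      (P : X → X)^[i] u ∉ Metric.ball x (2 * ρ₁)) :
    ∃ δ' : ℝ, 0 < δ' ∧ ∀ Gt : X → X, Function.Injective Gt →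
      (∀ y, (∀ a : ℤ, |a| ≤ l → ∀ u ∈ Metric.ball x ρ₁, y ≠ (P ^ a) u) → Gt y = P y) →
      (∀ a : ℤ, |a| ≤ l → ContDiff ℝ 2 (fun u => (P ^ (-(a + 1))) (Gt ((P ^ a) u)))) →
      (∀ a : ℤ, |a| ≤ l → ∀ u ∈ Metric.closedBall x ρ₁, ∀ i : ℕ, i ≤ 2 →
        ‖iteratedFDeriv ℝ i (fun u => (P ^ (-(a + 1))) (Gt ((P ^ a) u)) - u) u‖ ≤ δ') →
      ∀ a : ℤ, |a| ≤ l → ∀ u ∈ Metric.ball x ρ₁, ∀ n : ℕ, 1 ≤ n →
        Gt^[n] ((P ^ a) u) ≠ (P ^ a) u := by
  classical
  obtain ⟨δ₂, hδ₂, hcomp⟩ := hcm X x ρ₁ (min δ (1 / 2)) (2 * l + 1) hρ₁ (by positivity)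
  refine ⟨min δ₂ (ρ₁ / 2), by positivity, ?_⟩
  intro Gt hGinj hGoff hGC hGb a₀ ha₀ u₀ hu₀ n₀ hn₀ hper
  set T : ℤ → X → X := fun a u => (P ^ (-(a + 1))) (Gt ((P ^ a) u)) with hT
  have hTe : ∀ a u, (P ^ (a + 1)) (T a u) = Gt ((P ^ a) u) := by
    intro a u
    simp only [hT]
    rw [perm_neg']
  have hTinj : ∀ a, Function.Injective (T a) := by
    intro a u v h
    exact (P ^ a).injective (hGinj ((P ^ (-(a + 1))).injective h))
  have hsub : Metric.ball x ρ₁ ⊆ Metric.ball x (2 * ρ₁) :=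
    Metric.ball_subset_ball (by linarith)
  have hTid : ∀ a : ℤ, |a| ≤ l → ∀ u ∈ Metric.ball x (2 * ρ₁), u ∉ Metric.ball x ρ₁ →
      T a u = u := by
    intro a ha u hu hu'
    have h1 : Gt ((P ^ a) u) = P ((P ^ a) u) := by
      apply hGoff
      intro a' ha' u' hu'' he
      have h2 := perm_dis P _ l hdis a a' ha ha' u u' hu (hsub hu'') he
      rw [h2.2] at hu'
      exact hu' hu''
    simp only [hT]
    rw [h1, ← perm_succ, perm_neg]
  have haj : ∀ j : ℕ, j ≤ 2 * l → |(j : ℤ) - l| ≤ l := by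
    intro j hj
    rw [abs_le]
    constructor <;> omega
  set e : ℕ → X → X := fun j u => if u ∈ Metric.ball x ρ₁ then T ((j : ℤ) - l) u - u else 0
    with he
  have he1 : ∀ j ≤ 2 * l, ∀ u ∈ Metric.ball x (2 * ρ₁), e j u = T ((j : ℤ) - l) u - u := by
    intro j hj u hu
    simp only [he]
    by_cases h : u ∈ Metric.ball x ρ₁
    · rw [if_pos h]
    · rw [if_neg h, hTid _ (haj j hj) u hu h, sub_self]
  have he0 : ∀ j u, ρ₁ ≤ ‖u - x‖ → e j u = 0 := by
    intro j u hu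
    simp only [he]
    rw [if_neg]
    rw [mem_ball_iff_norm, not_lt]
    exact hu
  have hev : ∀ j ≤ 2 * l, ∀ u ∈ Metric.ball x (2 * ρ₁),
      e j =ᶠ[𝓝 u] fun u => T ((j : ℤ) - l) u - u := by
    intro j hj u hu
    filter_upwards [Metric.isOpen_ball.mem_nhds hu] with v hv
    exact he1 j hj v hv
  have hev0 : ∀ j, ∀ u ∉ Metric.closedBall x ρ₁, e j =ᶠ[𝓝 u] fun _ => 0 := by
    intro j u hu
    filter_upwards [Metric.isClosed_closedBall.isOpen_compl.mem_nhds hu] with v hv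
    rw [mem_compl_iff, mem_closedBall_iff_norm, not_le] at hv
    exact he0 j v hv.le
  have hcb' : Metric.closedBall x ρ₁ ⊆ Metric.ball x (2 * ρ₁) :=
    Metric.closedBall_subset_ball (by linarith)
  have heC : ∀ j < 2 * l + 1, ContDiff ℝ 2 (e j) := by
    intro j hj
    rw [contDiff_iff_contDiffAt]
    intro u
    by_cases hu : u ∈ Metric.closedBall x ρ₁
    · exact (((hGC _ (haj j (by omega))).sub contDiff_id).contDiffAt).congr_of_eventuallyEq
        (hev j (by omega) u (hcb' hu))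
    · exact contDiffAt_const.congr_of_eventuallyEq (hev0 j u hu)
  have heb : ∀ j < 2 * l + 1, ∀ u (i : ℕ), i ≤ 2 → ‖iteratedFDeriv ℝ i (e j) u‖ ≤
      min δ₂ (ρ₁ / 2) := by
    intro j hj u i hi
    by_cases hu : u ∈ Metric.closedBall x ρ₁
    · rw [((hev j (by omega) u (hcb' hu)).iteratedFDeriv ℝ i).eq_of_nhds]
      exact hGb _ (haj j (by omega)) u hu i hi
    · rw [((hev0 j u hu).iteratedFDeriv ℝ i).eq_of_nhds]
      have h3 : iteratedFDeriv ℝ i (fun _ : X => (0 : X)) u = 0 := by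
        simp
      rw [h3, norm_zero]
      positivity
  obtain ⟨hE1, hE2, hE3⟩ := hcomp e heC (fun j _ => he0 j)
    (fun j hj u i hi => (heb j hj u i hi).trans (min_le_left _ _))
  have hball : ∀ j ≤ 2 * l, ∀ u ∈ Metric.ball x ρ₁, u + e j u ∈ Metric.ball x ρ₁ := by
    intro j hj u hu
    by_contra hcon
    have h1 : ‖e j u‖ ≤ ρ₁ / 2 := by
      have h2 := (heb j (by omega) u 0 (by norm_num)).trans (min_le_right _ _)
      rwa [norm_iteratedFDeriv_zero] at h2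
    have h3 : u + e j u ∈ Metric.ball x (2 * ρ₁) := by
      rw [mem_ball_iff_norm] at hu ⊢
      have h4 : u + e j u - x = (u - x) + e j u := by abel
      rw [h4]
      have := norm_add_le (u - x) (e j u)
      linarith
    have h5 : u + e j u = T ((j : ℤ) - l) u := by
      rw [he1 j hj u (hsub hu)]
      abel
    have h6 := hTid _ (haj j hj) _ h3 hcon
    have h7 : u + e j u = u := by
      apply hTinj ((j : ℤ) - l)
      rw [h6, h5]
    rw [h7] at hcon
    exact hcon hu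
  have hcinj : Function.Injective (cmp e (2 * l + 1)) := by
    have hd : Differentiable ℝ (fun u => cmp e (2 * l + 1) u - u) :=
      hE1.differentiable (by norm_num)
    have hlip : LipschitzWith (1 / 2) (fun u => cmp e (2 * l + 1) u - u) := by
      apply lipschitzWith_of_nnnorm_fderiv_le hd
      intro u
      have h1 := hE3 u 1 (by norm_num)
      rw [norm_iteratedFDeriv_one] at h1
      have h2 := h1.trans (min_le_right _ _)
      rw [← NNReal.coe_le_coe]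
      simpa using h2
    intro u v huv
    have h1 := hlip.dist_le_mul u v
    have h2 : (cmp e (2 * l + 1) u - u) - (cmp e (2 * l + 1) v - v) = v - u := by
      rw [huv]
      abel
    rw [dist_eq_norm, h2, ← dist_eq_norm, dist_comm v u] at h1
    have h3 : ((1 / 2 : NNReal) : ℝ) = 1 / 2 := by norm_num
    rw [h3] at h1
    have h4 : dist u v = 0 := by
      have := dist_nonneg (x := u) (y := v)
      linarith
    exact dist_eq_zero.1 h4
  set Gl : X → X := fun y => (P ^ (l : ℤ)) (Gt ((P ^ (-(l : ℤ))) y)) with hGl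
  have hGlinj : Function.Injective Gl := by
    intro u v h
    exact (P ^ (-(l : ℤ))).injective (hGinj ((P ^ (l : ℤ)).injective h))
  have hGlit : ∀ (m : ℕ) y, Gl^[m] ((P ^ (l : ℤ)) y) = (P ^ (l : ℤ)) (Gt^[m] y) := by
    intro m
    induction m with
    | zero => intro y; rfl
    | succ m ih =>
      intro y
      rw [Function.iterate_succ_apply, Function.iterate_succ_apply, ← ih]
      congr 1
      simp only [hGl]
      rw [perm_neg]
  obtain ⟨u, hu, n', hn', hfin⟩ := hcb X (P : X → X) Gl (Metric.ball x ρ₁) (2 * l) e P.injective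
    hGlinj (fun j h1 h2 u hu hj => hdis j h1 h2 u (hsub hu) (hsub hj)) hball
    (by
      intro j hj u hu
      have h1 : u + e j u = T ((j : ℤ) - l) u := by
        rw [he1 j hj u (hsub hu)]
        abel
      rw [h1, ← perm_nat, ← perm_nat]
      simp only [hGl]
      rw [← perm_add, show -(l : ℤ) + (j : ℤ) = (j : ℤ) - l by ring, ← hTe, ← perm_add]
      congr 2
      push_cast
      ring)
    (by
      intro y hy
      simp only [hGl]
      rw [hGoff, ← perm_succ, ← perm_add,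
        show (l : ℤ) + (-(l : ℤ) + 1) = 1 by ring, perm_one]
      intro a ha u hu hau
      rw [abs_le] at ha
      refine hy (a + l).toNat (by omega) u hu ?_
      rw [← perm_nat, Int.toNat_of_nonneg (by omega), add_comm, perm_add, ← hau, perm_neg'])
    (by
      intro v hv
      rw [mem_ball_iff_norm, not_lt] at hv
      exact hE2 v hv)
    hcinj ((P ^ (l : ℤ)) ((P ^ a₀) u₀)) n₀
    (by
      have ha := ha₀
      rw [abs_le] at ha
      refine ⟨(a₀ + l).toNat, by omega, u₀, hu₀, ?_⟩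
      rw [← perm_nat, Int.toNat_of_nonneg (by omega), add_comm, perm_add])
    hn₀
    (by rw [hGlit, hper])
  refine hcl (fun u => cmp e (2 * l + 1) u - u) hE1 ?_ ?_ u ?_ n' hn' ?_
  · intro u hu
    rw [hE2 u (hρ₁ρ.trans hu), sub_self]
  · intro u i hi
    exact (hE3 u i hi).trans (min_le_left _ _)
  · rw [mem_ball_iff_norm] at hu
    exact hu.trans_le hρ₁ρ
  · have h1 : (fun v => P (v + (cmp e (2 * l + 1) v - v))) =
        fun v => P (cmp e (2 * l + 1) v) := by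
      funext v
      congr 1
      abel
    rw [h1]
    exact hfin


/-! ## the manifold side -/

theorem setup (k : ℕ) (Fh : Tot k ≃ₜ Tot k) (Ft : Tot k → Tot k) (hFh : ContDiff ℝ ∞ Fh)
    (hFh' : ContDiff ℝ ∞ Fh.symm) (hRR : ∃ R : ℝ, ∀ u, R ≤ ‖u‖ → Fh u = u)
    (hcomm : ∀ u, Fh (iota k u) = iota k (Ft u)) (M : Type) [TopologicalSpace M] [T2Space M]
    [ChartedSpace (V (5 + k)) M] [IsManifold (𝓡 (5 + k)) ∞ M] (p : M) (B : Set M)
    (hB : B ∈ 𝓝 p) :
    ∃ (F : DiffM (5 + k) M ⊤) (c : OpenPartialHomeomorph M (V (5 + k)))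
      (L : Tot k ≃L[ℝ] V (5 + k)), c ∈ IsManifold.maximalAtlas (𝓡 (5 + k)) ∞ M ∧
      c.target = univ ∧ c.source ⊆ B ∧ (∀ y ∉ B, F y = y) ∧
      ∀ u, F (c.symm (L u)) = c.symm (L (Ft u)) := by
  obtain ⟨R, hR⟩ := hRR
  obtain ⟨L⟩ := exists_lin k
  obtain ⟨φ, hφ, hφt, hφs⟩ := exists_chart (n := 5 + k) p B hB
  obtain ⟨c, hc, hct, hcs, hcsymm⟩ := exists_unc k φ hφ hφt L
  have hφt' : ∀ v, v ∈ φ.target := fun v => by rw [hφt]; trivial
  have hct' : ∀ v, v ∈ c.target := fun v => by rw [hct]; trivial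
  set Fn : V (5 + k) ≃ₜ V (5 + k) := (L.symm.toHomeomorph.trans Fh).trans L.toHomeomorph with hFnd
  have hFn : ∀ v, Fn v = L (Fh (L.symm v)) := fun v => rfl
  have hFnsm : ContDiff ℝ ∞ Fn := L.contDiff.comp (hFh.comp L.symm.contDiff)
  have hFnsm' : ContDiff ℝ ∞ Fn.symm := L.contDiff.comp (hFh'.comp L.symm.contDiff)
  set A : Set (V (5 + k)) := L '' Metric.closedBall 0 R with hAd
  have hA : IsCompact A := (isCompact_closedBall 0 R).image L.continuous
  have hAc : IsClosed (φ.symm '' A) :=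
    (hA.image_of_continuousOn (φ.continuousOn_symm.mono (fun v _ => hφt' v))).isClosed
  have hid : ∀ v ∉ A, Fn v = v := by
    intro v hv
    have h1 : R ≤ ‖L.symm v‖ := by
      by_contra h
      exact hv ⟨L.symm v, by simpa using (not_le.mp h).le, L.apply_symm_apply v⟩
    rw [hFn, hR _ h1, L.apply_symm_apply]
  obtain ⟨F, hF1, hF2⟩ := transplant hφ (fun v _ => hφt' v) hAc Fn hFnsm hFnsm' hid
  refine ⟨F, c, L, hc, hct, fun y hy => hφs (hcs hy), ?_, ?_⟩
  · intro y hy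
    apply hF2
    rintro ⟨v, hv, rfl⟩
    exact hy (hφs (φ.map_target (hφt' v)))
  · intro u
    rw [hcsymm, hcsymm, hF1 _ (φ.map_target (hφt' _)), φ.right_inv (hφt' _), hFn,
      L.symm_apply_apply, hcomm]

section mani

variable {k : ℕ} {M : Type} [TopologicalSpace M] [ChartedSpace (V (5 + k)) M]

/-- the parametrization of the source of `c` -/
noncomputable def jm (c : OpenPartialHomeomorph M (V (5 + k))) (L : Tot k ≃L[ℝ] V (5 + k))
    (u : Tot k) : M := c.symm (L u)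

variable {c : OpenPartialHomeomorph M (V (5 + k))} {L : Tot k ≃L[ℝ] V (5 + k)}

theorem jm_source (hct : c.target = univ) (u : Tot k) : jm c L u ∈ c.source :=
  c.map_target (by rw [hct]; trivial)

theorem c_jm (hct : c.target = univ) (u : Tot k) : c (jm c L u) = L u :=
  c.right_inv (by rw [hct]; trivial)

theorem jm_inj (hct : c.target = univ) : Function.Injective (jm c L) := fun u u' h =>
  L.injective (by rw [← c_jm hct, ← c_jm hct, h])

theorem jm_c {y : M} (hy : y ∈ c.source) : jm c L (L.symm (c y)) = y := by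
  show c.symm (L (L.symm (c y))) = y
  rw [L.apply_symm_apply, c.left_inv hy]

theorem jm_cont (hct : c.target = univ) : Continuous (jm c L) := by
  have h1 : Continuous c.symm := by
    rw [← continuousOn_univ, ← hct]; exact c.continuousOn_symm
  exact h1.comp L.continuous

theorem jm_open (hct : c.target = univ) (s : Set (Tot k)) (hs : IsOpen s) :
    IsOpen (jm c L '' s) := by
  have h1 : jm c L '' s = c.symm '' (L '' s) := by
    rw [← image_comp]; rfl
  rw [h1]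
  exact c.symm.isOpen_image_of_subset_source (L.toHomeomorph.isOpenMap s hs)
    (fun v _ => by
      show v ∈ c.target
      rw [hct]
      trivial)

theorem HH_jm (F : DiffM (5 + k) M ⊤) (P : Equiv.Perm (Tot k))
    (hjF : ∀ u, F (jm c L u) = jm c L (P u)) (a : ℤ) (u : Tot k) :
    HH F a (jm c L u) = jm c L ((P ^ a) u) := by
  have hnat : ∀ (i : ℕ) u, HH F (i : ℤ) (jm c L u) = jm c L ((P ^ (i : ℤ)) u) := by
    intro i
    induction i with
    | zero =>
      intro u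
      rw [Nat.cast_zero, HH_zero, zpow_zero]
      rfl
    | succ i ih =>
      intro u
      rw [Nat.cast_succ, HH_succ, ih, hjF, perm_succ]
  cases a with
  | ofNat i => exact hnat i u
  | negSucc i =>
    have h1 : Int.negSucc i = -((i + 1 : ℕ) : ℤ) := Int.negSucc_eq i
    rw [h1]
    have h2 := hnat (i + 1) ((P ^ (-((i + 1 : ℕ) : ℤ))) u)
    rw [perm_neg'] at h2
    rw [← h2, ← HH_add, neg_add_cancel, HH_zero]

theorem mani [IsManifold (𝓡 (5 + k)) ∞ M] (hcm : S_COMP) (hcb : S_COMB)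
    (F : DiffM (5 + k) M ⊤) (hc : c ∈ IsManifold.maximalAtlas (𝓡 (5 + k)) ∞ M)
    (hct : c.target = univ) (P : Equiv.Perm (Tot k)) (hjF : ∀ u, F (jm c L u) = jm c L (P u))
    (x : Tot k) (ρ δ : ℝ) (hδ : 0 < δ)
    (hcl : ∀ e : Tot k → Tot k, ContDiff ℝ 2 e → (∀ u, ρ ≤ ‖u - x‖ → e u = 0) →
      (∀ u (i : ℕ), i ≤ 2 → ‖iteratedFDeriv ℝ i e u‖ ≤ δ) →
      ∀ u, ‖u - x‖ < ρ → ∀ n : ℕ, 1 ≤ n → (fun v => P (v + e v))^[n] u ≠ u)
    (l : ℕ) (ρ₁ : ℝ) (hρ₁ : 0 < ρ₁) (hρ₁ρ : ρ₁ ≤ ρ)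
    (hdis : ∀ i, 1 ≤ i → i ≤ 2 * l → ∀ u ∈ Metric.ball x (2 * ρ₁),
      (P : Tot k → Tot k)^[i] u ∉ Metric.ball x (2 * ρ₁))
    (W : Set M)
    (hW : ∀ y, y ∈ W ↔ ∃ a : ℤ, |a| ≤ l ∧ ∃ u ∈ Metric.ball x ρ₁, y = jm c L ((P ^ a) u))
    (r : ℕ∞) (Fr : DiffM (5 + k) M r) (hr : 2 ≤ r) (hFr : ∀ y, Fr y = F y) :
    ∃ O : Set (DiffM (5 + k) M r), IsOpen[strongTop (5 + k) M r] O ∧ Fr ∈ O ∧
      ∀ G ∈ O, (∀ y ∉ W, G y = F y) → ∀ y ∈ W, ¬ IsPer G y := by
  obtain ⟨δ₃, hδ₃, hcore⟩ := core hcm hcb P x ρ δ hδ hcl l ρ₁ hρ₁ hρ₁ρ hdis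
  set ε' : ℝ := δ₃ / ((1 + ‖(L.symm : V (5 + k) →L[ℝ] Tot k)‖) *
    (1 + ‖(L : Tot k →L[ℝ] V (5 + k))‖) ^ 2) with hε'
  have hden : 0 < (1 + ‖(L.symm : V (5 + k) →L[ℝ] Tot k)‖) *
    (1 + ‖(L : Tot k →L[ℝ] V (5 + k))‖) ^ 2 := by positivity
  have hε'0 : 0 < ε' := div_pos hδ₃ hden
  have hjs : ∀ u, jm c L u ∈ c.source := jm_source hct
  have hH := HH_jm F P hjF
  have hchs : ∀ (a : ℤ) u, HH F a (jm c L u) ∈ (ch F c a).source := by
    intro a u
    rw [ch_source, HH_symm, ← HH_add, neg_add_cancel, HH_zero]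
    exact hjs u
  have hchv : ∀ (a : ℤ) u, ch F c a (HH F a (jm c L u)) = L u := by
    intro a u
    rw [ch_apply, HH_symm, ← HH_add, neg_add_cancel, HH_zero, c_jm hct]
  have hjall : ∀ (a : ℤ) v, jm c L v ∈ (ch F c a).source := by
    intro a v
    rw [ch_source, HH_symm, hH]
    exact hjs _
  let D : StrongData (5 + k) M :=
    { ι := Fin (2 * l + 1)
      φ := fun i => ch F c ((i : ℕ) - (l : ℤ))
      ψ := fun i => ch F c ((i : ℕ) - (l : ℤ) + 1)
      K := fun i => HH F ((i : ℕ) - (l : ℤ)) '' (jm c L '' Metric.closedBall x ρ₁)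
      ε := fun _ => ε'
      φ_mem := fun _ => ch_mem F hc _
      ψ_mem := fun _ => ch_mem F hc _
      lf := locallyFinite_of_finite _
      compact := fun i => ((isCompact_closedBall _ _).image (jm_cont hct)).image
        (HH F ((i : ℕ) - (l : ℤ))).continuous
      sub := by
        rintro i _ ⟨_, ⟨u, _, rfl⟩, rfl⟩
        exact hchs _ u
      pos := fun _ => hε'0 }
  refine ⟨strongNbhd D 2 Fr, TopologicalSpace.GenerateOpen.basic _ ⟨D, 2, Fr, ?_, ?_, rfl⟩,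
    ?_, ?_⟩
  · exact_mod_cast hr
  · rintro i _ ⟨_, ⟨u, _, rfl⟩, rfl⟩
    show Fr _ ∈ (ch F c ((i : ℕ) - (l : ℤ) + 1)).source
    rw [hFr, ← HH_succ]
    exact hchs _ u
  · rintro i _ ⟨_, ⟨u, _, rfl⟩, rfl⟩
    refine ⟨?_, ?_⟩
    · show Fr _ ∈ (ch F c ((i : ℕ) - (l : ℤ) + 1)).source
      rw [hFr, ← HH_succ]
      exact hchs _ u
    · intro m _
      rw [sub_self, norm_zero]
      exact hε'0
  rintro G hG hGU y hy ⟨n, hn, hper⟩
  obtain ⟨a₀, ha₀, u₀, hu₀, rfl⟩ := (hW _).1 hy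
  -- index of an integer
  have hidx : ∀ a : ℤ, |a| ≤ l → ∃ i : Fin (2 * l + 1), ((i : ℕ) : ℤ) - (l : ℤ) = a := by
    intro a ha
    rw [abs_le] at ha
    refine ⟨⟨(a + l).toNat, by omega⟩, ?_⟩
    show (((a + l).toNat : ℕ) : ℤ) - (l : ℤ) = a
    omega
  have hGk : ∀ a : ℤ, |a| ≤ l → ∀ u ∈ Metric.closedBall x ρ₁,
      G (HH F a (jm c L u)) ∈ (ch F c (a + 1)).source ∧ ∀ m : ℕ, m ≤ 2 →
      ‖iteratedFDeriv ℝ m (ch F c (a + 1) ∘ G ∘ (ch F c a).symm) (ch F c a (HH F a (jm c L u)))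
        - iteratedFDeriv ℝ m (ch F c (a + 1) ∘ Fr ∘ (ch F c a).symm)
          (ch F c a (HH F a (jm c L u)))‖ < ε' := by
    intro a ha u hu
    obtain ⟨i, hi⟩ := hidx a ha
    have h1 := hG i (HH F a (jm c L u)) ⟨_, ⟨u, hu, rfl⟩, by rw [hi]⟩
    have h2 : D.ψ i = ch F c (a + 1) := by
      show ch F c ((i : ℕ) - (l : ℤ) + 1) = _
      rw [hi]
    have h3 : D.φ i = ch F c a := by
      show ch F c ((i : ℕ) - (l : ℤ)) = _
      rw [hi]
    rw [h2, h3] at h1
    exact h1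
  have hGs : ∀ u, G (jm c L u) ∈ c.source := by
    intro u
    by_cases h : jm c L u ∈ W
    · obtain ⟨a, ha, v, hv, hav⟩ := (hW _).1 h
      have h1 := (hGk a ha v (Metric.ball_subset_closedBall hv)).1
      rw [hH, ← hav, ch_source] at h1
      have h2 : G (jm c L u) = HH F (a + 1) (jm c L (L.symm (c ((HH F (a + 1)).symm
          (G (jm c L u)))))) := by
        rw [jm_c h1, Homeomorph.apply_symm_apply]
      rw [h2, hH]
      exact hjs _
    · rw [hGU _ h, hjF]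
      exact hjs _
  set Gt : Tot k → Tot k := fun u => L.symm (c (G (jm c L u))) with hGt
  have hjG : ∀ u, jm c L (Gt u) = G (jm c L u) := fun u => jm_c (hGs u)
  have hGinj : Function.Injective Gt := by
    intro u u' h
    apply jm_inj hct (L := L)
    apply G.injective
    show G (jm c L u) = G (jm c L u')
    rw [← hjG, ← hjG, h]
  -- the maps in the charts
  have hTch : ∀ (a : ℤ) u, (P ^ (-(a + 1))) (Gt ((P ^ a) u)) =
      L.symm ((ch F c (a + 1) ∘ G ∘ (ch F c a).symm) (L u)) := by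
    intro a u
    have h1 : (ch F c (a + 1) ∘ G ∘ (ch F c a).symm) (L u) =
        c ((HH F (a + 1)).symm (G (HH F a (jm c L u)))) := rfl
    rw [h1, hH, ← hjG, HH_symm, hH, c_jm hct, L.symm_apply_apply]
  have hgC : ∀ a : ℤ, ContDiff ℝ 2 (ch F c (a + 1) ∘ G ∘ (ch F c a).symm) := by
    intro a
    apply comp_contDiff2 (ch_mem F hc a) (ch_target F c hct a) (ch_mem F hc (a + 1)) hr
    intro v
    have h1 : (ch F c a).symm v = HH F a (jm c L (L.symm v)) := by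
      show HH F a (c.symm v) = HH F a (c.symm (L (L.symm v)))
      rw [L.apply_symm_apply]
    rw [h1, hH, ← hjG]
    exact hjall _ _
  have hFid : ∀ a : ℤ, ch F c (a + 1) ∘ Fr ∘ (ch F c a).symm = id := by
    intro a
    funext v
    show c ((HH F (a + 1)).symm (Fr (HH F a (c.symm v)))) = v
    rw [hFr, ← HH_succ, Homeomorph.symm_apply_apply]
    exact c.right_inv (by rw [hct]; trivial)
  refine hcore Gt hGinj ?_ ?_ ?_ a₀ ha₀ u₀ hu₀ n hn ?_
  · intro v hv
    apply jm_inj hct (L := L)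
    rw [hjG, hGU, hjF]
    intro h
    obtain ⟨a, ha, w, hw, haw⟩ := (hW _).1 h
    exact hv a ha w hw (jm_inj hct haw)
  · intro a _
    have h1 : (fun u => (P ^ (-(a + 1))) (Gt ((P ^ a) u))) =
        fun u => L.symm ((ch F c (a + 1) ∘ G ∘ (ch F c a).symm) (L u)) := funext (hTch a)
    rw [h1]
    exact L.symm.contDiff.comp ((hgC a).comp L.contDiff)
  · intro a ha u hu i hi
    set hd : V (5 + k) → V (5 + k) := fun v =>
      (ch F c (a + 1) ∘ G ∘ (ch F c a).symm) v - id v with hhd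
    have hhd2 : ContDiff ℝ 2 hd := (hgC a).sub contDiff_id
    have he : (fun u => (P ^ (-(a + 1))) (Gt ((P ^ a) u)) - u) = fun u => L.symm (hd (L u)) := by
      funext u
      rw [hTch]
      simp only [hhd, map_sub, id, L.symm_apply_apply]
    rw [he]
    refine (lin_bound L hd hhd2 u i hi).trans ?_
    have h2 := (hGk a ha u hu).2 i hi
    rw [hchv, hFid] at h2
    have hi' : (i : WithTop ℕ∞) ≤ 2 := by exact_mod_cast hi
    have h3 : iteratedFDeriv ℝ i hd (L u) =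
        iteratedFDeriv ℝ i (ch F c (a + 1) ∘ G ∘ (ch F c a).symm) (L u) -
        iteratedFDeriv ℝ i (id : V (5 + k) → V (5 + k)) (L u) :=
      iteratedFDeriv_sub_apply (((hgC a).of_le hi').contDiffAt) (contDiff_id.contDiffAt)
    rw [h3]
    calc ‖(L.symm : V (5 + k) →L[ℝ] Tot k)‖ *
        (‖iteratedFDeriv ℝ i (ch F c (a + 1) ∘ G ∘ (ch F c a).symm) (L u) -
        iteratedFDeriv ℝ i (id : V (5 + k) → V (5 + k)) (L u)‖ *
          (1 + ‖(L : Tot k →L[ℝ] V (5 + k))‖) ^ 2)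
        ≤ (1 + ‖(L.symm : V (5 + k) →L[ℝ] Tot k)‖) *
          (ε' * (1 + ‖(L : Tot k →L[ℝ] V (5 + k))‖) ^ 2) := by
          gcongr
          linarith
      _ = δ₃ := by
          rw [hε']
          field_simp
  · apply jm_inj hct (L := L)
    have hit : ∀ (m : ℕ) u, (G : M → M)^[m] (jm c L u) = jm c L (Gt^[m] u) := by
      intro m
      induction m with
      | zero => intro u; rfl
      | succ m ih =>
        intro u
        rw [Function.iterate_succ_apply, ← hjG, ih, Function.iterate_succ_apply]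
    rw [← hit, hper]

end mani

theorem main (hcm : S_COMP) (hcb : S_COMB) : S_MAN2 := by
  intro k Fh Ft ρ δ hFh hFh' hRR hcomm hbij hρ hδ hrec hcl M _ _ _ _ p B hB
  obtain ⟨F, c, L, hc, hct, hcB, hFB, hF⟩ := setup k Fh Ft hFh hFh' hRR hcomm M p B hB
  set P : Equiv.Perm (Tot k) := Equiv.ofBijective Ft hbij with hP
  have hPFt : ∀ u, P u = Ft u := fun u => rfl
  have hPFt' : (P : Tot k → Tot k) = Ft := rfl
  have hjF : ∀ u, F (jm c L u) = jm c L (P u) := hF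
  have hjs : ∀ u, jm c L u ∈ c.source := jm_source hct
  have hH := HH_jm F P hjF
  have hFtc : Continuous Ft := by
    have h1 : Ft = fun u => L.symm (c (F (jm c L u))) := by
      funext u
      rw [hjF, c_jm hct, L.symm_apply_apply]
      rfl
    rw [h1]
    have h2 : Continuous (fun u => F (jm c L u)) := F.continuous.comp (jm_cont hct)
    have h3 : Continuous (fun u => c (F (jm c L u))) := by
      rw [continuous_iff_continuousAt]
      intro u
      have h4 : F (jm c L u) ∈ c.source := by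
        rw [hjF]
        exact hjs _
      exact ContinuousAt.comp (g := c) (c.continuousAt h4) h2.continuousAt
    exact L.symm.continuous.comp h3
  have hcl' : ∀ e : Tot k → Tot k, ContDiff ℝ 2 e → (∀ u, ρ ≤ ‖u - x₀ k‖ → e u = 0) →
      (∀ u (i : ℕ), i ≤ 2 → ‖iteratedFDeriv ℝ i e u‖ ≤ δ) →
      ∀ u, ‖u - x₀ k‖ < ρ → ∀ n : ℕ, 1 ≤ n → (fun v => P (v + e v))^[n] u ≠ u := hcl
  have hnp : ∀ i, 1 ≤ i → Ft^[i] (x₀ k) ≠ x₀ k := by
    intro i hi
    have h1 := hcl (fun _ => 0) contDiff_const (fun _ _ => rfl) (by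
      intro u i _
      have h3 : iteratedFDeriv ℝ i (fun _ : Tot k => (0 : Tot k)) u = 0 := by
        simp
      rw [h3, norm_zero]
      exact hδ.le) (x₀ k) (by rw [sub_self, norm_zero]; exact hρ) i hi
    simpa using h1
  refine ⟨F, jm c L (x₀ k), hcB (hjs _), hFB, ?_, ?_⟩
  · intro hemb
    obtain ⟨W, hW, hW'⟩ := hemb.isInducing.isOpen_iff.mp (isOpen_discrete ({0} : Set ℤ))
    have h0 : jm c L (x₀ k) ∈ W := by
      have : (0 : ℤ) ∈ (fun m : ℤ => (F.toHomeomorph ^ m) (jm c L (x₀ k))) ⁻¹' W := by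
        rw [hW']; rfl
      simpa using this
    have h1 : ∀ᶠ v in 𝓝 (x₀ k), jm c L v ∈ W :=
      (jm_cont hct).continuousAt.eventually (hW.mem_nhds h0)
    obtain ⟨ε, hε, h2⟩ := Metric.eventually_nhds_iff.1 h1
    obtain ⟨n, hn1, hn2⟩ := hrec ε hε
    have h3 : jm c L (Ft^[n] (x₀ k)) ∈ W := h2 (by rw [dist_eq_norm]; exact hn2)
    have h4 : (n : ℤ) ∈ (fun m : ℤ => (F.toHomeomorph ^ m) (jm c L (x₀ k))) ⁻¹' W := by
      show HH F (n : ℤ) (jm c L (x₀ k)) ∈ W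
      rw [hH, perm_nat]
      exact h3
    rw [hW'] at h4
    have : (n : ℤ) = 0 := h4
    omega
  intro l
  obtain ⟨ρ₁, hρ₁, hρ₁ρ, hdis⟩ := exists_rho hFtc (x₀ k) (2 * l) (fun i h1 _ => hnp i h1) hρ
  have hWmem : ∀ y, (y ∈ ⋃ (a : ℤ) (_ : |a| ≤ l), HH F a '' (jm c L '' Metric.ball (x₀ k) ρ₁)) ↔
      ∃ a : ℤ, |a| ≤ l ∧ ∃ u ∈ Metric.ball (x₀ k) ρ₁, y = jm c L ((P ^ a) u) := by
    intro y
    rw [mem_iUnion]
    constructor
    · rintro ⟨a, ha⟩
      rw [mem_iUnion] at ha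
      obtain ⟨ha, _, ⟨u, hu, rfl⟩, rfl⟩ := ha
      exact ⟨a, ha, u, hu, hH a u⟩
    · rintro ⟨a, ha, u, hu, rfl⟩
      refine ⟨a, ?_⟩
      rw [mem_iUnion]
      exact ⟨ha, _, ⟨u, hu, rfl⟩, hH a u⟩
  refine ⟨⋃ (a : ℤ) (_ : |a| ≤ l), HH F a '' (jm c L '' Metric.ball (x₀ k) ρ₁), ?_, ?_, ?_, ?_⟩
  · exact isOpen_iUnion fun a => isOpen_iUnion fun _ =>
      (HH F a).isOpenMap _ (jm_open hct _ Metric.isOpen_ball)
  · intro y hy
    obtain ⟨a, _, u, _, rfl⟩ := (hWmem y).1 hy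
    exact hcB (hjs _)
  · intro j hj
    rw [hWmem]
    exact ⟨j, hj, x₀ k, Metric.mem_ball_self hρ₁, hH j (x₀ k)⟩
  · intro r Fr hr hFr
    exact mani hcm hcb F hc hct P hjF (x₀ k) ρ δ hδ hcl' l ρ₁ hρ₁ hρ₁ρ hdis _ hWmem r Fr hr hFr

end Pool.Agent.H247.LC.Man2
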