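import Pool.Agent.H247.LC.Iface3
import Pool.Agent.H247.LC.Man2

/-!
# Project LC, leaf Man2A: transplantation, perturbations near finite orbit segments, class `C^{1+α}`
-/

set_option autoImplicit false
set_option linter.unusedSectionVars false

open scoped Manifold ContDiff Topology
open Set

namespace Pool.Agent.H247.LC.Man2A

open Pool.Agent.H718R2 (E)
open Pool.Agent.H718R2.G (V DiffM StrongData strongNbhd strongTop IsRec IsPer transplant)
open Pool.Agent.Y640.CLA (SmA pw pw_nonneg pw_mono pw_scale)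
open Pool.Agent.H247.LC.Man2

/-- a point of the sphere on a segment -/
theorem exists_mid {X : Type} [NormedAddCommGroup X] [NormedSpace ℝ X] {x z z' : X} {ρ : ℝ}
    (hz : ‖z - x‖ ≤ ρ) (hz' : ρ ≤ ‖z' - x‖) :
    ∃ w, ‖w - x‖ = ρ ∧ ‖z - w‖ ≤ ‖z - z'‖ := by
  have hc : ContinuousOn (fun t : ℝ => ‖(z + t • (z' - z)) - x‖) (Icc 0 1) := by fun_prop
  have h0 : ‖(z + (0 : ℝ) • (z' - z)) - x‖ = ‖z - x‖ := by simp
  have h1 : ‖(z + (1 : ℝ) • (z' - z)) - x‖ = ‖z' - x‖ := by simp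
  have h2 := intermediate_value_Icc (zero_le_one (α := ℝ)) hc
  simp only [h0, h1] at h2
  obtain ⟨t, ht, ht'⟩ := h2 ⟨hz, hz'⟩
  refine ⟨z + t • (z' - z), ht', ?_⟩
  have h3 : z - (z + t • (z' - z)) = t • (z - z') := by
    rw [smul_sub, smul_sub]
    abel
  rw [h3, norm_smul, Real.norm_eq_abs, abs_of_nonneg ht.1]
  exact mul_le_of_le_one_left (norm_nonneg _) ht.2

/-- a `C¹` map which vanishes off a ball, and which is small and Hölder in the closed ball, is small -/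
theorem smA_of_ball {X : Type} [NormedAddCommGroup X] [NormedSpace ℝ X] {α δ ρ : ℝ} (h0 : 0 < α)
    {x : X} (hδ : 0 < δ) (hρ : 0 < ρ) {e : X → X} (he : ContDiff ℝ 1 e)
    (he0 : ∀ u, ρ ≤ ‖u - x‖ → e u = 0)
    (hb : ∀ u, ‖u - x‖ ≤ ρ → ‖e u‖ ≤ δ ∧ ‖fderiv ℝ e u‖ ≤ δ)
    (hh : ∀ u, ‖u - x‖ ≤ ρ → ∀ u', ‖u' - x‖ ≤ ρ →
      ‖fderiv ℝ e u - fderiv ℝ e u'‖ ≤ δ * pw α ‖u - u'‖) : SmA α (fun _ => δ) e := by
  have hcont : Continuous (fderiv ℝ e) := he.continuous_fderiv one_ne_zero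
  have hz0 : ∀ u, ρ ≤ ‖u - x‖ → fderiv ℝ e u = 0 := by
    have hcl : IsClosed {u : X | fderiv ℝ e u = 0} := isClosed_eq hcont continuous_const
    have h1 : (Metric.closedBall x ρ)ᶜ ⊆ {u : X | fderiv ℝ e u = 0} := by
      intro u hu
      have h2 : e =ᶠ[𝓝 u] fun _ => 0 := by
        filter_upwards [Metric.isClosed_closedBall.isOpen_compl.mem_nhds hu] with v hv
        rw [mem_compl_iff, mem_closedBall_iff_norm, not_le] at hv
        exact he0 v hv.le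
      show fderiv ℝ e u = 0
      rw [h2.fderiv_eq]
      simp
    intro u hu
    have h3 : u ∈ closure (Metric.closedBall x ρ)ᶜ := by
      rw [closure_compl, interior_closedBall x hρ.ne', mem_compl_iff, mem_ball_iff_norm, not_lt]
      exact hu
    exact closure_minimal h1 hcl h3
  refine ⟨he.differentiable one_ne_zero, fun u => ?_, fun u => ?_, fun z z' _ => ?_⟩
  · by_cases hu : ‖u - x‖ ≤ ρ
    · exact (hb u hu).1
    · rw [he0 u (not_le.1 hu).le, norm_zero]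
      exact hδ.le
  · by_cases hu : ‖u - x‖ ≤ ρ
    · exact (hb u hu).2
    · rw [hz0 u (not_le.1 hu).le, norm_zero]
      exact hδ.le
  · have key : ∀ z z' : X, ‖z - x‖ ≤ ρ → ρ ≤ ‖z' - x‖ →
        ‖fderiv ℝ e z - fderiv ℝ e z'‖ ≤ δ * pw α ‖z - z'‖ := by
      intro z z' hz hz'
      obtain ⟨w, hw, hzw⟩ := exists_mid hz hz'
      rw [hz0 z' hz', ← hz0 w hw.ge]
      refine (hh z hz w hw.le).trans ?_
      exact mul_le_mul_of_nonneg_left (pw_mono h0 (norm_nonneg _) hzw) hδ.le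
    rcases le_total ‖z - x‖ ρ with hz | hz <;> rcases le_total ‖z' - x‖ ρ with hz' | hz'
    · exact hh z hz z' hz'
    · exact key z z' hz hz'
    · have h1 := key z' z hz' hz
      rwa [norm_sub_rev, norm_sub_rev z' z] at h1
    · rw [hz0 z hz, hz0 z' hz', sub_self, norm_zero]
      exact mul_nonneg hδ.le (pw_nonneg (norm_nonneg _))

theorem coreA {α : ℝ} (h0 : 0 < α) (hcm : S_COMPA α) (hcb : S_COMB) {X : Type}
    [NormedAddCommGroup X] [NormedSpace ℝ X]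
    (P : Equiv.Perm X) (x : X) (ρ δ : ℝ) (hδ : 0 < δ)
    (hcl : ∀ e : X → X, SmA α (fun _ => δ) e → (∀ u, ρ ≤ ‖u - x‖ → e u = 0) →
      ∀ u, ‖u - x‖ < ρ → ∀ n : ℕ, 1 ≤ n → (fun v => P (v + e v))^[n] u ≠ u)
    (l : ℕ) (ρ₁ : ℝ) (hρ₁ : 0 < ρ₁) (hρ₁ρ : ρ₁ ≤ ρ)
    (hdis : ∀ i, 1 ≤ i → i ≤ 2 * l → ∀ u ∈ Metric.ball x (2 * ρ₁),
      (P : X → X)^[i] u ∉ Metric.ball x (2 * ρ₁)) :
    ∃ δ' : ℝ, 0 < δ' ∧ ∀ Gt : X → X, Function.Injective Gt →
      (∀ y, (∀ a : ℤ, |a| ≤ l → ∀ u ∈ Metric.ball x ρ₁, y ≠ (P ^ a) u) → Gt y = P y) →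
      (∀ a : ℤ, |a| ≤ l → ContDiff ℝ 1 (fun u => (P ^ (-(a + 1))) (Gt ((P ^ a) u)))) →
      (∀ a : ℤ, |a| ≤ l → ∀ u ∈ Metric.closedBall x ρ₁,
        ‖(P ^ (-(a + 1))) (Gt ((P ^ a) u)) - u‖ ≤ δ' ∧
        ‖fderiv ℝ (fun u => (P ^ (-(a + 1))) (Gt ((P ^ a) u)) - u) u‖ ≤ δ') →
      (∀ a : ℤ, |a| ≤ l → ∀ u ∈ Metric.closedBall x ρ₁, ∀ u' ∈ Metric.closedBall x ρ₁,
        ‖fderiv ℝ (fun u => (P ^ (-(a + 1))) (Gt ((P ^ a) u)) - u) u -
          fderiv ℝ (fun u => (P ^ (-(a + 1))) (Gt ((P ^ a) u)) - u) u'‖ ≤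
            δ' * pw α ‖u - u'‖) →
      ∀ a : ℤ, |a| ≤ l → ∀ u ∈ Metric.ball x ρ₁, ∀ n : ℕ, 1 ≤ n →
        Gt^[n] ((P ^ a) u) ≠ (P ^ a) u := by
  classical
  obtain ⟨δ₂, hδ₂, hcomp⟩ := hcm X x ρ₁ (min δ (1 / 2)) (2 * l + 1) hρ₁ (by positivity)
  refine ⟨min δ₂ (ρ₁ / 2), by positivity, ?_⟩
  intro Gt hGinj hGoff hGC hGb hGh a₀ ha₀ u₀ hu₀ n₀ hn₀ hper
  set T : ℤ → X → X := fun a u => (P ^ (-(a + 1))) (Gt ((P ^ a) u)) with hT
  have hTe : ∀ a u, (P ^ (a + 1)) (T a u) = Gt ((P ^ a) u) := by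
    intro a u
    simp only [hT]
    rw [perm_neg']
  have hTinj : ∀ a, Function.Injective (T a) := by
    intro a u v h
    exact (P ^ a).injective (hGinj ((P ^ (-(a + 1))).injective h))
  have hsub : Metric.ball x ρ₁ ⊆ Metric.ball x (2 * ρ₁) :=
    Metric.ball_subset_ball (by linarith)
  have hTid : ∀ a : ℤ, |a| ≤ l → ∀ u ∈ Metric.ball x (2 * ρ₁), u ∉ Metric.ball x ρ₁ →
      T a u = u := by
    intro a ha u hu hu'
    have h1 : Gt ((P ^ a) u) = P ((P ^ a) u) := by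
      apply hGoff
      intro a' ha' u' hu'' he
      have h2 := perm_dis P _ l hdis a a' ha ha' u u' hu (hsub hu'') he
      rw [h2.2] at hu'
      exact hu' hu''
    simp only [hT]
    rw [h1, ← perm_succ, perm_neg]
  have haj : ∀ j : ℕ, j ≤ 2 * l → |(j : ℤ) - l| ≤ l := by
    intro j hj
    rw [abs_le]
    constructor <;> omega
  set e : ℕ → X → X := fun j u => if u ∈ Metric.ball x ρ₁ then T ((j : ℤ) - l) u - u else 0
    with he
  have he1 : ∀ j ≤ 2 * l, ∀ u ∈ Metric.ball x (2 * ρ₁), e j u = T ((j : ℤ) - l) u - u := by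
    intro j hj u hu
    simp only [he]
    by_cases h : u ∈ Metric.ball x ρ₁
    · rw [if_pos h]
    · rw [if_neg h, hTid _ (haj j hj) u hu h, sub_self]
  have he0 : ∀ j u, ρ₁ ≤ ‖u - x‖ → e j u = 0 := by
    intro j u hu
    simp only [he]
    rw [if_neg]
    rw [mem_ball_iff_norm, not_lt]
    exact hu
  have hev : ∀ j ≤ 2 * l, ∀ u ∈ Metric.ball x (2 * ρ₁),
      e j =ᶠ[𝓝 u] fun u => T ((j : ℤ) - l) u - u := by
    intro j hj u hu
    filter_upwards [Metric.isOpen_ball.mem_nhds hu] with v hv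
    exact he1 j hj v hv
  have hev0 : ∀ j, ∀ u ∉ Metric.closedBall x ρ₁, e j =ᶠ[𝓝 u] fun _ => 0 := by
    intro j u hu
    filter_upwards [Metric.isClosed_closedBall.isOpen_compl.mem_nhds hu] with v hv
    rw [mem_compl_iff, mem_closedBall_iff_norm, not_le] at hv
    exact he0 j v hv.le
  have hcb' : ∀ u, ‖u - x‖ ≤ ρ₁ → u ∈ Metric.ball x (2 * ρ₁) := by
    intro u hu
    rw [mem_ball_iff_norm]
    linarith
  have hcb2 : ∀ u, ‖u - x‖ ≤ ρ₁ → u ∈ Metric.closedBall x ρ₁ := by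
    intro u hu
    rw [mem_closedBall_iff_norm]
    exact hu
  have heC : ∀ j < 2 * l + 1, ContDiff ℝ 1 (e j) := by
    intro j hj
    rw [contDiff_iff_contDiffAt]
    intro u
    by_cases hu : u ∈ Metric.closedBall x ρ₁
    · exact (((hGC _ (haj j (by omega))).sub contDiff_id).contDiffAt).congr_of_eventuallyEq
        (hev j (by omega) u (hcb' u (mem_closedBall_iff_norm.1 hu)))
    · exact contDiffAt_const.congr_of_eventuallyEq (hev0 j u hu)
  have hδ₃ : (0 : ℝ) < min δ₂ (ρ₁ / 2) := by positivity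
  have heS : ∀ j < 2 * l + 1, SmA α (fun _ => min δ₂ (ρ₁ / 2)) (e j) := by
    intro j hj
    apply smA_of_ball h0 hδ₃ hρ₁ (heC j hj) (he0 j)
    · intro u hu
      rw [he1 j (by omega) u (hcb' u hu), (hev j (by omega) u (hcb' u hu)).fderiv_eq]
      exact hGb _ (haj j (by omega)) u (hcb2 u hu)
    · intro u hu u' hu'
      rw [(hev j (by omega) u (hcb' u hu)).fderiv_eq,
        (hev j (by omega) u' (hcb' u' hu')).fderiv_eq]
      exact hGh _ (haj j (by omega)) u (hcb2 u hu) u' (hcb2 u' hu')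
  obtain ⟨hE1, hE2⟩ := hcomp e (fun j hj => (heS j hj).mono fun _ => min_le_left _ _)
    (fun j _ => he0 j)
  have hball : ∀ j ≤ 2 * l, ∀ u ∈ Metric.ball x ρ₁, u + e j u ∈ Metric.ball x ρ₁ := by
    intro j hj u hu
    by_contra hcon
    have h1 : ‖e j u‖ ≤ ρ₁ / 2 := ((heS j (by omega)).b0 u).trans (min_le_right _ _)
    have h3 : u + e j u ∈ Metric.ball x (2 * ρ₁) := by
      rw [mem_ball_iff_norm] at hu ⊢
      have h4 : u + e j u - x = (u - x) + e j u := by abel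
      rw [h4]
      have := norm_add_le (u - x) (e j u)
      linarith
    have h5 : u + e j u = T ((j : ℤ) - l) u := by
      rw [he1 j hj u (hsub hu)]
      abel
    have h6 := hTid _ (haj j hj) _ h3 hcon
    have h7 : u + e j u = u := by
      apply hTinj ((j : ℤ) - l)
      rw [h6, h5]
    rw [h7] at hcon
    exact hcon hu
  have hcinj : Function.Injective (cmp e (2 * l + 1)) := by
    intro u v huv
    have h1 := hE1.lip (fun _ => min_le_right δ (1 / 2)) u v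
    have h2 : (cmp e (2 * l + 1) u - u) - (cmp e (2 * l + 1) v - v) = v - u := by
      rw [huv]
      abel
    rw [h2, norm_sub_rev v u] at h1
    have h4 : ‖u - v‖ = 0 := by
      have := norm_nonneg (u - v)
      linarith
    exact sub_eq_zero.1 (norm_eq_zero.1 h4)
  set Gl : X → X := fun y => (P ^ (l : ℤ)) (Gt ((P ^ (-(l : ℤ))) y)) with hGl
  have hGlinj : Function.Injective Gl := by
    intro u v h
    exact (P ^ (-(l : ℤ))).injective (hGinj ((P ^ (l : ℤ)).injective h))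
  have hGlit : ∀ (m : ℕ) y, Gl^[m] ((P ^ (l : ℤ)) y) = (P ^ (l : ℤ)) (Gt^[m] y) := by
    intro m
    induction m with
    | zero => intro y; rfl
    | succ m ih =>
      intro y
      rw [Function.iterate_succ_apply, Function.iterate_succ_apply, ← ih]
      congr 1
      simp only [hGl]
      rw [perm_neg]
  obtain ⟨u, hu, n', hn', hfin⟩ := hcb X (P : X → X) Gl (Metric.ball x ρ₁) (2 * l) e P.injective
    hGlinj (fun j h1 h2 u hu hj => hdis j h1 h2 u (hsub hu) (hsub hj)) hball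
    (by
      intro j hj u hu
      have h1 : u + e j u = T ((j : ℤ) - l) u := by
        rw [he1 j hj u (hsub hu)]
        abel
      rw [h1, ← perm_nat, ← perm_nat]
      simp only [hGl]
      rw [← perm_add, show -(l : ℤ) + (j : ℤ) = (j : ℤ) - l by ring, ← hTe, ← perm_add]
      congr 2
      push_cast
      ring)
    (by
      intro y hy
      simp only [hGl]
      rw [hGoff, ← perm_succ, ← perm_add,
        show (l : ℤ) + (-(l : ℤ) + 1) = 1 by ring, perm_one]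
      intro a ha u hu hau
      rw [abs_le] at ha
      refine hy (a + l).toNat (by omega) u hu ?_
      rw [← perm_nat, Int.toNat_of_nonneg (by omega), add_comm, perm_add, ← hau, perm_neg'])
    (by
      intro v hv
      rw [mem_ball_iff_norm, not_lt] at hv
      exact hE2 v hv)
    hcinj ((P ^ (l : ℤ)) ((P ^ a₀) u₀)) n₀
    (by
      have ha := ha₀
      rw [abs_le] at ha
      refine ⟨(a₀ + l).toNat, by omega, u₀, hu₀, ?_⟩
      rw [← perm_nat, Int.toNat_of_nonneg (by omega), add_comm, perm_add])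
    hn₀
    (by rw [hGlit, hper])
  refine hcl (fun u => cmp e (2 * l + 1) u - u) (hE1.mono fun _ => min_le_left _ _) ?_ u ?_ n'
    hn' ?_
  · intro u hu
    rw [hE2 u (hρ₁ρ.trans hu), sub_self]
  · rw [mem_ball_iff_norm] at hu
    exact hu.trans_le hρ₁ρ
  · have h1 : (fun v => P (v + (cmp e (2 * l + 1) v - v))) =
        fun v => P (cmp e (2 * l + 1) v) := by
      funext v
      congr 1
      abel
    rw [h1]
    exact hfin

/-! ## the manifold side -/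

theorem comp_contDiff1 {n : ℕ} {M : Type} [TopologicalSpace M] [ChartedSpace (V n) M]
    [IsManifold (𝓡 n) ∞ M] {c c' : OpenPartialHomeomorph M (V n)}
    (hc : c ∈ IsManifold.maximalAtlas (𝓡 n) ∞ M) (hct : c.target = univ)
    (hc' : c' ∈ IsManifold.maximalAtlas (𝓡 n) ∞ M)
    (H : DiffM n M 1) (hH : ∀ v, H (c.symm v) ∈ c'.source) : ContDiff ℝ 1 (c' ∘ H ∘ c.symm) := by
  have h1i : (1 : WithTop ℕ∞) ≤ ∞ := WithTop.coe_le_coe.mpr le_top
  rw [contDiff_iff_contDiffAt]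
  intro v
  have hvt : v ∈ c.target := by rw [hct]; trivial
  have h1 : ContMDiffAt (𝓡 n) (𝓡 n) 1 c.symm v :=
    ((contMDiffOn_symm_of_mem_maximalAtlas hc v hvt).contMDiffAt
      (c.open_target.mem_nhds hvt)).of_le h1i
  have h2 : ContMDiffAt (𝓡 n) (𝓡 n) 1 H (c.symm v) := H.contMDiff (c.symm v)
  have h3 : ContMDiffAt (𝓡 n) (𝓡 n) 1 c' (H (c.symm v)) :=
    ((contMDiffOn_of_mem_maximalAtlas hc' _ (hH v)).contMDiffAt
      (c'.open_source.mem_nhds (hH v))).of_le h1i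
  have h4 : ContMDiffAt (𝓡 n) (𝓡 n) 1 (c' ∘ H ∘ c.symm) v :=
    ContMDiffAt.comp v (g := c') (f := H ∘ c.symm) h3 (ContMDiffAt.comp v h2 h1)
  exact contMDiffAt_iff_contDiffAt.1 h4

/-- conjugation by a linear isomorphism -/
theorem fderiv_conj {X Y : Type} [NormedAddCommGroup X] [NormedSpace ℝ X] [NormedAddCommGroup Y]
    [NormedSpace ℝ Y] (L : X ≃L[ℝ] Y) {g : Y → Y} (hg : Differentiable ℝ g) (u : X) :
    HasFDerivAt (fun u => L.symm (g (L u)) - u)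
      ((L.symm : Y →L[ℝ] X) ∘L ((fderiv ℝ g (L u)) - ContinuousLinearMap.id ℝ Y) ∘L
        (L : X →L[ℝ] Y)) u := by
  have h1 : HasFDerivAt (fun u => L.symm (g (L u)))
      ((L.symm : Y →L[ℝ] X) ∘L (fderiv ℝ g (L u)) ∘L (L : X →L[ℝ] Y)) u :=
    (L.symm : Y →L[ℝ] X).hasFDerivAt.comp u
      ((hg (L u)).hasFDerivAt.comp u (L : X →L[ℝ] Y).hasFDerivAt)
  have h2 := h1.sub (hasFDerivAt_id u)
  refine h2.congr_fderiv ?_
  ext v
  simp

theorem norm_conj {X Y : Type} [NormedAddCommGroup X] [NormedSpace ℝ X] [NormedAddCommGroup Y]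
    [NormedSpace ℝ Y] (L : X ≃L[ℝ] Y) (A : Y →L[ℝ] Y) :
    ‖(L.symm : Y →L[ℝ] X) ∘L A ∘L (L : X →L[ℝ] Y)‖ ≤
      (1 + ‖(L.symm : Y →L[ℝ] X)‖) * (‖A‖ * (1 + ‖(L : X →L[ℝ] Y)‖)) := by
  refine (ContinuousLinearMap.opNorm_comp_le _ _).trans ?_
  refine mul_le_mul (by linarith) ?_ (norm_nonneg _) (by positivity)
  refine (ContinuousLinearMap.opNorm_comp_le _ _).trans ?_
  exact mul_le_mul_of_nonneg_left (by linarith) (norm_nonneg _)

section mani

variable {k : ℕ} {M : Type} [TopologicalSpace M] [ChartedSpace (V (5 + k)) M]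
  {c : OpenPartialHomeomorph M (V (5 + k))} {L : Tot k ≃L[ℝ] V (5 + k)}

/-- the data of the neighbourhood -/
noncomputable def data [IsManifold (𝓡 (5 + k)) ∞ M] (F : DiffM (5 + k) M ⊤)
    (hc : c ∈ IsManifold.maximalAtlas (𝓡 (5 + k)) ∞ M) (hct : c.target = univ)
    (L : Tot k ≃L[ℝ] V (5 + k)) (x : Tot k) (ρ₁ : ℝ) (l : ℕ) (ε' : ℝ) (hε' : 0 < ε') :
    StrongData (5 + k) M :=
  { ι := Fin (2 * l + 1)
    φ := fun i => ch F c ((i : ℕ) - (l : ℤ))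
    ψ := fun i => ch F c ((i : ℕ) - (l : ℤ) + 1)
    K := fun i => HH F ((i : ℕ) - (l : ℤ)) '' (jm c L '' Metric.closedBall x ρ₁)
    ε := fun _ => ε'
    φ_mem := fun _ => ch_mem F hc _
    ψ_mem := fun _ => ch_mem F hc _
    lf := locallyFinite_of_finite _
    compact := fun i => ((isCompact_closedBall _ _).image (jm_cont hct)).image
      (HH F ((i : ℕ) - (l : ℤ))).continuous
    sub := by
      rintro i _ ⟨_, ⟨u, _, rfl⟩, rfl⟩
      rw [ch_source, HH_symm, ← HH_add, neg_add_cancel, HH_zero]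
      exact jm_source hct u
    pos := fun _ => hε' }

theorem hchs (F : DiffM (5 + k) M ⊤) (hct : c.target = univ) (a : ℤ) (u : Tot k) :
    HH F a (jm c L u) ∈ (ch F c a).source := by
  rw [ch_source, HH_symm, ← HH_add, neg_add_cancel, HH_zero]
  exact jm_source hct u

theorem hchv (F : DiffM (5 + k) M ⊤) (hct : c.target = univ) (a : ℤ) (u : Tot k) :
    ch F c a (HH F a (jm c L u)) = L u := by
  rw [ch_apply, HH_symm, ← HH_add, neg_add_cancel, HH_zero, c_jm hct]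

theorem hidx (l : ℕ) (a : ℤ) (ha : |a| ≤ l) :
    ∃ i : Fin (2 * l + 1), ((i : ℕ) : ℤ) - (l : ℤ) = a := by
  rw [abs_le] at ha
  refine ⟨⟨(a + l).toNat, by omega⟩, ?_⟩
  show (((a + l).toNat : ℕ) : ℤ) - (l : ℤ) = a
  omega

theorem hFid (F : DiffM (5 + k) M ⊤) (hct : c.target = univ) (a : ℤ) (Fr : M → M)
    (hFr : ∀ y, Fr y = F y) : ch F c (a + 1) ∘ Fr ∘ (ch F c a).symm = id := by
  funext v
  show c ((HH F (a + 1)).symm (Fr (HH F a (c.symm v)))) = v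
  rw [hFr, ← HH_succ, Homeomorph.symm_apply_apply]
  exact c.right_inv (by rw [hct]; trivial)

/-- `G` near `F` has no periodic points in `W` -/
theorem mani1 [IsManifold (𝓡 (5 + k)) ∞ M] {α : ℝ} (h0 : 0 < α) (h1' : α ≤ 1)
    (F : DiffM (5 + k) M ⊤) (hc : c ∈ IsManifold.maximalAtlas (𝓡 (5 + k)) ∞ M)
    (hct : c.target = univ) (P : Equiv.Perm (Tot k)) (hjF : ∀ u, F (jm c L u) = jm c L (P u))
    (x : Tot k) (l : ℕ) (ρ₁ : ℝ) (δ₃ : ℝ)
    (hcore : ∀ Gt : Tot k → Tot k, Function.Injective Gt →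
      (∀ y, (∀ a : ℤ, |a| ≤ l → ∀ u ∈ Metric.ball x ρ₁, y ≠ (P ^ a) u) → Gt y = P y) →
      (∀ a : ℤ, |a| ≤ l → ContDiff ℝ 1 (fun u => (P ^ (-(a + 1))) (Gt ((P ^ a) u)))) →
      (∀ a : ℤ, |a| ≤ l → ∀ u ∈ Metric.closedBall x ρ₁,
        ‖(P ^ (-(a + 1))) (Gt ((P ^ a) u)) - u‖ ≤ δ₃ ∧
        ‖fderiv ℝ (fun u => (P ^ (-(a + 1))) (Gt ((P ^ a) u)) - u) u‖ ≤ δ₃) →
      (∀ a : ℤ, |a| ≤ l → ∀ u ∈ Metric.closedBall x ρ₁, ∀ u' ∈ Metric.closedBall x ρ₁,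
        ‖fderiv ℝ (fun u => (P ^ (-(a + 1))) (Gt ((P ^ a) u)) - u) u -
          fderiv ℝ (fun u => (P ^ (-(a + 1))) (Gt ((P ^ a) u)) - u) u'‖ ≤
            δ₃ * pw α ‖u - u'‖) →
      ∀ a : ℤ, |a| ≤ l → ∀ u ∈ Metric.ball x ρ₁, ∀ n : ℕ, 1 ≤ n →
        Gt^[n] ((P ^ a) u) ≠ (P ^ a) u)
    (W : Set M)
    (hW : ∀ y, y ∈ W ↔ ∃ a : ℤ, |a| ≤ l ∧ ∃ u ∈ Metric.ball x ρ₁, y = jm c L ((P ^ a) u))
    (ε' : ℝ) (hε' : 0 < ε')
    (hεδ : (1 + ‖(L.symm : V (5 + k) →L[ℝ] Tot k)‖) *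
      (ε' * (1 + ‖(L : Tot k →L[ℝ] V (5 + k))‖) ^ 2) ≤ δ₃)
    (G : DiffM (5 + k) M 1) (hG : NearA α (data F hc hct L x ρ₁ l ε' hε') F G)
    (hGU : ∀ y ∉ W, G y = F y) (y : M) (hy : y ∈ W) : ¬ IsPer G y := by
  rintro ⟨n, hn, hper⟩
  obtain ⟨a₀, ha₀, u₀, hu₀, rfl⟩ := (hW _).1 hy
  have hjs : ∀ u, jm c L u ∈ c.source := jm_source hct
  have hH := HH_jm F P hjF
  have hjall : ∀ (a : ℤ) v, jm c L v ∈ (ch F c a).source := by
    intro a v
    rw [ch_source, HH_symm, hH]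
    exact hjs _
  have hGk : ∀ a : ℤ, |a| ≤ l → ∀ u ∈ Metric.closedBall x ρ₁,
      G (HH F a (jm c L u)) ∈ (ch F c (a + 1)).source ∧
      ‖(ch F c (a + 1) ∘ G ∘ (ch F c a).symm) (L u) - L u‖ < ε' ∧
      ‖fderiv ℝ (ch F c (a + 1) ∘ G ∘ (ch F c a).symm) (L u) -
        ContinuousLinearMap.id ℝ (V (5 + k))‖ < ε' := by
    intro a ha u hu
    obtain ⟨i, hi⟩ := hidx l a ha
    subst hi
    have h1 := (hG i).1 (HH F ((i : ℕ) - (l : ℤ)) (jm c L u)) ⟨_, ⟨u, hu, rfl⟩, rfl⟩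
    have h4 : (data F hc hct L x ρ₁ l ε' hε').φ i (HH F ((i : ℕ) - (l : ℤ)) (jm c L u)) = L u :=
      hchv F hct _ u
    have h5 : inChart (data F hc hct L x ρ₁ l ε' hε') i F = id :=
      hFid F hct ((i : ℕ) - (l : ℤ)) F (fun _ => rfl)
    unfold dDiff at h1
    rw [h4, h5, fderiv_id] at h1
    exact h1
  have hGh : ∀ a : ℤ, |a| ≤ l → ∀ u ∈ Metric.closedBall x ρ₁, ∀ u' ∈ Metric.closedBall x ρ₁,
      ‖fderiv ℝ (ch F c (a + 1) ∘ G ∘ (ch F c a).symm) (L u) -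
        fderiv ℝ (ch F c (a + 1) ∘ G ∘ (ch F c a).symm) (L u')‖ ≤
          ε' * ‖L u - L u'‖ ^ α := by
    intro a ha u hu u' hu'
    obtain ⟨i, hi⟩ := hidx l a ha
    subst hi
    have h1 := (hG i).2 (HH F ((i : ℕ) - (l : ℤ)) (jm c L u)) ⟨_, ⟨u, hu, rfl⟩, rfl⟩
      (HH F ((i : ℕ) - (l : ℤ)) (jm c L u')) ⟨_, ⟨u', hu', rfl⟩, rfl⟩
    have h4 : ∀ u, (data F hc hct L x ρ₁ l ε' hε').φ i (HH F ((i : ℕ) - (l : ℤ)) (jm c L u)) =
      L u := fun u => hchv F hct _ u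
    have h5 : inChart (data F hc hct L x ρ₁ l ε' hε') i F = id :=
      hFid F hct ((i : ℕ) - (l : ℤ)) F (fun _ => rfl)
    unfold dDiff at h1
    rw [h4, h4, h5, fderiv_id, fderiv_id, sub_sub_sub_cancel_right] at h1
    exact h1
  have hGs : ∀ u, G (jm c L u) ∈ c.source := by
    intro u
    by_cases h : jm c L u ∈ W
    · obtain ⟨a, ha, v, hv, hav⟩ := (hW _).1 h
      have h1 := (hGk a ha v (Metric.ball_subset_closedBall hv)).1
      rw [hH, ← hav, ch_source] at h1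
      have h2 : G (jm c L u) = HH F (a + 1) (jm c L (L.symm (c ((HH F (a + 1)).symm
          (G (jm c L u)))))) := by
        rw [jm_c h1, Homeomorph.apply_symm_apply]
      rw [h2, hH]
      exact hjs _
    · rw [hGU _ h, hjF]
      exact hjs _
  set Gt : Tot k → Tot k := fun u => L.symm (c (G (jm c L u))) with hGt
  have hjG : ∀ u, jm c L (Gt u) = G (jm c L u) := fun u => jm_c (hGs u)
  have hGinj : Function.Injective Gt := by
    intro u u' h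
    apply jm_inj hct (L := L)
    apply G.injective
    show G (jm c L u) = G (jm c L u')
    rw [← hjG, ← hjG, h]
  -- the maps in the charts
  have hTch : ∀ (a : ℤ) u, (P ^ (-(a + 1))) (Gt ((P ^ a) u)) =
      L.symm ((ch F c (a + 1) ∘ G ∘ (ch F c a).symm) (L u)) := by
    intro a u
    have h1 : (ch F c (a + 1) ∘ G ∘ (ch F c a).symm) (L u) =
        c ((HH F (a + 1)).symm (G (HH F a (jm c L u)))) := rfl
    rw [h1, hH, ← hjG, HH_symm, hH, c_jm hct, L.symm_apply_apply]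
  have hgC : ∀ a : ℤ, ContDiff ℝ 1 (ch F c (a + 1) ∘ G ∘ (ch F c a).symm) := by
    intro a
    apply comp_contDiff1 (ch_mem F hc a) (ch_target F c hct a) (ch_mem F hc (a + 1))
    intro v
    have h1 : (ch F c a).symm v = HH F a (jm c L (L.symm v)) := by
      show HH F a (c.symm v) = HH F a (c.symm (L (L.symm v)))
      rw [L.apply_symm_apply]
    rw [h1, hH, ← hjG]
    exact hjall _ _
  have hTf : ∀ a : ℤ, (fun u => (P ^ (-(a + 1))) (Gt ((P ^ a) u))) =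
      fun u => L.symm ((ch F c (a + 1) ∘ G ∘ (ch F c a).symm) (L u)) := fun a => funext (hTch a)
  have hTf' : ∀ a : ℤ, (fun u => (P ^ (-(a + 1))) (Gt ((P ^ a) u)) - u) =
      fun u => L.symm ((ch F c (a + 1) ∘ G ∘ (ch F c a).symm) (L u)) - u := fun a =>
    funext fun u => by rw [hTch]
  have hTd : ∀ (a : ℤ) u, fderiv ℝ (fun u => (P ^ (-(a + 1))) (Gt ((P ^ a) u)) - u) u =
      (L.symm : V (5 + k) →L[ℝ] Tot k) ∘L
        ((fderiv ℝ (ch F c (a + 1) ∘ G ∘ (ch F c a).symm) (L u)) -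
          ContinuousLinearMap.id ℝ (V (5 + k))) ∘L (L : Tot k →L[ℝ] V (5 + k)) := by
    intro a u
    rw [hTf']
    exact (fderiv_conj L ((hgC a).differentiable one_ne_zero) u).fderiv
  have hbound : (1 + ‖(L.symm : V (5 + k) →L[ℝ] Tot k)‖) *
      (ε' * (1 + ‖(L : Tot k →L[ℝ] V (5 + k))‖)) ≤ δ₃ := by
    refine le_trans ?_ hεδ
    gcongr
    have := norm_nonneg (L : Tot k →L[ℝ] V (5 + k))
    nlinarith
  refine hcore Gt hGinj ?_ ?_ ?_ ?_ a₀ ha₀ u₀ hu₀ n hn ?_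
  · intro v hv
    apply jm_inj hct (L := L)
    rw [hjG, hGU, hjF]
    intro h
    obtain ⟨a, ha, w, hw, haw⟩ := (hW _).1 h
    exact hv a ha w hw (jm_inj hct haw)
  · intro a _
    rw [hTf]
    exact L.symm.contDiff.comp ((hgC a).comp L.contDiff)
  · intro a ha u hu
    obtain ⟨_, h2, h3⟩ := hGk a ha u hu
    refine ⟨?_, ?_⟩
    · rw [hTch]
      have h4 : L.symm ((ch F c (a + 1) ∘ G ∘ (ch F c a).symm) (L u)) - u =
          (L.symm : V (5 + k) →L[ℝ] Tot k)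
            ((ch F c (a + 1) ∘ G ∘ (ch F c a).symm) (L u) - L u) := by
        rw [map_sub]
        simp
      rw [h4]
      refine ((L.symm : V (5 + k) →L[ℝ] Tot k).le_opNorm _).trans (le_trans ?_ hbound)
      refine mul_le_mul (by linarith) ?_ (norm_nonneg _) (by positivity)
      have := norm_nonneg (L : Tot k →L[ℝ] V (5 + k))
      nlinarith
    · rw [hTd]
      refine (norm_conj L _).trans (le_trans ?_ hbound)
      gcongr
  · intro a ha u hu u' hu'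
    have h2 := hGh a ha u hu u' hu'
    rw [hTd, hTd, ← ContinuousLinearMap.comp_sub, ← ContinuousLinearMap.sub_comp,
      sub_sub_sub_cancel_right]
    refine (norm_conj L _).trans ?_
    have h3 : ‖L u - L u'‖ ^ α ≤ (1 + ‖(L : Tot k →L[ℝ] V (5 + k))‖) * pw α ‖u - u'‖ := by
      have h4 : ‖L u - L u'‖ ≤ (1 + ‖(L : Tot k →L[ℝ] V (5 + k))‖) * ‖u - u'‖ := by
        rw [← map_sub]
        refine ((L : Tot k →L[ℝ] V (5 + k)).le_opNorm _).trans ?_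
        gcongr
        linarith
      refine (pw_mono h0 (norm_nonneg _) h4).trans (pw_scale h1' ?_ (norm_nonneg _))
      have := norm_nonneg (L : Tot k →L[ℝ] V (5 + k))
      linarith
    calc (1 + ‖(L.symm : V (5 + k) →L[ℝ] Tot k)‖) *
        (‖fderiv ℝ (ch F c (a + 1) ∘ G ∘ (ch F c a).symm) (L u) -
          fderiv ℝ (ch F c (a + 1) ∘ G ∘ (ch F c a).symm) (L u')‖ *
            (1 + ‖(L : Tot k →L[ℝ] V (5 + k))‖))
        ≤ (1 + ‖(L.symm : V (5 + k) →L[ℝ] Tot k)‖) *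
          ((ε' * ((1 + ‖(L : Tot k →L[ℝ] V (5 + k))‖) * pw α ‖u - u'‖)) *
            (1 + ‖(L : Tot k →L[ℝ] V (5 + k))‖)) := by
          gcongr
          exact h2.trans (mul_le_mul_of_nonneg_left h3 hε'.le)
      _ = ((1 + ‖(L.symm : V (5 + k) →L[ℝ] Tot k)‖) *
          (ε' * (1 + ‖(L : Tot k →L[ℝ] V (5 + k))‖) ^ 2)) * pw α ‖u - u'‖ := by ring
      _ ≤ δ₃ * pw α ‖u - u'‖ := mul_le_mul_of_nonneg_right hεδ (pw_nonneg (norm_nonneg _))
  · apply jm_inj hct (L := L)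
    have hit : ∀ (m : ℕ) u, (G : M → M)^[m] (jm c L u) = jm c L (Gt^[m] u) := by
      intro m
      induction m with
      | zero => intro u; rfl
      | succ m ih =>
        intro u
        rw [Function.iterate_succ_apply, ← hjG, ih, Function.iterate_succ_apply]
    rw [← hit, hper]

theorem nearA_refl [IsManifold (𝓡 (5 + k)) ∞ M] {α : ℝ}
    (F : DiffM (5 + k) M ⊤) (hc : c ∈ IsManifold.maximalAtlas (𝓡 (5 + k)) ∞ M)
    (hct : c.target = univ) (x : Tot k) (l : ℕ) (ρ₁ : ℝ) (ε' : ℝ) (hε' : 0 < ε') :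
    NearA α (data F hc hct L x ρ₁ l ε' hε') F F := by
  intro (i : Fin (2 * l + 1))
  refine ⟨?_, ?_⟩
  · rintro _ ⟨_, ⟨u, _, rfl⟩, rfl⟩
    refine ⟨?_, ?_, ?_⟩
    · show F _ ∈ (ch F c ((i : ℕ) - (l : ℤ) + 1)).source
      rw [← HH_succ]
      exact hchs F hct _ u
    · rw [sub_self, norm_zero]
      exact hε'
    · unfold dDiff
      rw [sub_self, norm_zero]
      exact hε'
  · intro y _ y' _
    unfold dDiff
    rw [sub_self, sub_self, sub_self, norm_zero]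
    exact mul_nonneg hε'.le (Real.rpow_nonneg (norm_nonneg _) _)

theorem mani2 [IsManifold (𝓡 (5 + k)) ∞ M]
    (F : DiffM (5 + k) M ⊤) (hc : c ∈ IsManifold.maximalAtlas (𝓡 (5 + k)) ∞ M)
    (hct : c.target = univ) (x : Tot k) (l : ℕ) (ρ₁ : ℝ) (ε' : ℝ) (hε' : 0 < ε')
    (r : ℕ∞) (Fr : DiffM (5 + k) M r) (hr : 2 ≤ r) (hFr : ∀ y, Fr y = F y) :
    IsOpen[strongTop (5 + k) M r] (strongNbhd (data F hc hct L x ρ₁ l ε' hε') 2 Fr) ∧
      Fr ∈ strongNbhd (data F hc hct L x ρ₁ l ε' hε') 2 Fr := by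
  refine ⟨TopologicalSpace.GenerateOpen.basic _ ⟨data F hc hct L x ρ₁ l ε' hε', 2, Fr, ?_, ?_,
    rfl⟩, ?_⟩
  · exact_mod_cast hr
  · rintro (i : Fin (2 * l + 1)) _ ⟨_, ⟨u, _, rfl⟩, rfl⟩
    show Fr _ ∈ (ch F c ((i : ℕ) - (l : ℤ) + 1)).source
    rw [hFr, ← HH_succ]
    exact hchs F hct _ u
  · rintro (i : Fin (2 * l + 1)) _ ⟨_, ⟨u, _, rfl⟩, rfl⟩
    refine ⟨?_, ?_⟩
    · show Fr _ ∈ (ch F c ((i : ℕ) - (l : ℤ) + 1)).source
      rw [hFr, ← HH_succ]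
      exact hchs F hct _ u
    · intro m _
      rw [sub_self, norm_zero]
      exact hε'

theorem mani3 [IsManifold (𝓡 (5 + k)) ∞ M] {α : ℝ} (h0 : 0 < α) (h1' : α ≤ 1)
    (F : DiffM (5 + k) M ⊤) (hc : c ∈ IsManifold.maximalAtlas (𝓡 (5 + k)) ∞ M)
    (hct : c.target = univ) (P : Equiv.Perm (Tot k)) (hjF : ∀ u, F (jm c L u) = jm c L (P u))
    (x : Tot k) (l : ℕ) (ρ₁ : ℝ) (hρ1 : (1 + ‖(L : Tot k →L[ℝ] V (5 + k))‖) * (2 * ρ₁) ≤ 1)
    (W : Set M)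
    (hW : ∀ y, y ∈ W ↔ ∃ a : ℤ, |a| ≤ l ∧ ∃ u ∈ Metric.ball x ρ₁, y = jm c L ((P ^ a) u))
    (ε' : ℝ) (hε' : 0 < ε') (r : ℕ∞) (hr : 2 ≤ r) (Fr : DiffM (5 + k) M r)
    (hFr : ∀ y, Fr y = F y) (G : DiffM (5 + k) M r)
    (hG : G ∈ strongNbhd (data F hc hct L x ρ₁ l ε' hε') 2 Fr)
    (hGU : ∀ y ∉ W, G y = F y) : NearA α (data F hc hct L x ρ₁ l ε' hε') F G := by
  have hjs : ∀ u, jm c L u ∈ c.source := jm_source hct
  have hH := HH_jm F P hjF
  have hjall : ∀ (a : ℤ) v, jm c L v ∈ (ch F c a).source := by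
    intro a v
    rw [ch_source, HH_symm, hH]
    exact hjs _
  have hGs : ∀ u, G (jm c L u) ∈ c.source := by
    intro u
    by_cases h : jm c L u ∈ W
    · obtain ⟨a, ha, v, hv, hav⟩ := (hW _).1 h
      obtain ⟨i, hi⟩ := hidx l a ha
      subst hi
      have h1 := (hG i (HH F ((i : ℕ) - (l : ℤ)) (jm c L v))
        ⟨_, ⟨v, Metric.ball_subset_closedBall hv, rfl⟩, rfl⟩).1
      rw [hH, ← hav] at h1
      have h3 : (HH F ((i : ℕ) - (l : ℤ) + 1)).symm (G (jm c L u)) ∈ c.source :=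
        (ch_source F c ((i : ℕ) - (l : ℤ) + 1) _).1 h1
      have h2 : G (jm c L u) = HH F ((i : ℕ) - (l : ℤ) + 1) (jm c L (L.symm (c
          ((HH F ((i : ℕ) - (l : ℤ) + 1)).symm (G (jm c L u)))))) := by
        rw [jm_c h3, Homeomorph.apply_symm_apply]
      rw [h2, hH]
      exact hjs _
    · rw [hGU _ h, hjF]
      exact hjs _
  have hgC : ∀ a : ℤ, ContDiff ℝ 2 (ch F c (a + 1) ∘ G ∘ (ch F c a).symm) := by
    intro a
    apply comp_contDiff2 (ch_mem F hc a) (ch_target F c hct a) (ch_mem F hc (a + 1)) hr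
    intro v
    have h1 : (ch F c a).symm v = HH F a (jm c L (L.symm v)) := by
      show HH F a (c.symm v) = HH F a (c.symm (L (L.symm v)))
      rw [L.apply_symm_apply]
    have h2 := jm_c (L := L) (hGs ((P ^ a) (L.symm v)))
    rw [h1, hH, ← h2]
    exact hjall _ _
  intro (i : Fin (2 * l + 1))
  obtain ⟨a, ha⟩ : ∃ a : ℤ, a = (i : ℕ) - (l : ℤ) := ⟨_, rfl⟩
  have hKi : ∀ y, y ∈ (data F hc hct L x ρ₁ l ε' hε').K i ↔
      ∃ u ∈ Metric.closedBall x ρ₁, HH F a (jm c L u) = y := by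
    intro y
    rw [ha]
    constructor
    · rintro ⟨_, ⟨u, hu, rfl⟩, rfl⟩
      exact ⟨u, hu, rfl⟩
    · rintro ⟨u, hu, rfl⟩
      exact ⟨_, ⟨u, hu, rfl⟩, rfl⟩
  have hφi : (data F hc hct L x ρ₁ l ε' hε').φ i = ch F c a := by rw [ha]; rfl
  have hψi : (data F hc hct L x ρ₁ l ε' hε').ψ i = ch F c (a + 1) := by rw [ha]; rfl
  set d : V (5 + k) → V (5 + k) := fun v => (ch F c (a + 1) ∘ G ∘ (ch F c a).symm) v - id v
    with hd
  have hd2 : ContDiff ℝ 2 d := (hgC a).sub contDiff_id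
  have hdb : ∀ u ∈ Metric.closedBall x ρ₁, G (HH F a (jm c L u)) ∈ (ch F c (a + 1)).source ∧
      ∀ m : ℕ, m ≤ 2 → ‖iteratedFDeriv ℝ m d (L u)‖ < ε' := by
    intro u hu
    have h1 := hG i (HH F a (jm c L u)) ((hKi _).2 ⟨u, hu, rfl⟩)
    rw [hφi, hψi] at h1
    refine ⟨h1.1, ?_⟩
    intro m hm
    have h2 := h1.2 m hm
    rw [hchv F hct a u, hFid F hct a Fr hFr] at h2
    have hm' : (m : WithTop ℕ∞) ≤ 2 := by exact_mod_cast hm
    have h3 : iteratedFDeriv ℝ m d (L u) =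
        iteratedFDeriv ℝ m (ch F c (a + 1) ∘ G ∘ (ch F c a).symm) (L u) -
        iteratedFDeriv ℝ m (id : V (5 + k) → V (5 + k)) (L u) :=
      iteratedFDeriv_sub_apply (((hgC a).of_le hm').contDiffAt) (contDiff_id.contDiffAt)
    rw [h3]
    exact h2
  have hd1 : ∀ v, fderiv ℝ d v = fderiv ℝ (ch F c (a + 1) ∘ G ∘ (ch F c a).symm) v -
      ContinuousLinearMap.id ℝ (V (5 + k)) := by
    intro v
    have h7 : fderiv ℝ d v = fderiv ℝ (ch F c (a + 1) ∘ G ∘ (ch F c a).symm) v -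
        fderiv ℝ (id : V (5 + k) → V (5 + k)) v :=
      fderiv_fun_sub ((hgC a).differentiable (by norm_num) v) differentiableAt_id
    rw [h7, fderiv_id]
  have hdD : ∀ u, dDiff (data F hc hct L x ρ₁ l ε' hε') i F G (HH F a (jm c L u)) =
      fderiv ℝ d (L u) := by
    intro u
    unfold dDiff inChart
    rw [hφi, hψi, hchv F hct a u, hFid F hct a F (fun _ => rfl), fderiv_id, hd1]
  refine ⟨?_, ?_⟩
  · intro y hy
    obtain ⟨u, hu, rfl⟩ := (hKi y).1 hy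
    obtain ⟨h1, h2⟩ := hdb u hu
    refine ⟨by rw [hψi]; exact h1, ?_, ?_⟩
    · have h3 := h2 0 (by norm_num)
      rw [norm_iteratedFDeriv_zero] at h3
      unfold inChart
      rw [hφi, hψi, hchv F hct a u, hFid F hct a F (fun _ => rfl)]
      exact h3
    · rw [hdD]
      have h3 := h2 1 (by norm_num)
      rw [norm_iteratedFDeriv_one] at h3
      exact h3
  · intro y hy y' hy'
    obtain ⟨u, hu, rfl⟩ := (hKi y).1 hy
    obtain ⟨u', hu', rfl⟩ := (hKi y').1 hy'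
    rw [hdD, hdD, hφi, hchv F hct a u, hchv F hct a u']
    set S : Set (V (5 + k)) := (L : Tot k →ₗ[ℝ] V (5 + k)) '' Metric.closedBall x ρ₁ with hS
    have hconv : Convex ℝ S := (convex_closedBall x ρ₁).linear_image _
    have hfd : ContDiff ℝ 1 (fderiv ℝ d) := hd2.fderiv_right (by norm_num)
    have hbd : ∀ v ∈ S, ‖fderiv ℝ (fderiv ℝ d) v‖ ≤ ε' := by
      rintro _ ⟨w, hw, rfl⟩
      have h8 := (hdb w hw).2 2 le_rfl
      have h9 : ‖iteratedFDeriv ℝ 2 d (L w)‖ = ‖fderiv ℝ (fderiv ℝ d) (L w)‖ := by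
        rw [← norm_iteratedFDeriv_one, norm_iteratedFDeriv_fderiv]
      rw [h9] at h8
      exact h8.le
    have hmv := hconv.norm_image_sub_le_of_norm_fderiv_le (𝕜 := ℝ) (f := fderiv ℝ d)
      (fun v _ => hfd.differentiable one_ne_zero v) hbd (x := L u') (y := L u)
      ⟨u', hu', rfl⟩ ⟨u, hu, rfl⟩
    refine hmv.trans ?_
    show ε' * ‖L u - L u'‖ ≤ ε' * ‖L u - L u'‖ ^ α
    apply mul_le_mul_of_nonneg_left _ hε'.le
    apply Pool.Agent.Y640.CLA.le_pw h0 h1' (norm_nonneg _)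
    have h10 : ‖L u - L u'‖ ≤ (1 + ‖(L : Tot k →L[ℝ] V (5 + k))‖) * ‖u - u'‖ := by
      rw [← map_sub]
      refine ((L : Tot k →L[ℝ] V (5 + k)).le_opNorm _).trans ?_
      gcongr
      linarith
    have h11 : ‖u - u'‖ ≤ 2 * ρ₁ := by
      rw [mem_closedBall_iff_norm] at hu hu'
      have h12 : u - u' = (u - x) - (u' - x) := by abel
      rw [h12]
      exact (norm_sub_le _ _).trans (by linarith)
    refine h10.trans (le_trans ?_ hρ1)
    gcongr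

end mani

theorem main (α : ℝ) (h0 : 0 < α) (h1 : α ≤ 1) (hcm : S_COMPA α) (hcb : S_COMB) :
    S_MAN2A α := by
  intro k Fh Ft ρ δ hFh hFh' hRR hcomm hbij hρ hδ hrec hcl M _ _ _ _ p B hB
  obtain ⟨F, c, L, hc, hct, hcB, hFB, hF⟩ := setup k Fh Ft hFh hFh' hRR hcomm M p B hB
  set P : Equiv.Perm (Tot k) := Equiv.ofBijective Ft hbij with hP
  have hPFt : ∀ u, P u = Ft u := fun u => rfl
  have hPFt' : (P : Tot k → Tot k) = Ft := rfl
  have hjF : ∀ u, F (jm c L u) = jm c L (P u) := hF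
  have hjs : ∀ u, jm c L u ∈ c.source := jm_source hct
  have hH := HH_jm F P hjF
  have hFtc : Continuous Ft := by
    have h1 : Ft = fun u => L.symm (c (F (jm c L u))) := by
      funext u
      rw [hjF, c_jm hct, L.symm_apply_apply]
      rfl
    rw [h1]
    have h2 : Continuous (fun u => F (jm c L u)) := F.continuous.comp (jm_cont hct)
    have h3 : Continuous (fun u => c (F (jm c L u))) := by
      rw [continuous_iff_continuousAt]
      intro u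
      have h4 : F (jm c L u) ∈ c.source := by
        rw [hjF]
        exact hjs _
      exact ContinuousAt.comp (g := c) (c.continuousAt h4) h2.continuousAt
    exact L.symm.continuous.comp h3
  have hcl' : ∀ e : Tot k → Tot k, SmA α (fun _ => δ) e → (∀ u, ρ ≤ ‖u - x₀ k‖ → e u = 0) →
      ∀ u, ‖u - x₀ k‖ < ρ → ∀ n : ℕ, 1 ≤ n → (fun v => P (v + e v))^[n] u ≠ u := hcl
  have hnp : ∀ i, 1 ≤ i → Ft^[i] (x₀ k) ≠ x₀ k := by
    intro i hi
    have h1 := hcl (fun _ => 0) ⟨differentiable_const 0, fun z => by simpa using hδ.le,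
      fun z => by simpa using hδ.le, fun z z' _ => by
        simpa using mul_nonneg hδ.le (pw_nonneg (α := α) (norm_nonneg (z - z')))⟩
      (fun _ _ => rfl) (x₀ k) (by rw [sub_self, norm_zero]; exact hρ) i hi
    simpa using h1
  refine ⟨F, jm c L (x₀ k), hcB (hjs _), hFB, ?_, ?_⟩
  · intro hemb
    obtain ⟨W, hW, hW'⟩ := hemb.isInducing.isOpen_iff.mp (isOpen_discrete ({0} : Set ℤ))
    have h0 : jm c L (x₀ k) ∈ W := by
      have : (0 : ℤ) ∈ (fun m : ℤ => (F.toHomeomorph ^ m) (jm c L (x₀ k))) ⁻¹' W := by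
        rw [hW']; rfl
      simpa using this
    have h1 : ∀ᶠ v in 𝓝 (x₀ k), jm c L v ∈ W :=
      (jm_cont hct).continuousAt.eventually (hW.mem_nhds h0)
    obtain ⟨ε, hε, h2⟩ := Metric.eventually_nhds_iff.1 h1
    obtain ⟨n, hn1, hn2⟩ := hrec ε hε
    have h3 : jm c L (Ft^[n] (x₀ k)) ∈ W := h2 (by rw [dist_eq_norm]; exact hn2)
    have h4 : (n : ℤ) ∈ (fun m : ℤ => (F.toHomeomorph ^ m) (jm c L (x₀ k))) ⁻¹' W := by
      show HH F (n : ℤ) (jm c L (x₀ k)) ∈ W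
      rw [hH, perm_nat]
      exact h3
    rw [hW'] at h4
    have : (n : ℤ) = 0 := h4
    omega
  intro l
  have hA : 0 < 2 * (1 + ‖(L : Tot k →L[ℝ] V (5 + k))‖) := by positivity
  obtain ⟨ρ₁, hρ₁, hρ₁', hdis⟩ := exists_rho hFtc (x₀ k) (2 * l) (fun i h1 _ => hnp i h1)
    (ρ := min ρ (1 / (2 * (1 + ‖(L : Tot k →L[ℝ] V (5 + k))‖)))) (by positivity)
  have hρ₁ρ : ρ₁ ≤ ρ := hρ₁'.trans (min_le_left _ _)
  have hρ₁L : (1 + ‖(L : Tot k →L[ℝ] V (5 + k))‖) * (2 * ρ₁) ≤ 1 := by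
    have h2 := hρ₁'.trans (min_le_right _ _)
    rw [le_div_iff₀ hA] at h2
    linarith
  obtain ⟨W, hWdef⟩ : ∃ W : Set M, W = ⋃ (a : ℤ) (_ : |a| ≤ l),
    HH F a '' (jm c L '' Metric.ball (x₀ k) ρ₁) := ⟨_, rfl⟩
  have hWmem : ∀ y, y ∈ W ↔
      ∃ a : ℤ, |a| ≤ l ∧ ∃ u ∈ Metric.ball (x₀ k) ρ₁, y = jm c L ((P ^ a) u) := by
    intro y
    rw [hWdef, mem_iUnion]
    constructor
    · rintro ⟨a, ha⟩
      rw [mem_iUnion] at ha
      obtain ⟨ha, _, ⟨u, hu, rfl⟩, rfl⟩ := ha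
      exact ⟨a, ha, u, hu, hH a u⟩
    · rintro ⟨a, ha, u, hu, rfl⟩
      refine ⟨a, ?_⟩
      rw [mem_iUnion]
      exact ⟨ha, _, ⟨u, hu, rfl⟩, hH a u⟩
  obtain ⟨δ₃, hδ₃, hcore⟩ := coreA h0 hcm hcb P (x₀ k) ρ δ hδ hcl' l ρ₁ hρ₁ hρ₁ρ hdis
  obtain ⟨ε', hε', hεδ⟩ : ∃ ε' : ℝ, 0 < ε' ∧ (1 + ‖(L.symm : V (5 + k) →L[ℝ] Tot k)‖) *
      (ε' * (1 + ‖(L : Tot k →L[ℝ] V (5 + k))‖) ^ 2) ≤ δ₃ := by
    refine ⟨δ₃ / ((1 + ‖(L.symm : V (5 + k) →L[ℝ] Tot k)‖) *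
      (1 + ‖(L : Tot k →L[ℝ] V (5 + k))‖) ^ 2), by positivity, le_of_eq ?_⟩
    field_simp
  have hG1 := fun G hG hGU y hy => mani1 h0 h1 F hc hct P hjF (x₀ k) l ρ₁ δ₃ hcore W hWmem ε' hε'
    hεδ G hG hGU y hy
  refine ⟨W, data F hc hct L (x₀ k) ρ₁ l ε' hε', ?_, ?_, ?_, nearA_refl F hc hct _ l ρ₁ ε' hε',
    hG1, ?_⟩
  · rw [hWdef]
    exact isOpen_iUnion fun a => isOpen_iUnion fun _ =>
      (HH F a).isOpenMap _ (jm_open hct _ Metric.isOpen_ball)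
  · intro y hy
    obtain ⟨a, _, u, _, rfl⟩ := (hWmem y).1 hy
    exact hcB (hjs _)
  · intro j hj
    rw [hWmem]
    exact ⟨j, hj, x₀ k, Metric.mem_ball_self hρ₁, hH j (x₀ k)⟩
  · intro r Fr hr hFr
    obtain ⟨h2, h3⟩ := mani2 (L := L) F hc hct (x₀ k) l ρ₁ ε' hε' r Fr hr hFr
    refine ⟨h2, h3, ?_⟩
    intro G hG hGU
    have h4 := mani3 h0 h1 F hc hct P hjF (x₀ k) l ρ₁ hρ₁L W hWmem ε' hε' r hr Fr hFr G hG hGU
    have h1r : ((1 : ℕ∞) : WithTop ℕ∞) ≤ ((r : ℕ∞) : WithTop ℕ∞) :=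
      WithTop.coe_le_coe.mpr (le_trans (by norm_num) hr)
    exact hG1 ⟨G.toEquiv, G.contMDiff.of_le h1r, G.symm.contMDiff.of_le h1r⟩ h4 hGU

end Pool.Agent.H247.LC.Man2A
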