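import Pool.Agent.H247.LC.Dyn2
import Pool.Graph.R_seed8.H718R2.E1

/-!
# The base point is recurrent
-/

set_option autoImplicit false

open scoped Manifold ContDiff Topology
open Set

namespace Pool.Agent.H247.LC

open Pool.Agent.H718R2 (E Wind Sys)

theorem homeo_pow (f : E ≃ₜ E) (n : ℕ) (x : E) : (f ^ n) x = (f : E → E)^[n] x := by
  induction n generalizing x with
  | zero => simp
  | succ n ih => rw [pow_succ, Homeomorph.mul_apply, ih, Function.iterate_succ_apply]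

/-- `0` is an accumulation point of its forward orbit -/
theorem rec_small {κ θ : ℝ} (hκ : 0 < κ) (hκ' : κ ≤ 1 / 10 ^ 12) (hθ : θ = κ ^ 24)
    {om : E → ℝ} (hom : Wind κ θ om) {f : E ≃ₜ E} (hS : Sys θ om f) (δ : ℝ) (hδ : 0 < δ) :
    ∃ n : ℕ, 1 ≤ n ∧ ‖(f : E → E)^[n] 0‖ < δ := by
  obtain ⟨hp, hle⟩ := Pool.Agent.H718R2.θ_small hκ hκ' hθ
  have hθ1 : θ < 1 := by linarith [show (1:ℝ) / 10 ^ 24 < 1 by norm_num]
  obtain ⟨j, hj⟩ := exists_pow_lt_of_lt_one hδ hθ1
  obtain ⟨n, hn, hfn⟩ := Pool.Agent.H718R2.rec_zero hκ hκ' hθ hom hS j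
  refine ⟨n, hn, ?_⟩
  rw [hfn]
  have hr : 0 < Pool.Agent.H718R2.r θ j := by unfold Pool.Agent.H718R2.r; positivity
  have h1 : ‖((0, -Pool.Agent.H718R2.r θ j, Pool.Agent.H718R2.r θ j) : E)‖ ≤
      Pool.Agent.H718R2.r θ j := by
    simp [Prod.norm_def, abs_of_pos hr, hr.le]
  have h2 : Pool.Agent.H718R2.r θ j ≤ θ ^ j := by
    unfold Pool.Agent.H718R2.r; exact pow_le_pow_of_le_one hp.le hθ1.le (by omega)
  linarith

/-- labels of the orbit of `0` are exact -/
theorem exl_orbit {κ θ : ℝ} (hκ : 0 < κ) (hκ' : κ ≤ 1 / 10 ^ 12) (hθ : θ = κ ^ 24)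
    {om : E → ℝ} (hom : Wind κ θ om) {f : E → E} (hf : ContDiff ℝ 2 f) (hS : Sys θ om f)
    {n : ℕ} (hn : 1 ≤ n) (h : ‖f^[n] 0‖ ≤ θ ^ 24) : ∀ j, j < n → Exl (f^[j] (0 : E)) := by
  obtain ⟨hθ0, hθ1⟩ := Pool.Agent.H718R2.θ_small hκ hκ' hθ
  have hc : θ ^ 24 ≤ 1 / 200 :=
    (Pool.Agent.H718R2.pow_small hθ0 hθ1 (by norm_num)).trans (by norm_num)
  let Q : ℕ → E := fun i => f^[(i + (n - 1)) % n + 1] 0
  let e : ℕ → E := fun i => if i % n = 0 then -(f^[n] (0 : E)) else 0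
  have hQ0 : ∀ i, i % n = 0 → Q i = f^[n] 0 := by
    intro i hi
    show f^[(i + (n - 1)) % n + 1] 0 = _
    have : (i + (n - 1)) % n = n - 1 := by
      rw [Nat.add_mod, hi, Nat.zero_add, Nat.mod_mod, Nat.mod_eq_of_lt (by omega)]
    rw [this, Nat.sub_add_cancel hn]
  have hQ1 : ∀ i, i % n ≠ 0 → Q i = f^[i % n] 0 := by
    intro i hi
    show f^[(i + (n - 1)) % n + 1] 0 = _
    have h1 : i % n < n := Nat.mod_lt _ hn
    have : (i + (n - 1)) % n = i % n - 1 := by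
      have h2 : i + (n - 1) = (i % n - 1) + n * (i / n + 1) := by
        have := Nat.mod_add_div i n
        rw [mul_add, mul_one]
        omega
      rw [h2, Nat.add_mul_mod_self_left, Nat.mod_eq_of_lt (by omega)]
    rw [this, Nat.sub_add_cancel (by omega)]
  have hstep : ∀ i, Q (i + 1) = f (Q i + e i) := by
    intro i
    have h3 : (i + 1 + (n - 1)) % n = i % n := by
      rw [show i + 1 + (n - 1) = i + n by omega, Nat.add_mod_right]
    have h4 : Q (i + 1) = f (f^[i % n] 0) := by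
      show f^[(i + 1 + (n - 1)) % n + 1] 0 = _
      rw [h3, Function.iterate_succ_apply']
    by_cases hi : i % n = 0
    · rw [h4, hQ0 i hi]
      simp [e, hi]
    · rw [h4, hQ1 i hi]
      simp [e, hi]
  have hlab := labels hκ hκ' hθ hom hf hS Q e hstep
    (by
      intro i
      by_cases hi : i % n = 0
      · simp only [e, hi, if_true, norm_neg]; exact h
      · simp only [e, hi, if_false, norm_zero]; positivity)
    (by
      intro i hi
      by_cases hi' : i % n = 0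
      · rw [hQ0 i hi']; exact h.trans hc
      · exact absurd (by simp [e, hi']) hi)
    n hn
    (by
      intro i
      show f^[(i + n + (n - 1)) % n + 1] 0 = f^[(i + (n - 1)) % n + 1] 0
      rw [show i + n + (n - 1) = i + (n - 1) + n by ring, Nat.add_mod_right])
    (by rw [hQ0 0 (Nat.zero_mod n)]; exact h.trans hc)
  intro j hj
  rcases Nat.eq_zero_or_pos j with h0 | hpos
  · subst h0
    exact Exl_small (by simp)
  · have h5 := hlab j
    have h6 : j % n = j := Nat.mod_eq_of_lt hj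
    have h7 : Q j + e j = f^[j] 0 := by
      rw [hQ1 j (by omega), h6]
      simp [e, h6, hpos.ne']
    rw [h7] at h5
    exact h5

open Pool.Agent.H247.LC.Mod in
/-- **The base point is recurrent.** -/
theorem rec_base {κ θ : ℝ} (hκ : 0 < κ) (hκ' : κ ≤ 1 / 10 ^ 12) (hθ : θ = κ ^ 24)
    {om : E → ℝ} (hom : Wind κ θ om) {k : ℕ} {f : E ≃ₜ E} (hf : ContDiff ℝ 2 f)
    (hS : Sys θ om f) {lam : E → ℝ} (m : Mod k f lam) (ε : ℝ) (hε : 0 < ε) :
    ∃ n : ℕ, 1 ≤ n ∧ ‖m.F^[n] (x₀ k) - x₀ k‖ < ε := by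
  obtain ⟨hθ0, hθ1⟩ := Pool.Agent.H718R2.θ_small hκ hκ' hθ
  obtain ⟨n, hn, hn'⟩ := rec_small hκ hκ' hθ hom hS (min ε (θ ^ 24)) (lt_min hε (by positivity))
  have hex := exl_orbit hκ hκ' hθ hom hf hS hn (hn'.le.trans (min_le_right _ _))
  have hΨ0 : ∀ s, m.Ψ s 0 = 0 := by
    intro s
    have := m.Pin s 0 (by simp) (by simp)
    simpa using this
  have hK0 : ∀ s, m.ΨK s 0 = 0 := by
    intro s
    have := m.Kin s 0 (by simp) (by simp)
    simpa using this
  have key : ∀ j, j ≤ n → ∃ i, j ≤ i ∧ m.F^[i] (x₀ k) = ((f : E → E)^[j] 0, (0, (0, 1))) := by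
    intro j
    induction j with
    | zero => intro _; exact ⟨0, le_rfl, rfl⟩
    | succ j ih =>
      intro hj
      obtain ⟨i, hi1, hi2⟩ := ih (by omega)
      obtain ⟨l, hl1, hl2, -⟩ := m.loop (hex j (by omega)) (w' := 0) (w := 0) (φ := 0)
        (by simp) (by simp) (by simp)
      simp only [neg_zero, hΨ0, hK0, add_zero] at hl2
      refine ⟨l + i, by omega, ?_⟩
      rw [Function.iterate_add_apply, hi2, hl2, Function.iterate_succ_apply']
  obtain ⟨i, hi1, hi2⟩ := key n le_rfl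
  refine ⟨i, by omega, ?_⟩
  rw [hi2]
  have h1 : (((f : E → E)^[n] 0, (0, (0, 1))) : Tot k) - x₀ k = ((f : E → E)^[n] 0, 0) := by
    simp [x₀]
  rw [h1, Prod.norm_mk, norm_zero, max_eq_left (norm_nonneg _)]
  exact hn'.trans_le (min_le_left _ _)

end Pool.Agent.H247.LC
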