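import Pool.Agent.H247.LC.Iface3
import Pool.Graph.R_seed8.Y640.CLA.GT2

/-!
# Stabilisation in class `C^{1+α}` for perturbations supported in the unit ball
-/

set_option autoImplicit false

open scoped ContDiff Topology
open Set Filter

namespace Pool.Agent.H247.LC.StabA

open Pool.Agent.Y640.CLA

/-- `Pool.Agent.Y640.CLA.stabiliseA` with the bound `b ≤ 1/4` exported -/
theorem stabiliseA2 {E W : Type*} [NormedAddCommGroup E] [NormedSpace ℝ E]
    [NormedAddCommGroup W] [NormedSpace ℝ W] [FiniteDimensional ℝ E] [FiniteDimensional ℝ W] {α : ℝ} (hα : 0 < α) (hα1 : α ≤ 1)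
    (f : E → E) (hf : ContDiff ℝ ∞ f) (ε : E → ℝ) (hε : Continuous ε) (hε' : ∀ p, 0 < ε p) :
    ∃ (b : E → ℝ) (ε' : E → ℝ), ContDiff ℝ ∞ b ∧ (∀ p, 0 < b p) ∧ (∀ p, b p ≤ 1 / 4) ∧
      Continuous ε' ∧ (∀ p, 0 < ε' p) ∧
      ∀ g : E × W → E × W,
        SmA α (fun z => ε' z.1) (fun z => g z - (f z.1, (b z.1)⁻¹ • z.2)) →
        ∃ w : E → E, SmA α ε w ∧ ∀ z : E × W, (∃ Δ : ℝ, ∀ j, ‖(g^[j] z).2‖ ≤ Δ) →
            ∀ j, (g^[j + 1] z).1 = f (g^[j] z).1 + w (g^[j] z).1 := by
  have hcE : CompleteSpace E := FiniteDimensional.complete ℝ E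
  obtain ⟨b, hb, hb0, hb4, A, β, hloc⟩ := exists_loc f hf
  refine ⟨b, fun p => min (ε p) 1 / 16, hb, hb0, hb4, (hε.min continuous_const).div_const _,
    fun p => by have := hε' p; positivity, ?_⟩
  intro g hu'
  have hdf : Differentiable ℝ f := hf.differentiable (by simp)
  have hdb : Differentiable ℝ b := hb.differentiable (by simp)
  set u : E × W → E × W := fun z => g z - (f z.1, (b z.1)⁻¹ • z.2) with hudef
  have hu16 : SmA α (fun _ => 1 / 16) u := hu'.mono (fun z => by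
    have := min_le_right (ε z.1) 1
    simp only
    linarith)
  have hul : ∀ z z', ‖u z - u z'‖ ≤ 1 / 8 * ‖z - z'‖ := fun z z' =>
    hu16.lip (fun _ => by norm_num) z z'
  have hul2 : ∀ (p : E) (a c : W), ‖u (p, a) - u (p, c)‖ ≤ 1 / 8 * ‖a - c‖ := by
    intro p a c
    refine (hul _ _).trans ?_
    have : ‖(p, a) - (p, c)‖ = ‖a - c‖ := by
      rw [Prod.mk_sub_mk, sub_self, Prod.norm_mk, norm_zero, max_eq_right (norm_nonneg _)]
    rw [this]
  have hspec : ∀ N, HA α (hsA f b u N) := by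
    intro N
    induction N with
    | zero =>
      have e : hsA f b u 0 = fun _ => (0 : W) := rfl
      rw [e]
      refine ⟨differentiable_const _, fun p => by simp, fun p => ?_, fun p q => ?_⟩
      · simp
      · simp only [fderiv_fun_const, Pi.zero_apply, sub_self, norm_zero]
        exact pw_nonneg (norm_nonneg _)
    | succ N ih => exact gt_HA hα hα1 hdf hdb hloc hu16 ih
  -- the graph transform contracts
  have hcau : ∀ N p, ‖hsA f b u (N + 1) p - hsA f b u N p‖ ≤ (1 / 2) ^ N := by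
    intro N
    induction N with
    | zero =>
      intro p
      have e0 : hsA f b u 0 p = 0 := rfl
      rw [e0, sub_zero, pow_zero]
      exact ((hspec 1).b0 p).trans (by norm_num)
    | succ N ih =>
      intro p
      set h := hsA f b u (N + 1) with hh
      set k := hsA f b u N with hk
      have e1 : hsA f b u (N + 1 + 1) p = gtA f b u h p := rfl
      have e2 : h p = gtA f b u k p := rfl
      have key : hsA f b u (N + 1 + 1) p - h p = b p •
          ((h (f p + (u (p, h p)).1) - k (f p + (u (p, h p)).1)) +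
            (k (f p + (u (p, h p)).1) - k (f p + (u (p, k p)).1)) -
            ((u (p, h p)).2 - (u (p, k p)).2)) := by
        rw [e1]
        conv_lhs => rw [e2]
        unfold gtA
        rw [← smul_sub]
        congr 1
        abel
      rw [key, norm_smul, Real.norm_of_nonneg (hb0 p).le]
      have a0 := hul2 p (h p) (k p)
      have aih := ih p
      have a1 : ‖(u (p, h p)).1 - (u (p, k p)).1‖ ≤ 1 / 8 * ‖h p - k p‖ := (norm_fst_le _).trans a0
      have a2 : ‖(u (p, h p)).2 - (u (p, k p)).2‖ ≤ 1 / 8 * ‖h p - k p‖ := (norm_snd_le _).trans a0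
      have a3 : ‖k (f p + (u (p, h p)).1) - k (f p + (u (p, k p)).1)‖ ≤ 1 / 8 * ‖h p - k p‖ := by
        refine ((hspec N).lip _ _).trans ?_
        rw [add_sub_add_left_eq_sub]
        have := norm_nonneg ((u (p, h p)).1 - (u (p, k p)).1)
        linarith
      have a4 := ih (f p + (u (p, h p)).1)
      have hD0 : 0 < ((1:ℝ) / 2) ^ N := by positivity
      have a5 : ‖(h (f p + (u (p, h p)).1) - k (f p + (u (p, h p)).1)) +
            (k (f p + (u (p, h p)).1) - k (f p + (u (p, k p)).1)) -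
            ((u (p, h p)).2 - (u (p, k p)).2)‖ ≤ 2 * (1 / 2) ^ N := by
        refine (norm_sub_le _ _).trans ?_
        have := norm_add_le (h (f p + (u (p, h p)).1) - k (f p + (u (p, h p)).1))
          (k (f p + (u (p, h p)).1) - k (f p + (u (p, k p)).1))
        linarith
      calc b p * _ ≤ 1 / 4 * (2 * (1 / 2) ^ N) := by
            have := hb4 p
            have := (hb0 p).le
            gcongr
        _ = (1 / 2) ^ (N + 1) := by ring
  set v : ℕ → E → E := fun N p => (u (p, hsA f b u N p)).1 with hvdef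
  have hvb : ∀ N, SmA α (fun p => 2 * (min (ε p) 1 / 16)) (v N) := fun N =>
    (graph_SmA (δ := fun p => min (ε p) 1 / 16) hu' (hspec N)).clm (ContinuousLinearMap.fst ℝ E W)
      (ContinuousLinearMap.norm_fst_le ℝ E W)
  obtain ⟨w, hw, hvw⟩ := lim_A hα (fun p => by
      have := min_le_right (ε p) 1
      linarith) v hvb (A := 1 / 8) (by norm_num) (by
      intro N p
      have h1 : ‖v (N + 1) p - v N p‖ ≤ ‖u (p, hsA f b u (N + 1) p) - u (p, hsA f b u N p)‖ :=
        norm_fst_le (u (p, hsA f b u (N + 1) p) - u (p, hsA f b u N p))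
      refine h1.trans ((hul2 _ _ _).trans ?_)
      exact mul_le_mul_of_nonneg_left (hcau N p) (by norm_num))
  refine ⟨w, hw.mono (fun p => by
    have := min_le_left (ε p) 1
    have := hε' p
    linarith), ?_⟩
  rintro z ⟨Δ, hΔ⟩ j
  set Z : ℕ → E × W := fun j => g^[j] z with hZdef
  have hZs : ∀ j, Z (j + 1) = g (Z j) := fun j => Function.iterate_succ_apply' g j z
  have e1 : ∀ j, (Z (j + 1)).1 = f (Z j).1 + (u ((Z j).1, (Z j).2)).1 := by
    intro j
    rw [hZs]
    simp [hudef]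
  have e2 : ∀ j, (Z j).2 = b (Z j).1 • ((Z (j + 1)).2 - (u ((Z j).1, (Z j).2)).2) := by
    intro j
    rw [hZs]
    simp only [hudef, Prod.snd_sub, sub_sub_cancel]
    rw [smul_smul, mul_inv_cancel₀ (hb0 _).ne', one_smul]
  have hΔ0 : 0 ≤ Δ := (norm_nonneg _).trans (hΔ 0)
  have hcon : ∀ N : ℕ, ∀ j, ‖(Z j).2 - hsA f b u N (Z j).1‖ ≤ Δ * (1 / 2) ^ N := by
    intro N
    induction N with
    | zero =>
      intro j
      have : hsA f b u 0 (Z j).1 = 0 := rfl
      rw [this, sub_zero, pow_zero, mul_one]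
      exact hΔ j
    | succ N ih =>
      intro j
      set h := hsA f b u N with hh
      set p := (Z j).1 with hp
      set p' := (Z (j + 1)).1 with hp'
      set w₀ := (Z j).2 with hw₀
      set w₁ := (Z (j + 1)).2 with hw₁
      set D : ℝ := Δ * (1 / 2) ^ N with hD
      have hD0 : 0 ≤ D := by positivity
      have i1 : ‖w₀ - h p‖ ≤ D := ih j
      have i2 : ‖w₁ - h p'‖ ≤ D := ih (j + 1)
      have f1 : p' = f p + (u (p, w₀)).1 := e1 j
      have f2 : w₀ = b p • (w₁ - (u (p, w₀)).2) := e2 j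
      have a0 : ‖u (p, w₀) - u (p, h p)‖ ≤ 1 / 8 * D :=
        (hul2 _ _ _).trans (mul_le_mul_of_nonneg_left i1 (by norm_num))
      have a1 : ‖(u (p, w₀)).1 - (u (p, h p)).1‖ ≤ 1 / 8 * D := (norm_fst_le _).trans a0
      have a2 : ‖(u (p, w₀)).2 - (u (p, h p)).2‖ ≤ 1 / 8 * D := (norm_snd_le _).trans a0
      have a3 : ‖h p' - h (f p + (u (p, h p)).1)‖ ≤ 1 / 8 * D := by
        refine ((hspec N).lip _ _).trans ?_
        rw [f1, add_sub_add_left_eq_sub]
        have := norm_nonneg ((u (p, w₀)).1 - (u (p, h p)).1)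
        linarith
      have key : w₀ - hsA f b u (N + 1) p = b p • ((w₁ - h p') + (h p' - h (f p + (u (p, h p)).1)) -
          ((u (p, w₀)).2 - (u (p, h p)).2)) := by
        have e0 : hsA f b u (N + 1) p = gtA f b u h p := rfl
        rw [e0]
        conv_lhs => rw [f2]
        unfold gtA
        rw [← smul_sub]
        congr 1
        abel
      change ‖w₀ - hsA f b u (N + 1) p‖ ≤ _
      rw [key, norm_smul, Real.norm_of_nonneg (hb0 p).le]
      have a5 : ‖(w₁ - h p') + (h p' - h (f p + (u (p, h p)).1)) -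
          ((u (p, w₀)).2 - (u (p, h p)).2)‖ ≤ 2 * D := by
        refine (norm_sub_le _ _).trans ?_
        have := norm_add_le (w₁ - h p') (h p' - h (f p + (u (p, h p)).1))
        linarith
      calc b p * _ ≤ 1 / 4 * (2 * D) := by
            have := hb4 p
            have := (hb0 p).le
            gcongr
        _ = Δ * (1 / 2) ^ (N + 1) := by rw [hD]; ring
  have hlim : Tendsto (fun N => hsA f b u N (Z j).1) atTop (𝓝 (Z j).2) := by
    rw [tendsto_iff_norm_sub_tendsto_zero]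
    have ht : Tendsto (fun N : ℕ => Δ * (1 / 2 : ℝ) ^ N) atTop (𝓝 (Δ * 0)) :=
      (tendsto_pow_atTop_nhds_zero_of_lt_one (by norm_num) (by norm_num)).const_mul Δ
    rw [mul_zero] at ht
    refine squeeze_zero (fun _ => norm_nonneg _) (fun N => ?_) ht
    rw [norm_sub_rev]
    exact hcon N j
  have hlim2 : Tendsto (fun N => v N (Z j).1) atTop (𝓝 (u ((Z j).1, (Z j).2)).1) := by
    have hc : Continuous fun y : W => (u ((Z j).1, y)).1 :=
      (hu'.diff.continuous.comp (by fun_prop)).fst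
    exact (hc.tendsto _).comp hlim
  have hww' := tendsto_nhds_unique (hvw (Z j).1) hlim2
  change (Z (j + 1)).1 = f (Z j).1 + w (Z j).1
  rw [hww']
  exact e1 j


/-- composition with the fibre map, for perturbations supported in the unit ball -/
theorem comp_SmA {X : Type*} [NormedAddCommGroup X] [NormedSpace ℝ X] [FiniteDimensional ℝ X]
    {α : ℝ} (hα : 0 < α) (hα1 : α ≤ 1) {F : X → X} (hF : ContDiff ℝ ∞ F) {Q : Set X}
    (hQ : IsCompact Q) (hmem : ∀ z, ‖F z‖ ≤ 1 → z ∈ Q) {ε : X → ℝ} (hε : Continuous ε)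
    (hε0 : ∀ z, 0 < ε z) :
    ∃ δ : ℝ, 0 < δ ∧ ∀ e : X → X, SmA α (fun _ => δ) e → (∀ z, 1 ≤ ‖z‖ → e z = 0) →
      SmA α ε (fun z => e (F z)) := by
  have hprop : ProperSpace X := FiniteDimensional.proper_real X
  obtain ⟨R, hR⟩ := hQ.isBounded.subset_closedBall (0 : X)
  set B : Set X := Metric.closedBall 0 (R + 1) with hB
  have hBc : IsCompact B := isCompact_closedBall _ _
  have hBconv : Convex ℝ B := convex_closedBall _ _
  have hFd : Differentiable ℝ F := hF.differentiable (by simp)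
  have hF1 : ContDiff ℝ ∞ (fderiv ℝ F) := hF.fderiv_right (m := ∞) (by simp)
  have hFdd : Differentiable ℝ (fderiv ℝ F) := hF1.differentiable (by simp)
  have hF2 : Continuous (fderiv ℝ (fderiv ℝ F)) :=
    (hF1.fderiv_right (m := ∞) (by simp)).continuous
  obtain ⟨C1, hC1⟩ := hBc.exists_bound_of_continuousOn hF1.continuous.continuousOn
  obtain ⟨C2, hC2⟩ := hBc.exists_bound_of_continuousOn hF2.continuousOn
  set C : ℝ := max 1 (max C1 C2) with hC
  have hC1' : 1 ≤ C := le_max_left _ _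
  have hD1 : ∀ z ∈ B, ‖fderiv ℝ F z‖ ≤ C := fun z hz =>
    (hC1 z hz).trans ((le_max_left _ _).trans (le_max_right _ _))
  have hD2 : ∀ z ∈ B, ‖fderiv ℝ (fderiv ℝ F) z‖ ≤ C := fun z hz =>
    (hC2 z hz).trans ((le_max_right _ _).trans (le_max_right _ _))
  obtain ⟨c, hc, hcB⟩ : ∃ c : ℝ, 0 < c ∧ ∀ p ∈ B, c ≤ ε p := by
    rcases B.eq_empty_or_nonempty with h | h
    · exact ⟨1, one_pos, by simp [h]⟩
    · obtain ⟨p, hp, hmin⟩ := hBc.exists_isMinOn h hε.continuousOn
      exact ⟨ε p, hε0 p, fun q hq => hmin hq⟩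
  have hQB : ∀ z ∈ Q, z ∈ B := fun z hz =>
    Metric.closedBall_subset_closedBall (by linarith) (hR hz)
  have hQB1 : ∀ z ∈ Q, ∀ z' : X, ‖z - z'‖ ≤ 1 → z' ∈ B := by
    intro z hz z' h
    have h1 := hR hz
    rw [mem_closedBall_zero_iff] at h1
    rw [hB, mem_closedBall_zero_iff]
    have : z' = z - (z - z') := by abel
    rw [this]
    exact (norm_sub_le _ _).trans (by linarith)
  refine ⟨c / (4 * C ^ 2), by positivity, ?_⟩
  intro e he hes
  set δ : ℝ := c / (4 * C ^ 2) with hδ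
  have hδ0 : 0 < δ := by positivity
  have hδC : 4 * δ * C ^ 2 = c := by
    rw [hδ]; field_simp
  have hCC : C ≤ C ^ 2 := by nlinarith
  have hδc : δ * C ≤ c := by
    have : δ * C ≤ δ * C ^ 2 := mul_le_mul_of_nonneg_left hCC hδ0.le
    have : 0 ≤ δ * C ^ 2 := by positivity
    linarith
  have hδc' : δ ≤ c := by
    have : δ * 1 ≤ δ * C := mul_le_mul_of_nonneg_left hC1' hδ0.le
    linarith
  -- the derivative
  have hder : ∀ z, HasFDerivAt (fun z => e (F z)) ((fderiv ℝ e (F z)).comp (fderiv ℝ F z)) z :=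
    fun z => (he.diff (F z)).hasFDerivAt.comp z (hFd z).hasFDerivAt
  have hoff : ∀ y : X, 1 < ‖y‖ → fderiv ℝ e y = 0 := by
    intro y hy
    have h1 : e =ᶠ[𝓝 y] fun _ => 0 := by
      have h3 : ∀ᶠ x in 𝓝 y, 1 < ‖x‖ :=
        (continuous_norm.tendsto y).eventually (lt_mem_nhds hy)
      exact h3.mono fun x hx => hes _ hx.le
    rw [h1.fderiv_eq]
    simp
  have key : ∀ z z', z ∈ B → z' ∈ B → ‖z - z'‖ ≤ 1 →
      ‖(fderiv ℝ e (F z)).comp (fderiv ℝ F z) - (fderiv ℝ e (F z')).comp (fderiv ℝ F z')‖ ≤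
        c * pw α ‖z - z'‖ := by
    intro z z' hz hz' hzz
    set P := pw α ‖z - z'‖ with hP
    have hP0 : 0 ≤ P := pw_nonneg (norm_nonneg _)
    have htP : ‖z - z'‖ ≤ P := le_pw hα hα1 (norm_nonneg _) hzz
    have hFl : ‖F z - F z'‖ ≤ C * ‖z - z'‖ :=
      hBconv.norm_image_sub_le_of_norm_fderiv_le (𝕜 := ℝ) (fun y _ => hFd y) hD1 hz' hz
    have hFFl : ‖fderiv ℝ F z - fderiv ℝ F z'‖ ≤ C * ‖z - z'‖ :=
      hBconv.norm_image_sub_le_of_norm_fderiv_le (𝕜 := ℝ) (fun y _ => hFdd y) hD2 hz' hz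
    have hpC : pw α ‖F z - F z'‖ ≤ C * P :=
      (pw_mono hα (norm_nonneg _) hFl).trans (pw_scale hα1 hC1' (norm_nonneg _))
    have h1 : ‖fderiv ℝ e (F z) - fderiv ℝ e (F z')‖ ≤ 2 * δ * (C * P) := by
      rcases le_or_gt ‖F z - F z'‖ 1 with h | h
      · refine (he.b2 _ _ h).trans ?_
        have := mul_le_mul_of_nonneg_left hpC hδ0.le
        have h0 : 0 ≤ δ * (C * P) := by positivity
        linarith
      · refine (norm_sub_le _ _).trans ?_
        have a1 := he.b1 (F z)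
        have a2 := he.b1 (F z')
        have a3 : 1 ≤ pw α ‖F z - F z'‖ := Real.one_le_rpow h.le hα.le
        have a4 : 2 * δ * 1 ≤ 2 * δ * (C * P) :=
          mul_le_mul_of_nonneg_left (a3.trans hpC) (by positivity)
        linarith
    have e1 : (fderiv ℝ e (F z)).comp (fderiv ℝ F z) - (fderiv ℝ e (F z')).comp (fderiv ℝ F z') =
        (fderiv ℝ e (F z) - fderiv ℝ e (F z')).comp (fderiv ℝ F z) +
          (fderiv ℝ e (F z')).comp (fderiv ℝ F z - fderiv ℝ F z') := by
      ext v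
      simp
    rw [e1]
    refine (norm_add_le _ _).trans ?_
    have b1 : ‖(fderiv ℝ e (F z) - fderiv ℝ e (F z')).comp (fderiv ℝ F z)‖ ≤
        2 * δ * (C * P) * C :=
      (ContinuousLinearMap.opNorm_comp_le _ _).trans
        (mul_le_mul h1 (hD1 z hz) (norm_nonneg _) (by positivity))
    have b2 : ‖(fderiv ℝ e (F z')).comp (fderiv ℝ F z - fderiv ℝ F z')‖ ≤ δ * (C * ‖z - z'‖) :=
      (ContinuousLinearMap.opNorm_comp_le _ _).trans
        (mul_le_mul (he.b1 _) hFFl (norm_nonneg _) hδ0.le)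
    have b3 : δ * (C * ‖z - z'‖) ≤ δ * (C ^ 2 * P) := by
      refine mul_le_mul_of_nonneg_left ?_ hδ0.le
      exact mul_le_mul hCC htP (norm_nonneg _) (by positivity)
    have b4 : 0 ≤ δ * (C ^ 2 * P) := by positivity
    rw [← hδC]
    have b5 : 2 * δ * (C * P) * C = 2 * (δ * (C ^ 2 * P)) := by ring
    have b6 : 4 * δ * C ^ 2 * P = 4 * (δ * (C ^ 2 * P)) := by ring
    rw [b6]
    linarith
  refine ⟨fun z => (hder z).differentiableAt, fun z => ?_, fun z => ?_, fun z z' hzz => ?_⟩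
  · rcases le_or_gt ‖F z‖ 1 with h | h
    · exact (he.b0 _).trans (hδc'.trans (hcB z (hQB z (hmem z h))))
    · rw [hes _ h.le, norm_zero]
      exact (hε0 z).le
  · rw [(hder z).fderiv]
    rcases le_or_gt ‖F z‖ 1 with h | h
    · have hzB := hQB z (hmem z h)
      refine (ContinuousLinearMap.opNorm_comp_le _ _).trans ?_
      exact (mul_le_mul (he.b1 _) (hD1 z hzB) (norm_nonneg _) hδ0.le).trans
        (hδc.trans (hcB z hzB))
    · rw [hoff _ h, ContinuousLinearMap.zero_comp, norm_zero]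
      exact (hε0 z).le
  · rw [(hder z).fderiv, (hder z').fderiv]
    have hP0 : 0 ≤ pw α ‖z - z'‖ := pw_nonneg (norm_nonneg _)
    by_cases h : ‖F z‖ ≤ 1 ∨ ‖F z'‖ ≤ 1
    · have hz : z ∈ B ∧ z' ∈ B := by
        rcases h with h | h
        · exact ⟨hQB z (hmem z h), hQB1 z (hmem z h) z' hzz⟩
        · exact ⟨hQB1 z' (hmem z' h) z (by rwa [norm_sub_rev]), hQB z' (hmem z' h)⟩
      exact (key z z' hz.1 hz.2 hzz).trans (mul_le_mul_of_nonneg_right (hcB z hz.1) hP0)
    · push Not at h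
      rw [hoff _ h.1, hoff _ h.2, ContinuousLinearMap.zero_comp, ContinuousLinearMap.zero_comp,
        sub_self, norm_zero]
      exact mul_nonneg (hε0 z).le hP0

theorem main (α : ℝ) (h0 : 0 < α) (h1 : α ≤ 1) : Pool.Agent.H247.LC.S_STABA α := by
  intro W _ _ _ f hf hfs hN
  obtain ⟨ε, hε, hε0, hNP⟩ := hN
  obtain ⟨b, ε', hb, hb0, hb4, hε', hε'0, hst⟩ := stabiliseA2 (W := W) h0 h1 f hf ε hε hε0
  set F : Pool.Agent.H718R2.E × W → Pool.Agent.H718R2.E × W :=
    fun z => (f z.1, (b z.1)⁻¹ • z.2) with hFdef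
  have hF : ContDiff ℝ ∞ F := by
    refine (hf.comp contDiff_fst).prodMk (ContDiff.smul ?_ contDiff_snd)
    exact (hb.comp contDiff_fst).inv (fun z => (hb0 z.1).ne')
  -- the compact set
  set K : Set Pool.Agent.H718R2.E := f.symm '' Metric.closedBall 0 1 with hK
  have hKc : IsCompact K := (isCompact_closedBall _ _).image f.symm.continuous
  have hWp : ProperSpace W := FiniteDimensional.proper_real W
  set Q : Set (Pool.Agent.H718R2.E × W) := K ×ˢ Metric.closedBall 0 1 with hQ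
  have hQc : IsCompact Q := hKc.prod (isCompact_closedBall _ _)
  have hmemQ : ∀ z, ‖F z‖ ≤ 1 → z ∈ Q := by
    intro z hz
    have h1 : ‖f z.1‖ ≤ 1 := (norm_fst_le (F z)).trans hz
    have h2 : ‖(b z.1)⁻¹ • z.2‖ ≤ 1 := (norm_snd_le (F z)).trans hz
    refine ⟨⟨f z.1, by simpa using h1, by simp⟩, ?_⟩
    rw [mem_closedBall_zero_iff]
    rw [norm_smul, norm_inv, Real.norm_of_nonneg (hb0 _).le, inv_mul_le_iff₀ (hb0 _)] at h2
    have := hb4 z.1
    linarith
  obtain ⟨δ, hδ, hcomp⟩ := comp_SmA h0 h1 hF hQc hmemQ (ε := fun z => ε' z.1)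
    (hε'.comp continuous_fst) (fun z => hε'0 z.1)
  refine ⟨b, δ, hb, hb0, hb4, hδ, ?_⟩
  intro e he hes k hk z hz
  -- conjugate
  set g : Pool.Agent.H718R2.E × W → Pool.Agent.H718R2.E × W := fun z => F z + e (F z) with hg
  have hu : SmA α (fun z => ε' z.1) (fun z => g z - (f z.1, (b z.1)⁻¹ • z.2)) := by
    have : (fun z : Pool.Agent.H718R2.E × W => g z - (f z.1, (b z.1)⁻¹ • z.2)) =
        fun z => e (F z) := by
      funext z
      simp only [hg, hFdef, add_sub_cancel_left]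
    rw [this]
    exact hcomp e he hes
  obtain ⟨w, hw, hwo⟩ := hst g hu
  set y : Pool.Agent.H718R2.E × W := z + e z with hy
  have hper : g^[k] y = y := by
    have hsemi : Function.Semiconj (fun z => z + e z)
        (fun z : Pool.Agent.H718R2.E × W => (f (z + e z).1, (b (z + e z).1)⁻¹ • (z + e z).2))
        g := fun z => rfl
    have h1 := (hsemi.iterate_right k).eq z
    rw [hz] at h1
    exact h1.symm
  have hmod : ∀ j, g^[j % k] y = g^[j] y := fun j =>
    Function.IsPeriodicPt.iterate_mod_apply (f := g) (n := k) (x := y) hper j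
  have hbd : ∃ Δ : ℝ, ∀ j, ‖(g^[j] y).2‖ ≤ Δ := by
    refine ⟨∑ j ∈ Finset.range k, ‖(g^[j] y).2‖, fun j => ?_⟩
    rw [← hmod j]
    exact Finset.single_le_sum (f := fun j => ‖(g^[j] y).2‖) (fun _ _ => norm_nonneg _)
      (Finset.mem_range.2 (Nat.mod_lt _ hk))
  have horb := hwo y hbd
  refine hNP w hw (Set.range fun j : ℕ => (g^[j] y).1) ?_ ⟨_, ⟨0, rfl⟩⟩ ?_
  · refine Set.Finite.subset ((Finset.range k).image fun j => (g^[j] y).1).finite_toSet ?_
    rintro _ ⟨j, rfl⟩
    rw [Finset.mem_coe, Finset.mem_image]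
    exact ⟨j % k, Finset.mem_range.2 (Nat.mod_lt _ hk), by rw [hmod]⟩
  · rintro _ ⟨j, rfl⟩
    exact ⟨j + 1, horb j⟩

end Pool.Agent.H247.LC.StabA
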